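import Pool.Agent.Lib.MP_d7cc7c_an.Lower

/-!
# Plurisubharmonicity of the lowest order polynomial
-/

set_option linter.unusedSectionVars false

namespace Pool.Agent.Lib.MP_d7cc7c_an

open NS MvPolynomial ComplexConjugate ComplexOrder Filter Topology Asymptotics
open scoped ContDiff

section Curve

variable {r n : ℕ} (p : Fin n → ℂ) (a : Fin r → Fin n → Sm n)

/-- the curve attached to a series -/
noncomputable def cur (N : ℕ) (h : NS (Lt r) ℂ) (t : ℝ) : Fin n → ℂ := fun k =>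
  p k + (PowerSeries.trunc (N + 1) ((jd p a).A h (zS p k))).eval (t : ℂ)

/-- the vector field along the curve attached to a series -/
noncomputable def vel (N : ℕ) (u : NS (Lt r) ℂ) (t : ℝ) : Fin n → ℂ := fun k =>
  (PowerSeries.trunc (N + 1) ((jd p a).A u (zS p k))).eval (t : ℂ)

theorem coeff_zero_A_zS (h : NS (Lt r) ℂ) (k : Fin n) :
    PowerSeries.coeff 0 ((jd p a).A h (zS p k)) = 0 := (jd p a).A_zz_zero h (k, false)

theorem eval_trunc_zero (N : ℕ) (A : PowerSeries ℂ) :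
    (PowerSeries.trunc (N + 1) A).eval (((0 : ℝ) : ℂ)) = PowerSeries.coeff 0 A := by
  rw [Complex.ofReal_zero, ← Polynomial.coeff_zero_eq_eval_zero, PowerSeries.coeff_trunc,
    if_pos (by omega)]

theorem cur_zero (N : ℕ) (h : NS (Lt r) ℂ) : cur p a N h 0 = p := by
  funext k
  rw [cur, eval_trunc_zero, coeff_zero_A_zS, add_zero]

theorem hasDerivAt_cur (N : ℕ) (h : NS (Lt r) ℂ) (t : ℝ) :
    HasDerivAt (cur p a N h) (fun k => (Polynomial.derivative
      (PowerSeries.trunc (N + 1) ((jd p a).A h (zS p k)))).eval (t : ℂ)) t := by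
  rw [hasDerivAt_pi]
  intro k
  exact (hasDerivAt_poly_real _ t).const_add _

theorem continuous_cur (N : ℕ) (h : NS (Lt r) ℂ) : Continuous (cur p a N h) :=
  continuous_iff_continuousAt.2 fun t => (hasDerivAt_cur p a N h t).continuousAt

theorem hasDerivAt_comp_cur (N : ℕ) (h : NS (Lt r) ℂ) (F : Sm n) (t : ℝ) :
    HasDerivAt (fun t => (F : (Fin n → ℂ) → ℂ) (cur p a N h t))
      (∑ k, ((Polynomial.derivative
        (PowerSeries.trunc (N + 1) ((jd p a).A h (zS p k)))).eval (t : ℂ) *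
          (wir (k, false) F : (Fin n → ℂ) → ℂ) (cur p a N h t) +
        conj ((Polynomial.derivative
        (PowerSeries.trunc (N + 1) ((jd p a).A h (zS p k)))).eval (t : ℂ)) *
          (wir (k, true) F : (Fin n → ℂ) → ℂ) (cur p a N h t))) t := by
  have h1 := ((smd F (cur p a N h t)).hasFDerivAt).comp_hasDerivAt t (hasDerivAt_cur p a N h t)
  refine HasDerivAt.congr_deriv h1 ?_
  rw [fderiv_wir]

theorem dX_Rh (h : NS (Lt r) ℂ) (F : Sm n) : dX ((jd p a).Rh h F) =
    ∑ k, (dX ((jd p a).A h (zS p k)) * (jd p a).Rh h (wir (k, false) F) +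
      PowerSeries.map (starRingEnd ℂ) (dX ((jd p a).A h (zS p k))) *
        (jd p a).Rh h (wir (k, true) F)) := by
  apply mul_left_cancel₀ (PowerSeries.X_ne_zero : (PowerSeries.X : PowerSeries ℂ) ≠ 0)
  rw [X_mul_dX, (jd p a).th_Rh, JD.sum_fin_bool, Finset.mul_sum, ← Finset.sum_add_distrib]
  refine Finset.sum_congr rfl fun k _ => ?_
  rw [JD.map_Ps_true, JD.map_Ps_false]
  have h1 : th (PowerSeries.map (starRingEnd ℂ) ((jd p a).A h ((jd p a).zc k))) =
      PowerSeries.X * PowerSeries.map (starRingEnd ℂ) (dX ((jd p a).A h (zS p k))) := by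
    rw [th_map, ← X_mul_dX, map_mul, PowerSeries.map_X]; rfl
  rw [h1, ← X_mul_dX]
  show PowerSeries.X * PowerSeries.map (starRingEnd ℂ) (dX ((jd p a).A h (zS p k))) *
    (jd p a).Rh h (wir (k, true) F) + PowerSeries.X * dX ((jd p a).A h (zS p k)) *
    (jd p a).Rh h (wir (k, false) F) = _
  ring

/-- expansion of smooth functions along the curve -/
theorem hasExp_cur (N : ℕ) (h : NS (Lt r) ℂ) : ∀ M ≤ N, ∀ F : Sm n,
    HasExp M (fun t => (F : (Fin n → ℂ) → ℂ) (cur p a N h t)) ((jd p a).Rh h F) := by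
  intro M
  induction M with
  | zero =>
    intro _ F
    have h1 : (fun t => (F : (Fin n → ℂ) → ℂ) (cur p a N h t) -
        (F : (Fin n → ℂ) → ℂ) (cur p a N h 0)) =O[𝓝 0] (fun t : ℝ => t - 0) :=
      (hasDerivAt_comp_cur p a N h F 0).differentiableAt.isBigO_sub
    rw [HasExp]
    have h2 : ∀ t : ℝ, (PowerSeries.trunc (0 + 1) ((jd p a).Rh h F)).eval (t : ℂ) =
        (F : (Fin n → ℂ) → ℂ) (cur p a N h 0) := by
      intro t
      have h3 : PowerSeries.trunc (0 + 1) ((jd p a).Rh h F) =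
          Polynomial.C (PowerSeries.coeff 0 ((jd p a).Rh h F)) := by
        ext j
        rw [PowerSeries.coeff_trunc, Polynomial.coeff_C]
        by_cases hj : j = 0
        · subst hj; simp
        · rw [if_neg (by omega), if_neg hj]
      rw [h3, Polynomial.eval_C, JD.coeff_zero_Rh, cur_zero]; rfl
    simp only [h2, zero_add, pow_one]
    simpa using h1
  | succ M ih =>
    intro hM F
    obtain ⟨N', rfl⟩ : ∃ N', N = N' + 1 := ⟨N - 1, by omega⟩
    have hM' : M ≤ N' := by omega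
    refine HasExp.integ (hasDerivAt_comp_cur p a (N' + 1) h F) ?_ ?_
    · rw [dX_Rh]
      apply HasExp.sum
      intro k _
      have h1 : HasExp M (fun t : ℝ => (Polynomial.derivative
          (PowerSeries.trunc (N' + 1 + 1) ((jd p a).A h (zS p k)))).eval (t : ℂ))
          (dX ((jd p a).A h (zS p k))) := by
        have := hasExp_poly hM' (dX ((jd p a).A h (zS p k)))
        rwa [trunc_dX] at this
      exact (h1.mul (ih (by omega) (wir (k, false) F))).add
        (h1.conj.mul (ih (by omega) (wir (k, true) F)))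
    · rw [JD.coeff_zero_Rh, cur_zero]; rfl

theorem hasExp_vel (N : ℕ) (u : NS (Lt r) ℂ) (k : Fin n) :
    HasExp N (fun t => vel p a N u t k) ((jd p a).A u (zS p k)) :=
  hasExp_poly le_rfl _

/-- expansion of `∂ρ` along the curve -/
theorem hasExp_el (N : ℕ) (h u : NS (Lt r) ℂ) (ρ : Sm n) :
    HasExp N (fun t => el ρ (cur p a N h t) (vel p a N u t))
      (∑ k, (jd p a).A u (zS p k) * (jd p a).Rh h (wir (k, false) ρ)) := by
  apply HasExp.sum
  intro k _
  exact (hasExp_vel p a N u k).mul (hasExp_cur p a N h N le_rfl _)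

/-- expansion of the Levi form along the curve -/
theorem hasExp_lv (N : ℕ) (h u : NS (Lt r) ℂ) (ρ : Sm n) :
    HasExp N (fun t => lv ρ (cur p a N h t) (vel p a N u t) (vel p a N u t))
      (∑ k, ∑ l, (jd p a).A u (zS p k) * PowerSeries.map (starRingEnd ℂ) ((jd p a).A u (zS p l)) *
        (jd p a).Rh h (wir (l, true) (wir (k, false) ρ))) := by
  apply HasExp.sum
  intro k _
  apply HasExp.sum
  intro l _
  exact ((hasExp_vel p a N u k).mul (hasExp_vel p a N u l).conj).mul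
    (hasExp_cur p a N h N le_rfl _)

theorem nonneg_of_expansion {G : ℝ → ℂ} {L : ℂ} {m : ℕ}
    (h1 : (fun t : ℝ => G t - L * (t : ℂ) ^ m) =O[𝓝 0] (fun t : ℝ => t ^ (m + 1)))
    (him : ∀ t, (G t).im = 0) {e : ℝ → ℝ} (he : e =O[𝓝 0] (fun t : ℝ => t ^ (m + 1)))
    (hre : ∀ᶠ t in 𝓝 0, -(e t) ≤ (G t).re) : 0 ≤ L := by
  obtain ⟨C1, hC1⟩ := h1.bound
  obtain ⟨C2, hC2⟩ := he.bound
  obtain ⟨δ, hδ, hb⟩ := Metric.eventually_nhds_iff.1 (hC1.and (hC2.and hre))
  have key : ∀ t : ℝ, 0 < t → t < δ → |L.im| ≤ C1 * t ∧ -((C1 + C2) * t) ≤ L.re := by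
    intro t ht0 htδ
    obtain ⟨a1, a2, a3⟩ := hb (show dist t 0 < δ by
      rw [Real.dist_0_eq_abs, abs_of_pos ht0]; exact htδ)
    have hp : 0 < t ^ m := pow_pos ht0 m
    have hnt : ‖t‖ = t := by rw [Real.norm_eq_abs, abs_of_pos ht0]
    rw [norm_pow, hnt, pow_succ] at a1 a2
    rw [Real.norm_eq_abs] at a2
    have hre' : (L * (t : ℂ) ^ m).re = L.re * t ^ m := by
      rw [← Complex.ofReal_pow, Complex.re_mul_ofReal]
    have him' : (L * (t : ℂ) ^ m).im = L.im * t ^ m := by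
      rw [← Complex.ofReal_pow, Complex.im_mul_ofReal]
    constructor
    · have b1 := (Complex.abs_im_le_norm (G t - L * (t : ℂ) ^ m)).trans a1
      rw [Complex.sub_im, him, zero_sub, abs_neg, him', abs_mul, abs_of_pos hp] at b1
      by_contra hne
      push Not at hne
      have : C1 * t * t ^ m < |L.im| * t ^ m := mul_lt_mul_of_pos_right hne hp
      nlinarith
    · have b1 := (abs_le.1 ((Complex.abs_re_le_norm (G t - L * (t : ℂ) ^ m)).trans a1)).2
      rw [Complex.sub_re, hre'] at b1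
      have b2 := (abs_le.1 a2).2
      by_contra hne
      push Not at hne
      have : L.re * t ^ m < -((C1 + C2) * t) * t ^ m := mul_lt_mul_of_pos_right hne hp
      nlinarith
  have hlim1 : Tendsto (fun t : ℝ => C1 * t) (𝓝[>] 0) (𝓝 0) := by
    have : ContinuousAt (fun t : ℝ => C1 * t) 0 := by fun_prop
    have h2 := this.tendsto
    rw [mul_zero] at h2
    exact h2.mono_left nhdsWithin_le_nhds
  have hlim2 : Tendsto (fun t : ℝ => -((C1 + C2) * t)) (𝓝[>] 0) (𝓝 0) := by
    have : ContinuousAt (fun t : ℝ => -((C1 + C2) * t)) 0 := by fun_prop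
    have h2 := this.tendsto
    rw [mul_zero, neg_zero] at h2
    exact h2.mono_left nhdsWithin_le_nhds
  have hev : ∀ᶠ t : ℝ in 𝓝[>] 0, 0 < t ∧ t < δ :=
    (eventually_mem_nhdsWithin).and (nhdsWithin_le_nhds (gt_mem_nhds hδ))
  rw [Complex.le_def]
  constructor
  · rw [Complex.zero_re]
    exact le_of_tendsto hlim2 (hev.mono fun t ht => (key t ht.1 ht.2).2)
  · rw [Complex.zero_im]
    have : |L.im| ≤ 0 := ge_of_tendsto hlim1 (hev.mono fun t ht => (key t ht.1 ht.2).1)
    exact (abs_eq_zero.1 (le_antisymm this (abs_nonneg _))).symm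

/-- the lowest order polynomial is plurisubharmonic -/
theorem psh_Rc (ρ : Sm n) (hρ : coS ρ = ρ)
    (hd : ∃ k, (wir (k, false) ρ : (Fin n → ℂ) → ℂ) p ≠ 0)
    (h0 : (ρ : (Fin n → ℂ) → ℂ) p = 0)
    (hpsc : ∀ᶠ z in 𝓝 p, (ρ : (Fin n → ℂ) → ℂ) z = 0 → ∀ v, el ρ z v = 0 →
      0 ≤ (lv ρ z v v).re) (m : ℕ)
    (hV : ∀ j < m, VanG ((jd p a).Rc j ρ)) : PSH ((jd p a).Rc m ρ) := by
  intro h hh Z hZ
  obtain ⟨C, hC0, hC⟩ := levi_lower ρ hρ p hd h0 hpsc
  set u := h * Z with hu
  have E1 : (fun t => (ρ : (Fin n → ℂ) → ℂ) (cur p a m h t)) =O[𝓝 0] (fun t : ℝ => t ^ m) :=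
    (hasExp_cur p a m h m le_rfl ρ).isBigO (by omega) fun j hj => by
      rw [JD.coeff_Rh]; exact hV j hj h hh
  have E2 : (fun t => el ρ (cur p a m h t) (vel p a m u t)) =O[𝓝 0] (fun t : ℝ => t ^ m) :=
    (hasExp_el p a m h u ρ).isBigO (by omega) fun j hj => by
      have := (jd p a).D1_Rc h u ρ j
      rw [(hV j hj).D1_eq hh hZ] at this
      exact this.symm
  have E3 : (fun t => vel p a m u t) =O[𝓝 0] (fun t : ℝ => t) := by
    rw [isBigO_pi]
    intro k
    have := (hasExp_vel p a m u k).isBigO (m := 1) (by omega) (fun j hj => by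
      interval_cases j
      exact coeff_zero_A_zS p a u k)
    simpa using this
  have E4 : (fun t : ℝ => lv ρ (cur p a m h t) (vel p a m u t) (vel p a m u t) -
      Lev ((jd p a).Rc m ρ) h u u * (t : ℂ) ^ m) =O[𝓝 0] (fun t : ℝ => t ^ (m + 1)) := by
    have := (hasExp_lv p a m h u ρ).lead (fun j hj => by
      have := (jd p a).Lev_Rc h u u ρ j
      rw [(hV j hj).Lev hh hZ hZ] at this
      exact this.symm)
    have h2 := (jd p a).Lev_Rc h u u ρ m
    rw [h2]
    exact this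
  have hpull : ∀ᶠ t in 𝓝 (0 : ℝ), -(C * (‖(ρ : (Fin n → ℂ) → ℂ) (cur p a m h t)‖ *
      ‖vel p a m u t‖ ^ 2 + ‖vel p a m u t‖ * ‖el ρ (cur p a m h t) (vel p a m u t)‖)) ≤
      (lv ρ (cur p a m h t) (vel p a m u t) (vel p a m u t)).re := by
    have h1 : Tendsto (cur p a m h) (𝓝 0) (𝓝 p) := by
      have := (continuous_cur p a m h).tendsto 0
      rwa [cur_zero] at this
    exact (h1.eventually hC).mono fun t ht => ht _
  refine nonneg_of_expansion E4 (fun t => lv_im ρ hρ _ _) ?_ hpull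
  have hpow : ∀ k, m + 1 ≤ k → (fun t : ℝ => t ^ k) =O[𝓝 0] (fun t : ℝ => t ^ (m + 1)) :=
    fun k hk => pow_isBigO hk
  apply IsBigO.const_mul_left
  apply IsBigO.add
  · have h1 := E1.norm_left.mul (E3.norm_left.pow 2)
    refine h1.trans ?_
    have h2 : (fun t : ℝ => t ^ m * t ^ 2) = fun t : ℝ => t ^ (m + 2) := by
      funext t; ring
    rw [h2]
    exact hpow _ (by omega)
  · have h1 := E3.norm_left.mul E2.norm_left
    refine h1.trans ?_
    have h2 : (fun t : ℝ => t * t ^ m) = fun t : ℝ => t ^ (m + 1) := by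
      funext t; ring
    rw [h2]
    exact hpow _ le_rfl

end Curve

end Pool.Agent.Lib.MP_d7cc7c_an
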