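import Pool.Agent.Lib.MP_d7cc7c_an.Liou2

/-!
# Blow up at a real point
-/

set_option linter.unusedSectionVars false

namespace Pool.Agent.Lib.MP_d7cc7c_an

open NS MvPolynomial ComplexConjugate ComplexOrder

section General

variable {α : Type*}

/-- the polynomial of values of a linear functional on the coefficients -/
noncomputable def Pl (l : Pol α →ₗ[ℂ] ℂ) (F : Polynomial (Pol α)) : Polynomial ℂ :=
  ∑ i ∈ Finset.range (F.natDegree + 1), Polynomial.monomial i (l (F.coeff i))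

theorem Pl_coeff (l : Pol α →ₗ[ℂ] ℂ) (F : Polynomial (Pol α)) (i : ℕ) :
    (Pl l F).coeff i = l (F.coeff i) := by
  rw [Pl, Polynomial.finset_sum_coeff]
  by_cases hi : i < F.natDegree + 1
  · rw [Finset.sum_eq_single i]
    · simp
    · intro j _ hj
      rw [Polynomial.coeff_monomial, if_neg hj]
    · intro h; exact absurd (Finset.mem_range.2 hi) h
  · rw [Finset.sum_eq_zero]
    · have : F.coeff i = 0 := Polynomial.coeff_eq_zero_of_natDegree_lt (by omega)
      rw [this, map_zero]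
    · intro j hj
      rw [Finset.mem_range] at hj
      rw [Polynomial.coeff_monomial, if_neg (by omega)]

theorem Pl_eval (l : Pol α →ₗ[ℂ] ℂ) (F : Polynomial (Pol α)) (t : ℂ) :
    (Pl l F).eval t = l (evT t F) := by
  rw [evT_eq_sum _ _ (Nat.lt_succ_self _), map_sum, Pl, Polynomial.eval_finset_sum]
  apply Finset.sum_congr rfl
  intro i _
  rw [Polynomial.eval_monomial, map_smul, smul_eq_mul, mul_comm]

/-- scaling -/
noncomputable def Sd (t : ℝ) : Pol α →ₐ[ℂ] Pol α :=
  evK (dil (C (t : ℂ)) gen) (dil (C (t : ℂ)) genb)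

theorem evS_dil (h : NS α ℂ) (c : ℂ) (A : NS α (Pol α)) :
    evS h (dil (C c) A) = dil c (evS h A) := by
  ext w; simp

theorem cc_dil (t : ℝ) (h : NS α ℂ) : cc (dil (t : ℂ) h) = dil (t : ℂ) (cc h) := by
  ext w; simp

theorem ev_Sd (t : ℝ) (h : NS α ℂ) (p : Pol α) : ev h (Sd t p) = ev (dil (t : ℂ) h) p := by
  rw [Sd, ev_comp_evK]
  · rw [evS_dil, evS_gen]
  · rw [evS_dil, evS_dil, evS_gen, evS_genb, cc_dil]

theorem dS_dil (D : Derivation ℂ (Pol α) (Pol α)) (c : ℂ) (A : NS α (Pol α)) :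
    dS D (dil (C c) A) = dil (C c) (dS D A) := by
  ext w
  simp only [dS_apply, dil_apply, ← C_pow]
  rw [Derivation.leibniz, derivation_C, smul_zero, add_zero, smul_eq_mul]

theorem dil_cst (c : ℂ) (u : NS α ℂ) : dil (C c) (cst u) = cst (dil c u) := by
  ext w; simp

theorem dv_Sd (t : ℝ) (u : NS α ℂ) (p : Pol α) :
    dv (cst u) (Sd t p) = Sd t (dv (cst (dil (t : ℂ) u)) p) := by
  rw [Sd, dv_evK _ _ _ (dil (t : ℂ) u) 0]
  · have : dvb (cst (0 : NS α ℂ)) p = 0 := by
      have h : dvb (cst (0 : NS α ℂ)) = 0 := by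
        apply derivation_ext
        rintro ⟨w, b⟩
        cases b <;> simp
      rw [h]; rfl
    rw [this, add_zero]
  · rw [dS_dil, dS_dv_gen, dil_cst]
  · rw [dS_dil, dS_dv_genb, map_zero, map_zero]

theorem dvb_Sd (t : ℝ) (u : NS α ℂ) (p : Pol α) :
    dvb (cst (cc u)) (Sd t p) = Sd t (dvb (cst (cc (dil (t : ℂ) u))) p) := by
  rw [Sd, dv_evK _ _ _ 0 (cc (dil (t : ℂ) u))]
  · have : dv (cst (0 : NS α ℂ)) p = 0 := by
      have h : dv (cst (0 : NS α ℂ)) = 0 := by
        apply derivation_ext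
        rintro ⟨w, b⟩
        cases b <;> simp
      rw [h]; rfl
    rw [this, zero_add]
  · rw [dS_dil, dS_dvb_gen, map_zero, map_zero]
  · rw [dS_dil, dS_dvb_genb, dil_cst, cc_dil]

theorem D1_Sd (t : ℝ) (h u : NS α ℂ) (p : Pol α) :
    D1 (Sd t p) h u = D1 p (dil (t : ℂ) h) (dil (t : ℂ) u) := by
  rw [D1, dv_Sd, ev_Sd]; rfl

theorem Lev_Sd (t : ℝ) (h u v : NS α ℂ) (p : Pol α) :
    Lev (Sd t p) h u v = Lev p (dil (t : ℂ) h) (dil (t : ℂ) u) (dil (t : ℂ) v) := by
  rw [Lev, dv_Sd, dvb_Sd, ev_Sd]; rfl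

/-- blow up -/
noncomputable def Bl (g : NS α ℂ) : Pol α →ₐ[ℂ] Polynomial (Pol α) :=
  evK (cT g * dil Polynomial.X (NS.map Polynomial.C gen))
    (cT (cc g) * dil Polynomial.X (NS.map Polynomial.C genb))

theorem map_evT_cT (t : ℂ) (a : NS α ℂ) :
    NS.map ((evT (α := α) t : Polynomial (Pol α) →ₐ[ℂ] Pol α) : Polynomial (Pol α) →+* Pol α)
      (cT a) = cst a := by
  ext w
  simp [cT, evT_C]

theorem map_evT_dil (t : ℂ) (A : NS α (Pol α)) :
    NS.map ((evT (α := α) t : Polynomial (Pol α) →ₐ[ℂ] Pol α) : Polynomial (Pol α) →+* Pol α)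
      (dil Polynomial.X (NS.map Polynomial.C A)) = dil (C t) A := by
  rw [dil_map, map_evT_map_C]
  have : ((evT (α := α) t : Polynomial (Pol α) →ₐ[ℂ] Pol α) : Polynomial (Pol α) →+* Pol α)
    Polynomial.X = C t := evT_X t
  rw [this]

theorem evT_Bl (g : NS α ℂ) (t : ℝ) (p : Pol α) : evT (t : ℂ) (Bl g p) = Sd t (Tl g p) := by
  rw [Bl, evK_comp, map_mul, map_mul, map_evT_cT, map_evT_cT, map_evT_dil, map_evT_dil]
  rw [Tl, evK_comp, map_mul, map_mul]
  have e1 : ∀ u : NS α ℂ, NS.map ((Sd t : Pol α →ₐ[ℂ] Pol α) : Pol α →+* Pol α) (cst u) =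
      cst u := by
    intro u; ext w; simp [Sd, evK]
  have e2 : NS.map ((Sd t : Pol α →ₐ[ℂ] Pol α) : Pol α →+* Pol α) gen =
      dil (C (t : ℂ)) gen := by
    ext1 w; exact evK_X_false _ _ _
  have e3 : NS.map ((Sd t : Pol α →ₐ[ℂ] Pol α) : Pol α →+* Pol α) genb =
      dil (C (t : ℂ)) genb := by
    ext1 w; exact evK_X_true _ _ _
  rw [e1, e1, e2, e3]

/-- coefficients of the blow up -/
noncomputable def bc (g : NS α ℂ) (p : Pol α) (i : ℕ) : Pol α := (Bl g p).coeff i

theorem Pl_Bl_ev (g h : NS α ℂ) (p : Pol α) (t : ℝ) :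
    (Pl (evl h) (Bl g p)).eval (t : ℂ) = ev (g * dil (t : ℂ) h) p := by
  rw [Pl_eval, evT_Bl, evl_apply, ev_Sd, ev_Tl]

theorem Pl_Bl_Lev (g h u v : NS α ℂ) (p : Pol α) (t : ℝ) :
    (Pl (Levl h u v) (Bl g p)).eval (t : ℂ) =
      Lev p (g * dil (t : ℂ) h) (g * dil (t : ℂ) u) (g * dil (t : ℂ) v) := by
  rw [Pl_eval, evT_Bl, Levl_apply, Lev_Sd, Lev_Tl]

theorem Lev_sum_left {ι : Type*} (s : Finset ι) (p : Pol α) (h : NS α ℂ) (u : ι → NS α ℂ)
    (v : NS α ℂ) : Lev p h (∑ i ∈ s, u i) v = ∑ i ∈ s, Lev p h (u i) v := by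
  simp_rw [Lev_eq_D1]
  exact D1_sum_right s _ h u

theorem Lev_sum_right {ι : Type*} (s : Finset ι) (p : Pol α) (h : NS α ℂ) (u : NS α ℂ)
    (v : ι → NS α ℂ) : Lev p h u (∑ i ∈ s, v i) = ∑ i ∈ s, Lev p h u (v i) := by
  simp_rw [Lev_eq_D1b]
  exact D1b_sum_right s _ h v

/-- lowest coefficient of a nonnegative polynomial -/
theorem poly_nonneg_low {P : Polynomial ℂ} {m : ℕ} (hm : ∀ i < m, P.coeff i = 0)
    (h : ∀ t : ℝ, 0 < t → 0 ≤ P.eval (t : ℂ)) : 0 ≤ P.coeff m := by
  obtain ⟨R, hR⟩ := (Polynomial.X_pow_dvd_iff).2 hm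
  have h1 : P.coeff m = R.coeff 0 := by
    rw [hR, Polynomial.coeff_X_pow_mul', if_pos (le_refl m), Nat.sub_self]
  have h2 : ∀ t : ℝ, 0 < t → 0 ≤ R.eval (t : ℂ) := by
    intro t ht
    have h3 := h t ht
    rw [hR, Polynomial.eval_mul, Polynomial.eval_pow, Polynomial.eval_X] at h3
    have h4 : (t : ℂ) ^ m ≠ 0 := pow_ne_zero _ (by exact_mod_cast ht.ne')
    have h5 : (0 : ℂ) ≤ ((t ^ m)⁻¹ : ℝ) := by
      have : (0 : ℝ) ≤ (t ^ m)⁻¹ := by positivity
      exact_mod_cast this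
    have h6 := mul_nonneg h5 h3
    rw [← mul_assoc] at h6
    have h7 : (((t ^ m)⁻¹ : ℝ) : ℂ) * (t : ℂ) ^ m = 1 := by
      push_cast
      exact inv_mul_cancel₀ h4
    rwa [h7, one_mul] at h6
  rw [h1, Polynomial.coeff_zero_eq_eval_zero]
  have h3 : Filter.Tendsto (fun t : ℝ => R.eval (t : ℂ)) (nhdsWithin 0 (Set.Ioi 0))
      (nhds (R.eval ((0 : ℝ) : ℂ))) := by
    have : Continuous fun t : ℝ => R.eval (t : ℂ) :=
      R.continuous.comp Complex.continuous_ofReal
    exact this.continuousAt.continuousWithinAt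
  have h4 : R.eval ((0 : ℝ) : ℂ) ∈ {z : ℂ | 0 ≤ z} := by
    refine isClosed_nonneg.mem_of_tendsto h3 ?_
    filter_upwards [self_mem_nhdsWithin] with t ht
    exact h2 t ht
  simpa using h4

/-- evaluation of polynomials in two variables -/
noncomputable def psi (t s : ℂ) : Polynomial (Polynomial ℂ) →ₐ[ℂ] ℂ :=
  (Polynomial.aeval s : Polynomial ℂ →ₐ[ℂ] ℂ).comp
    (Polynomial.mapAlgHom (Polynomial.aeval t : Polynomial ℂ →ₐ[ℂ] ℂ))

theorem psi_apply (t s : ℂ) (F : Polynomial (Polynomial ℂ)) :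
    psi t s F = (F.map (Polynomial.evalRingHom t)).eval s := by
  have h1 : ((Polynomial.aeval t : Polynomial ℂ →ₐ[ℂ] ℂ) : Polynomial ℂ →+* ℂ) =
      Polynomial.evalRingHom t := by
    apply RingHom.ext
    intro f
    simp [Polynomial.aeval_def, Polynomial.eval₂_eq_eval_map]
  rw [psi, AlgHom.comp_apply, Polynomial.coe_mapAlgHom]
  rw [h1]
  simp [Polynomial.aeval_def, Polynomial.eval₂_eq_eval_map]

/-- constants in two variables -/
noncomputable def c2 : NS α ℂ →+* NS α (Polynomial (Polynomial ℂ)) :=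
  NS.map ((Polynomial.C : Polynomial ℂ →+* Polynomial (Polynomial ℂ)).comp Polynomial.C)

/-- the two variable blow up -/
noncomputable def W2 (g0 g h : NS α ℂ) (p : Pol α) : Polynomial (Polynomial ℂ) :=
  evK (c2 g0 * dil (Polynomial.C Polynomial.X) (c2 g) * dil Polynomial.X (c2 h))
    (c2 (cc g0) * dil (Polynomial.C Polynomial.X) (c2 (cc g)) * dil Polynomial.X (c2 (cc h))) p

theorem psi_W2 (g0 g h : NS α ℂ) (p : Pol α) (t s : ℝ) :
    psi (t : ℂ) (s : ℂ) (W2 g0 g h p) = ev (g0 * dil (t : ℂ) g * dil (s : ℂ) h) p := by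
  have e1 : ∀ u : NS α ℂ, NS.map ((psi (t : ℂ) (s : ℂ) : Polynomial (Polynomial ℂ) →ₐ[ℂ] ℂ) :
      Polynomial (Polynomial ℂ) →+* ℂ) (c2 u) = u := by
    intro u; ext w
    simp [c2, psi_apply]
  have e2 : ((psi (t : ℂ) (s : ℂ) : Polynomial (Polynomial ℂ) →ₐ[ℂ] ℂ) :
      Polynomial (Polynomial ℂ) →+* ℂ) Polynomial.X = (s : ℂ) := by
    simp [psi_apply]
  have e3 : ((psi (t : ℂ) (s : ℂ) : Polynomial (Polynomial ℂ) →ₐ[ℂ] ℂ) :
      Polynomial (Polynomial ℂ) →+* ℂ) (Polynomial.C Polynomial.X) = (t : ℂ) := by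
    simp [psi_apply]
  rw [W2, evK_comp]
  simp only [map_mul, dil_map, e1, e2, e3]
  rw [ev, map_mul, map_mul, cc_dil, cc_dil]

end General

section Main

variable {r : ℕ}

theorem Hom.lev {m : ℕ} {p : Pol (Lt r)} (hp : Hom m p) (h u v : NS (Lt r) ℂ) {t : ℝ}
    (ht : 0 < t) : Lev p (dil (t : ℂ) h) (dil (t : ℂ) u) (dil (t : ℂ) v) =
      (t : ℂ) ^ m * Lev p h u v := by
  rw [← Lev_Sd]
  have h1 : ∀ h, ev h (Sd t p) = ev h (((t : ℂ) ^ m) • p) := by
    intro h
    rw [ev_Sd, hp h t ht, map_smul, smul_eq_mul]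
  rw [Lev_congr_of_forall h1]
  simp [Lev]

theorem lie_one_eq_sum {K : Type*} [CommRing K] {X : NS (Lt r) K} (hX : X ∈ lie 1) :
    X = ∑ x : Lt r, X [x] • letter x := by
  ext w
  rw [sum_app]
  rcases w with _ | ⟨y, _ | ⟨z, w⟩⟩
  · rw [lie_nil hX]
    simp
  · simp
  · have h1 := comp_lie hX
    have h2 : X (y :: z :: w) = 0 := by
      rw [← h1, comp_apply, if_neg (by simp)]
    rw [h2]; simp

/-- infinitesimal right invariance -/
theorem Rinv.inf {p : Pol (Lt r)} (hp : Rinv p) {B : NS (Lt r) ℂ} (hB : AS B) (hB0 : B [] = 0)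
    (h : NS (Lt r) ℂ) : D1 p h (h * B) = 0 ∧ D1b p h (h * B) = 0 := by
  have key : ∀ v : NS (Lt r) ℂ, AS v → v [] = 0 → D1 p h (h * v) + D1b p h (h * v) = 0 := by
    intro v hv hv0
    have h1 := hasDerivAt_ev p ((hasDer_nexp_zero hv0).const_mul h)
    have h2 : (fun s : ℝ => ev (h * nexp ((s : ℂ) • v)) p) = fun _ => ev h p := by
      funext s
      exact hp _ _ (QB.nexp (hv.smul _))
    rw [h2] at h1
    have h3 := h1.unique (hasDerivAt_const 0 _)
    simpa [nexp_zero] using h3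
  have h1 := key B hB hB0
  have h2 := key (Complex.I • B) (hB.smul _) (by simp [hB0])
  rw [mul_smul_comm, D1_smul_right, D1b_smul_right, Complex.conj_I] at h2
  have h3 : D1 p h (h * B) - D1b p h (h * B) = 0 := by
    have : Complex.I * (D1 p h (h * B) - D1b p h (h * B)) = 0 := by rw [← h2]; ring
    exact (mul_eq_zero.1 this).resolve_left Complex.I_ne_zero
  constructor
  · linear_combination (h1 + h3) / 2
  · linear_combination (h1 - h3) / 2

theorem Rinv.lev {p : Pol (Lt r)} (hp : Rinv p) {B : NS (Lt r) ℂ} (hB : AS B) (hB0 : B [] = 0)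
    (h v : NS (Lt r) ℂ) : Lev p h (h * B) v = 0 ∧ Lev p h v (h * B) = 0 := by
  constructor
  · have h1 : ∀ h, ev h (Dz B p) = 0 := fun h => by rw [ev_Dz, (hp.inf hB hB0 h).1]
    have h2 := (D1_eq_zero_of_forall h1 h v).2
    rw [D1b, Dz, Lev_fields _ _ _ (hol_Dz B)] at h2
    simpa only [map_mul, evS_gen, evS_cst, cc_cc] using h2
  · have h1 : ∀ h, ev h (Dzb B p) = 0 := fun h => by rw [ev_Dzb, (hp.inf hB hB0 h).2]
    have h2 := (D1_eq_zero_of_forall h1 h v).1
    rw [D1, Dzb, Lev_fields' _ _ _ (ahol_Dzb B)] at h2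
    simpa only [map_mul, evS_genb, evS_cst, cc_cc] using h2

/-- the weight two case -/
theorem weight_two {p : Pol (Lt r)} (hp : Cls 2 p)
    (hL : ∀ i j : Fin r, Lev p 1 (letter (i, false)) (letter (j, false)) = 0) : VanG p := by
  have h1 : Dinv 2 p := by
    apply lemmaC (s := 0) hp
    intro X hX _ h hh
    -- the Levi form in the direction `X * h` does not depend on `h`
    have hF : Hom 0 (Rzb X (Rz X p)) := by
      intro h t ht
      rw [ev_Rzb_Rz, ev_Rzb_Rz, pow_zero, one_mul]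
      have e1 : X * dil (t : ℂ) h = ((t : ℂ)⁻¹) • dil (t : ℂ) (X * h) := by
        have e2 : dil (t : ℂ) X = (t : ℂ) • X := by
          conv_lhs => rw [← comp_lie hX]
          rw [dil_comp, comp_lie hX, pow_one]
        have ht' : (t : ℂ) ≠ 0 := by exact_mod_cast ht.ne'
        rw [map_mul, e2, smul_mul_assoc, smul_smul, inv_mul_cancel₀ ht', one_smul]
      have ht' : (t : ℂ) ≠ 0 := by exact_mod_cast ht.ne'
      rw [e1, Lev_smul_left, Lev_smul_right, hp.hom.lev _ _ _ ht]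
      have e3 : conj ((t : ℂ)⁻¹) = (t : ℂ)⁻¹ := by
        rw [map_inv₀, Complex.conj_ofReal]
      rw [e3]
      field_simp
    have e4 := hF.zero hh.nil
    rw [ev_Rzb_Rz, ev_Rzb_Rz, mul_one] at e4
    rw [e4, lie_one_eq_sum hX, Lev_sum_left]
    apply Finset.sum_eq_zero
    rintro ⟨i, b⟩ _
    rw [Lev_sum_right]
    apply Finset.sum_eq_zero
    rintro ⟨j, c⟩ _
    rw [Lev_smul_left, Lev_smul_right]
    cases b with
    | true =>
      have := (hp.rinv.lev (AS.letter i) (letter_nil _) 1 (letter (j, c))).1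
      rw [one_mul] at this
      rw [this]; simp
    | false =>
      cases c with
      | true =>
        have := (hp.rinv.lev (AS.letter j) (letter_nil _) 1 (letter (i, false))).2
        rw [one_mul] at this
        rw [this]; simp
      | false => rw [hL]; simp
  exact vanG_of_dinv_two hp.rinv hp.linv h1 (hp.hom.one (by norm_num))

/-- the main result of the first part: a polynomial which is plurisubharmonic on the group, right
invariant, vanishes on the real group and has vanishing Levi form there, vanishes on the group -/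
theorem vanG_of_real {P : Pol (Lt r)} (hR : Rinv P) (hP : PSH P)
    (h0 : ∀ g : NS (Lt r) ℂ, IsGrp g → sg g = g → ev g P = 0)
    (hL : ∀ g : NS (Lt r) ℂ, IsGrp g → sg g = g → ∀ i j : Fin r,
      Lev P g (g * letter (i, false)) (g * letter (j, false)) = 0) : VanG P := by
  by_contra hne
  classical
  have hex : ∃ i, ∃ g : NS (Lt r) ℂ, IsGrp g ∧ sg g = g ∧ ¬ VanG (bc g P i) := by
    by_contra hno
    push Not at hno
    apply hne
    intro h hh
    have e1 := Pl_Bl_ev 1 h P 1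
    rw [Complex.ofReal_one, dil_one, one_mul] at e1
    have e2 : Pl (evl h) (Bl 1 P) = 0 := by
      ext i
      rw [Pl_coeff, evl_apply, Polynomial.coeff_zero]
      exact hno i 1 isGrp_one (map_one _) h hh
    rw [← e1, e2]; simp
  obtain ⟨m, ⟨g0, hg0, hg0r, hgn⟩, hmin⟩ : ∃ m, (∃ g : NS (Lt r) ℂ, IsGrp g ∧ sg g = g ∧
      ¬ VanG (bc g P m)) ∧ ∀ i < m, ∀ g : NS (Lt r) ℂ, IsGrp g → sg g = g → VanG (bc g P i) := by
    refine ⟨Nat.find hex, Nat.find_spec hex, ?_⟩
    intro i hi g hg hgr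
    by_contra hno
    exact Nat.find_min hex hi ⟨g, hg, hgr, hno⟩
  have hm0 : m ≠ 0 := by
    rintro rfl
    apply hgn
    intro h hh
    have e1 := Pl_Bl_ev g0 h P 0
    rw [Complex.ofReal_zero, dil_zero_of hh.nil, mul_one, h0 g0 hg0 hg0r,
      ← Polynomial.coeff_zero_eq_eval_zero, Pl_coeff] at e1
    exact e1
  have hhom : Hom m (bc g0 P m) := by
    intro h t _
    have e1 : Pl (evl (dil (t : ℂ) h)) (Bl g0 P) =
        (Pl (evl h) (Bl g0 P)).comp (Polynomial.C (t : ℂ) * Polynomial.X) := by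
      apply poly_eq_of_real
      intro T
      rw [Polynomial.eval_comp, Polynomial.eval_mul, Polynomial.eval_C, Polynomial.eval_X,
        Pl_Bl_ev, ← Complex.ofReal_mul, Pl_Bl_ev, dil_dil, ← Complex.ofReal_mul, mul_comm]
    have e2 := congrArg (fun Q => Polynomial.coeff Q m) e1
    simp only [Polynomial.comp_C_mul_X_coeff, Pl_coeff, evl_apply] at e2
    rw [mul_comm]; exact e2
  have hrinv : Rinv (bc g0 P m) := by
    intro h q hq
    have e1 : Pl (evl (h * q)) (Bl g0 P) = Pl (evl h) (Bl g0 P) := by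
      apply poly_eq_of_real
      intro T
      rw [Pl_Bl_ev, Pl_Bl_ev, map_mul, ← mul_assoc, hR _ _ (hq.dil _)]
    have e2 := congrArg (fun Q => Polynomial.coeff Q m) e1
    simp only [Pl_coeff, evl_apply] at e2
    exact e2
  have hpsh : PSH (bc g0 P m) := by
    intro h hh Z hZ
    have e1 : ∀ i < m, (Pl (Levl h (h * Z) (h * Z)) (Bl g0 P)).coeff i = 0 := by
      intro i hi
      rw [Pl_coeff, Levl_apply]
      exact (hmin i hi g0 hg0 hg0r).Lev hh hZ hZ
    have e2 := poly_nonneg_low e1 (by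
      intro t _
      rw [Pl_Bl_Lev, map_mul, ← mul_assoc]
      exact hP _ (hg0.mul (hh.dil _)) _ (dil_mem_LieS _ hZ))
    rw [Pl_coeff, Levl_apply] at e2
    exact e2
  have hlinv : Linv (bc g0 P m) := by
    intro g h hg hgr hh
    have hgt : ∀ t : ℝ, IsGrp (g0 * dil (t : ℂ) g) ∧ sg (g0 * dil (t : ℂ) g) =
        g0 * dil (t : ℂ) g := by
      intro t
      refine ⟨hg0.mul (hg.dil _), ?_⟩
      rw [map_mul, hg0r, sg_dil, hgr]
    set W := W2 g0 g h P with hW
    -- the coefficients in the outer variable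
    have e1 : ∀ (t : ℝ) (i : ℕ), (W.coeff i).eval (t : ℂ) =
        ev h (bc (g0 * dil (t : ℂ) g) P i) := by
      intro t i
      have e2 : W.map (Polynomial.evalRingHom (t : ℂ)) =
          Pl (evl h) (Bl (g0 * dil (t : ℂ) g) P) := by
        apply poly_eq_of_real
        intro s
        rw [← psi_apply, hW, psi_W2, Pl_Bl_ev]
      have e3 := congrArg (fun Q => Polynomial.coeff Q i) e2
      simp only [Polynomial.coeff_map, Pl_coeff, evl_apply] at e3
      exact e3
    have e2 : ∀ i < m, W.coeff i = 0 := by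
      intro i hi
      apply poly_eq_of_real
      intro t
      rw [e1 t i, Polynomial.eval_zero]
      exact hmin i hi _ (hgt t).1 (hgt t).2 h hh
    obtain ⟨R, hRW⟩ := (Polynomial.X_pow_dvd_iff).2 e2
    have e3 : W.eval Polynomial.X = Pl (evl (g * h)) (Bl g0 P) := by
      apply poly_eq_of_real
      intro t
      have e4 : (W.eval Polynomial.X).eval (t : ℂ) = psi (t : ℂ) (t : ℂ) W := by
        rw [psi_apply]
        have e5 : (Polynomial.evalRingHom (t : ℂ)) Polynomial.X = (t : ℂ) := by simp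
        have e6 := Polynomial.eval₂_at_apply (p := W) (Polynomial.evalRingHom (t : ℂ))
          Polynomial.X
        rw [e5] at e6
        rw [Polynomial.eval_map, e6]; rfl
      rw [e4, hW, psi_W2, Pl_Bl_ev, map_mul, mul_assoc]
    have e4 := congrArg (fun Q => Polynomial.coeff Q m) e3
    simp only [Pl_coeff, evl_apply] at e4
    rw [bc, ← e4, hRW, Polynomial.eval_mul, Polynomial.eval_pow, Polynomial.eval_X,
      Polynomial.coeff_X_pow_mul', if_pos (le_refl m), Nat.sub_self]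
    have e5 : (W.coeff m).eval ((0 : ℝ) : ℂ) = ev h (bc g0 P m) := by
      rw [e1, Complex.ofReal_zero, dil_zero_of hg.nil, mul_one]
    have e6 : W.coeff m = R.coeff 0 := by
      rw [hRW, Polynomial.coeff_X_pow_mul', if_pos (le_refl m), Nat.sub_self]
    have e7 : (R.eval Polynomial.X).coeff 0 = (R.coeff 0).eval 0 := by
      rw [Polynomial.coeff_zero_eq_eval_zero, Polynomial.coeff_zero_eq_eval_zero R]
      have e8 : (R.eval Polynomial.X).eval 0 = (Polynomial.evalRingHom (0 : ℂ))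
        (R.eval Polynomial.X) := rfl
      have e9 : (R.eval 0).eval 0 = (Polynomial.evalRingHom (0 : ℂ)) (R.eval 0) := rfl
      rw [e8, e9, ← Polynomial.eval₂_at_apply, ← Polynomial.eval₂_at_apply]
      simp
    rw [e7, ← e6]
    have e8 : (W.coeff m).eval 0 = ev h (bc g0 P m) := by simpa using e5
    rw [e8]; rfl
  have hcls : Cls m (bc g0 P m) := ⟨hhom, hrinv, hlinv, hpsh⟩
  by_cases hm2 : m = 2
  · subst hm2
    apply hgn
    apply weight_two hcls
    intro i j
    have e1 : Pl (Levl 1 (letter (i, false)) (letter (j, false))) (Bl g0 P) = 0 := by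
      apply poly_eq_of_real
      intro t
      rw [Pl_Bl_Lev, map_one, mul_one]
      have e2 : ∀ x : Lt r, dil (t : ℂ) (letter x) = (t : ℂ) • letter x := by
        intro x
        rw [← comp_letter_one, dil_comp, pow_one]
      rw [e2, e2, mul_smul_comm, mul_smul_comm, Lev_smul_left, Lev_smul_right,
        hL g0 hg0 hg0r i j]
      simp
    have e2 := congrArg (fun Q => Polynomial.coeff Q 2) e1
    simp only [Pl_coeff, Levl_apply, Polynomial.coeff_zero] at e2
    exact e2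
  · exact hgn (liouville m (by omega) hm2 _ hcls)

end Main

end Pool.Agent.Lib.MP_d7cc7c_an
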