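import Pool.Agent.Lib.MP_d7cc7c_an.Laur

/-!
# Polynomial discs attached to the real group
-/

set_option linter.unusedSectionVars false

namespace Pool.Agent.Lib.MP_d7cc7c_an

open NS ComplexConjugate

section Disc

variable {r : ℕ} {R S : Type*} [CommRing R] [CommRing S]

/-- conjugation of series with Laurent polynomial coefficients -/
noncomputable def sL (c : R →+* R) : NS (Lt r) (LP R) →+* NS (Lt r) (LP R) :=
  (NS.map (cL c)).comp (NS.pre bar)

@[simp] theorem sL_apply (c : R →+* R) (f : NS (Lt r) (LP R)) (w : List (Lt r)) :
    sL c f w = cL c (f (w.map bar)) := rfl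

theorem map_bar_map_bar (w : List (Lt r)) : (w.map bar).map bar = w := by
  rw [List.map_map, bar_invol.comp_self, List.map_id]

theorem sL_sL (c : R →+* R) (hc : ∀ a, c (c a) = a) (f : NS (Lt r) (LP R)) :
    sL c (sL c f) = f := by
  ext1 w
  rw [sL_apply, sL_apply, cL_cL c hc, map_bar_map_bar]

/-- rigidity -/
theorem rigid (c : R →+* R) (hc : ∀ a, c (c a) = a) {K : ℕ} {d q : NS (Lt r) (LP R)}
    (hq : q [] = 1) (hd : sL c d = d) (h1 : NS.map e1 d = 0)
    (hn : ∀ w : List (Lt r), w.length ≤ K → ngL ((d * q) w) = 0) :
    ∀ w : List (Lt r), w.length ≤ K → d w = 0 := by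
  have key : ∀ (n : ℕ) (w : List (Lt r)), w.length < n → w.length ≤ K → d w = 0 := by
    intro n
    induction n with
    | zero => intro w hw; omega
    | succ n ih =>
      intro w hw hwK
      have h2 : ∀ w : List (Lt r), w.length < n + 1 → w.length ≤ K → ngL (d w) = 0 := by
        intro w hw hwK
        have h3 : (d * q) w = d w := by
          have h4 : (d * (q - 1)) w = ((0 : NS (Lt r) (LP R)) * (q - 1)) w := by
            apply mul_congr_lt (by simp [hq])
            intro u hu
            rw [ih u (by omega) (by omega)]; rfl
          rw [zero_mul, mul_sub, mul_one, sub_app] at h4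
          exact sub_eq_zero.1 h4
        have := hn w hwK
        rwa [h3] at this
      have h5 := h2 w hw hwK
      have h6 := h2 (w.map bar) (by simpa using hw) (by simpa using hwK)
      have h7 : d (w.map bar) = cL c (d w) := by
        have h8 := congrArg (fun f : NS (Lt r) (LP R) => f (w.map bar)) hd
        simp only [sL_apply] at h8
        rw [map_bar_map_bar] at h8
        exact h8.symm
      rw [h7] at h6
      have h8 : psL (d w) = 0 := by rw [psL_eq c hc, h6, map_zero]
      have h9 := decomp (d w)
      rw [h5, h8, zero_add, add_zero] at h9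
      have h10 : e1 (d w) = 0 := congrArg (fun f : NS (Lt r) R => f w) h1
      rw [h9, e1_C] at h10
      rw [h9, h10, map_zero]
  intro w hw
  exact key (w.length + 1) w (by omega) hw

/-- the map whose fixed point gives the disc -/
noncomputable def discMap (c : R →+* R) (q h : NS (Lt r) (LP R)) : NS (Lt r) (LP R) :=
  1 - amap ngL (h * (q - 1)) - sL c (amap ngL (h * (q - 1))) +
    NS.map (LaurentPolynomial.C.comp e1)
      (amap ngL (h * (q - 1)) + sL c (amap ngL (h * (q - 1))))

theorem discMap_contr (c : R →+* R) {q : NS (Lt r) (LP R)} (hq : q [] = 1) :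
    Contr (discMap c q) := by
  intro f g w h
  have hq1 : (q - 1) [] = 0 := by simp [hq]
  have h1 : (f * (q - 1)) w = (g * (q - 1)) w := mul_congr_lt hq1 w h
  have h2 : (f * (q - 1)) (w.map bar) = (g * (q - 1)) (w.map bar) := by
    rcases Nat.eq_zero_or_pos w.length with hw | hw
    · have : w = [] := List.eq_nil_of_length_eq_zero hw
      subst this
      simp [hq]
    · -- a slightly different argument: words of the same length
      apply mul_congr_lt hq1
      intro u hu
      exact h u (by simpa using hu)
  simp only [discMap, add_app, sub_app, amap_apply, sL_apply, map_apply, h1, h2]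

/-- discs -/
structure IsDisc (c : R →+* R) (q h : NS (Lt r) (LP R)) (φ : NS (Lt r) (Polynomial R)) :
    Prop where
  qg : IsGrp q
  qb : QB q
  hg : IsGrp h
  hr : sL c h = h
  h1 : NS.map e1 h = 1
  hφ : NS.map Polynomial.toLaurent φ = h * q

theorem IsDisc.unique {c : R →+* R} (hc : ∀ a, c (c a) = a) {q h h' : NS (Lt r) (LP R)}
    {φ φ' : NS (Lt r) (Polynomial R)} (hd : IsDisc c q h φ) (hd' : IsDisc c q h' φ') :
    h = h' ∧ φ = φ' := by
  have h1 : h = h' := by
    rw [← sub_eq_zero]
    ext1 w
    refine rigid c hc (K := w.length) (q := q) hd.qb.1 ?_ ?_ ?_ w le_rfl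
    · rw [map_sub, hd.hr, hd'.hr]
    · rw [map_sub, hd.h1, hd'.h1, sub_self]
    · intro u _
      rw [sub_mul, ← hd.hφ, ← hd'.hφ, sub_app, map_apply, map_apply, map_sub, ngL_toLaurent,
        ngL_toLaurent, sub_self]
  refine ⟨h1, ?_⟩
  apply map_injective _ Polynomial.toLaurent_injective
  rw [hd.hφ, hd'.hφ, h1]

theorem IsDisc.map {c : R →+* R} {d : S →+* S} (f : R →+* S) (hf : ∀ a, f (c a) = d (f a))
    {q h : NS (Lt r) (LP R)} {φ : NS (Lt r) (Polynomial R)} (hd : IsDisc c q h φ) :
    IsDisc d (NS.map (mL f) q) (NS.map (mL f) h) (NS.map (Polynomial.mapRingHom f) φ) where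
  qg := hd.qg.map _
  qb := hd.qb.map _
  hg := hd.hg.map _
  hr := by
    ext1 w
    have h1 : sL c h w = h w := congrArg (fun g : NS (Lt r) (LP R) => g w) hd.hr
    rw [sL_apply, map_apply, map_apply, ← mL_cL f c d hf, ← sL_apply, h1]
  h1 := by
    ext1 w
    have h1 : e1 (h w) = (1 : NS (Lt r) R) w := congrArg (fun g : NS (Lt r) R => g w) hd.h1
    rw [map_apply, map_apply, e1_mL, h1]
    cases w <;> simp
  hφ := by
    rw [← map_mul, ← hd.hφ]
    ext1 w
    simp only [map_apply, Polynomial.coe_mapRingHom]
    rw [mL_toLaurent]

variable [Algebra ℚ R]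

/-- existence of discs -/
theorem exists_disc (c : R →+* R) (hc : ∀ a, c (c a) = a) {q : NS (Lt r) (LP R)} (hqg : IsGrp q)
    (hqb : QB q) : ∃ h φ, IsDisc c q h φ := by
  set h := fixp (discMap c q) with hh
  have hfix : h = discMap c q h := fixp_eq (discMap_contr c hqb.1)
  set N := amap ngL (h * (q - 1)) with hN
  have hdef : h = 1 - N - sL c N + NS.map (LaurentPolynomial.C.comp e1) (N + sL c N) := hfix
  have hNnil : N [] = 0 := by
    rw [hN, amap_apply, mul_nil, sub_app, hqb.1, one_nil, sub_self, mul_zero, map_zero]
  have hnil : h [] = 1 := by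
    rw [hdef]
    simp [hNnil]
  -- reality
  have hCe : ∀ f : NS (Lt r) (LP R), sL c (NS.map (LaurentPolynomial.C.comp e1) f) =
      NS.map (LaurentPolynomial.C.comp e1) (sL c f) := by
    intro f; ext1 w
    simp only [sL_apply, map_apply, RingHom.comp_apply]
    rw [cL_C, e1_cL]
  have hr : sL c h = h := by
    rw [hdef]
    simp only [map_sub, map_add, map_one, hCe, sL_sL c hc]
    abel
  have h1 : NS.map e1 h = 1 := by
    rw [hdef]
    ext1 w
    simp only [map_apply, add_app, sub_app, map_add, map_sub, RingHom.comp_apply, e1_C]
    have : e1 ((1 : NS (Lt r) (LP R)) w) = (1 : NS (Lt r) R) w := by cases w <;> simp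
    rw [this]; ring
  -- no negative part
  have hneg : ∀ w, ngL ((h * q) w) = 0 := by
    intro w
    have e : h * q = h + h * (q - 1) := by noncomm_ring
    rw [e, add_app, map_add]
    have e2 : ngL ((h * (q - 1)) w) = N w := rfl
    have e3 : ngL (N w) = N w := ngL_ngL _
    have e4 : ngL (sL c N w) = 0 := ngL_cL_ngL c _
    have e5 : ngL ((1 : NS (Lt r) (LP R)) w) = 0 := by
      cases w with
      | nil =>
        have : (1 : NS (Lt r) (LP R)) [] = LaurentPolynomial.C 1 := by simp
        rw [this, ngL_C]
      | cons x w => simp
    rw [e2]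
    have e6 : ngL (h w) = - N w := by
      rw [hdef]
      simp only [add_app, sub_app, map_add, map_sub, map_apply, RingHom.comp_apply]
      rw [e5, e3, e4, ngL_C, ngL_C]
      ring
    rw [e6, neg_add_cancel]
  -- the polynomial disc
  choose p hp using fun w => exists_toLaurent (hneg w)
  let φ : NS (Lt r) (Polynomial R) := ⟨p⟩
  have hφ : NS.map Polynomial.toLaurent φ = h * q := by ext1 w; exact hp w
  have hφnil : φ [] = 1 := by
    apply Polynomial.toLaurent_injective
    have := hp []
    rw [mul_nil, hnil, hqb.1, mul_one] at this
    rw [map_one]; exact this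
  -- the group property
  obtain ⟨_, lq, hlq, heq⟩ := id hqg
  set l := NS.inv h * E h with hl
  have hEh : E h = h * l := by rw [hl, mul_inv_cancel_left' hnil]
  have hlr : sL c l = l := by
    have e2 : sL c (NS.inv h) = NS.inv h := by
      apply inv_uniq hnil
      have e4 : sL c (h * NS.inv h) = h * sL c (NS.inv h) := by rw [map_mul, hr]
      rw [← e4, mul_inv hnil, map_one]
    have e3 : sL c (E h) = E h := by
      have e4 : E (sL c h) = sL c (E h) := by
        ext1 w
        simp
      rw [← e4, hr]
    rw [hl, map_mul, e2, e3]
  have hl1 : NS.map e1 l = 0 := by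
    rw [hl, map_mul, ← E_map, h1, E_one, mul_zero]
  have hnilq := hqb.1
  -- negative part of the logarithmic Euler derivative of the disc
  set k := NS.inv (h * q) * E (h * q) with hk
  have hkneg : amap ngL k = 0 := by
    have e2 : k = NS.map Polynomial.toLaurent (NS.inv φ * E φ) := by
      rw [hk, ← hφ, ← NS.map_inv _ hφnil, E_map, ← map_mul]
    ext1 w
    rw [e2, amap_apply, map_apply, ngL_toLaurent]; rfl
  have hkeq : k = NS.inv q * l * q + lq := by
    have e2 : E (h * q) = (h * q) * (NS.inv q * l * q + lq) := by
      rw [E_mul, hEh, heq, mul_add]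
      have : h * q * (NS.inv q * l * q) = h * l * q := by
        calc h * q * (NS.inv q * l * q) = h * (q * NS.inv q) * l * q := by noncomm_ring
          _ = _ := by rw [mul_inv hnilq, mul_one]
      rw [this, mul_assoc h q]
    rw [hk, e2, inv_mul_cancel_left' (by simp [hnil, hnilq])]
  have hLie : ∀ n, comp n l ∈ lie n := by
    intro n
    induction n using Nat.strong_induction_on with
    | _ n ih =>
      rcases Nat.eq_zero_or_pos n with hn | hn
      · subst hn
        have e2 : l [] = 0 := by rw [hl, mul_nil, ord_one_E, mul_zero]
        have : comp 0 l = 0 := by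
          apply comp_eq_zero_of_ord (ord_one_iff.2 e2)
          omega
        rw [this]; exact zero_mem _
      · have hl' : trun (n - 1) l ∈ LieS (Lt r) (LP R) := by
          rw [trun_eq_sum]
          refine sum_mem fun i hi => mem_LieS_of_lie (ih i ?_)
          rw [Finset.mem_range] at hi; omega
        set M := NS.inv q * trun (n - 1) l * q with hM
        have hML : M ∈ LieS (Lt r) (LP R) := conj_mem_LieS' hqg hl'
        have e3 : comp n k = comp n l + (comp n M + comp n lq) := by
          have e4 : Agr n k (l + (M + lq) - trun (n - 1) l) := by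
            rw [agr_iff_ord, hkeq]
            have e5 : NS.inv q * l * q + lq - (l + (M + lq) - trun (n - 1) l) =
                (NS.inv q - 1) * (l - trun (n - 1) l) * q +
                (l - trun (n - 1) l) * (q - 1) := by
              rw [hM]; noncomm_ring
            have e6 : Ord n (l - trun (n - 1) l) := by
              intro w hw
              rw [sub_app, trun_apply_of_le (by omega), sub_self]
            rw [e5]
            refine Ord.add (Ord.mul_right ?_ _) ?_
            · have := (ord_one_iff.2 (by simp [inv_nil hnilq] :
                (NS.inv q - 1) [] = 0)).mul e6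
              rwa [add_comm] at this
            · exact e6.mul (ord_one_iff.2 (by simp [hnilq]))
          have e7 : comp n (trun (n - 1) l) = 0 := by
            ext1 w
            rw [comp_apply]
            split_ifs with h8
            · show (if w.length ≤ n - 1 then l w else 0) = 0
              rw [if_neg (by omega)]
            · rfl
          rw [comp_congr e4, comp_sub, e7, sub_zero, comp_add, comp_add]
        have e8 : amap ngL (comp n l) = - amap ngL (comp n M + comp n lq) := by
          have e9 : amap ngL (comp n k) = 0 := by
            rw [← comp_amap, hkneg, comp_zero]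
          rw [e3, amap_add] at e9
          exact eq_neg_of_add_eq_zero_left e9
        have hng : amap ngL (comp n l) ∈ (lie n : Submodule (LP R) (NS (Lt r) (LP R))) := by
          rw [e8]
          exact neg_mem (amap_mem_lie _ (add_mem (hML n) (hlq n)))
        have hps : amap psL (comp n l) = sL c (amap ngL (comp n l)) := by
          ext1 w
          rw [amap_apply, sL_apply, amap_apply, psL_eq c hc]
          congr 2
          have e9 : sL c (comp n l) = comp n l := by
            show NS.map (cL c) (NS.pre bar (comp n l)) = _
            rw [← comp_pre, ← NS.comp_map]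
            exact congrArg (comp n) hlr
          have e10 := congrArg (fun f : NS (Lt r) (LP R) => f (w.map bar)) e9
          simp only [sL_apply] at e10
          rw [map_bar_map_bar] at e10
          exact e10
        have hpsm : amap psL (comp n l) ∈ (lie n : Submodule (LP R) (NS (Lt r) (LP R))) := by
          rw [hps]
          exact map_mem_lie _ (pre_mem_lie bar bar_invol n hng)
        have hz : comp n l = amap ngL (comp n l) + amap psL (comp n l) -
            NS.map (LaurentPolynomial.C.comp e1)
              (amap ngL (comp n l) + amap psL (comp n l)) := by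
          ext1 w
          have e9 := decomp (comp n l w)
          have e10 : e1 (comp n l w) = 0 := by
            have e11 : NS.map e1 (comp n l) = 0 := by rw [← NS.comp_map, hl1, comp_zero]
            exact congrArg (fun f : NS (Lt r) R => f w) e11
          have e12 := congrArg e1 e9
          rw [e10, map_add, map_add, e1_C] at e12
          simp only [add_app, sub_app, amap_apply, map_apply, RingHom.comp_apply, map_add]
          have e13 : (comp n l w).coeff 0 = - (e1 (ngL (comp n l w)) + e1 (psL (comp n l w))) := by
            linear_combination -e12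
          conv_lhs => rw [e9]
          rw [e13, map_neg, map_add]
          ring
        rw [hz]
        have hs := add_mem hng hpsm
        exact sub_mem hs (map_mem_lie _ hs)
  exact ⟨h, φ, ⟨hqg, hqb, ⟨hnil, l, hLie, hEh⟩, hr, h1, hφ⟩⟩

end Disc

end Pool.Agent.Lib.MP_d7cc7c_an
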