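import Mathlib

/-!
# Hopf's lemma for polynomials on the unit disc
-/

set_option linter.unusedSectionVars false

namespace Pool.Agent.Lib.MP_d7cc7c_an

open ComplexConjugate ComplexOrder Metric

theorem infinite_unit : Set.Infinite {z : ℂ | ‖z‖ = 1} := by
  have h1 : Set.Infinite (Set.Ioo (0 : ℝ) Real.pi) := Set.Ioo_infinite Real.pi_pos
  have h2 : Set.InjOn (fun θ : ℝ => Complex.exp (θ * Complex.I)) (Set.Ioo (0 : ℝ) Real.pi) := by
    intro x hx y hy hxy
    have h3 := congrArg Complex.re hxy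
    simp only [Complex.exp_ofReal_mul_I_re] at h3
    exact Real.injOn_cos ⟨hx.1.le, hx.2.le⟩ ⟨hy.1.le, hy.2.le⟩ h3
  refine (h1.image h2).mono ?_
  rintro _ ⟨θ, _, rfl⟩
  exact Complex.norm_exp_ofReal_mul_I θ

theorem hopf_aux_abs {ι : Type*} (s : Finset ι) (c : ι → ℂ) (a b : ι → ℕ)
    (h0 : ∀ z : ℂ, ‖z‖ = 1 → ∑ i ∈ s, c i * z ^ a i * conj z ^ b i = 0) :
    ∑ i ∈ s, c i * (((|(a i : ℤ) - (b i : ℤ)| : ℤ)) : ℂ) = 0 := by
  classical
  set D := s.sup b with hD
  have hb : ∀ i ∈ s, b i ≤ D := fun i hi => Finset.le_sup hi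
  set P : Polynomial ℂ := ∑ i ∈ s, Polynomial.monomial (a i + (D - b i)) (c i) with hP
  have hP0 : P = 0 := by
    apply Polynomial.eq_of_infinite_eval_eq
    apply Set.Infinite.mono _ infinite_unit
    intro z hz
    have hz' : ‖z‖ = 1 := hz
    show P.eval z = (0 : Polynomial ℂ).eval z
    rw [hP, Polynomial.eval_finset_sum, Polynomial.eval_zero]
    have hzz : z * conj z = 1 := by
      rw [Complex.mul_conj, Complex.normSq_eq_norm_sq, hz']; norm_num
    have h1 : ∀ i ∈ s, (Polynomial.monomial (a i + (D - b i)) (c i)).eval z =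
        z ^ D * (c i * z ^ a i * conj z ^ b i) := by
      intro i hi
      rw [Polynomial.eval_monomial, pow_add]
      have h2 : z ^ D = z ^ (D - b i) * z ^ b i := by
        rw [← pow_add]; congr 1; have := hb i hi; omega
      have h3 : z ^ b i * conj z ^ b i = 1 := by rw [← mul_pow, hzz, one_pow]
      rw [h2]
      linear_combination (-(c i * z ^ a i * z ^ (D - b i))) * h3
    rw [Finset.sum_congr rfl h1, ← Finset.mul_sum, h0 z hz', mul_zero]
  let L : Polynomial ℂ →ₗ[ℂ] ℂ := Polynomial.lsum (fun n =>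
    (((|(n : ℤ) - (D : ℤ)| : ℤ)) : ℂ) • LinearMap.id)
  have h1 : L P = 0 := by rw [hP0, map_zero]
  rw [hP, map_sum] at h1
  rw [← h1]
  apply Finset.sum_congr rfl
  intro i hi
  have h2 : L (Polynomial.monomial (a i + (D - b i)) (c i)) =
      (((|((a i + (D - b i) : ℕ) : ℤ) - (D : ℤ)| : ℤ)) : ℂ) * c i := by
    simp [L, Polynomial.lsum_apply, Polynomial.sum_monomial_index]
  rw [h2]
  have h3 : ((a i + (D - b i) : ℕ) : ℤ) - (D : ℤ) = (a i : ℤ) - (b i : ℤ) := by
    have := hb i hi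
    omega
  rw [h3, mul_comm]

theorem hopf_aux_min {ι : Type*} (s : Finset ι) (c : ι → ℂ) (a b : ι → ℕ)
    (h0 : ∀ z : ℂ, ‖z‖ = 1 → ∑ i ∈ s, c i * z ^ a i * conj z ^ b i = 0)
    (h1 : ∑ i ∈ s, c i * ((a i : ℂ) + (b i : ℂ)) = 0) :
    ∑ i ∈ s, c i * ((min (a i) (b i) : ℕ) : ℂ) = 0 := by
  have h2 := hopf_aux_abs s c a b h0
  have h3 : ∀ i ∈ s, c i * ((min (a i) (b i) : ℕ) : ℂ) =
      (1 / 2) * (c i * ((a i : ℂ) + (b i : ℂ))) -
      (1 / 2) * (c i * (((|(a i : ℤ) - (b i : ℤ)| : ℤ)) : ℂ)) := by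
    intro i _
    have h4 : 2 * ((min (a i) (b i) : ℕ) : ℤ) = (a i : ℤ) + (b i : ℤ) -
        |(a i : ℤ) - (b i : ℤ)| := by
      rcases le_total (a i) (b i) with h | h
      · rw [min_eq_left h, abs_of_nonpos (by omega)]; ring
      · rw [min_eq_right h, abs_of_nonneg (by omega)]; ring
    have h5 : (2 : ℂ) * ((min (a i) (b i) : ℕ) : ℂ) = (a i : ℂ) + (b i : ℂ) -
        (((|(a i : ℤ) - (b i : ℤ)| : ℤ)) : ℂ) := by
      have h6 := congrArg (Int.cast : ℤ → ℂ) h4
      simpa only [Int.cast_mul, Int.cast_sub, Int.cast_add, Int.cast_natCast,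
        Int.cast_ofNat] using h6
    linear_combination (c i / 2) * h5
  rw [Finset.sum_congr rfl h3, Finset.sum_sub_distrib, ← Finset.mul_sum, ← Finset.mul_sum, h1, h2]
  simp

/-- the Poisson average of a polynomial -/
theorem hopf_average {ι : Type*} (s : Finset ι) (c : ι → ℂ) (a b : ι → ℕ) {r : ℝ} (hr : 0 < r)
    (hr1 : r < 1) :
    Real.circleAverage (fun z => ((z - 0 + ((r ^ 2 : ℝ) - 0 : ℂ)) /
      ((z - 0) - ((r ^ 2 : ℝ) - 0 : ℂ))).re •
      (∑ i ∈ s, c i * (a i) * (b i) * z ^ (a i - 1) * conj z ^ (b i - 1)).re) 0 r =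
    (∑ i ∈ s, c i * (a i) * (b i) * ((r ^ 2 : ℝ) : ℂ) ^ (max (a i) (b i) - 1)).re := by
  -- a holomorphic polynomial with the same real part on the circle
  let Φ : ℂ → ℂ := fun z => ∑ i ∈ s, (if b i ≤ a i then
    c i * (a i) * (b i) * ((r ^ 2 : ℝ) : ℂ) ^ (b i - 1) * z ^ (a i - b i) else
    conj (c i * (a i) * (b i)) * ((r ^ 2 : ℝ) : ℂ) ^ (a i - 1) * z ^ (b i - a i))
  have hΦ : Differentiable ℂ Φ := by
    apply Differentiable.fun_sum
    intro i _
    split_ifs
    · exact (differentiable_id.pow _).const_mul _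
    · exact (differentiable_id.pow _).const_mul _
  have hw : ((r ^ 2 : ℝ) : ℂ) ∈ ball (0 : ℂ) r := by
    rw [mem_ball_zero_iff, Complex.norm_real, Real.norm_of_nonneg (by positivity)]
    nlinarith
  have h1 := (hΦ.diffContOnCl (s := ball 0 r)).circleAverage_re_herglotzRieszKernel_smul' hw
  have hzz : ∀ z ∈ sphere (0 : ℂ) |r|, z * conj z = ((r ^ 2 : ℝ) : ℂ) := by
    intro z hz
    rw [mem_sphere_zero_iff_norm, abs_of_pos hr] at hz
    rw [Complex.mul_conj, Complex.normSq_eq_norm_sq, hz]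
  have h2 : ∀ z ∈ sphere (0 : ℂ) |r|,
      (∑ i ∈ s, c i * (a i) * (b i) * z ^ (a i - 1) * conj z ^ (b i - 1)).re = (Φ z).re := by
    intro z hz
    have hz' := hzz z hz
    simp only [Φ, Complex.re_sum]
    apply Finset.sum_congr rfl
    intro i _
    by_cases ha : a i = 0
    · simp [ha]
    by_cases hb : b i = 0
    · simp [hb]
    split_ifs with h
    · congr 1
      have e1 : z ^ (a i - 1) = z ^ (b i - 1) * z ^ (a i - b i) := by
        rw [← pow_add]; congr 1; omega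
      rw [e1, ← hz', mul_pow]; ring
    · have e1 : conj z ^ (b i - 1) = conj z ^ (a i - 1) * conj z ^ (b i - a i) := by
        rw [← pow_add]; congr 1; omega
      have e2 : c i * (a i) * (b i) * z ^ (a i - 1) * conj z ^ (b i - 1) =
          conj (conj (c i * (a i) * (b i)) * ((r ^ 2 : ℝ) : ℂ) ^ (a i - 1) * z ^ (b i - a i)) := by
        rw [e1]
        simp only [map_mul, map_pow, Complex.conj_conj, Complex.conj_ofReal]
        rw [← hz', mul_pow]; ring
      rw [e2, Complex.conj_re]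
  have h3 : Real.circleAverage (fun z => ((z - 0 + ((r ^ 2 : ℝ) - 0 : ℂ)) /
      ((z - 0) - ((r ^ 2 : ℝ) - 0 : ℂ))).re •
      (∑ i ∈ s, c i * (a i) * (b i) * z ^ (a i - 1) * conj z ^ (b i - 1)).re) 0 r =
      Real.circleAverage (fun z => ((z - 0 + ((r ^ 2 : ℝ) - 0 : ℂ)) /
      ((z - 0) - ((r ^ 2 : ℝ) - 0 : ℂ))).re • (Φ z).re) 0 r := by
    apply Real.circleAverage_congr_sphere
    intro z hz
    simp only []
    rw [h2 z hz]
  rw [h3]
  have hcont : ContinuousOn (fun z : ℂ => ((z - 0 + ((r ^ 2 : ℝ) - 0 : ℂ)) /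
      ((z - 0) - ((r ^ 2 : ℝ) - 0 : ℂ))).re • Φ z) (sphere 0 |r|) := by
    have hc1 : ContinuousOn (fun z : ℂ => ((z - 0 + ((r ^ 2 : ℝ) - 0 : ℂ)) /
        ((z - 0) - ((r ^ 2 : ℝ) - 0 : ℂ))).re) (sphere 0 |r|) := by
      apply Complex.continuous_re.comp_continuousOn
      apply ContinuousOn.div (by fun_prop) (by fun_prop)
      intro z hz h0
      rw [mem_sphere_zero_iff_norm, abs_of_pos hr] at hz
      simp only [sub_zero] at h0
      rw [sub_eq_zero] at h0
      rw [h0, Complex.norm_real, Real.norm_of_nonneg (by positivity)] at hz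
      nlinarith
    exact ContinuousOn.smul hc1 hΦ.continuous.continuousOn
  have h4 := ContinuousLinearMap.circleAverage_comp_comm Complex.reCLM
    (hcont.circleIntegrable' )
  have h5 : (fun z : ℂ => ((z - 0 + ((r ^ 2 : ℝ) - 0 : ℂ)) /
      ((z - 0) - ((r ^ 2 : ℝ) - 0 : ℂ))).re • (Φ z).re) =
      Complex.reCLM ∘ (fun z : ℂ => ((z - 0 + ((r ^ 2 : ℝ) - 0 : ℂ)) /
      ((z - 0) - ((r ^ 2 : ℝ) - 0 : ℂ))).re • Φ z) := by
    funext z
    simp
  rw [h5, h4, h1]
  show (Φ ((r ^ 2 : ℝ) : ℂ)).re = _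
  simp only [Φ, Complex.re_sum]
  apply Finset.sum_congr rfl
  intro i _
  by_cases ha : a i = 0
  · simp [ha]
  by_cases hb : b i = 0
  · simp [hb]
  split_ifs with h
  · congr 1
    rw [mul_assoc, ← pow_add, max_eq_left h]
    congr 2; omega
  · rw [mul_assoc, ← pow_add, max_eq_right (by omega)]
    have e1 : a i - 1 + (b i - a i) = b i - 1 := by omega
    rw [e1, ← Complex.conj_re]
    simp only [map_mul, map_pow, Complex.conj_conj, Complex.conj_ofReal]

/-- Hopf's lemma for polynomials -/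
theorem hopf {ι : Type*} (s : Finset ι) (c : ι → ℂ) (a b : ι → ℕ)
    (h0 : ∀ z : ℂ, ‖z‖ = 1 → ∑ i ∈ s, c i * z ^ a i * conj z ^ b i = 0)
    (h1 : ∑ i ∈ s, c i * ((a i : ℂ) + (b i : ℂ)) = 0)
    (hpos : ∀ z : ℂ, z ≠ 0 → ‖z‖ < 1 →
      0 ≤ ∑ i ∈ s, c i * (a i) * (b i) * z ^ (a i - 1) * conj z ^ (b i - 1)) :
    ∀ z : ℂ, z ≠ 0 → ‖z‖ < 1 →
      ∑ i ∈ s, c i * (a i) * (b i) * z ^ (a i - 1) * conj z ^ (b i - 1) = 0 := by
  set f : ℂ → ℂ := fun z =>
    ∑ i ∈ s, c i * (a i) * (b i) * z ^ (a i - 1) * conj z ^ (b i - 1) with hf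
  have hfc : Continuous f := by
    apply continuous_finset_sum
    intro i _
    exact (continuous_const.mul (continuous_id.pow _)).mul (Complex.continuous_conj.pow _)
  -- the averages are nonnegative
  set A : ℝ → ℝ := fun x => (∑ i ∈ s, c i * (a i) * (b i) * ((x : ℝ) : ℂ) ^
    (max (a i) (b i) - 1)).re with hA
  set B : ℝ → ℝ := fun x => (∑ i ∈ s, c i * ((min (a i) (b i) : ℕ) : ℂ) * ((x : ℝ) : ℂ) ^
    (max (a i) (b i))).re with hB
  have hkern : ∀ {r : ℝ}, 0 < r → r < 1 → ∀ z ∈ sphere (0 : ℂ) r,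
      0 < ((z - 0 + ((r ^ 2 : ℝ) - 0 : ℂ)) / ((z - 0) - ((r ^ 2 : ℝ) - 0 : ℂ))).re := by
    intro r hr hr1 z hz
    have hw : ((r ^ 2 : ℝ) : ℂ) ∈ ball (0 : ℂ) r := by
      rw [mem_ball_zero_iff, Complex.norm_real, Real.norm_of_nonneg (by positivity)]
      nlinarith
    have h2 := le_re_herglotzRieszKernel hz hw
    refine lt_of_lt_of_le ?_ h2
    have h3 : ‖((r ^ 2 : ℝ) : ℂ) - 0‖ = r ^ 2 := by
      rw [sub_zero, Complex.norm_real, Real.norm_of_nonneg (by positivity)]
    rw [h3]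
    apply div_pos
    · nlinarith
    · positivity
  have hAnn : ∀ r : ℝ, 0 < r → r < 1 → 0 ≤ A (r ^ 2) := by
    intro r hr hr1
    rw [hA]
    simp only []
    rw [← hopf_average s c a b hr hr1]
    apply Real.circleAverage_nonneg_of_nonneg
    intro z hz
    rw [abs_of_pos hr] at hz
    have hz1 : ‖z‖ = r := by simpa using hz
    apply mul_nonneg (hkern hr hr1 z hz).le
    have h2 := hpos z (by rintro rfl; simp at hz1; linarith) (by rw [hz1]; exact hr1)
    exact (Complex.le_def.1 h2).1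
  have hderiv : ∀ x : ℝ, HasDerivAt B (A x) x := by
    intro x
    have h2 : HasDerivAt (fun y : ℝ => ∑ i ∈ s, c i * ((min (a i) (b i) : ℕ) : ℂ) *
        ((y : ℝ) : ℂ) ^ (max (a i) (b i)))
        (∑ i ∈ s, c i * (a i) * (b i) * ((x : ℝ) : ℂ) ^ (max (a i) (b i) - 1)) x := by
      have h3 : HasDerivAt (fun y : ℝ => (y : ℂ)) 1 x := Complex.ofRealCLM.hasDerivAt
      have h4 : HasDerivAt (fun y : ℝ => ∑ i ∈ s, c i * ((min (a i) (b i) : ℕ) : ℂ) *
        ((y : ℝ) : ℂ) ^ (max (a i) (b i)))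
        (∑ i ∈ s, c i * ((min (a i) (b i) : ℕ) : ℂ) * (((max (a i) (b i) : ℕ) : ℂ) *
          ((x : ℝ) : ℂ) ^ (max (a i) (b i) - 1) * 1)) x := by
        apply HasDerivAt.fun_sum
        intro i _
        exact (h3.pow _).const_mul _
      refine h4.congr_deriv ?_
      apply Finset.sum_congr rfl
      intro i _
      have h5 : ((min (a i) (b i) : ℕ) : ℂ) * ((max (a i) (b i) : ℕ) : ℂ) =
          (a i : ℂ) * (b i : ℂ) := by
        rw [← Nat.cast_mul, min_mul_max, Nat.cast_mul]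
      linear_combination (c i * ((x : ℝ) : ℂ) ^ (max (a i) (b i) - 1)) * h5
    have h3 := (Complex.reCLM.hasFDerivAt (x := _)).comp_hasDerivAt x h2
    exact h3
  have hB0 : B 0 = 0 := by
    rw [hB]
    simp only [Complex.re_sum]
    apply Finset.sum_eq_zero
    intro i _
    by_cases hm : max (a i) (b i) = 0
    · have : min (a i) (b i) = 0 := by omega
      simp [this]
    · simp [hm]
  have hB1 : B 1 = 0 := by
    rw [hB]
    simp only [Complex.ofReal_one, one_pow, mul_one]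
    rw [hopf_aux_min s c a b h0 h1]; simp
  have hmono : MonotoneOn B (Set.Icc 0 1) := by
    apply monotoneOn_of_deriv_nonneg (convex_Icc 0 1)
    · exact fun x _ => (hderiv x).continuousAt.continuousWithinAt
    · exact fun x _ => (hderiv x).differentiableAt.differentiableWithinAt
    · intro x hx
      rw [interior_Icc] at hx
      rw [(hderiv x).deriv]
      have h2 := hAnn (Real.sqrt x) (Real.sqrt_pos.2 hx.1) (by
        rw [← Real.sqrt_one]; exact Real.sqrt_lt_sqrt hx.1.le hx.2)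
      rwa [Real.sq_sqrt hx.1.le] at h2
  have hBz : ∀ x ∈ Set.Icc (0 : ℝ) 1, B x = 0 := by
    intro x hx
    apply le_antisymm
    · rw [← hB1]; exact hmono hx ⟨zero_le_one, le_refl 1⟩ hx.2
    · rw [← hB0]; exact hmono ⟨le_refl 0, zero_le_one⟩ hx hx.1
  have hAz : ∀ x ∈ Set.Ioo (0 : ℝ) 1, A x = 0 := by
    intro x hx
    have h2 : HasDerivAt B 0 x := by
      apply (hasDerivAt_const x (0 : ℝ)).congr_of_eventuallyEq
      filter_upwards [isOpen_Ioo.mem_nhds hx] with y hy
      exact hBz y ⟨hy.1.le, hy.2.le⟩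
    exact (hderiv x).unique h2
  intro z hz hz1
  set r := ‖z‖ with hr
  have hr0 : 0 < r := norm_pos_iff.2 hz
  have hAr : A (r ^ 2) = 0 := hAz _ ⟨by positivity, by nlinarith⟩
  have h2 := hpos z hz hz1
  by_contra hne
  have hpos2 : 0 < (f z).re := by
    have h3 := Complex.le_def.1 h2
    rcases h3.1.lt_or_eq with h4 | h4
    · exact h4
    · exfalso; apply hne
      apply Complex.ext
      · exact h4.symm
      · exact h3.2.symm
  -- contradiction through positivity of the average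
  have h3 := hopf_average s c a b hr0 hz1
  have h4 : (∑ i ∈ s, c i * (a i) * (b i) * ((r ^ 2 : ℝ) : ℂ) ^ (max (a i) (b i) - 1)).re = 0 :=
    hAr
  rw [h4, Real.circleAverage_def] at h3
  have h5 : (2 * Real.pi)⁻¹ ≠ 0 := by positivity
  have h6 := (smul_eq_zero.1 h3).resolve_left h5
  have hcirc : ∀ θ : ℝ, circleMap 0 r θ ∈ sphere (0 : ℂ) r := fun θ => by
    simp [circleMap, abs_of_pos hr0]
  have h7 : 0 < ∫ θ in (0 : ℝ)..2 * Real.pi, ((circleMap 0 r θ - 0 + ((r ^ 2 : ℝ) - 0 : ℂ)) /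
      ((circleMap 0 r θ - 0) - ((r ^ 2 : ℝ) - 0 : ℂ))).re • (f (circleMap 0 r θ)).re := by
    apply intervalIntegral.integral_pos Real.two_pi_pos
    · apply ContinuousOn.mul
      · apply Complex.continuous_re.comp_continuousOn
        apply ContinuousOn.div (by fun_prop) (by fun_prop)
        intro θ _ h8
        have h9 := hcirc θ
        rw [mem_sphere_zero_iff_norm] at h9
        simp only [sub_zero] at h8
        rw [sub_eq_zero] at h8
        rw [h8, Complex.norm_real, Real.norm_of_nonneg (by positivity)] at h9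
        nlinarith
      · exact (Complex.continuous_re.comp (hfc.comp (continuous_circleMap 0 r))).continuousOn
    · intro θ _
      have h9 := hcirc θ
      apply mul_nonneg (hkern hr0 hz1 _ h9).le
      rw [mem_sphere_zero_iff_norm] at h9
      have h10 := hpos (circleMap 0 r θ) (by
        intro h; rw [h] at h9; simp at h9; linarith) (by rw [h9]; exact hz1)
      exact (Complex.le_def.1 h10).1
    · refine ⟨toIcoMod Real.two_pi_pos 0 z.arg, ?_, ?_⟩
      · have h9 := toIcoMod_mem_Ico Real.two_pi_pos 0 z.arg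
        rw [zero_add] at h9
        exact ⟨h9.1, h9.2.le⟩
      · have h9 : circleMap 0 r (toIcoMod Real.two_pi_pos 0 z.arg) = z := by
          have h10 : circleMap 0 r (toIcoMod Real.two_pi_pos 0 z.arg) = circleMap 0 r z.arg := by
            have h11 : toIcoMod Real.two_pi_pos 0 z.arg = z.arg -
              (toIcoDiv Real.two_pi_pos 0 z.arg) • (2 * Real.pi) := rfl
            rw [h11]
            exact (periodic_circleMap 0 r).sub_zsmul_eq _
          rw [h10, circleMap, zero_add]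
          exact Complex.norm_mul_exp_arg_mul_I z
        rw [h9]
        apply mul_pos (hkern hr0 hz1 z (by simp [hr])) hpos2
  exact h7.ne' h6

end Pool.Agent.Lib.MP_d7cc7c_an
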