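import Pool.Agent.Lib.MP_d7cc7c_an.Blow
import Pool.Agent.Lib.MP_d7cc7c_an.Disc
import Pool.Agent.Lib.MP_d7cc7c_an.Hopf

/-!
# The chain rule for polynomial discs, and the application of Hopf's lemma
-/

set_option linter.unusedSectionVars false

namespace Pool.Agent.Lib.MP_d7cc7c_an

open NS MvPolynomial ComplexConjugate ComplexOrder

section Chain

variable {α : Type*} {K : Type*} [CommRing K] [Algebra ℂ K]

theorem deriv_evK_aux (D : Derivation ℂ K K) (a a' : NS α K) (p : Pol α) :
    ∃ S0 : Finset (List α × Bool), ∀ S, S0 ⊆ S →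
      D (evK a a' p) = ∑ v ∈ S, D (pt a a' v) * evK a a' (pderiv v p) := by
  classical
  induction p using MvPolynomial.induction_on with
  | C c =>
    refine ⟨∅, fun S _ => ?_⟩
    have h1 : evK a a' (C c) = algebraMap ℂ K c := by rw [evK, aeval_C]
    rw [h1, Derivation.map_algebraMap]
    symm
    apply Finset.sum_eq_zero
    intro v _
    rw [pderiv_C, map_zero, mul_zero]
  | add p q hp hq =>
    obtain ⟨S1, h1⟩ := hp
    obtain ⟨S2, h2⟩ := hq
    refine ⟨S1 ∪ S2, fun S hS => ?_⟩
    rw [map_add, map_add, h1 S (Finset.union_subset_left hS), h2 S (Finset.union_subset_right hS),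
      ← Finset.sum_add_distrib]
    apply Finset.sum_congr rfl
    intro v _
    rw [map_add, map_add, mul_add]
  | mul_X p v hp =>
    obtain ⟨S1, h1⟩ := hp
    refine ⟨S1 ∪ {v}, fun S hS => ?_⟩
    have hv : v ∈ S := hS (by simp)
    rw [map_mul, Derivation.leibniz, h1 S (Finset.union_subset_left hS), evK_X, smul_eq_mul,
      smul_eq_mul, Finset.mul_sum]
    have h2 : ∀ u ∈ S, D (pt a a' u) * evK a a' (pderiv u (p * X v)) =
        (if u = v then evK a a' p * D (pt a a' v) else 0) +
        pt a a' v * (D (pt a a' u) * evK a a' (pderiv u p)) := by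
      intro u _
      rw [Derivation.leibniz, pderiv_X, smul_eq_mul, smul_eq_mul, map_add, map_mul, map_mul, evK_X]
      by_cases h : u = v
      · subst h
        rw [if_pos rfl, Pi.single_eq_same, map_one]; ring
      · rw [if_neg h, Pi.single_eq_of_ne (Ne.symm h), map_zero]; ring
    rw [Finset.sum_congr rfl h2, Finset.sum_add_distrib, Finset.sum_ite_eq', if_pos hv]

/-- the chain rule -/
theorem deriv_evK (D : Derivation ℂ K K) (a a' : NS α K) (p : Pol α) :
    D (evK a a' p) = ∑ v ∈ p.vars, D (pt a a' v) * evK a a' (pderiv v p) := by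
  classical
  obtain ⟨S0, h⟩ := deriv_evK_aux D a a' p
  rw [h (S0 ∪ p.vars) Finset.subset_union_left]
  symm
  apply Finset.sum_subset Finset.subset_union_right
  intro v _ hv
  rw [pderiv_eq_zero_of_notMem_vars hv, map_zero, mul_zero]

/-- derivative of a moving directional derivative -/
theorem hasDerivAt_D1 (p : Pol α) {a b : ℝ → NS α ℂ} {a' b' : NS α ℂ} {t : ℝ}
    (ha : HasDer a a' t) (hb : HasDer b b' t)
    (h0 : ∀ v ∈ p.vars, D1 (pderiv v p) (a t) a' = 0 ∧ D1b (pderiv v p) (a t) a' = 0) :
    HasDerivAt (fun s => D1 p (a s) (b s)) (D1 p (a t) b') t := by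
  simp_rw [D1_eq_sum]
  apply HasDerivAt.fun_sum
  intro v hv
  have h1 := hasDerivAt_ev (pderiv v p) ha
  rw [(h0 v hv).1, (h0 v hv).2, add_zero] at h1
  by_cases hb2 : v.2 = true
  · simp only [hb2, if_true, zero_mul]
    exact hasDerivAt_const t 0
  · simp only [hb2, Bool.false_eq_true, if_false]
    have h2 := (hb v.1).mul h1
    refine h2.congr_deriv ?_
    ring

theorem pderiv_bd {p : Pol α} : ∃ N, Bd N p ∧ ∀ v ∈ p.vars, Bd N (pderiv v p) := by
  classical
  obtain ⟨N0, h0⟩ := exists_Bd p
  choose f hf using fun v : List α × Bool => exists_Bd (pderiv v p)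
  refine ⟨max N0 (p.vars.sup f), h0.mono (le_max_left _ _), fun v hv => ?_⟩
  exact (hf v).mono ((Finset.le_sup (f := f) hv).trans (le_max_right _ _))

end Chain

section BiPoly

/-- polynomials in a complex variable and its conjugate -/
abbrev BP := MvPolynomial Bool ℂ

/-- evaluation -/
noncomputable def be (z : ℂ) : BP →ₐ[ℂ] ℂ := aeval (fun b => if b then conj z else z)

@[simp] theorem be_X_false (z : ℂ) : be z (X false) = z := by simp [be]
@[simp] theorem be_X_true (z : ℂ) : be z (X true) = conj z := by simp [be]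

theorem be_monomial (z : ℂ) (m : Bool →₀ ℕ) (c : ℂ) :
    be z (monomial m c) = c * z ^ (m false) * conj z ^ (m true) := by
  rw [be, aeval_monomial]
  rw [Finsupp.prod_fintype _ _ (by intro i; simp)]
  simp only [Fintype.prod_bool, if_true, Bool.false_eq_true, if_false]
  have : algebraMap ℂ ℂ c = c := rfl
  rw [this]; ring

theorem be_eq_sum (z : ℂ) (U : BP) :
    be z U = ∑ m ∈ U.support, U.coeff m * z ^ (m false) * conj z ^ (m true) := by
  conv_lhs => rw [U.as_sum]
  rw [map_sum]
  apply Finset.sum_congr rfl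
  intro m _
  rw [be_monomial]

theorem be_pderiv_pderiv (z : ℂ) (U : BP) :
    be z (pderiv true (pderiv false U)) = ∑ m ∈ U.support,
      U.coeff m * (m false) * (m true) * z ^ (m false - 1) * conj z ^ (m true - 1) := by
  conv_lhs => rw [U.as_sum]
  rw [map_sum, map_sum, map_sum]
  apply Finset.sum_congr rfl
  intro m _
  rw [pderiv_monomial, pderiv_monomial, be_monomial]
  have h1 : (m - Finsupp.single false 1 : Bool →₀ ℕ) true = m true := by
    rw [Finsupp.tsub_apply, Finsupp.single_apply]; simp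
  have h2 : (m - Finsupp.single false 1 - Finsupp.single true 1 : Bool →₀ ℕ) false =
      m false - 1 := by
    rw [Finsupp.tsub_apply, Finsupp.tsub_apply, Finsupp.single_apply, Finsupp.single_apply]; simp
  have h3 : (m - Finsupp.single false 1 - Finsupp.single true 1 : Bool →₀ ℕ) true =
      m true - 1 := by
    rw [Finsupp.tsub_apply, Finsupp.tsub_apply, Finsupp.single_apply, Finsupp.single_apply]; simp
  rw [h1, h2, h3]

theorem be_one_pderiv (U : BP) (b : Bool) :
    be 1 (pderiv b U) = ∑ m ∈ U.support, U.coeff m * (m b) := by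
  conv_lhs => rw [U.as_sum]
  rw [map_sum, map_sum]
  apply Finset.sum_congr rfl
  intro m _
  rw [pderiv_monomial, be_monomial]
  simp

/-- holomorphic embedding of polynomials -/
noncomputable def jf : Polynomial ℂ →ₐ[ℂ] BP := Polynomial.aeval (X false)

/-- antiholomorphic embedding of polynomials -/
noncomputable def jt : Polynomial ℂ →ₐ[ℂ] BP := Polynomial.aeval (X true)

theorem be_jf (z : ℂ) (p : Polynomial ℂ) : be z (jf p) = p.eval z := by
  have : (be z).comp jf = Polynomial.aeval z := by
    apply Polynomial.algHom_ext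
    simp [jf]
  have h := congrArg (fun f => f p) this
  simp only [AlgHom.comp_apply] at h
  rw [h, Polynomial.aeval_def, Polynomial.eval₂_eq_eval_map]
  simp

theorem be_jt (z : ℂ) (p : Polynomial ℂ) : be z (jt p) = p.eval (conj z) := by
  have : (be z).comp jt = Polynomial.aeval (conj z) := by
    apply Polynomial.algHom_ext
    simp [jt]
  have h := congrArg (fun f => f p) this
  simp only [AlgHom.comp_apply] at h
  rw [h, Polynomial.aeval_def, Polynomial.eval₂_eq_eval_map]
  simp

theorem pderiv_false_jf (p : Polynomial ℂ) :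
    pderiv false (jf p) = jf (Polynomial.derivative p) := by
  rw [jf, Derivation.map_aeval, pderiv_X_self, smul_eq_mul, mul_one]

theorem pderiv_true_jf (p : Polynomial ℂ) : pderiv true (jf p) = 0 := by
  rw [jf, Derivation.map_aeval, pderiv_X_of_ne (by decide), smul_zero]

theorem pderiv_true_jt (p : Polynomial ℂ) :
    pderiv true (jt p) = jt (Polynomial.derivative p) := by
  rw [jt, Derivation.map_aeval, pderiv_X_self, smul_eq_mul, mul_one]

theorem pderiv_false_jt (p : Polynomial ℂ) : pderiv false (jt p) = 0 := by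
  rw [jt, Derivation.map_aeval, pderiv_X_of_ne (by decide), smul_zero]

end BiPoly

section DiscDeriv

variable {α : Type*}

/-- value of a polynomial disc -/
noncomputable def dval (φ : NS α (Polynomial ℂ)) (z : ℂ) : NS α ℂ :=
  NS.map (Polynomial.evalRingHom z) φ

/-- coefficientwise derivative of a polynomial disc -/
noncomputable def dder (φ : NS α (Polynomial ℂ)) : NS α (Polynomial ℂ) :=
  amap (Polynomial.derivative : Polynomial ℂ →ₗ[ℂ] Polynomial ℂ).toAddMonoidHom φ

@[simp] theorem dval_apply (φ : NS α (Polynomial ℂ)) (z : ℂ) (w : List α) :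
    dval φ z w = (φ w).eval z := rfl

@[simp] theorem dder_apply (φ : NS α (Polynomial ℂ)) (w : List α) :
    dder φ w = Polynomial.derivative (φ w) := rfl

/-- conjugate disc -/
noncomputable def dconj (φ : NS α (Polynomial ℂ)) : NS α (Polynomial ℂ) :=
  NS.map (Polynomial.mapRingHom (starRingEnd ℂ)) φ

/-- the bipolynomial of a polynomial along a disc -/
noncomputable def Ud (p : Pol α) (φ : NS α (Polynomial ℂ)) : BP :=
  evK (NS.map (jf : Polynomial ℂ →+* BP) φ) (NS.map (jt : Polynomial ℂ →+* BP) (dconj φ)) p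

theorem eval_conj (p : Polynomial ℂ) (z : ℂ) :
    (p.map (starRingEnd ℂ)).eval (conj z) = conj (p.eval z) := by
  rw [Polynomial.eval_map, Polynomial.eval₂_at_apply]

theorem map_be_jf (φ : NS α (Polynomial ℂ)) (z : ℂ) :
    NS.map ((be z : BP →ₐ[ℂ] ℂ) : BP →+* ℂ) (NS.map (jf : Polynomial ℂ →+* BP) φ) = dval φ z := by
  ext1 w
  simp only [map_apply, RingHom.coe_coe]
  rw [be_jf]; rfl

theorem map_be_jt (φ : NS α (Polynomial ℂ)) (z : ℂ) :
    NS.map ((be z : BP →ₐ[ℂ] ℂ) : BP →+* ℂ) (NS.map (jt : Polynomial ℂ →+* BP) (dconj φ)) =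
      cc (dval φ z) := by
  ext1 w
  simp only [map_apply, RingHom.coe_coe, dconj, Polynomial.coe_mapRingHom]
  rw [be_jt, eval_conj]; rfl

theorem be_evK (p : Pol α) (φ : NS α (Polynomial ℂ)) (z : ℂ) :
    be z (evK (NS.map (jf : Polynomial ℂ →+* BP) φ)
      (NS.map (jt : Polynomial ℂ →+* BP) (dconj φ)) p) = ev (dval φ z) p := by
  rw [evK_comp, map_be_jf, map_be_jt]; rfl

theorem be_Ud (p : Pol α) (φ : NS α (Polynomial ℂ)) (z : ℂ) :
    be z (Ud p φ) = ev (dval φ z) p := be_evK p φ z

theorem be_pderiv_false_Ud (p : Pol α) (φ : NS α (Polynomial ℂ)) (z : ℂ) :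
    be z (pderiv false (Ud p φ)) = D1 p (dval φ z) (dval (dder φ) z) := by
  rw [Ud, deriv_evK, map_sum, D1_eq_sum]
  apply Finset.sum_congr rfl
  rintro ⟨w, b⟩ _
  rw [map_mul, be_evK]
  cases b
  · simp only [pt_false, map_apply, RingHom.coe_coe, pderiv_false_jf, be_jf, Bool.false_eq_true,
      if_false, dval_apply, dder_apply]
  · simp only [pt_true, map_apply, RingHom.coe_coe, pderiv_false_jt, map_zero, if_true]

theorem be_pderiv_true_Ud (p : Pol α) (φ : NS α (Polynomial ℂ)) (z : ℂ) :
    be z (pderiv true (Ud p φ)) = D1b p (dval φ z) (dval (dder φ) z) := by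
  rw [Ud, deriv_evK, map_sum, D1b_eq_sum]
  apply Finset.sum_congr rfl
  rintro ⟨w, b⟩ _
  rw [map_mul, be_evK]
  cases b
  · simp only [pt_false, map_apply, RingHom.coe_coe, pderiv_true_jf, map_zero,
      Bool.false_eq_true, if_false]
  · simp only [pt_true, map_apply, RingHom.coe_coe, pderiv_true_jt, be_jt, if_true, dval_apply,
      dder_apply, dconj, Polynomial.coe_mapRingHom]
    rw [Polynomial.derivative_map, eval_conj]

theorem D1b_sum_left {ι : Type*} (s : Finset ι) (p : ι → Pol α) (h u : NS α ℂ) :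
    D1b (∑ i ∈ s, p i) h u = ∑ i ∈ s, D1b (p i) h u := by
  simp [D1b]

theorem be_pderiv_pderiv_Ud (p : Pol α) (φ : NS α (Polynomial ℂ)) (z : ℂ) :
    be z (pderiv true (pderiv false (Ud p φ))) =
      Lev p (dval φ z) (dval (dder φ) z) (dval (dder φ) z) := by
  have h1 : pderiv false (Ud p φ) = ∑ v ∈ p.vars,
      (if v.2 then 0 else jf (dder φ v.1)) * Ud (pderiv v p) φ := by
    rw [Ud, deriv_evK]
    apply Finset.sum_congr rfl
    rintro ⟨w, b⟩ _
    cases b
    · simp only [pt_false, map_apply, RingHom.coe_coe, pderiv_false_jf, Bool.false_eq_true,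
        if_false, dder_apply]
      rfl
    · simp only [pt_true, map_apply, RingHom.coe_coe, pderiv_false_jt, if_true]
      rfl
  rw [h1, map_sum, map_sum, Lev_eq_D1b, dv, mkDerivation_eq_sum, D1b_sum_left]
  apply Finset.sum_congr rfl
  rintro ⟨w, b⟩ _
  rw [Derivation.leibniz, map_add, smul_eq_mul, smul_eq_mul, map_mul, map_mul,
    be_pderiv_true_Ud]
  cases b
  · simp only [Bool.false_eq_true, if_false, pderiv_true_jf, map_zero, mul_zero, add_zero, be_jf]
    rw [cst_apply, C_mul', D1b_smul]; rfl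
  · simp only [if_true, map_zero, zero_mul, mul_zero, add_zero]
    simp [D1b]

end DiscDeriv

end Pool.Agent.Lib.MP_d7cc7c_an
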