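import Pool.Agent.Lib.MP_d7cc7c_an.Local

/-!
# Comparison of the modules of vector fields
-/

set_option linter.unusedSectionVars false

namespace Pool.Agent.Lib.MP_d7cc7c_an

open NS ComplexConjugate Filter Topology
open scoped ContDiff

section Gen

variable {n : ℕ} (H : Hyp n) {S : Set (VF n)}

theorem gen_of_mem {X : VF n} (hX : ContDiffOn ℝ ∞ X H.U) (h : X ∈ S) : X ∈ H.gen S := by
  refine ⟨hX, 1, fun _ _ => 1, fun _ => X, fun _ => ⟨contDiffOn_const, h⟩, fun z _ => ?_⟩
  simp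

theorem contDiffOn_smul_vf {U : Set (Fin n → ℂ)} {f : (Fin n → ℂ) → ℂ} {X : VF n}
    (hf : ContDiffOn ℝ ∞ f U) (hX : ContDiffOn ℝ ∞ X U) :
    ContDiffOn ℝ ∞ (fun z => f z • X z) U := by
  apply contDiffOn_of_comp
  · intro k
    exact hf.mul (contDiffOn_fst hX k)
  · intro k
    exact hf.mul (contDiffOn_snd hX k)

theorem gen_smul {X : VF n} (hX : X ∈ H.gen S) {f : (Fin n → ℂ) → ℂ}
    (hf : ContDiffOn ℝ ∞ f H.U) : (fun z => f z • X z) ∈ H.gen S := by
  obtain ⟨h1, m, g, Y, h2, h3⟩ := hX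
  refine ⟨contDiffOn_smul_vf hf h1, m, fun i z => f z * g i z, Y,
    fun i => ⟨hf.mul (h2 i).1, (h2 i).2⟩, fun z hz => ?_⟩
  show f z • X z = _
  rw [h3 z hz, Finset.smul_sum]
  exact Finset.sum_congr rfl fun i _ => by rw [smul_smul]

variable {s : ℕ} {B : (Fin n → ℂ) → Submodule ℂ (Fin n → ℂ)}

theorem mod1_smooth {X : VF n} (hX : X ∈ H.mod1 B) : ContDiffOn ℝ ∞ X H.U := hX.1

theorem mod1_mem {X : VF n} (hX : X ∈ H.mod1 B) {z : Fin n → ℂ} (hz : z ∈ H.M) :
    (X z).1 ∈ B z ∧ (fun k => conj ((X z).2 k)) ∈ B z := by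
  obtain ⟨_, m, g, Y, h2, h3⟩ := hX
  rw [h3 z hz]
  have h4 : ∀ i, (Y i z).1 ∈ B z ∧ (fun k => conj ((Y i z).2 k)) ∈ B z := by
    intro i
    rcases (h2 i).2 with h | ⟨L, hL, h⟩
    · refine ⟨(h.2 z hz).1, ?_⟩
      rw [(h.2 z hz).2]
      have : (fun k : Fin n => conj ((0 : Fin n → ℂ) k)) = 0 := by
        funext k; simp
      rw [this]; exact zero_mem _
    · rw [h]
      constructor
      · show (fun j => conj ((L z).2 j)) ∈ B z
        rw [(hL.2 z hz).2]
        have : (fun k : Fin n => conj ((0 : Fin n → ℂ) k)) = 0 := by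
          funext k; simp
        rw [this]; exact zero_mem _
      · show (fun k => conj (conj ((L z).1 k))) ∈ B z
        simp only [Complex.conj_conj]
        exact (hL.2 z hz).1
  constructor
  · rw [Prod.fst_sum]
    refine sum_mem fun i _ => ?_
    exact Submodule.smul_mem _ _ (h4 i).1
  · have h5 : (fun k => conj ((∑ i, g i z • Y i z).2 k)) =
        ∑ i, conj (g i z) • (fun k => conj ((Y i z).2 k)) := by
      funext k
      rw [Prod.snd_sum, Finset.sum_apply, Finset.sum_apply, map_sum]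
      exact Finset.sum_congr rfl fun i _ => by
        rw [Prod.smul_snd, Pi.smul_apply, smul_eq_mul, map_mul]; rfl
    rw [h5]
    exact sum_mem fun i _ => Submodule.smul_mem _ _ (h4 i).2

theorem nested_smooth {k : ℕ} {X : VF n} (h : Hyp.Nested (H.mod1 B) k X) :
    ContDiffOn ℝ ∞ X H.U := by
  induction h with
  | one h => exact h.1
  | step h _ ih => exact contDiffOn_comm H.isOpen h.1 ih

theorem nested_pos {S : Set (VF n)} {k : ℕ} {X : VF n} (h : Hyp.Nested S k X) : 1 ≤ k := by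
  cases h with
  | one _ => exact le_rfl
  | step _ _ => omega

end Gen

section Fields

variable {n s : ℕ} (H : Hyp n) {B : (Fin n → ℂ) → Submodule ℂ (Fin n → ℂ)} {p : Fin n → ℂ}
  (a : Fin s → Fin n → Sm n) {Φ : Fin s → Fin n → ℂ}

/-- the global vector field with given smooth components -/
def vfield (b : Fin n × Bool → Sm n) : VF n := fun z =>
  (fun k => (b (k, false) : (Fin n → ℂ) → ℂ) z, fun k => (b (k, true) : (Fin n → ℂ) → ℂ) z)

theorem ap_vfield (b : Fin n × Bool → Sm n) : Ap p (vfield b) b :=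
  Eventually.of_forall fun _ => ⟨fun _ => rfl, fun _ => rfl⟩

theorem vfield_smooth (b : Fin n × Bool → Sm n) (U : Set (Fin n → ℂ)) :
    ContDiffOn ℝ ∞ (vfield b) U := by
  apply contDiffOn_of_comp
  · intro k; exact (smc (b (k, false))).contDiffOn
  · intro k; exact (smc (b (k, true))).contDiffOn

/-- the global field of type `(1,0)` with given smooth components -/
def sfield (l : Fin n → Sm n) : VF n := fun z =>
  (fun k => (l k : (Fin n → ℂ) → ℂ) z, 0)

theorem sfield_smooth (l : Fin n → Sm n) (U : Set (Fin n → ℂ)) :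
    ContDiffOn ℝ ∞ (sfield l) U := by
  apply contDiffOn_of_comp
  · intro k; exact (smc (l k)).contDiffOn
  · intro k; exact contDiffOn_const

variable (B) in
/-- the fields with smooth components which lie in the module -/
def Es : Set (Fin n × Bool → Sm n) := {b | vfield b ∈ H.mod1 B}

variable (B) in
/-- the sections with smooth components -/
def Ss : Set (Fin n → Sm n) := {l | H.IsSec B (sfield l)}

theorem Es_smul (g : Sm n) (b : Fin n × Bool → Sm n) (hb : b ∈ Es H B) : g • b ∈ Es H B := by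
  have h1 : vfield b ∈ H.mod1 B := hb
  have h2 := gen_smul H h1 (f := (g : (Fin n → ℂ) → ℂ)) (smc g).contDiffOn
  exact h2

theorem Ss_smul (g : Sm n) (l : Fin n → Sm n) (hl : l ∈ Ss H B) : g • l ∈ Ss H B := by
  have h1 : H.IsSec B (sfield l) := hl
  refine ⟨sfield_smooth _ _, fun z hz => ⟨?_, rfl⟩⟩
  have h2 : (sfield (g • l) z).1 = (g : (Fin n → ℂ) → ℂ) z • (sfield l z).1 := rfl
  rw [h2]
  exact Submodule.smul_mem _ _ (h1.2 z hz).1

variable (ha : ∀ z ∈ H.M, ∀ i, (fun k => (a i k : (Fin n → ℂ) → ℂ) z) ∈ B z)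

include ha

theorem Ss_comb (c : Fin s → ℂ) : (fun m => ∑ i, c i • (jd p a).cf i m) ∈ Ss H B := by
  refine ⟨sfield_smooth _ _, fun z hz => ⟨?_, rfl⟩⟩
  have h2 : (sfield (fun m => ∑ i, c i • (jd p a).cf i m) z).1 =
      ∑ i, c i • (fun k => (a i k : (Fin n → ℂ) → ℂ) z) := by
    funext k
    show ((∑ i, c i • (jd p a).cf i k : Sm n) : (Fin n → ℂ) → ℂ) z = _
    rw [sm_sum_apply, Finset.sum_apply]
    rfl
  rw [h2]
  exact sum_mem fun i _ => Submodule.smul_mem _ _ (ha z hz i)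

theorem isSec_sfield (i : Fin s) : H.IsSec B (sfield (a i)) :=
  ⟨sfield_smooth _ _, fun z hz => ⟨ha z hz i, rfl⟩⟩

theorem cx_mem_Es (x : Lt s) : (jd p a).cx x ∈ Es H B := by
  obtain ⟨i, b⟩ := x
  show vfield ((jd p a).cx (i, b)) ∈ H.mod1 B
  apply gen_of_mem H (vfield_smooth _ _)
  cases b
  · left
    have h1 : vfield ((jd p a).cx (i, false)) = sfield (a i) := by
      funext z
      refine Prod.ext ?_ ?_
      · funext k
        show ((jd p a).cx (i, false) (k, false) : (Fin n → ℂ) → ℂ) z = _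
        rfl
      · funext k
        show ((jd p a).cx (i, false) (k, true) : (Fin n → ℂ) → ℂ) z = 0
        rfl
    rw [h1]
    exact isSec_sfield H a ha i
  · right
    refine ⟨sfield (a i), isSec_sfield H a ha i, ?_⟩
    funext z
    refine Prod.ext ?_ ?_
    · funext k
      show ((jd p a).cx (i, true) (k, false) : (Fin n → ℂ) → ℂ) z = conj ((0 : Fin n → ℂ) k)
      rw [Pi.zero_apply, map_zero]
      rfl
    · funext k
      show ((jd p a).cx (i, true) (k, true) : (Fin n → ℂ) → ℂ) z = _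
      rfl

omit ha

variable (hΦ : ∀ᶠ z in 𝓝 p, z ∈ H.M → ∀ ξ ∈ B z, ∀ k,
  ξ k = ∑ i, (∑ m, Φ i m * ξ m) * (a i k : (Fin n → ℂ) → ℂ) z)

include hΦ

theorem section_coeff {L : VF n} {l : Fin n → Sm n}
    (hL : ∀ᶠ z in 𝓝 p, z ∈ H.M → (L z).1 ∈ B z)
    (hl : ∀ᶠ z in 𝓝 p, ∀ k, (L z).1 k = (l k : (Fin n → ℂ) → ℂ) z) (m : Fin n) :
    l m - ∑ i, (∑ k, Φ i k • l k) * (jd p a).cf i m ∈ IM H p := by
  rw [mem_IM]
  filter_upwards [hL, hl, hΦ] with z h1 h2 h3 hz
  have h4 := h3 hz _ (h1 hz) m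
  show (l m : (Fin n → ℂ) → ℂ) z -
    ((∑ i, (∑ k, Φ i k • l k) * (jd p a).cf i m : Sm n) : (Fin n → ℂ) → ℂ) z = 0
  rw [sm_sum_apply, ← h2, h4, sub_eq_zero]
  refine Finset.sum_congr rfl fun i _ => ?_
  show _ = ((∑ k, Φ i k • l k : Sm n) : (Fin n → ℂ) → ℂ) z * (a i m : (Fin n → ℂ) → ℂ) z
  rw [sm_sum_apply]
  congr 1
  refine Finset.sum_congr rfl fun k _ => ?_
  show _ = Φ i k * (l k : (Fin n → ℂ) → ℂ) z
  rw [h2]

theorem E1_of_mem {X : VF n} {b : Fin n × Bool → Sm n} (hX : X ∈ H.mod1 B) (hb : Ap p X b) :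
    (jd p a).E1 (IM H p) b := by
  refine ⟨fun x => if x.2 then ∑ k, conj (Φ x.1 k) • b (k, true)
    else ∑ k, Φ x.1 k • b (k, false), ?_⟩
  rintro ⟨m, c⟩
  have hsplit : ∑ x : Lt s, (if x.2 then ∑ k, conj (Φ x.1 k) • b (k, true)
      else ∑ k, Φ x.1 k • b (k, false)) * (jd p a).cx x (m, c) =
      ∑ i, (∑ k, conj (Φ i k) • b (k, true)) * (jd p a).cx (i, true) (m, c) +
      ∑ i, (∑ k, Φ i k • b (k, false)) * (jd p a).cx (i, false) (m, c) := by
    rw [JD.sum_fin_bool]; rfl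
  rw [hsplit]
  cases c
  · have h1 : ∑ i, (∑ k, conj (Φ i k) • b (k, true)) * (jd p a).cx (i, true) (m, false) = 0 :=
      Finset.sum_eq_zero fun i _ => by
        have : (jd p a).cx (i, true) (m, false) = 0 := rfl
        rw [this, mul_zero]
    rw [h1, zero_add]
    exact section_coeff H a hΦ (L := X) (l := fun k => b (k, false))
      (Eventually.of_forall fun z hz => (mod1_mem H hX hz).1) (hb.mono fun z hz => hz.1) m
  · have h1 : ∑ i, (∑ k, Φ i k • b (k, false)) * (jd p a).cx (i, false) (m, true) = 0 :=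
      Finset.sum_eq_zero fun i _ => by
        have : (jd p a).cx (i, false) (m, true) = 0 := rfl
        rw [this, mul_zero]
    rw [h1, add_zero]
    have h2 := section_coeff H a hΦ (L := X.bar) (l := fun k => coS (b (k, true)))
      (Eventually.of_forall fun z hz => (mod1_mem H hX hz).2)
      (hb.mono fun z hz k => by
        show conj ((X z).2 k) = _
        rw [hz.2 k]; rfl) m
    have h3 := IM_co H h2
    rw [map_sub, coS_coS, map_sum] at h3
    have h4 : ∑ i, coS ((∑ k, Φ i k • coS (b (k, true))) * (jd p a).cf i m) =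
        ∑ i, (∑ k, conj (Φ i k) • b (k, true)) * (jd p a).cx (i, true) (m, true) := by
      refine Finset.sum_congr rfl fun i _ => ?_
      rw [map_mul, map_sum]
      have h5 : ∀ k, coS (Φ i k • coS (b (k, true))) = conj (Φ i k) • b (k, true) := by
        intro k
        rw [coS_smul, coS_coS]
      rw [Finset.sum_congr rfl fun k _ => h5 k]
      rfl
    rw [h4] at h3
    exact h3

end Fields

section Types

variable {n s : ℕ} (H : Hyp n) {B : (Fin n → ℂ) → Submodule ℂ (Fin n → ℂ)} {p : Fin n → ℂ}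
  (a : Fin s → Fin n → Sm n) {Φ : Fin s → Fin n → ℂ} {ρ' : Sm n}
  (hρ : (fun z => (H.ρ z : ℂ)) =ᶠ[𝓝 p] (ρ' : (Fin n → ℂ) → ℂ))
  (ha : ∀ z ∈ H.M, ∀ i, (fun k => (a i k : (Fin n → ℂ) → ℂ) z) ∈ B z)
  (hΦ : ∀ᶠ z in 𝓝 p, z ∈ H.M → ∀ ξ ∈ B z, ∀ k,
    ξ k = ∑ i, (∑ m, Φ i m * ξ m) * (a i k : (Fin n → ℂ) → ℂ) z)
  (hle : ∀ z ∈ H.M, B z ≤ H.T10 z)

include hρ in
theorem pair_eq {X : VF n} {b : Fin n × Bool → Sm n} (hb : Ap p X b) :
    H.pair X p = (jd p a).pr ρ' b := by
  rw [Hyp.pair, JD.pr]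
  have h1 := (rz_ev H hρ).self_of_nhds
  have h2 := hb.self_of_nhds
  refine Finset.sum_congr rfl fun k _ => ?_
  rw [h1, h2.1]; rfl

include hρ in
theorem leviFn_ev {L : VF n} {l : Fin n → Sm n}
    (hl : ∀ᶠ z in 𝓝 p, ∀ k, (L z).1 k = (l k : (Fin n → ℂ) → ℂ) z) :
    H.leviFn L =ᶠ[𝓝 p] ((jd p a).Lam l ρ' : (Fin n → ℂ) → ℂ) := by
  filter_upwards [hl, rzz_ev H hρ] with z h1 h2
  rw [Hyp.leviFn, Hyp.levi, JD.Lam, sm_sum_apply]
  refine Finset.sum_congr rfl fun k _ => ?_
  rw [sm_sum_apply]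
  refine Finset.sum_congr rfl fun m _ => ?_
  rw [h1 k, h1 m, h2 k m]
  show _ = (l k : (Fin n → ℂ) → ℂ) z * conj ((l m : (Fin n → ℂ) → ℂ) z) *
    (wir (m, true) (wir (k, false) ρ') : (Fin n → ℂ) → ℂ) z
  ring

theorem foldr_ev {F : List (VF n)} {bs : List (Fin n × Bool → Sm n)}
    (h : List.Forall₂ (Ap p) F bs) {f : (Fin n → ℂ) → ℂ} {G : Sm n}
    (hf : f =ᶠ[𝓝 p] (G : (Fin n → ℂ) → ℂ)) :
    F.foldr VF.app f =ᶠ[𝓝 p] ((jd p a).fold bs G : (Fin n → ℂ) → ℂ) := by
  induction h with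
  | nil => exact hf
  | cons h1 _ ih => exact app_ap a h1 ih

include hρ ha hΦ hle in
/-- the commutator side -/
theorem comm_side (hp : p ∈ H.M) {m : ℕ} (hm : 1 ≤ m) :
    (∀ G ∈ H.modc B m, H.pair G p = 0) ↔ (jd p a).TT ρ' m := by
  have haT : ∀ᶠ z in 𝓝 p, z ∈ H.M → ∀ i, (fun k => (a i k : (Fin n → ℂ) → ℂ) z) ∈ H.T10 z :=
    Eventually.of_forall fun z hz i => hle z hz (ha z hz i)
  have hD := IM_D H a haT
  constructor
  · intro h
    rw [JD.TT_iff_pr]
    intro j hj Z hZ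
    have h1 := (jd p a).bz_mem_span
      (S := fun j => {b | ∃ X, Hyp.Nested (H.mod1 B) j X ∧ Ap p X b})
      (fun x => ⟨vfield ((jd p a).cx x), Hyp.Nested.one (cx_mem_Es H a ha x), ap_vfield _⟩)
      (fun j x b hb => by
        obtain ⟨X, hX, hXb⟩ := hb
        exact ⟨(vfield ((jd p a).cx x)).comm X, Hyp.Nested.step (cx_mem_Es H a ha x) hX,
          comm_ap a (ap_vfield _) hXb⟩) j hZ
    refine Submodule.span_induction (p := fun b _ => (jd p a).pr ρ' b = 0) ?_ ?_ ?_ ?_ h1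
    · rintro b ⟨X, hX, hXb⟩
      rw [← pair_eq H a hρ hXb]
      apply h
      apply gen_of_mem H (nested_smooth H hX)
      rcases Nat.lt_or_ge 1 j with hj1 | hj1
      · right
        exact ⟨j, by omega, hj, hX⟩
      · left
        have := nested_pos hX
        have hj2 : j = 1 := by omega
        subst hj2
        cases hX with
        | one h => exact h
        | step _ h => exact absurd (nested_pos h) (by omega)
    · exact (jd p a).pr_zero ρ'
    · intro b b' _ _ hb hb'; rw [JD.pr_add, hb, hb', add_zero]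
    · intro c b _ hb; rw [JD.pr_csmul, hb, mul_zero]
  · intro hT G hG
    have key : ∀ (k : ℕ) (X : VF n), Hyp.Nested (H.mod1 B) k X →
        ∀ b, Ap p X b → (jd p a).LL (IM H p) k b := by
      intro k X hX
      induction hX with
      | one h =>
        intro b hb
        exact (jd p a).LL_of_E1 (E1_of_mem H a hΦ h hb) le_rfl
      | @step k Y X hY hX ih =>
        intro b hb
        obtain ⟨bY, hbY⟩ := exists_ap H.isOpen hp.1 (mod1_smooth H hY)
        obtain ⟨bX, hbX⟩ := exists_ap H.isOpen hp.1 (nested_smooth H hX)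
        have h1 := (jd p a).LL_bv hD (E1_of_mem H a hΦ hY hbY) (ih bX hbX)
        obtain ⟨c, hc, hcc⟩ := h1
        refine ⟨c, hc, fun κ => ?_⟩
        have h2 := comm_ap a hbY hbX
        have h3 : b κ - (jd p a).bv bY bX κ ∈ IM H p := by
          apply IM_of_eventuallyEq
          filter_upwards [hb, h2] with z e1 e2
          obtain ⟨k, c⟩ := κ
          cases c
          · rw [← e1.1 k, ← e2.1 k]
          · rw [← e1.2 k, ← e2.2 k]
        have h4 : b κ - c κ = (b κ - (jd p a).bv bY bX κ) + ((jd p a).bv bY bX κ - c κ) := by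
          ring
        rw [h4]
        exact add_mem h3 (hcc κ)
    have hpair : ∀ (k : ℕ) (X : VF n), k ≤ m → Hyp.Nested (H.mod1 B) k X →
        H.pair X p = 0 := by
      intro k X hk hX
      obtain ⟨b, hb⟩ := exists_ap H.isOpen hp.1 (nested_smooth H hX)
      rw [pair_eq H a hρ hb]
      exact (jd p a).pr_LL (fun F hF => IM_pe H hp hF)
        (fun j hj Z hZ => hT j (hj.trans hk) Z hZ) (key k X hX b hb)
    obtain ⟨_, N, f, Y, h2, h3⟩ := hG
    have h4 : H.pair G p = ∑ i, f i p * H.pair (Y i) p := by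
      rw [Hyp.pair, h3 p hp]
      simp only [Hyp.pair, Prod.fst_sum, Finset.sum_apply, Finset.mul_sum, Finset.sum_mul]
      rw [Finset.sum_comm]
      refine Finset.sum_congr rfl fun i _ => Finset.sum_congr rfl fun j _ => ?_
      rw [Prod.smul_fst, Pi.smul_apply, smul_eq_mul, mul_assoc]
    rw [h4]
    refine Finset.sum_eq_zero fun i _ => ?_
    have h5 : H.pair (Y i) p = 0 := by
      rcases (h2 i).2 with h | ⟨k, _, hk, hX⟩
      · exact hpair 1 _ hm (Hyp.Nested.one h)
      · exact hpair k _ hk hX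
    rw [h5, mul_zero]

include hρ ha hΦ hle in
/-- the Levi form side -/
theorem levi_side (hp : p ∈ H.M) (hs : 0 < s)
    (hli : ∀ c : Fin s → ℂ, (∀ m, ∑ i, c i * (a i m : (Fin n → ℂ) → ℂ) p = 0) → c = 0)
    (k : ℕ) : H.LeviVanish B p k ↔ (jd p a).CC ρ' (k + 2) := by
  have haT : ∀ᶠ z in 𝓝 p, z ∈ H.M → ∀ i, (fun k => (a i k : (Fin n → ℂ) → ℂ) z) ∈ H.T10 z :=
    Eventually.of_forall fun z hz i => hle z hz (ha z hz i)
  have hD := IM_D H a haT
  constructor
  · intro h
    refine (jd p a).CC_of_PP (Es := Es H B) (Ss := Ss H B) (Es_smul H) (Ss_smul H)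
      (cx_mem_Es H a ha) (Ss_comb H a ha) hli hs ?_
    intro bs hlen hbs l hl hlne
    have h1 := h (bs.map vfield) (by simp [hlen]) (by
      intro X hX
      obtain ⟨b, hb, rfl⟩ := List.mem_map.1 hX
      exact hbs b hb) (sfield l) hl (by
      obtain ⟨m, hm⟩ := hlne
      intro h0
      exact hm (congrFun h0 m))
    have h2 : List.Forall₂ (Ap p) (bs.map vfield) bs := by
      have : ∀ bs : List (Fin n × Bool → Sm n), List.Forall₂ (Ap p) (bs.map vfield) bs := by
        intro bs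
        induction bs with
        | nil => exact List.Forall₂.nil
        | cons b bs ih => exact List.Forall₂.cons (ap_vfield b) ih
      exact this bs
    have h3 := foldr_ev a h2 (leviFn_ev H a hρ (L := sfield l) (l := l)
      (Eventually.of_forall fun z k => rfl))
    rw [h3.self_of_nhds] at h1
    exact h1
  · intro hC F hlen hF L hL _
    have h1 : ∀ F : List (VF n), (∀ X ∈ F, X ∈ H.mod1 B) →
        ∃ bs : List (Fin n × Bool → Sm n), List.Forall₂ (Ap p) F bs ∧
          ∀ b ∈ bs, (jd p a).E1 (IM H p) b := by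
      intro F
      induction F with
      | nil => intro _; exact ⟨[], List.Forall₂.nil, fun b hb => absurd hb (by simp)⟩
      | cons X F ih =>
        intro hF
        obtain ⟨bs, h1, h2⟩ := ih fun Y hY => hF Y (List.mem_cons_of_mem _ hY)
        have hX := hF X List.mem_cons_self
        obtain ⟨b, hb⟩ := exists_ap H.isOpen hp.1 (mod1_smooth H hX)
        refine ⟨b :: bs, List.Forall₂.cons hb h1, fun c hc => ?_⟩
        rcases List.mem_cons.1 hc with h | h
        · rw [h]; exact E1_of_mem H a hΦ hX hb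
        · exact h2 c h
    obtain ⟨bs, hbs1, hbs2⟩ := h1 F hF
    obtain ⟨b, hb⟩ := exists_ap H.isOpen hp.1 hL.1
    set l : Fin n → Sm n := fun k => b (k, false) with hl
    have hlev : ∀ᶠ z in 𝓝 p, ∀ k, (L z).1 k = (l k : (Fin n → ℂ) → ℂ) z :=
      hb.mono fun z hz => hz.1
    have h2 := foldr_ev a hbs1 (leviFn_ev H a hρ hlev)
    rw [h2.self_of_nhds]
    have hlen2 : bs.length = k := by rw [← hbs1.length_eq, hlen]
    have h3 : (jd p a).JJ (0 + bs.length) ((jd p a).Lam l ρ') := by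
      rw [zero_add, hlen2]
      exact (jd p a).JJ_Lam hD (fun F hF => IM_pe H hp hF) (fun F hF => IM_co H hF)
        ((jd p a).CC_iff_JJ.1 hC)
        (section_coeff H a hΦ (Eventually.of_forall fun z hz => (hL.2 z hz).1) hlev)
    exact (jd p a).JJ_fold hD (fun F hF => IM_pe H hp hF) bs hbs2 h3

end Types

end Pool.Agent.Lib.MP_d7cc7c_an
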