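import Pool.Agent.Lib.MP_d7cc7c_an.Poly

/-!
# Curves in the space of series and the chain rule
-/

set_option linter.unusedSectionVars false

namespace Pool.Agent.Lib.MP_d7cc7c_an

open NS MvPolynomial ComplexConjugate

section Curves

variable {α : Type*}

/-- coordinatewise derivative of a curve of series -/
def HasDer (c : ℝ → NS α ℂ) (c' : NS α ℂ) (t : ℝ) : Prop :=
  ∀ w, HasDerivAt (fun s => c s w) (c' w) t

theorem HasDer.const (f : NS α ℂ) (t : ℝ) : HasDer (fun _ => f) 0 t := fun w => by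
  simpa using hasDerivAt_const t (f w)

theorem HasDer.add {c d : ℝ → NS α ℂ} {c' d' : NS α ℂ} {t : ℝ} (hc : HasDer c c' t)
    (hd : HasDer d d' t) : HasDer (fun s => c s + d s) (c' + d') t := fun w => by
  exact (hc w).add (hd w)

theorem HasDer.smul {c : ℝ → NS α ℂ} {c' : NS α ℂ} {t : ℝ} (a : ℂ) (hc : HasDer c c' t) :
    HasDer (fun s => a • c s) (a • c') t := fun w => by
  simpa using (hc w).const_mul a

theorem HasDer.mul {c d : ℝ → NS α ℂ} {c' d' : NS α ℂ} {t : ℝ} (hc : HasDer c c' t)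
    (hd : HasDer d d' t) : HasDer (fun s => c s * d s) (c' * d t + c t * d') t := by
  intro w
  induction w generalizing c c' with
  | nil => exact (hc []).mul (hd [])
  | cons x w ih =>
    have h1 : HasDer (fun s => shift x (c s)) (shift x c') t := fun u => hc (x :: u)
    have h2 := ih h1
    have h3 := ((hc []).mul (hd (x :: w))).add h2
    have h4 : (fun s => (c s * d s) (x :: w)) =
        fun s => c s [] * d s (x :: w) + (shift x (c s) * d s) w := by
      funext s; exact mul_cons _ _ _ _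
    rw [h4]
    refine HasDerivAt.congr_deriv h3 ?_
    rw [NS.add_app, NS.add_app, mul_cons, mul_cons]
    ring

theorem HasDer.mul_const {c : ℝ → NS α ℂ} {c' : NS α ℂ} {t : ℝ} (hc : HasDer c c' t)
    (d : NS α ℂ) : HasDer (fun s => c s * d) (c' * d) t := by
  have := hc.mul (HasDer.const d t)
  rwa [mul_zero, add_zero] at this

theorem HasDer.const_mul {d : ℝ → NS α ℂ} {d' : NS α ℂ} {t : ℝ} (c : NS α ℂ)
    (hd : HasDer d d' t) : HasDer (fun s => c * d s) (c * d') t := by
  have := (HasDer.const c t).mul hd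
  rwa [zero_mul, zero_add] at this

theorem hasDer_line (h u : NS α ℂ) (t : ℝ) : HasDer (fun s => h + (s : ℂ) • u) u t := fun w => by
  have h1 : HasDerivAt (fun s : ℝ => (s : ℂ)) 1 t := Complex.ofRealCLM.hasDerivAt
  have h2 := (h1.mul_const (u w)).const_add (h w)
  simpa using h2

theorem hasDer_nexp_zero {a : NS α ℂ} (ha : a [] = 0) :
    HasDer (fun s => nexp ((s : ℂ) • a)) a 0 := by
  intro w
  have h1 : ∀ s : ℝ, nexp ((s : ℂ) • a) w =
      ∑ n ∈ Finset.range (w.length + 2), (PowerSeries.coeff n (PowerSeries.exp ℂ) * (a ^ n) w) *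
        (s : ℂ) ^ n := by
    intro s
    rw [nexp, psub_apply_of_lt (by simp [ha]) _ w (N := w.length + 2) (by omega)]
    apply Finset.sum_congr rfl
    intro n _
    rw [smul_pow, NS.smul_app, smul_eq_mul]
    ring
  simp_rw [h1]
  have h2 : HasDerivAt (fun s : ℝ => (s : ℂ)) 1 0 := Complex.ofRealCLM.hasDerivAt
  have h3 : HasDerivAt (fun s : ℝ => ∑ n ∈ Finset.range (w.length + 2),
      (PowerSeries.coeff n (PowerSeries.exp ℂ) * (a ^ n) w) * (s : ℂ) ^ n)
      (∑ n ∈ Finset.range (w.length + 2),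
      (PowerSeries.coeff n (PowerSeries.exp ℂ) * (a ^ n) w) * ((n : ℂ) * ((0 : ℝ) : ℂ) ^ (n - 1) * 1))
      0 := by
    apply HasDerivAt.fun_sum
    intro n _
    exact (h2.pow n).const_mul _
  convert h3 using 1
  rw [Finset.sum_eq_single 1]
  · simp [PowerSeries.coeff_exp]
  · intro n _ hn
    rcases Nat.eq_zero_or_pos n with h | h
    · subst h; simp
    · have : n - 1 ≠ 0 := by omega
      simp [this]
  · intro h; simp at h

theorem HasDer.comp_sub_const {c : ℝ → NS α ℂ} {c' : NS α ℂ} {t : ℝ} (h : HasDer c c' 0) :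
    HasDer (fun s => c (s - t)) c' t := fun w => by
  have h1 : HasDerivAt (fun s => c s w) (c' w) (t - t) := by rw [sub_self]; exact h w
  exact HasDerivAt.comp_sub_const t t h1

theorem hasDer_nexp {a : NS α ℂ} (ha : a [] = 0) (t : ℝ) :
    HasDer (fun s => nexp ((s : ℂ) • a)) (a * nexp ((t : ℂ) • a)) t := by
  have h1 : (fun s : ℝ => nexp ((s : ℂ) • a)) =
      fun s : ℝ => nexp (((s - t : ℝ) : ℂ) • a) * nexp ((t : ℂ) • a) := by
    funext s
    rw [nexp_smul_mul ha]
    congr 2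
    push_cast; ring
  rw [h1]
  exact ((hasDer_nexp_zero ha).comp_sub_const (t := t)).mul_const _

/-- the chain rule -/
theorem hasDerivAt_ev (p : Pol α) {c : ℝ → NS α ℂ} {c' : NS α ℂ} {t : ℝ} (hc : HasDer c c' t) :
    HasDerivAt (fun s => ev (c s) p) (D1 p (c t) c' + D1b p (c t) c') t := by
  induction p using MvPolynomial.induction_on with
  | C a => simpa [D1, D1b] using hasDerivAt_const t a
  | add p q hp hq =>
    have := hp.add hq
    simp only [map_add]
    refine HasDerivAt.congr_deriv this ?_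
    rw [D1_add, D1b_add]; ring
  | mul_X p v hp =>
    have h1 : HasDerivAt (fun s => ev (c s) (X v)) (D1 (X v) (c t) c' + D1b (X v) (c t) c') t := by
      obtain ⟨w, b⟩ := v
      cases b
      · simpa [D1, D1b] using hc w
      · have := (hc w).star
        simpa [D1, D1b] using this
    have := hp.mul h1
    simp only [map_mul]
    refine HasDerivAt.congr_deriv this ?_
    rw [D1_mul, D1b_mul]; ring

theorem continuousAt_ev (p : Pol α) {c : ℝ → NS α ℂ} {t : ℝ}
    (hc : ∀ w, ContinuousAt (fun s => c s w) t) : ContinuousAt (fun s => ev (c s) p) t := by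
  induction p using MvPolynomial.induction_on with
  | C a => simpa using continuousAt_const
  | add p q hp hq => simp only [map_add]; exact hp.add hq
  | mul_X p v hp =>
    obtain ⟨w, b⟩ := v
    cases b
    · simp only [map_mul, ev_X_false]; exact hp.mul (hc w)
    · have := Complex.continuous_conj.continuousAt.comp (hc w)
      simp only [map_mul, ev_X_true]; exact hp.mul this

/-- function-level equality implies equality of derivatives -/
theorem D1_eq_zero_of_forall {p : Pol α} (hp : ∀ h, ev h p = 0) (h u : NS α ℂ) :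
    D1 p h u = 0 ∧ D1b p h u = 0 := by
  have key : ∀ v, D1 p h v + D1b p h v = 0 := by
    intro v
    have h1 := hasDerivAt_ev p (hasDer_line h v 0)
    simp only [hp] at h1
    have h2 := h1.unique (hasDerivAt_const 0 (0 : ℂ))
    simpa using h2
  have h1 := key u
  have h2 := key (Complex.I • u)
  rw [D1_smul_right, D1b_smul_right, Complex.conj_I] at h2
  have h3 : D1 p h u - D1b p h u = 0 := by
    have : Complex.I * (D1 p h u - D1b p h u) = 0 := by rw [← h2]; ring
    exact (mul_eq_zero.1 this).resolve_left Complex.I_ne_zero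
  constructor
  · linear_combination (h1 + h3) / 2
  · linear_combination (h1 - h3) / 2

theorem D1_congr_of_forall {p q : Pol α} (hpq : ∀ h, ev h p = ev h q) (h u : NS α ℂ) :
    D1 p h u = D1 q h u := by
  have := (D1_eq_zero_of_forall (p := p - q) (fun h => by simp [hpq]) h u).1
  rwa [D1_sub, sub_eq_zero] at this

theorem D1b_congr_of_forall {p q : Pol α} (hpq : ∀ h, ev h p = ev h q) (h u : NS α ℂ) :
    D1b p h u = D1b q h u := by
  have := (D1_eq_zero_of_forall (p := p - q) (fun h => by simp [hpq]) h u).2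
  rwa [D1b_sub, sub_eq_zero] at this

theorem Lev_congr_of_forall {p q : Pol α} (hpq : ∀ h, ev h p = ev h q) (h u v : NS α ℂ) :
    Lev p h u v = Lev q h u v := by
  rw [Lev_eq_D1b, Lev_eq_D1b]
  exact D1b_congr_of_forall (fun h => D1_congr_of_forall hpq h u) h v

end Curves

section Translations

variable {α : Type*}

/-- left translation -/
noncomputable def Tl (g : NS α ℂ) : Pol α →ₐ[ℂ] Pol α := evK (cst g * gen) (cst (cc g) * genb)

/-- right translation -/
noncomputable def Tr (g : NS α ℂ) : Pol α →ₐ[ℂ] Pol α := evK (gen * cst g) (genb * cst (cc g))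

theorem ev_comp_evK (h : NS α ℂ) (A B : NS α (Pol α)) (p : Pol α) (hB : evS h B = cc (evS h A)) :
    ev h (evK A B p) = ev (evS h A) p := by
  rw [evK_comp (ev h)]
  have : NS.map ((ev h : Pol α →ₐ[ℂ] ℂ) : Pol α →+* ℂ) B = cc (evS h A) := hB
  rw [this]; rfl

theorem ev_Tl (g h : NS α ℂ) (p : Pol α) : ev h (Tl g p) = ev (g * h) p := by
  rw [Tl, ev_comp_evK] <;> simp [map_mul]

theorem ev_Tr (g h : NS α ℂ) (p : Pol α) : ev h (Tr g p) = ev (h * g) p := by
  rw [Tr, ev_comp_evK] <;> simp [map_mul]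

/-- a derivation applied coefficientwise -/
noncomputable def dS (D : Derivation ℂ (Pol α) (Pol α)) (A : NS α (Pol α)) : NS α (Pol α) :=
  amap (D : Pol α →ₗ[ℂ] Pol α).toAddMonoidHom A

@[simp] theorem dS_apply (D : Derivation ℂ (Pol α) (Pol α)) (A : NS α (Pol α)) (w : List α) :
    dS D A w = D (A w) := rfl

theorem dS_mul (D : Derivation ℂ (Pol α) (Pol α)) (A B : NS α (Pol α)) :
    dS D (A * B) = dS D A * B + A * dS D B := by
  have := amap_mul_twisted (RingHom.id (Pol α)) (RingHom.id (Pol α))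
    (D : Pol α →ₗ[ℂ] Pol α).toAddMonoidHom (by
      intro a b
      simp [Derivation.leibniz]
      ring) A B
  exact this

@[simp] theorem dS_dv_gen (A : NS α (Pol α)) : dS (dv A) gen = A := by ext w; simp
@[simp] theorem dS_dv_genb (A : NS α (Pol α)) : dS (dv A) genb = 0 := by ext w; simp
@[simp] theorem dS_dvb_gen (A : NS α (Pol α)) : dS (dvb A) gen = 0 := by ext w; simp
@[simp] theorem dS_dvb_genb (A : NS α (Pol α)) : dS (dvb A) genb = A := by ext w; simp
@[simp] theorem dS_cst (D : Derivation ℂ (Pol α) (Pol α)) (u : NS α ℂ) : dS D (cst u) = 0 := by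
  ext w
  simp [derivation_C]

theorem dv_evK (A B : NS α (Pol α)) (D : Derivation ℂ (Pol α) (Pol α)) (u u' : NS α ℂ)
    (hA : dS D A = cst u) (hB : dS D B = cst u') (p : Pol α) :
    D (evK A B p) = evK A B (dv (cst u) p + dvb (cst u') p) := by
  induction p using MvPolynomial.induction_on with
  | C a =>
    have : evK A B (C a) = C a := by rw [evK, aeval_C]; rfl
    rw [this]; simp [derivation_C]
  | add p q hp hq => simp only [map_add, hp, hq]; ring
  | mul_X p v hp =>
    have h1 : ∀ w, D (A w) = C (u w) := fun w => congrArg (fun f : NS α (Pol α) => f w) hA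
    have h2 : ∀ w, D (B w) = C (u' w) := fun w => congrArg (fun f : NS α (Pol α) => f w) hB
    have hC : ∀ c : ℂ, evK A B (C c) = C c := by intro c; rw [evK, aeval_C]; rfl
    obtain ⟨w, b⟩ := v
    cases b
    · simp only [map_mul, Derivation.leibniz, hp, evK_X_false, h1, smul_eq_mul, map_add,
        dv_X_false, cst_apply, dvb_X_false, hC, mul_zero, map_zero]
      ring
    · simp only [map_mul, Derivation.leibniz, hp, evK_X_true, h2, smul_eq_mul, map_add,
        dv_X_true, cst_apply, dvb_X_true, hC, mul_zero, map_zero]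
      ring

theorem dv_Tl (g u : NS α ℂ) (p : Pol α) : dv (cst u) (Tl g p) = Tl g (dv (cst (g * u)) p) := by
  rw [Tl, dv_evK _ _ _ (g * u) 0]
  · have : dvb (cst (0 : NS α ℂ)) p = 0 := by
      have h : dvb (cst (0 : NS α ℂ)) = 0 := by
        apply derivation_ext
        rintro ⟨w, b⟩
        cases b <;> simp
      rw [h]; rfl
    rw [this, add_zero]
  · rw [dS_mul]; simp [map_mul]
  · rw [dS_mul]; simp [map_zero]

theorem dvb_Tl (g u : NS α ℂ) (p : Pol α) :
    dvb (cst (cc u)) (Tl g p) = Tl g (dvb (cst (cc (g * u))) p) := by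
  rw [Tl, dv_evK _ _ _ 0 (cc (g * u))]
  · have : dv (cst (0 : NS α ℂ)) p = 0 := by
      have h : dv (cst (0 : NS α ℂ)) = 0 := by
        apply derivation_ext
        rintro ⟨w, b⟩
        cases b <;> simp
      rw [h]; rfl
    rw [this, zero_add]
  · rw [dS_mul]; simp [map_zero]
  · rw [dS_mul]; simp [map_mul]

theorem dv_Tr (g u : NS α ℂ) (p : Pol α) : dv (cst u) (Tr g p) = Tr g (dv (cst (u * g)) p) := by
  rw [Tr, dv_evK _ _ _ (u * g) 0]
  · have : dvb (cst (0 : NS α ℂ)) p = 0 := by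
      have h : dvb (cst (0 : NS α ℂ)) = 0 := by
        apply derivation_ext
        rintro ⟨w, b⟩
        cases b <;> simp
      rw [h]; rfl
    rw [this, add_zero]
  · rw [dS_mul]; simp [map_mul]
  · rw [dS_mul]; simp [map_zero]

theorem dvb_Tr (g u : NS α ℂ) (p : Pol α) :
    dvb (cst (cc u)) (Tr g p) = Tr g (dvb (cst (cc (u * g))) p) := by
  rw [Tr, dv_evK _ _ _ 0 (cc (u * g))]
  · have : dv (cst (0 : NS α ℂ)) p = 0 := by
      have h : dv (cst (0 : NS α ℂ)) = 0 := by
        apply derivation_ext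
        rintro ⟨w, b⟩
        cases b <;> simp
      rw [h]; rfl
    rw [this, zero_add]
  · rw [dS_mul]; simp [map_zero]
  · rw [dS_mul]; simp [map_mul]

theorem D1_Tl (g h u : NS α ℂ) (p : Pol α) : D1 (Tl g p) h u = D1 p (g * h) (g * u) := by
  rw [D1, dv_Tl, ev_Tl]; rfl

theorem D1b_Tl (g h u : NS α ℂ) (p : Pol α) : D1b (Tl g p) h u = D1b p (g * h) (g * u) := by
  rw [D1b, dvb_Tl, ev_Tl]; rfl

theorem Lev_Tl (g h u v : NS α ℂ) (p : Pol α) :
    Lev (Tl g p) h u v = Lev p (g * h) (g * u) (g * v) := by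
  rw [Lev, dv_Tl, dvb_Tl, ev_Tl]; rfl

theorem D1_Tr (g h u : NS α ℂ) (p : Pol α) : D1 (Tr g p) h u = D1 p (h * g) (u * g) := by
  rw [D1, dv_Tr, ev_Tr]; rfl

theorem D1b_Tr (g h u : NS α ℂ) (p : Pol α) : D1b (Tr g p) h u = D1b p (h * g) (u * g) := by
  rw [D1b, dvb_Tr, ev_Tr]; rfl

theorem Lev_Tr (g h u v : NS α ℂ) (p : Pol α) :
    Lev (Tr g p) h u v = Lev p (h * g) (u * g) (v * g) := by
  rw [Lev, dv_Tr, dvb_Tr, ev_Tr]; rfl

/-- consequences of right invariance -/
theorem D1_of_rinv {g : NS α ℂ} {p : Pol α} (hp : ∀ h, ev (h * g) p = ev h p) (h u : NS α ℂ) :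
    D1 p (h * g) (u * g) = D1 p h u := by
  rw [← D1_Tr]
  exact D1_congr_of_forall (fun h => by rw [ev_Tr, hp]) h u

theorem D1b_of_rinv {g : NS α ℂ} {p : Pol α} (hp : ∀ h, ev (h * g) p = ev h p) (h u : NS α ℂ) :
    D1b p (h * g) (u * g) = D1b p h u := by
  rw [← D1b_Tr]
  exact D1b_congr_of_forall (fun h => by rw [ev_Tr, hp]) h u

theorem Lev_of_rinv {g : NS α ℂ} {p : Pol α} (hp : ∀ h, ev (h * g) p = ev h p)
    (h u v : NS α ℂ) : Lev p (h * g) (u * g) (v * g) = Lev p h u v := by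
  rw [← Lev_Tr]
  exact Lev_congr_of_forall (fun h => by rw [ev_Tr, hp]) h u v

/-- `Lev` through vector fields -/
theorem Lev_fields (h : NS α ℂ) (A B : NS α (Pol α)) (hA : ∀ B', dS (dvb B') A = 0)
    (p : Pol α) : ev h (dvb B (dv A p)) = Lev p h (evS h A) (cc (evS h B)) := by
  rw [ev_dvb, dvb_dv_comm, ev_dv, Lev_eq, cc_cc]
  · intro w
    have := congrArg (fun f : NS α (Pol α) => f w) (hA (cst (evS h B)))
    simpa using this
  · intro w; simp

/-- the same with the operators in the other order -/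
theorem Lev_fields' (h : NS α ℂ) (A B : NS α (Pol α)) (hB : ∀ A', dS (dv A') B = 0)
    (p : Pol α) : ev h (dv A (dvb B p)) = Lev p h (evS h A) (cc (evS h B)) := by
  rw [ev_dv, ← dvb_dv_comm, ev_dvb, Lev, cc_cc]
  · intro w; simp
  · intro w
    have := congrArg (fun f : NS α (Pol α) => f w) (hB (cst (evS h A)))
    simpa using this

end Translations

section Group

variable {α : Type*} [DecidableEq α]

open ComplexOrder

/-- polynomials vanishing on the group -/
def VanG (p : Pol α) : Prop := ∀ h, IsGrp h → ev h p = 0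

/-- left invariant vector fields -/
noncomputable def Dz (Z : NS α ℂ) : Derivation ℂ (Pol α) (Pol α) := dv (gen * cst Z)

/-- left invariant vector fields -/
noncomputable def Dzb (Z : NS α ℂ) : Derivation ℂ (Pol α) (Pol α) := dvb (genb * cst (cc Z))

/-- right invariant vector fields -/
noncomputable def Rz (Z : NS α ℂ) : Derivation ℂ (Pol α) (Pol α) := dv (cst Z * gen)

/-- right invariant vector fields -/
noncomputable def Rzb (Z : NS α ℂ) : Derivation ℂ (Pol α) (Pol α) := dvb (cst (cc Z) * genb)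

theorem ev_Dz (h Z : NS α ℂ) (p : Pol α) : ev h (Dz Z p) = D1 p h (h * Z) := by
  rw [Dz, ev_dv, map_mul, evS_gen, evS_cst]; rfl

theorem ev_Dzb (h Z : NS α ℂ) (p : Pol α) : ev h (Dzb Z p) = D1b p h (h * Z) := by
  rw [Dzb, ev_dvb, map_mul, evS_genb, evS_cst, ← map_mul]; rfl

theorem ev_Rz (h Z : NS α ℂ) (p : Pol α) : ev h (Rz Z p) = D1 p h (Z * h) := by
  rw [Rz, ev_dv, map_mul, evS_gen, evS_cst]; rfl

theorem ev_Rzb (h Z : NS α ℂ) (p : Pol α) : ev h (Rzb Z p) = D1b p h (Z * h) := by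
  rw [Rzb, ev_dvb, map_mul, evS_genb, evS_cst, ← map_mul]; rfl

theorem hol_Dz (Z : NS α ℂ) : ∀ B', dS (dvb B') (gen * cst Z : NS α (Pol α)) = 0 := by
  intro B'; rw [dS_mul]; simp

theorem ahol_Dzb (Z : NS α ℂ) : ∀ A', dS (dv A') (genb * cst (cc Z) : NS α (Pol α)) = 0 := by
  intro B'; rw [dS_mul]; simp

theorem hol_Rz (Z : NS α ℂ) : ∀ B', dS (dvb B') (cst Z * gen : NS α (Pol α)) = 0 := by
  intro B'; rw [dS_mul]; simp

theorem ahol_Rzb (Z : NS α ℂ) : ∀ A', dS (dv A') (cst (cc Z) * genb : NS α (Pol α)) = 0 := by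
  intro B'; rw [dS_mul]; simp

theorem ev_Dzb_Dz (h Z Z' : NS α ℂ) (p : Pol α) :
    ev h (Dzb Z' (Dz Z p)) = Lev p h (h * Z) (h * Z') := by
  rw [Dzb, Dz, Lev_fields _ _ _ (hol_Dz Z)]
  simp only [map_mul, evS_gen, evS_cst, evS_genb, cc_cc]

theorem ev_Dzb_Rz (h Z Z' : NS α ℂ) (p : Pol α) :
    ev h (Dzb Z' (Rz Z p)) = Lev p h (Z * h) (h * Z') := by
  rw [Dzb, Rz, Lev_fields _ _ _ (hol_Rz Z)]
  simp only [map_mul, evS_gen, evS_cst, evS_genb, cc_cc]

theorem ev_Dz_Rzb (h Z Z' : NS α ℂ) (p : Pol α) :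
    ev h (Dz Z (Rzb Z' p)) = Lev p h (h * Z) (Z' * h) := by
  rw [Dz, Rzb, Lev_fields' _ _ _ (ahol_Rzb Z')]
  simp only [map_mul, evS_gen, evS_cst, evS_genb, cc_cc]

theorem ev_Rzb_Rz (h Z Z' : NS α ℂ) (p : Pol α) :
    ev h (Rzb Z' (Rz Z p)) = Lev p h (Z * h) (Z' * h) := by
  rw [Rzb, Rz, Lev_fields _ _ _ (hol_Rz Z)]
  simp only [map_mul, evS_gen, evS_cst, evS_genb, cc_cc]

theorem Rzb_Rz_comm (Z Z' : NS α ℂ) (p : Pol α) : Rzb Z' (Rz Z p) = Rz Z (Rzb Z' p) := by
  apply dvb_dv_comm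
  · intro w
    exact congrArg (fun f : NS α (Pol α) => f w) (hol_Rz Z (cst (cc Z') * genb))
  · intro w
    exact congrArg (fun f : NS α (Pol α) => f w) (ahol_Rzb Z' (cst Z * gen))

theorem isGrp_nexp_smul {n : ℕ} {b : NS α ℂ} (hb : b ∈ lie n) (t : ℂ) : IsGrp (nexp (t • b)) :=
  isGrp_nexp (Submodule.smul_mem _ t hb)

theorem VanG.D1_lie {p : Pol α} (hp : VanG p) {h : NS α ℂ} (hh : IsGrp h) {n : ℕ} {b : NS α ℂ}
    (hb : b ∈ lie n) : D1 p h (h * b) = 0 ∧ D1b p h (h * b) = 0 := by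
  have key : ∀ v ∈ (lie n : Submodule ℂ (NS α ℂ)), D1 p h (h * v) + D1b p h (h * v) = 0 := by
    intro v hv
    have h1 := hasDerivAt_ev p ((hasDer_nexp_zero (lie_nil hv)).const_mul h)
    have h2 : (fun s : ℝ => ev (h * nexp ((s : ℂ) • v)) p) = fun _ => 0 := by
      funext s
      exact hp _ (hh.mul (isGrp_nexp_smul hv _))
    rw [h2] at h1
    have h3 := h1.unique (hasDerivAt_const 0 (0 : ℂ))
    simpa [nexp_zero] using h3
  have h1 := key b hb
  have h2 := key (Complex.I • b) (Submodule.smul_mem _ _ hb)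
  rw [mul_smul_comm, D1_smul_right, D1b_smul_right, Complex.conj_I] at h2
  have h3 : D1 p h (h * b) - D1b p h (h * b) = 0 := by
    have : Complex.I * (D1 p h (h * b) - D1b p h (h * b)) = 0 := by rw [← h2]; ring
    exact (mul_eq_zero.1 this).resolve_left Complex.I_ne_zero
  constructor
  · linear_combination (h1 + h3) / 2
  · linear_combination (h1 - h3) / 2

theorem D1_trun {N : ℕ} {p : Pol α} (hp : Bd N p) (h Z : NS α ℂ) :
    D1 p h (h * Z) = ∑ i ∈ Finset.range (N + 1), D1 p h (h * comp i Z) := by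
  rw [← D1_sum_right, ← Finset.mul_sum, ← trun_eq_sum]
  exact D1_congr_right hp h ((Agr.refl N h).mul (agr_trun N Z).symm)

theorem D1b_trun {N : ℕ} {p : Pol α} (hp : Bd N p) (h Z : NS α ℂ) :
    D1b p h (h * Z) = ∑ i ∈ Finset.range (N + 1), D1b p h (h * comp i Z) := by
  rw [← D1b_sum_right, ← Finset.mul_sum, ← trun_eq_sum]
  exact D1b_congr_right hp h ((Agr.refl N h).mul (agr_trun N Z).symm)

theorem VanG.D1_eq {p : Pol α} (hp : VanG p) {h : NS α ℂ} (hh : IsGrp h) {Z : NS α ℂ}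
    (hZ : Z ∈ LieS α ℂ) : D1 p h (h * Z) = 0 := by
  obtain ⟨N, hN⟩ := exists_Bd p
  rw [D1_trun hN]
  exact Finset.sum_eq_zero fun i _ => (hp.D1_lie hh (hZ i)).1

theorem VanG.D1b_eq {p : Pol α} (hp : VanG p) {h : NS α ℂ} (hh : IsGrp h) {Z : NS α ℂ}
    (hZ : Z ∈ LieS α ℂ) : D1b p h (h * Z) = 0 := by
  obtain ⟨N, hN⟩ := exists_Bd p
  rw [D1b_trun hN]
  exact Finset.sum_eq_zero fun i _ => (hp.D1_lie hh (hZ i)).2

theorem VanG.Dz {p : Pol α} (hp : VanG p) {Z : NS α ℂ} (hZ : Z ∈ LieS α ℂ) : VanG (Dz Z p) :=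
  fun h hh => by rw [ev_Dz, hp.D1_eq hh hZ]

theorem VanG.Dzb {p : Pol α} (hp : VanG p) {Z : NS α ℂ} (hZ : Z ∈ LieS α ℂ) : VanG (Dzb Z p) :=
  fun h hh => by rw [ev_Dzb, hp.D1b_eq hh hZ]

theorem left_eq_right {h Z : NS α ℂ} (hh : IsGrp h) : Z * h = h * (inv h * Z * h) := by
  rw [mul_assoc (inv h), mul_inv_cancel_left' hh.nil]

theorem VanG.Rz {p : Pol α} (hp : VanG p) {Z : NS α ℂ} (hZ : Z ∈ LieS α ℂ) : VanG (Rz Z p) :=
  fun h hh => by rw [ev_Rz, left_eq_right hh, hp.D1_eq hh (conj_mem_LieS' hh hZ)]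

theorem VanG.Rzb {p : Pol α} (hp : VanG p) {Z : NS α ℂ} (hZ : Z ∈ LieS α ℂ) : VanG (Rzb Z p) :=
  fun h hh => by rw [ev_Rzb, left_eq_right hh, hp.D1b_eq hh (conj_mem_LieS' hh hZ)]

theorem VanG.Lev {p : Pol α} (hp : VanG p) {h : NS α ℂ} (hh : IsGrp h) {Z Z' : NS α ℂ}
    (hZ : Z ∈ LieS α ℂ) (hZ' : Z' ∈ LieS α ℂ) : Lev p h (h * Z) (h * Z') = 0 := by
  rw [← ev_Dzb_Dz]
  exact (hp.Dz hZ).Dzb hZ' h hh

theorem VanG.sub {p q : Pol α} (hp : VanG p) (hq : VanG q) : VanG (p - q) := fun h hh => by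
  rw [map_sub, hp h hh, hq h hh, sub_zero]

/-- plurisubharmonicity on the group -/
def PSH (p : Pol α) : Prop :=
  ∀ h, IsGrp h → ∀ Z ∈ LieS α ℂ, 0 ≤ Lev p h (h * Z) (h * Z)

theorem PSH.left {p : Pol α} (hp : PSH p) {h : NS α ℂ} (hh : IsGrp h) {Z : NS α ℂ}
    (hZ : Z ∈ LieS α ℂ) : 0 ≤ Lev p h (Z * h) (Z * h) := by
  rw [left_eq_right hh]; exact hp h hh _ (conj_mem_LieS' hh hZ)

theorem sesq_aux {a x y : ℂ} (h : ∀ c : ℂ, 0 ≤ a + c * x + conj c * y) : x = 0 ∧ y = 0 := by
  have key : ∀ c : ℂ, c * x + conj c * y = 0 := by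
    intro c
    have h1 : ∀ t : ℝ, 0 ≤ a + t * (c * x + conj c * y) := by
      intro t
      have := h (t * c)
      rw [map_mul, Complex.conj_ofReal] at this
      convert this using 1; ring
    have hre : ∀ t : ℝ, 0 ≤ a.re + t * (c * x + conj c * y).re := by
      intro t
      have := (Complex.le_def.1 (h1 t)).1
      simpa using this
    have him : ∀ t : ℝ, 0 = a.im + t * (c * x + conj c * y).im := by
      intro t
      have := (Complex.le_def.1 (h1 t)).2
      simpa using this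
    apply Complex.ext
    · set r := (c * x + conj c * y).re
      show r = 0
      by_contra hr
      have h2 := hre (-(a.re + 1) / r)
      rw [div_mul_cancel₀ _ hr] at h2
      linarith
    · have h2 := him 0
      have h3 := him 1
      simp only [zero_mul, add_zero, one_mul] at h2 h3
      rw [← h2] at h3
      simpa using h3.symm
  have h1 := key 1
  have h2 := key Complex.I
  simp only [one_mul, map_one, Complex.conj_I] at h1 h2
  have h3 : x - y = 0 := by
    have : Complex.I * (x - y) = 0 := by rw [← h2]; ring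
    exact (mul_eq_zero.1 this).resolve_left Complex.I_ne_zero
  constructor
  · linear_combination (h1 + h3) / 2
  · linear_combination (h1 - h3) / 2

/-- Cauchy-Schwarz: null vectors are in the kernel -/
theorem PSH.null {p : Pol α} (hp : PSH p) {h : NS α ℂ} (hh : IsGrp h) {Z Z' : NS α ℂ}
    (hZ : Z ∈ LieS α ℂ) (hZ' : Z' ∈ LieS α ℂ) (h0 : Lev p h (h * Z) (h * Z) = 0) :
    Lev p h (h * Z) (h * Z') = 0 ∧ Lev p h (h * Z') (h * Z) = 0 := by
  apply sesq_aux (a := Lev p h (h * Z') (h * Z'))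
  intro c
  have h1 := hp h hh (Z' + c • Z) (add_mem hZ' (Submodule.smul_mem _ c hZ))
  rw [mul_add, mul_smul_comm, Lev_add_left, Lev_add_right, Lev_add_right, Lev_smul_left,
    Lev_smul_left, Lev_smul_right, Lev_smul_right, h0] at h1
  convert h1 using 1
  ring

end Group

end Pool.Agent.Lib.MP_d7cc7c_an
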