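import Mathlib

/-!
# Real hypersurfaces, subbundles of the bundle of (1,0) vectors, and the two types

Everything is expressed in `ℂⁿ = Fin n → ℂ`.  A smooth real hypersurface `M` is given by an open
set `U` and a smooth defining function `ρ` on `U`.  A complex vector field
`∑ aⱼ ∂/∂zⱼ + ∑ bⱼ ∂/∂z̄ⱼ` is a function with values in pairs `(a, b)`.  A smooth function or
vector field on `M` (which is a closed submanifold of `U`) is represented by a smooth extension
to `U`.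
-/

namespace Pool.Agent.Lib.MP_d7cc7c_an

open scoped ContDiff ComplexConjugate Topology

/-- the derivative `∂f/∂zⱼ` -/
noncomputable def dz {n : ℕ} (j : Fin n) (f : (Fin n → ℂ) → ℂ) (z : Fin n → ℂ) : ℂ :=
  (fderiv ℝ f z (Pi.single j 1) - Complex.I * fderiv ℝ f z (Pi.single j Complex.I)) / 2

/-- the derivative `∂f/∂z̄ⱼ` -/
noncomputable def dzb {n : ℕ} (j : Fin n) (f : (Fin n → ℂ) → ℂ) (z : Fin n → ℂ) : ℂ :=
  (fderiv ℝ f z (Pi.single j 1) + Complex.I * fderiv ℝ f z (Pi.single j Complex.I)) / 2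

/-- a complex vector field on `ℂⁿ`; the value `(a, b)` stands for
`∑ aⱼ ∂/∂zⱼ + ∑ bⱼ ∂/∂z̄ⱼ` -/
abbrev VF (n : ℕ) := (Fin n → ℂ) → (Fin n → ℂ) × (Fin n → ℂ)

/-- the derivative of a function along a vector field -/
noncomputable def VF.app {n : ℕ} (X : VF n) (f : (Fin n → ℂ) → ℂ) : (Fin n → ℂ) → ℂ :=
  fun z => ∑ j, (X z).1 j * dz j f z + ∑ j, (X z).2 j * dzb j f z

/-- the commutator `[X, Y]` of two vector fields -/
noncomputable def VF.comm {n : ℕ} (X Y : VF n) : VF n := fun z =>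
  (fun j => X.app (fun w => (Y w).1 j) z - Y.app (fun w => (X w).1 j) z,
   fun j => X.app (fun w => (Y w).2 j) z - Y.app (fun w => (X w).2 j) z)

/-- the conjugate of a vector field -/
noncomputable def VF.bar {n : ℕ} (X : VF n) : VF n := fun z =>
  (fun j => conj ((X z).2 j), fun j => conj ((X z).1 j))

/-- a smooth real hypersurface `M = {z ∈ U | ρ z = 0}` with its defining function `ρ`, smooth on
the open set `U`, with `dρ ≠ 0` on `M` -/
structure Hyp (n : ℕ) where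
  /-- the neighbourhood of `M` on which the defining function is smooth -/
  U : Set (Fin n → ℂ)
  /-- the defining function -/
  ρ : (Fin n → ℂ) → ℝ
  isOpen : IsOpen U
  smooth : ContDiffOn ℝ ∞ ρ U
  regular : ∀ z ∈ U, ρ z = 0 → fderiv ℝ ρ z ≠ 0

namespace Hyp

variable {n : ℕ} (H : Hyp n)

/-- the hypersurface -/
def M : Set (Fin n → ℂ) := {z | z ∈ H.U ∧ H.ρ z = 0}

/-- the derivative `∂ρ/∂zⱼ` -/
noncomputable def ρz (j : Fin n) : (Fin n → ℂ) → ℂ := dz j (fun w => (H.ρ w : ℂ))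

/-- the space of vectors of type `(1,0)` tangent to `M` at `z` -/
noncomputable def T10 (z : Fin n → ℂ) : Submodule ℂ (Fin n → ℂ) where
  carrier := {ξ | ∑ j, H.ρz j z * ξ j = 0}
  add_mem' := by
    intro a b ha hb
    simp only [Set.mem_setOf_eq, Pi.add_apply, mul_add, Finset.sum_add_distrib] at *
    rw [ha, hb, add_zero]
  zero_mem' := by simp
  smul_mem' := by
    intro c a ha
    simp only [Set.mem_setOf_eq, Pi.smul_apply, smul_eq_mul] at *
    have : ∑ j, H.ρz j z * (c * a j) = c * ∑ j, H.ρz j z * a j := by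
      rw [Finset.mul_sum]
      exact Finset.sum_congr rfl fun j _ => by ring
    rw [this, ha, mul_zero]

/-- the Levi form `∑ ρ_{zⱼ z̄ₗ} ξⱼ η̄ₗ` at the point `z` -/
noncomputable def levi (z ξ η : Fin n → ℂ) : ℂ :=
  ∑ j, ∑ l, dzb l (H.ρz j) z * ξ j * conj (η l)

/-- pseudoconvexity: the Levi form of `ρ`, or of `-ρ`, is nonnegative on vectors of type `(1,0)`
tangent to `M` -/
def Pseudoconvex : Prop :=
  (∀ z ∈ H.M, ∀ ξ ∈ H.T10 z, 0 ≤ (H.levi z ξ ξ).re) ∨
  (∀ z ∈ H.M, ∀ ξ ∈ H.T10 z, (H.levi z ξ ξ).re ≤ 0)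

/-- `B` is a smooth complex subbundle of rank `s` of the bundle of `(1,0)` vectors tangent to `M`
(only the values of `B` at points of `M` matter) -/
structure IsSubbundle (s : ℕ) (B : (Fin n → ℂ) → Submodule ℂ (Fin n → ℂ)) : Prop where
  le : ∀ z ∈ H.M, B z ≤ H.T10 z
  frame : ∀ p ∈ H.M, ∃ V ∈ 𝓝 p, ∃ X : Fin s → (Fin n → ℂ) → (Fin n → ℂ),
    (∀ i, ContDiffOn ℝ ∞ (X i) V) ∧
    ∀ z ∈ H.M ∩ V, LinearIndependent ℂ (fun i => X i z) ∧
      Submodule.span ℂ (Set.range fun i => X i z) = B z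

variable (B : (Fin n → ℂ) → Submodule ℂ (Fin n → ℂ))

/-- (an extension to `U` of) a smooth section of `B` over `M` -/
def IsSec (L : VF n) : Prop :=
  ContDiffOn ℝ ∞ L H.U ∧ ∀ z ∈ H.M, (L z).1 ∈ B z ∧ (L z).2 = 0

/-- (the extensions to `U` of) the vector fields on `M` in the module over the smooth functions on
`M` generated by the set `S` of vector fields -/
def gen (S : Set (VF n)) : Set (VF n) :=
  {X | ContDiffOn ℝ ∞ X H.U ∧ ∃ (m : ℕ) (f : Fin m → (Fin n → ℂ) → ℂ) (Y : Fin m → VF n),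
    (∀ i, ContDiffOn ℝ ∞ (f i) H.U ∧ Y i ∈ S) ∧ ∀ z ∈ H.M, X z = ∑ i, f i z • Y i z}

/-- the module generated by the smooth sections of `B` and their conjugates -/
def mod1 : Set (VF n) := H.gen ({L | H.IsSec B L} ∪ {X | ∃ L, H.IsSec B L ∧ X = L.bar})

/-- nested commutators `[Y_k, [Y_{k-1}, ..., [Y_2, Y_1] ...]]` of length `k` of elements of `S` -/
inductive Nested (S : Set (VF n)) : ℕ → VF n → Prop
  | one {Y : VF n} : Y ∈ S → Nested S 1 Y
  | step {k : ℕ} {Y X : VF n} : Y ∈ S → Nested S k X → Nested S (k + 1) (Y.comm X)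

/-- the module generated by `mod1` and all the commutators of length between `2` and `μ` of its
elements -/
def modc (μ : ℕ) : Set (VF n) :=
  H.gen (H.mod1 B ∪ {X | ∃ k, 2 ≤ k ∧ k ≤ μ ∧ Nested (H.mod1 B) k X})

/-- the value at `p` of the pairing of a vector field with `∂ρ` -/
noncomputable def pair (G : VF n) (p : Fin n → ℂ) : ℂ := ∑ j, (G p).1 j * H.ρz j p

/-- the commutator type of `B` at `p` -/
noncomputable def commType (p : Fin n → ℂ) : ℕ∞ :=
  sInf {t : ℕ∞ | ∃ m : ℕ, t = m ∧ 1 ≤ m ∧ ∃ G ∈ H.modc B m, H.pair G p ≠ 0}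

/-- the function `λ(L, L)` -/
noncomputable def leviFn (L : VF n) : (Fin n → ℂ) → ℂ := fun z => H.levi z (L z).1 (L z).1

/-- `F_k ⋯ F_1 (λ(L, L))` vanishes at `p` for all `F_i` in `mod1` and all smooth sections `L` of
`B` with `L_p ≠ 0` -/
def LeviVanish (p : Fin n → ℂ) (k : ℕ) : Prop :=
  ∀ F : List (VF n), F.length = k → (∀ X ∈ F, X ∈ H.mod1 B) →
    ∀ L : VF n, H.IsSec B L → (L p).1 ≠ 0 → (F.foldr VF.app (H.leviFn L)) p = 0

/-- the condition defining that the Levi-form type of `B` at `p` is `m` (`m` is at least `2`, and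
for `m = 2` the first condition is void) -/
def IsLeviType (p : Fin n → ℂ) (m : ℕ) : Prop :=
  2 ≤ m ∧ (3 ≤ m → H.LeviVanish B p (m - 3)) ∧ ¬ H.LeviVanish B p (m - 2)

/-- the Levi-form type of `B` at `p` -/
noncomputable def leviType (p : Fin n → ℂ) : ℕ∞ :=
  sInf {c : ℕ∞ | ∃ m : ℕ, c = m ∧ H.IsLeviType B p m}

end Hyp

end Pool.Agent.Lib.MP_d7cc7c_an
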