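import Pool.Agent.Lib.MP_d7cc7c_an.NS

/-!
# Exponentials in the ring of noncommutative power series
-/

set_option linter.unusedSectionVars false

namespace Pool.Agent.Lib.MP_d7cc7c_an

namespace NS

section Psub

variable {X K K' : Type*} [CommRing K] [CommRing K']

/-- substitution of `a` in a power series in one variable -/
noncomputable def psub (a : NS X K) (F : PowerSeries K) : NS X K :=
  ⟨fun w => ∑ n ∈ Finset.range (w.length + 1), PowerSeries.coeff n F * (a ^ n) w⟩

theorem psub_apply (a : NS X K) (F : PowerSeries K) (w : List X) :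
    psub a F w = ∑ n ∈ Finset.range (w.length + 1), PowerSeries.coeff n F * (a ^ n) w := rfl

theorem pow_apply_eq_zero {a : NS X K} (ha : a [] = 0) {n : ℕ} {w : List X} (h : w.length < n) :
    (a ^ n) w = 0 := (Ord.pow (ord_one_iff.2 ha) n) w (by omega)

theorem psub_apply_of_lt {a : NS X K} (ha : a [] = 0) (F : PowerSeries K) (w : List X) {N : ℕ}
    (h : w.length < N) :
    psub a F w = ∑ n ∈ Finset.range N, PowerSeries.coeff n F * (a ^ n) w := by
  rw [psub_apply]
  apply Finset.sum_subset
  · intro n hn
    rw [Finset.mem_range] at hn ⊢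
    omega
  · intro n _ hn
    rw [Finset.mem_range] at hn
    rw [pow_apply_eq_zero ha (by omega), mul_zero]

theorem aeval_trunc (a : NS X K) (F : PowerSeries K) (N : ℕ) :
    Polynomial.aeval a (PowerSeries.trunc N F) =
      ∑ n ∈ Finset.range N, PowerSeries.coeff n F • a ^ n := by
  rw [PowerSeries.trunc_apply, map_sum]
  rw [Nat.Ico_zero_eq_range]
  apply Finset.sum_congr rfl
  intro n _
  rw [Polynomial.aeval_monomial, Algebra.algebraMap_eq_smul_one, smul_mul_assoc, one_mul]

theorem agr_psub {a : NS X K} (ha : a [] = 0) (F : PowerSeries K) (N : ℕ) :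
    Agr N (psub a F) (Polynomial.aeval a (PowerSeries.trunc (N + 1) F)) := by
  intro w hw
  rw [aeval_trunc, psub_apply_of_lt ha F w (N := N + 1) (by omega), sum_app]
  simp

theorem ord_aeval {a : NS X K} (ha : a [] = 0) {m : ℕ} {P : Polynomial K}
    (hP : Polynomial.X ^ m ∣ P) : Ord m (Polynomial.aeval a P) := by
  obtain ⟨Q, rfl⟩ := hP
  rw [map_mul, map_pow, Polynomial.aeval_X]
  have := Ord.pow (ord_one_iff.2 ha) m
  rw [mul_one] at this
  exact this.mul_right _

theorem psub_mul {a : NS X K} (ha : a [] = 0) (F G : PowerSeries K) :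
    psub a (F * G) = psub a F * psub a G := by
  ext w
  set N := w.length with hN
  have h1 := agr_psub ha (F * G) N w (by omega)
  have h2 := ((agr_psub ha F N).mul (agr_psub ha G N)) w (by omega)
  rw [h1, h2, ← map_mul, ← sub_eq_zero, ← sub_app, ← map_sub]
  refine ord_aeval ha (m := N + 1) ?_ w (by omega)
  rw [Polynomial.X_pow_dvd_iff]
  intro d hd
  rw [Polynomial.coeff_sub, PowerSeries.coeff_trunc, if_pos hd,
    PowerSeries.coeff_mul_eq_coeff_trunc_mul_trunc _ _ hd, ← Polynomial.coe_mul,
    Polynomial.coeff_coe, sub_self]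

theorem psub_one (a : NS X K) : psub a 1 = 1 := by
  ext w
  rw [psub_apply, Finset.sum_eq_single 0]
  · simp
  · intro n _ hn
    rw [PowerSeries.coeff_one, if_neg hn, zero_mul]
  · intro h; simp at h

theorem psub_add (a : NS X K) (F G : PowerSeries K) : psub a (F + G) = psub a F + psub a G := by
  ext w
  simp [psub_apply, add_mul, Finset.sum_add_distrib]

theorem psub_sub (a : NS X K) (F G : PowerSeries K) : psub a (F - G) = psub a F - psub a G := by
  ext w
  simp [psub_apply, sub_mul, Finset.sum_sub_distrib]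

theorem psub_X {a : NS X K} (ha : a [] = 0) : psub a PowerSeries.X = a := by
  ext w
  rw [psub_apply_of_lt ha _ w (N := w.length + 2) (by omega), Finset.sum_eq_single 1]
  · simp
  · intro n _ hn
    rw [PowerSeries.coeff_X, if_neg hn, zero_mul]
  · intro h; simp at h

theorem psub_pow {a : NS X K} (ha : a [] = 0) (F : PowerSeries K) (n : ℕ) :
    psub a (F ^ n) = psub a F ^ n := by
  induction n with
  | zero => simp [psub_one]
  | succ n ih => rw [pow_succ, pow_succ, psub_mul ha, ih]

theorem psub_nil (a : NS X K) (F : PowerSeries K) : psub a F [] = PowerSeries.coeff 0 F := by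
  simp [psub_apply]

theorem psub_smul_left (a : NS X K) (c : K) (F : PowerSeries K) :
    psub (c • a) F = psub a (PowerSeries.rescale c F) := by
  ext w
  simp only [psub_apply, PowerSeries.coeff_rescale, smul_pow, smul_app, smul_eq_mul]
  apply Finset.sum_congr rfl
  intro n _
  ring

theorem map_psub (φ : K →+* K') (a : NS X K) (F : PowerSeries K) :
    map φ (psub a F) = psub (map φ a) (PowerSeries.map φ F) := by
  ext w
  simp only [map_apply, psub_apply, map_sum, map_mul, PowerSeries.coeff_map]
  apply Finset.sum_congr rfl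
  intro n _
  rw [← map_pow, map_apply]

theorem pre_psub (s : X → X) (a : NS X K) (F : PowerSeries K) :
    pre s (psub a F) = psub (pre s a) F := by
  ext w
  simp only [pre_apply, psub_apply, List.length_map]
  apply Finset.sum_congr rfl
  intro n _
  rw [← map_pow, pre_apply]

theorem E_pow {a : NS X K} {k : ℕ} (ha : E a = (k : K) • a) (n : ℕ) :
    E (a ^ n) = ((n * k : ℕ) : K) • a ^ n := by
  induction n with
  | zero => simp
  | succ n ih =>
    rw [pow_succ, E_mul, ih, ha, smul_mul_assoc, mul_smul_comm, ← add_smul]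
    congr 1
    push_cast; ring

theorem E_psub {a : NS X K} {k : ℕ} (ha : E a = (k : K) • a) (F : PowerSeries K) :
    E (psub a F) = (k : K) • psub a (PowerSeries.X * PowerSeries.derivative K F) := by
  ext w
  rw [E_apply, smul_app, psub_apply, psub_apply, Finset.mul_sum, Finset.smul_sum]
  apply Finset.sum_congr rfl
  intro n _
  have h1 : (w.length : K) * (a ^ n) w = ((n * k : ℕ) : K) * (a ^ n) w := by
    have := congrArg (fun f : NS X K => f w) (E_pow ha n)
    simpa using this
  have h2 : PowerSeries.coeff n (PowerSeries.X * PowerSeries.derivative K F) =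
      (n : K) * PowerSeries.coeff n F := by
    cases n with
    | zero => simp
    | succ n =>
      rw [PowerSeries.coeff_succ_X_mul, PowerSeries.coeff_derivative]
      push_cast; ring
  rw [h2, mul_left_comm, h1]
  push_cast
  rw [smul_eq_mul]
  ring

end Psub

section Exp

variable {X K K' : Type*} [CommRing K] [CommRing K'] [Algebra ℚ K] [Algebra ℚ K']

/-- the exponential -/
noncomputable def nexp (a : NS X K) : NS X K := psub a (PowerSeries.exp K)

@[simp] theorem nexp_nil (a : NS X K) : nexp a [] = 1 := by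
  rw [nexp, psub_nil]; simp

theorem nexp_smul_mul {a : NS X K} (ha : a [] = 0) (s t : K) :
    nexp (s • a) * nexp (t • a) = nexp ((s + t) • a) := by
  rw [nexp, nexp, nexp, psub_smul_left, psub_smul_left, psub_smul_left, ← psub_mul ha,
    PowerSeries.exp_mul_exp_eq_exp_add]

theorem nexp_zero : nexp (0 : NS X K) = 1 := by
  ext w
  rw [nexp, psub_apply, Finset.sum_eq_single 0]
  · simp
  · intro n _ hn
    rw [zero_pow hn]; simp
  · intro h; simp at h

theorem nexp_mul_neg {a : NS X K} (ha : a [] = 0) : nexp a * nexp (-a) = 1 := by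
  have := nexp_smul_mul ha 1 (-1)
  rw [one_smul, neg_smul, one_smul, add_neg_cancel, zero_smul, nexp_zero] at this
  exact this

theorem nexp_neg_mul {a : NS X K} (ha : a [] = 0) : nexp (-a) * nexp a = 1 := by
  have := nexp_smul_mul ha (-1) 1
  rw [one_smul, neg_smul, one_smul, neg_add_cancel, zero_smul, nexp_zero] at this
  exact this

theorem inv_nexp {a : NS X K} (ha : a [] = 0) : inv (nexp a) = nexp (-a) :=
  (inv_uniq (nexp_nil a) (nexp_mul_neg ha)).symm

theorem map_nexp (φ : K →+* K') (a : NS X K) : map φ (nexp a) = nexp (map φ a) := by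
  rw [nexp, nexp, map_psub, PowerSeries.map_exp]

theorem pre_nexp (s : X → X) (a : NS X K) : pre s (nexp a) = nexp (pre s a) := by
  rw [nexp, nexp, pre_psub]

theorem E_nexp {a : NS X K} {k : ℕ} (ha0 : a [] = 0) (ha : E a = (k : K) • a) :
    E (nexp a) = nexp a * ((k : K) • a) := by
  have hd : PowerSeries.derivative K (PowerSeries.exp K) = PowerSeries.exp K := by
    have := PowerSeries.derivative_exp K
    exact this
  rw [nexp, E_psub ha, hd, mul_comm (PowerSeries.X) (PowerSeries.exp K), psub_mul ha0, psub_X ha0,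
    mul_smul_comm]

theorem nexp_comm {a : NS X K} (ha : a [] = 0) : a * nexp a = nexp a * a := by
  have h1 : psub a (PowerSeries.X * PowerSeries.exp K) = a * nexp a := by
    rw [psub_mul ha, psub_X ha]; rfl
  have h2 : psub a (PowerSeries.exp K * PowerSeries.X) = nexp a * a := by
    rw [psub_mul ha, psub_X ha]; rfl
  rw [← h1, ← h2, mul_comm]

theorem ord_nexp_sub_one {a : NS X K} {k : ℕ} (hk : 0 < k) (ha : Ord k a) :
    Ord k (nexp a - 1) := by
  have ha0 : a [] = 0 := ha [] hk
  have h1 : PowerSeries.X ∣ PowerSeries.exp K - 1 := by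
    rw [PowerSeries.X_dvd_iff]; simp
  obtain ⟨G, hG⟩ := h1
  have h2 : nexp a - 1 = a * psub a G := by
    rw [nexp, ← psub_one a, ← psub_sub, hG, psub_mul ha0, psub_X ha0]
  rw [h2]
  exact ha.mul_right _

theorem ord_nexp_sub_one_sub {a : NS X K} {k : ℕ} (hk : 0 < k) (ha : Ord k a) :
    Ord (2 * k) (nexp a - 1 - a) := by
  have ha0 : a [] = 0 := ha [] hk
  have h1 : PowerSeries.X ^ 2 ∣ PowerSeries.exp K - 1 - PowerSeries.X := by
    rw [PowerSeries.X_pow_dvd_iff]
    intro m hm
    interval_cases m
    · simp
    · simp [PowerSeries.coeff_exp]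
  obtain ⟨G, hG⟩ := h1
  have h2 : nexp a - 1 - a = a ^ 2 * psub a G := by
    calc nexp a - 1 - a = psub a (PowerSeries.exp K - 1 - PowerSeries.X) := by
          rw [psub_sub, psub_sub, psub_one, psub_X ha0]; rfl
      _ = _ := by rw [hG, psub_mul ha0, psub_pow ha0, psub_X ha0]
  rw [h2]
  exact (ha.pow 2).mul_right _

end Exp

end NS

end Pool.Agent.Lib.MP_d7cc7c_an
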