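import Pool.Agent.Lib.MP_d7cc7c_an.Jets3

/-!
# Asymptotic expansions of functions of a real variable
-/

set_option linter.unusedSectionVars false

namespace Pool.Agent.Lib.MP_d7cc7c_an

open ComplexConjugate Filter Topology Asymptotics

/-- `f` has the expansion `A` up to order `N` at zero -/
def HasExp (N : ℕ) (f : ℝ → ℂ) (A : PowerSeries ℂ) : Prop :=
  (fun t : ℝ => f t - (PowerSeries.trunc (N + 1) A).eval (t : ℂ)) =O[𝓝 0]
    (fun t : ℝ => t ^ (N + 1))

theorem continuous_eval_ofReal (P : Polynomial ℂ) : Continuous (fun t : ℝ => P.eval (t : ℂ)) :=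
  P.continuous.comp Complex.continuous_ofReal

theorem isBigO_one_of_cont {f : ℝ → ℂ} (hf : ContinuousAt f 0) :
    f =O[𝓝 0] (fun _ : ℝ => (1 : ℝ)) := hf.isBigO_one ℝ

theorem isBigO_poly {P : Polynomial ℂ} {N : ℕ} (h : ∀ j < N, P.coeff j = 0) :
    (fun t : ℝ => P.eval (t : ℂ)) =O[𝓝 0] (fun t : ℝ => t ^ N) := by
  obtain ⟨Q, rfl⟩ := (Polynomial.X_pow_dvd_iff).2 h
  have h1 : (fun t : ℝ => Q.eval (t : ℂ)) =O[𝓝 0] (fun _ : ℝ => (1 : ℝ)) :=
    isBigO_one_of_cont (continuous_eval_ofReal Q).continuousAt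
  have h2 : (fun t : ℝ => ((t : ℂ)) ^ N) =O[𝓝 0] (fun t : ℝ => t ^ N) := by
    apply IsBigO.of_bound 1
    filter_upwards with t
    rw [one_mul, norm_pow, norm_pow, Complex.norm_real]
  have h3 := h2.mul h1
  simp only [mul_one] at h3
  simpa [Polynomial.eval_mul] using h3

theorem pow_isBigO {M N : ℕ} (h : N ≤ M) :
    (fun t : ℝ => t ^ M) =O[𝓝 0] (fun t : ℝ => t ^ N) := by
  obtain ⟨k, rfl⟩ := Nat.exists_eq_add_of_le h
  have h1 : (fun t : ℝ => t ^ k) =O[𝓝 0] (fun _ : ℝ => (1 : ℝ)) :=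
    (continuous_pow k).continuousAt.isBigO_one ℝ
  have h2 := (isBigO_refl (fun t : ℝ => t ^ N) (𝓝 0)).mul h1
  simpa [pow_add] using h2

/-- the main criterion -/
theorem HasExp.of_poly {N : ℕ} {f : ℝ → ℂ} {A : PowerSeries ℂ} {P : Polynomial ℂ}
    (hP : ∀ j ≤ N, P.coeff j = PowerSeries.coeff j A)
    (hf : (fun t : ℝ => f t - P.eval (t : ℂ)) =O[𝓝 0] (fun t : ℝ => t ^ (N + 1))) :
    HasExp N f A := by
  have h1 : (fun t : ℝ => (P - PowerSeries.trunc (N + 1) A).eval (t : ℂ)) =O[𝓝 0]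
      (fun t : ℝ => t ^ (N + 1)) := by
    apply isBigO_poly
    intro j hj
    rw [Polynomial.coeff_sub, PowerSeries.coeff_trunc, if_pos hj, hP j (by omega), sub_self]
  have h2 := hf.add h1
  refine h2.congr_left ?_
  intro t
  rw [Polynomial.eval_sub]; ring

theorem HasExp.mono {M N : ℕ} {f : ℝ → ℂ} {A : PowerSeries ℂ} (h : HasExp M f A) (hN : N ≤ M) :
    HasExp N f A := by
  refine HasExp.of_poly (P := PowerSeries.trunc (M + 1) A) ?_ (h.trans (pow_isBigO (by omega)))
  intro j hj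
  rw [PowerSeries.coeff_trunc, if_pos (by omega)]

theorem hasExp_poly {M N : ℕ} (hN : N ≤ M) (A : PowerSeries ℂ) :
    HasExp N (fun t : ℝ => (PowerSeries.trunc (M + 1) A).eval (t : ℂ)) A := by
  refine HasExp.of_poly (P := PowerSeries.trunc (M + 1) A) ?_ ?_
  · intro j hj
    rw [PowerSeries.coeff_trunc, if_pos (by omega)]
  · simp only [sub_self]
    exact isBigO_zero _ _

theorem HasExp.add {N : ℕ} {f g : ℝ → ℂ} {A B : PowerSeries ℂ} (hf : HasExp N f A)
    (hg : HasExp N g B) : HasExp N (fun t => f t + g t) (A + B) := by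
  refine (IsBigO.add hf hg).congr_left ?_
  intro t
  rw [map_add, Polynomial.eval_add]; ring

theorem HasExp.zero (N : ℕ) : HasExp N (fun _ => 0) 0 := by
  have : (PowerSeries.trunc (N + 1) (0 : PowerSeries ℂ)) = 0 := by
    ext j; rw [PowerSeries.coeff_trunc]; simp
  rw [HasExp, this]
  simp only [Polynomial.eval_zero, sub_zero]
  exact isBigO_zero _ _

theorem HasExp.sum {ι : Type*} (s : Finset ι) {N : ℕ} {f : ι → ℝ → ℂ} {A : ι → PowerSeries ℂ}
    (h : ∀ i ∈ s, HasExp N (f i) (A i)) :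
    HasExp N (fun t => ∑ i ∈ s, f i t) (∑ i ∈ s, A i) := by
  induction s using Finset.cons_induction with
  | empty => simpa using HasExp.zero N
  | cons a s ha ih =>
    simp only [Finset.sum_cons]
    exact (h a (Finset.mem_cons_self a s)).add
      (ih fun i hi => h i (Finset.mem_cons_of_mem hi))

theorem HasExp.mul {N : ℕ} {f g : ℝ → ℂ} {A B : PowerSeries ℂ} (hf : HasExp N f A)
    (hg : HasExp N g B) : HasExp N (fun t => f t * g t) (A * B) := by
  refine HasExp.of_poly (P := PowerSeries.trunc (N + 1) A * PowerSeries.trunc (N + 1) B) ?_ ?_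
  · intro j hj
    rw [PowerSeries.coeff_mul_eq_coeff_trunc_mul_trunc _ _ (show j < N + 1 by omega),
      ← Polynomial.coe_mul, Polynomial.coeff_coe]
  · have h1 : (fun t : ℝ => (PowerSeries.trunc (N + 1) A).eval (t : ℂ)) =O[𝓝 0]
        (fun _ : ℝ => (1 : ℝ)) := isBigO_one_of_cont (continuous_eval_ofReal _).continuousAt
    have h2 : (fun t : ℝ => (PowerSeries.trunc (N + 1) B).eval (t : ℂ)) =O[𝓝 0]
        (fun _ : ℝ => (1 : ℝ)) := isBigO_one_of_cont (continuous_eval_ofReal _).continuousAt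
    have h3 : (fun t : ℝ => t ^ (N + 1)) =O[𝓝 0] (fun _ : ℝ => (1 : ℝ)) :=
      (continuous_pow (N + 1)).continuousAt.isBigO_one ℝ
    have h4 : g =O[𝓝 0] (fun _ : ℝ => (1 : ℝ)) := by
      have := (IsBigO.trans hg h3).add h2
      refine this.congr_left ?_
      intro t; ring
    have h5 := IsBigO.mul hf h4
    have h6 := IsBigO.mul h1 hg
    simp only [mul_one] at h5
    simp only [one_mul] at h6
    refine (h5.add h6).congr_left ?_
    intro t
    rw [Polynomial.eval_mul]; ring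

theorem HasExp.conj {N : ℕ} {f : ℝ → ℂ} {A : PowerSeries ℂ} (hf : HasExp N f A) :
    HasExp N (fun t => conj (f t)) (PowerSeries.map (starRingEnd ℂ) A) := by
  have h1 : ∀ t : ℝ, (PowerSeries.trunc (N + 1) (PowerSeries.map (starRingEnd ℂ) A)).eval
      (t : ℂ) = conj ((PowerSeries.trunc (N + 1) A).eval (t : ℂ)) := by
    intro t
    have h2 : PowerSeries.trunc (N + 1) (PowerSeries.map (starRingEnd ℂ) A) =
        (PowerSeries.trunc (N + 1) A).map (starRingEnd ℂ) := by
      ext j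
      rw [PowerSeries.coeff_trunc, Polynomial.coeff_map, PowerSeries.coeff_trunc,
        PowerSeries.coeff_map]
      split_ifs <;> simp
    rw [h2, ← eval_conj, Complex.conj_ofReal]
  refine IsBigO.congr_left (f₁ := fun t : ℝ => conj (f t -
    (PowerSeries.trunc (N + 1) A).eval (t : ℂ))) ?_ ?_
  · have h3 : (fun t : ℝ => ‖f t - (PowerSeries.trunc (N + 1) A).eval (t : ℂ)‖) =O[𝓝 0]
        (fun t : ℝ => t ^ (N + 1)) := IsBigO.norm_left hf
    refine IsBigO.of_norm_left (h3.congr_left ?_)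
    intro t
    rw [RCLike.norm_conj]
  · intro t
    rw [map_sub, h1]

theorem HasExp.isBigO {N m : ℕ} {f : ℝ → ℂ} {A : PowerSeries ℂ} (hf : HasExp N f A)
    (hm : m ≤ N + 1) (hA : ∀ j < m, PowerSeries.coeff j A = 0) :
    f =O[𝓝 0] (fun t : ℝ => t ^ m) := by
  have h1 : (fun t : ℝ => (PowerSeries.trunc (N + 1) A).eval (t : ℂ)) =O[𝓝 0]
      (fun t : ℝ => t ^ m) := by
    apply isBigO_poly
    intro j hj
    rw [PowerSeries.coeff_trunc]
    split_ifs
    · exact hA j hj
    · rfl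
  have h2 := (IsBigO.trans hf (pow_isBigO hm)).add h1
  refine h2.congr_left ?_
  intro t; ring

theorem HasExp.lead {m : ℕ} {f : ℝ → ℂ} {A : PowerSeries ℂ} (hf : HasExp m f A)
    (hA : ∀ j < m, PowerSeries.coeff j A = 0) :
    (fun t : ℝ => f t - PowerSeries.coeff m A * (t : ℂ) ^ m) =O[𝓝 0]
      (fun t : ℝ => t ^ (m + 1)) := by
  refine IsBigO.congr_left hf ?_
  intro t
  have : PowerSeries.trunc (m + 1) A = Polynomial.monomial m (PowerSeries.coeff m A) := by
    ext j
    rw [PowerSeries.coeff_trunc, Polynomial.coeff_monomial]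
    by_cases h1 : j < m
    · rw [if_pos (by omega), if_neg (by omega), hA j h1]
    · by_cases h2 : m = j
      · subst h2; rw [if_pos (by omega), if_pos rfl]
      · rw [if_neg (by omega), if_neg h2]
  rw [this, Polynomial.eval_monomial]

/-- the derivative of a power series -/
noncomputable def dX (A : PowerSeries ℂ) : PowerSeries ℂ :=
  PowerSeries.mk fun n => ((n : ℂ) + 1) * PowerSeries.coeff (n + 1) A

@[simp] theorem coeff_dX (A : PowerSeries ℂ) (n : ℕ) :
    PowerSeries.coeff n (dX A) = ((n : ℂ) + 1) * PowerSeries.coeff (n + 1) A :=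
  PowerSeries.coeff_mk _ _

theorem trunc_dX (N : ℕ) (A : PowerSeries ℂ) : PowerSeries.trunc (N + 1) (dX A) =
    Polynomial.derivative (PowerSeries.trunc (N + 2) A) := by
  ext j
  rw [PowerSeries.coeff_trunc, Polynomial.coeff_derivative, PowerSeries.coeff_trunc, coeff_dX]
  by_cases h : j < N + 1
  · rw [if_pos h, if_pos (by omega), mul_comm]
  · rw [if_neg h, if_neg (by omega), zero_mul]

theorem X_mul_dX (A : PowerSeries ℂ) : PowerSeries.X * dX A = th A := by
  ext j
  cases j with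
  | zero => rw [coeff_zero_mul']; simp
  | succ j => rw [PowerSeries.coeff_succ_X_mul, coeff_dX, coeff_th]; push_cast; ring

theorem hasDerivAt_poly_real (P : Polynomial ℂ) (t : ℝ) :
    HasDerivAt (fun t : ℝ => P.eval (t : ℂ)) (P.derivative.eval (t : ℂ)) t :=
  (P.hasDerivAt (t : ℂ)).comp_ofReal

/-- integration of expansions -/
theorem HasExp.integ {N : ℕ} {f g : ℝ → ℂ} {A : PowerSeries ℂ}
    (hd : ∀ t, HasDerivAt f (g t) t) (hg : HasExp N g (dX A))
    (h0 : f 0 = PowerSeries.coeff 0 A) : HasExp (N + 1) f A := by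
  rw [HasExp, trunc_dX] at hg
  obtain ⟨C, hC⟩ := hg.bound
  obtain ⟨δ, hδ, hb⟩ := Metric.eventually_nhds_iff.1 hC
  rw [HasExp]
  apply IsBigO.of_bound (max C 0)
  refine Metric.eventually_nhds_iff.2 ⟨δ, hδ, ?_⟩
  intro t ht
  set φ : ℝ → ℂ := fun t => f t - (PowerSeries.trunc (N + 1 + 1) A).eval (t : ℂ) with hφ
  have hφ' : ∀ x, HasDerivAt φ (g x -
      (Polynomial.derivative (PowerSeries.trunc (N + 2) A)).eval (x : ℂ)) x := by
    intro x
    exact (hd x).sub (hasDerivAt_poly_real _ x)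
  have hφ0 : φ 0 = 0 := by
    rw [hφ]
    simp only
    rw [h0, Complex.ofReal_zero, ← Polynomial.coeff_zero_eq_eval_zero, PowerSeries.coeff_trunc,
      if_pos (by omega), sub_self]
  have hmem : ∀ x ∈ Set.uIcc 0 t, |x| ≤ |t| := by
    intro x hx
    rcases le_total 0 t with h | h
    · rw [Set.uIcc_of_le h] at hx
      rw [abs_of_nonneg hx.1, abs_of_nonneg h]; exact hx.2
    · rw [Set.uIcc_of_ge h] at hx
      rw [abs_of_nonpos hx.2, abs_of_nonpos h]; linarith [hx.1]
  have hbound : ∀ x ∈ Set.uIcc 0 t, ‖g x -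
      (Polynomial.derivative (PowerSeries.trunc (N + 2) A)).eval (x : ℂ)‖ ≤
      max C 0 * |t| ^ (N + 1) := by
    intro x hx
    have h1 : dist x 0 < δ := by
      rw [Real.dist_0_eq_abs] at ht ⊢
      exact (hmem x hx).trans_lt ht
    refine (hb h1).trans ?_
    rw [norm_pow, Real.norm_eq_abs]
    refine mul_le_mul (le_max_left _ _) (pow_le_pow_left₀ (abs_nonneg _) (hmem x hx) _)
      (pow_nonneg (abs_nonneg _) _) (le_max_right _ _)
  have h1 := Convex.norm_image_sub_le_of_norm_hasDerivWithin_le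
    (fun x _ => (hφ' x).hasDerivWithinAt) hbound (convex_uIcc 0 t) Set.left_mem_uIcc
    Set.right_mem_uIcc
  rw [hφ0, sub_zero, sub_zero, Real.norm_eq_abs] at h1
  refine h1.trans (le_of_eq ?_)
  rw [norm_pow, Real.norm_eq_abs]; ring

end Pool.Agent.Lib.MP_d7cc7c_an
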