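import Pool.Agent.Lib.MP_d7cc7c_an.Rigid

/-!
# One parameter families of discs
-/

set_option linter.unusedSectionVars false

namespace Pool.Agent.Lib.MP_d7cc7c_an

open NS MvPolynomial ComplexConjugate ComplexOrder

section AddLaurent

variable {R S : Type*} [CommRing R] [CommRing S]

/-- additive change of coefficients -/
noncomputable def aL (f : R →+ S) : LP R →+ LP S where
  toFun x := AddMonoidAlgebra.ofCoeff (x.coeff.mapRange f f.map_zero)
  map_zero' := by
    ext n
    simp
  map_add' x y := by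
    ext n
    simp

@[simp] theorem aL_coeff (f : R →+ S) (x : LP R) (n : ℤ) : (aL f x).coeff n = f (x.coeff n) := by
  show (x.coeff.mapRange f f.map_zero) n = _
  rw [Finsupp.mapRange_apply]

theorem aL_C_mul_T (f : R →+ S) (a : R) (n : ℤ) :
    aL f (LaurentPolynomial.C a * LaurentPolynomial.T n) =
      LaurentPolynomial.C (f a) * LaurentPolynomial.T n := by
  rw [← LaurentPolynomial.single_eq_C_mul_T, ← LaurentPolynomial.single_eq_C_mul_T]
  ext m
  rw [aL_coeff]
  show f ((Finsupp.single n a) m) = (Finsupp.single n (f a)) m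
  rw [Finsupp.single_apply, Finsupp.single_apply]
  split_ifs <;> simp

theorem aL_mul (α β : R →+* S) (δ : R →+ S) (hδ : ∀ a b, δ (a * b) = δ a * β b + α a * δ b)
    (x y : LP R) : aL δ (x * y) = aL δ x * mL β y + mL α x * aL δ y := by
  induction x using LaurentPolynomial.induction_on' with
  | add p q hp hq => rw [add_mul, map_add, map_add, map_add, hp, hq]; ring
  | C_mul_T n a =>
    induction y using LaurentPolynomial.induction_on' with
    | add p q hp hq => rw [mul_add, map_add, map_add, map_add, hp, hq]; ring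
    | C_mul_T m b =>
      have h1 : (LaurentPolynomial.C a * LaurentPolynomial.T n : LP R) *
          (LaurentPolynomial.C b * LaurentPolynomial.T m) =
          LaurentPolynomial.C (a * b) * LaurentPolynomial.T (n + m) := by
        rw [map_mul, LaurentPolynomial.T_add]; ring
      rw [h1, aL_C_mul_T, aL_C_mul_T, aL_C_mul_T, hδ, map_mul (mL β), map_mul (mL α), mL_C, mL_C,
        mL_T, mL_T, map_add, map_mul, map_mul, LaurentPolynomial.T_add]
      ring

theorem cL_aL (c : R →+* R) (d : S →+* S) (f : R →+ S) (h : ∀ a, f (c a) = d (f a)) (x : LP R) :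
    aL f (cL c x) = cL d (aL f x) := by
  ext n; simp [h]

theorem e1_aL (f : R →+ S) (x : LP R) : e1 (aL f x) = f (e1 x) := by
  induction x using LaurentPolynomial.induction_on' with
  | add p q hp hq => rw [map_add, map_add, map_add, map_add, hp, hq]
  | C_mul_T n a =>
    rw [aL_C_mul_T, map_mul, map_mul, e1_C, e1_C, e1_T, e1_T, mul_one, mul_one]

theorem ngL_aL (f : R →+ S) (x : LP R) : ngL (aL f x) = aL f (ngL x) := by
  ext n
  simp only [ngL_coeff, aL_coeff]
  split_ifs <;> simp

/-- additive change of coefficients for polynomials -/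
noncomputable def aP (f : R →+ S) : Polynomial R →+ Polynomial S :=
  (LaurentPolynomial.trunc.comp (aL f)).comp
    (Polynomial.toLaurent : Polynomial R →+* LP R).toAddMonoidHom

theorem aP_apply (f : R →+ S) (p : Polynomial R) :
    aP f p = LaurentPolynomial.trunc (aL f (Polynomial.toLaurent p)) := rfl

theorem toLaurent_aP (f : R →+ S) (p : Polynomial R) :
    Polynomial.toLaurent (aP f p) = aL f (Polynomial.toLaurent p) := by
  obtain ⟨y, hy⟩ := exists_toLaurent (x := aL f (Polynomial.toLaurent p)) (by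
    rw [ngL_aL, ngL_toLaurent, map_zero])
  rw [aP_apply, ← hy, LaurentPolynomial.leftInverse_trunc_toLaurent]

theorem aP_monomial (f : R →+ S) (n : ℕ) (a : R) :
    aP f (Polynomial.monomial n a) = Polynomial.monomial n (f a) := by
  apply Polynomial.toLaurent_injective
  rw [toLaurent_aP, Polynomial.toLaurent_C_mul_T, Polynomial.toLaurent_C_mul_T, aL_C_mul_T]

end AddLaurent

section Param

/-- conjugation of the parameter ring -/
noncomputable def cs : Polynomial ℂ →+* Polynomial ℂ := Polynomial.mapRingHom (starRingEnd ℂ)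

theorem cs_cs (a : Polynomial ℂ) : cs (cs a) = a := by
  ext n
  simp [cs]

/-- specialisation of the parameter -/
noncomputable def sp (t : ℝ) : Polynomial ℂ →+* ℂ := Polynomial.evalRingHom (t : ℂ)

theorem sp_apply (t : ℝ) (a : Polynomial ℂ) : sp t a = a.eval (t : ℂ) := rfl

theorem sp_cs (t : ℝ) (a : Polynomial ℂ) : sp t (cs a) = conj (sp t a) := by
  rw [sp_apply, sp_apply, ← eval_conj, Complex.conj_ofReal]; rfl

/-- derivative at zero -/
noncomputable def d0 : Polynomial ℂ →+ ℂ := (Polynomial.lcoeff ℂ 1).toAddMonoidHom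

theorem d0_apply (a : Polynomial ℂ) : d0 a = a.coeff 1 := rfl

theorem sp_zero (a : Polynomial ℂ) : sp 0 a = a.coeff 0 := by
  rw [sp_apply, Complex.ofReal_zero, Polynomial.coeff_zero_eq_eval_zero]

theorem d0_mul (a b : Polynomial ℂ) : d0 (a * b) = d0 a * sp 0 b + sp 0 a * d0 b := by
  rw [d0_apply, d0_apply, d0_apply, sp_zero, sp_zero, Polynomial.coeff_mul]
  simp [Finset.antidiagonal, Finset.Nat.antidiagonal_succ]
  ring

theorem d0_cs (a : Polynomial ℂ) : d0 (cs a) = conj (d0 a) := by
  simp [d0_apply, cs]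

theorem hasDerivAt_sp (a : Polynomial ℂ) : HasDerivAt (fun t : ℝ => sp t a) (d0 a) 0 := by
  have h1 : HasDerivAt (fun z : ℂ => a.eval z) (a.derivative.eval ((0 : ℝ) : ℂ)) ((0 : ℝ) : ℂ) :=
    a.hasDerivAt _
  have h2 := h1.comp_ofReal
  refine h2.congr_deriv ?_
  rw [Complex.ofReal_zero, ← Polynomial.coeff_zero_eq_eval_zero, Polynomial.coeff_derivative,
    d0_apply]
  simp

theorem hasDerivAt_map_eval (p : Polynomial (Polynomial ℂ)) (z : ℂ) :
    HasDerivAt (fun t : ℝ => (p.map (sp t)).eval z) ((aP d0 p).eval z) 0 := by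
  induction p using Polynomial.induction_on' with
  | add p q hp hq =>
    simp only [Polynomial.map_add, Polynomial.eval_add, map_add]
    exact hp.add hq
  | monomial n a =>
    simp only [Polynomial.map_monomial, Polynomial.eval_monomial, aP_monomial]
    exact (hasDerivAt_sp a).mul_const _

theorem hasDerivAt_map_deriv_eval (p : Polynomial (Polynomial ℂ)) (z : ℂ) :
    HasDerivAt (fun t : ℝ => (Polynomial.derivative (p.map (sp t))).eval z)
      ((Polynomial.derivative (aP d0 p)).eval z) 0 := by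
  induction p using Polynomial.induction_on' with
  | add p q hp hq =>
    simp only [Polynomial.map_add, Polynomial.eval_add, map_add]
    exact hp.add hq
  | monomial n a =>
    simp only [Polynomial.map_monomial, Polynomial.eval_monomial, aP_monomial,
      Polynomial.derivative_monomial]
    exact ((hasDerivAt_sp a).mul_const _).mul_const _

theorem hasDerivAt_eL (x : LP (Polynomial ℂ)) (u : ℂˣ) :
    HasDerivAt (fun t : ℝ => eL u (mL (sp t) x)) (eL u (aL d0 x)) 0 := by
  induction x using LaurentPolynomial.induction_on' with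
  | add p q hp hq =>
    simp only [map_add]
    exact hp.add hq
  | C_mul_T n a =>
    simp only [map_mul, mL_C, mL_T, aL_C_mul_T, eL_C, eL_T]
    exact (hasDerivAt_sp a).mul_const _

end Param

section ExpExpansion

variable {X K : Type*} [CommRing K] [Algebra ℚ K]

theorem exists_nexp {a : NS X K} (ha : a [] = 0) : ∃ G : NS X K, nexp a = 1 + a + a * a * G := by
  have h1 : PowerSeries.X ^ 2 ∣ PowerSeries.exp K - 1 - PowerSeries.X := by
    rw [PowerSeries.X_pow_dvd_iff]
    intro m hm
    interval_cases m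
    · simp
    · simp [PowerSeries.coeff_exp]
  obtain ⟨G, hG⟩ := h1
  refine ⟨psub a G, ?_⟩
  have h2 : nexp a - 1 - a = a ^ 2 * psub a G := by
    calc nexp a - 1 - a = psub a (PowerSeries.exp K - 1 - PowerSeries.X) := by
          rw [psub_sub, psub_sub, psub_one, psub_X ha]; rfl
      _ = _ := by rw [hG, psub_mul ha, psub_pow ha, psub_X ha]
  rw [← pow_two, ← h2]; abel

end ExpExpansion

section Family

variable {r : ℕ}

/-- inclusion of the constants -/
noncomputable def iS : NS (Lt r) (LP ℂ) →+* NS (Lt r) (LP (Polynomial ℂ)) :=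
  NS.map (mL Polynomial.C)

/-- the derivative of a family at the parameter zero -/
noncomputable def dS0 : NS (Lt r) (LP (Polynomial ℂ)) → NS (Lt r) (LP ℂ) := amap (aL d0)

/-- specialisation of a family -/
noncomputable def spS (t : ℝ) : NS (Lt r) (LP (Polynomial ℂ)) →+* NS (Lt r) (LP ℂ) :=
  NS.map (mL (sp t))

theorem spS_iS (t : ℝ) (f : NS (Lt r) (LP ℂ)) : spS t (iS f) = f := by
  ext1 w
  show mL (sp t) (mL Polynomial.C (f w)) = f w
  rw [mL_comp]
  have : (sp t).comp Polynomial.C = RingHom.id ℂ := by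
    ext1 x; simp [sp]
  rw [this, mL_id]

theorem dS0_iS (f : NS (Lt r) (LP ℂ)) : dS0 (iS f) = 0 := by
  ext1 w
  show aL d0 (mL Polynomial.C (f w)) = 0
  ext n
  simp [d0_apply]

theorem dS0_mul (f g : NS (Lt r) (LP (Polynomial ℂ))) :
    dS0 (f * g) = dS0 f * spS 0 g + spS 0 f * dS0 g :=
  amap_mul_twisted (mL (sp 0)) (mL (sp 0)) (aL d0) (aL_mul (sp 0) (sp 0) d0 d0_mul) f g

theorem dS0_add (f g : NS (Lt r) (LP (Polynomial ℂ))) : dS0 (f + g) = dS0 f + dS0 g :=
  amap_add _ f g

theorem dS0_one : dS0 (1 : NS (Lt r) (LP (Polynomial ℂ))) = 0 := by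
  have := dS0_iS (1 : NS (Lt r) (LP ℂ))
  rwa [map_one] at this

/-- the parameter -/
noncomputable def sv : LP (Polynomial ℂ) := LaurentPolynomial.C Polynomial.X

theorem spS_smul_sv (f : NS (Lt r) (LP (Polynomial ℂ))) : spS 0 (sv • f) = 0 := by
  ext1 w
  show mL (sp 0) (sv * f w) = 0
  rw [map_mul, sv, mL_C]
  simp [sp]

theorem dS0_smul_sv (f : NS (Lt r) (LP (Polynomial ℂ))) : dS0 (sv • f) = spS 0 f := by
  ext1 w
  show aL d0 (sv * f w) = mL (sp 0) (f w)
  rw [aL_mul (sp 0) (sp 0) d0 d0_mul, sv, mL_C]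
  have h1 : aL d0 (LaurentPolynomial.C (Polynomial.X : Polynomial ℂ)) = 1 := by
    have := aL_C_mul_T d0 (Polynomial.X : Polynomial ℂ) 0
    rw [LaurentPolynomial.T_zero, LaurentPolynomial.T_zero, mul_one, mul_one] at this
    rw [this]
    simp [d0_apply]
  rw [h1]
  simp [sp]

/-- the varied series -/
noncomputable def Qs (q B : NS (Lt r) (LP ℂ)) : NS (Lt r) (LP (Polynomial ℂ)) :=
  nexp (sv • iS (-B)) * iS q

theorem spS_nexp_zero (f : NS (Lt r) (LP (Polynomial ℂ))) : spS 0 (nexp (sv • f)) = 1 := by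
  rw [spS, map_nexp]
  have : NS.map (mL (sp 0)) (sv • f) = 0 := spS_smul_sv f
  rw [this, nexp_zero]

theorem spS_Qs (q B : NS (Lt r) (LP ℂ)) : spS 0 (Qs q B) = q := by
  rw [Qs, map_mul, spS_nexp_zero, spS_iS, one_mul]

theorem dS0_Qs (q B : NS (Lt r) (LP ℂ)) (hB : B [] = 0) : dS0 (Qs q B) = -(B * q) := by
  have h0 : (sv • iS (-B)) [] = 0 := by
    show sv * mL Polynomial.C ((-B) []) = 0
    rw [neg_app, hB]; simp
  obtain ⟨G, hG⟩ := exists_nexp h0
  rw [Qs, dS0_mul, dS0_iS, mul_zero, add_zero, spS_iS, hG, dS0_add, dS0_add, dS0_one, dS0_smul_sv,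
    spS_iS, mul_assoc, dS0_mul, map_mul, spS_smul_sv]
  noncomm_ring

/-- existence of families of discs -/
theorem exists_family {q h : NS (Lt r) (LP ℂ)} {φ : NS (Lt r) (Polynomial ℂ)}
    (hd : IsDisc (starRingEnd ℂ) q h φ) (i : Fin r) (a : LP ℂ) (ha1 : e1 a = 0) (K : ℕ)
    (haK : ∀ w : List (Lt r), w.length ≤ K → 
      ngL (a * (h * letter (i, false) * q : NS (Lt r) (LP ℂ)) w) = 0) :
    ∃ (Q H : ℝ → NS (Lt r) (LP ℂ)) (Φ : ℝ → NS (Lt r) (Polynomial ℂ))
      (H' : NS (Lt r) (LP ℂ)) (Φ' : NS (Lt r) (Polynomial ℂ)),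
      (∀ t, IsDisc (starRingEnd ℂ) (Q t) (H t) (Φ t)) ∧ H 0 = h ∧ Φ 0 = φ ∧
      (∀ (z : ℂ) (w), HasDerivAt (fun t => (Φ t w).eval z) ((Φ' w).eval z) 0) ∧
      (∀ (z : ℂ) (w), HasDerivAt (fun t => (Polynomial.derivative (Φ t w)).eval z)
        ((Polynomial.derivative (Φ' w)).eval z) 0) ∧
      (∀ (u : ℂˣ) (w), HasDerivAt (fun t => eL u (H t w)) (eL u (H' w)) 0) ∧
      (∀ w, w.length ≤ K → Polynomial.toLaurent (Φ' w) =
        a * (h * letter (i, false) * q : NS (Lt r) (LP ℂ)) w) ∧
      (∀ w, w.length ≤ K → H' w =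
        (h * (a • letter (i, false) + cL (starRingEnd ℂ) a • letter (i, true)) :
          NS (Lt r) (LP ℂ)) w) := by
  set A : NS (Lt r) (LP ℂ) := a • letter (i, false) with hA
  set B : NS (Lt r) (LP ℂ) := cL (starRingEnd ℂ) a • letter (i, true) with hB
  have hcc : ∀ x : ℂ, conj (conj x) = x := Complex.conj_conj
  have hB0 : B [] = 0 := by rw [hB, smul_app, letter_nil, smul_zero]
  have hBlie : (-B) ∈ (lie 1 : Submodule (LP ℂ) (NS (Lt r) (LP ℂ))) :=
    neg_mem (Submodule.smul_mem _ _ (letter_mem_lie _))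
  have hBAS : AS (-B) := by
    have := (AS.letter (K := LP ℂ) i).smul (-(cL (starRingEnd ℂ) a))
    rwa [neg_smul] at this
  have hsA : sL (starRingEnd ℂ) A = B := by
    ext1 w
    rw [sL_apply, hA, hB, smul_app, smul_app, smul_eq_mul, smul_eq_mul, map_mul]
    congr 1
    have h1 : (letter (i, false) : NS (Lt r) (LP ℂ)) (w.map bar) = (letter (i, true)) w := by
      exact congrArg (fun f : NS (Lt r) (LP ℂ) => f w)
        (pre_letter (K := LP ℂ) bar bar_invol ((i, false) : Lt r))
    rw [h1]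
    exact congrArg (fun f : NS (Lt r) (LP ℂ) => f w) (map_letter (cL (starRingEnd ℂ)) (i, true))
  have hsB : sL (starRingEnd ℂ) B = A := by rw [← hsA, sL_sL _ hcc]
  -- the group property of the varied series
  have hXlie : sv • iS (-B) ∈ (lie 1 : Submodule (LP (Polynomial ℂ)) _) :=
    Submodule.smul_mem _ _ (map_mem_lie _ hBlie)
  have hQg : IsGrp (Qs q B) := (isGrp_nexp hXlie).mul (hd.qg.map _)
  have hQb : QB (Qs q B) := (QB.nexp ((hBAS.map _).smul _)).mul (hd.qb.map _)
  obtain ⟨Hs, Φs, hds⟩ := exists_disc cs cs_cs hQg hQb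
  have hdt : ∀ t : ℝ, IsDisc (starRingEnd ℂ) (spS t (Qs q B)) (spS t Hs)
      (NS.map (Polynomial.mapRingHom (sp t)) Φs) := fun t => hds.map (sp t) (sp_cs t)
  have hd0 := hdt 0
  rw [spS_Qs] at hd0
  obtain ⟨hH0, hΦ0⟩ := IsDisc.unique hcc hd0 hd
  -- the derivative of the polynomial disc
  have hΦL : NS.map Polynomial.toLaurent (amap (aP d0) Φs) =
      dS0 Hs * q - h * B * q := by
    have h1 : NS.map Polynomial.toLaurent (amap (aP d0) Φs) =
        dS0 (NS.map Polynomial.toLaurent Φs) := by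
      ext1 w
      exact toLaurent_aP _ _
    rw [h1, hds.hφ, dS0_mul, spS_Qs, dS0_Qs _ _ hB0, hH0]
    noncomm_ring
  have hrig := rigid (starRingEnd ℂ) hcc (K := K) (d := dS0 Hs - h * (A + B)) (q := q)
    hd.qb.1 ?_ ?_ ?_
  · refine ⟨fun t => spS t (Qs q B), fun t => spS t Hs,
      fun t => NS.map (Polynomial.mapRingHom (sp t)) Φs, dS0 Hs, amap (aP d0) Φs, hdt, hH0, hΦ0,
      ?_, ?_, ?_, ?_, ?_⟩
    · intro z w
      exact hasDerivAt_map_eval (Φs w) z
    · intro z w
      exact hasDerivAt_map_deriv_eval (Φs w) z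
    · intro u w
      exact hasDerivAt_eL (Hs w) u
    · intro w hw
      have h1 : Polynomial.toLaurent (amap (aP d0) Φs w) = (dS0 Hs * q - h * B * q) w :=
        congrArg (fun f : NS (Lt r) (LP ℂ) => f w) hΦL
      rw [h1]
      have h2 : Agr K (dS0 Hs) (h * (A + B)) := by
        intro u hu
        have := hrig u hu
        rwa [sub_app, sub_eq_zero] at this
      have h3 := (h2.mul (Agr.refl K q)).sub (Agr.refl K (h * B * q)) w hw
      rw [h3]
      have h4 : h * (A + B) * q - h * B * q = a • (h * letter (i, false) * q) := by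
        rw [hA, mul_add, add_mul, add_sub_cancel_right, mul_smul_comm, smul_mul_assoc]
      rw [h4, smul_app, smul_eq_mul]
    · intro w hw
      have := hrig w hw
      rwa [sub_app, sub_eq_zero] at this
  · rw [map_sub, map_mul, hd.hr, map_add, hsA, hsB, add_comm B A]
    congr 1
    have h1 : sL (starRingEnd ℂ) (dS0 Hs) = dS0 (sL cs Hs) := by
      ext1 w
      exact (cL_aL _ _ _ d0_cs _).symm
    rw [h1, hds.hr]
  · rw [map_sub, map_mul, hd.h1, one_mul, map_add]
    have h1 : NS.map e1 A = 0 := by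
      rw [hA, NS.map_smul', ha1, zero_smul]
    have h2 : NS.map e1 B = 0 := by
      rw [hB, NS.map_smul', e1_cL, ha1, map_zero, zero_smul]
    have h3 : NS.map e1 (dS0 Hs) = 0 := by
      ext1 w
      show e1 (aL d0 (Hs w)) = 0
      rw [e1_aL]
      have : e1 (Hs w) = (1 : NS (Lt r) (Polynomial ℂ)) w :=
        congrArg (fun f : NS (Lt r) (Polynomial ℂ) => f w) hds.h1
      rw [this]
      cases w <;> simp [d0_apply, Polynomial.coeff_one]
    rw [h1, h2, h3]; simp
  · intro w hw
    have h4 : (dS0 Hs - h * (A + B)) * q =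
        NS.map Polynomial.toLaurent (amap (aP d0) Φs) - a • (h * letter (i, false) * q) := by
      rw [hΦL, ← smul_mul_assoc, ← mul_smul_comm, ← hA]
      noncomm_ring
    rw [h4, sub_app, map_sub, map_apply, ngL_toLaurent, smul_app, smul_eq_mul, haK w hw, sub_zero]

end Family

end Pool.Agent.Lib.MP_d7cc7c_an
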