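import Pool.Agent.Lib.MP_d7cc7c_an.Compare

/-!
# Equality of the commutator type and the Levi-form type
-/

set_option linter.unusedSectionVars false

namespace Pool.Agent.Lib.MP_d7cc7c_an

open NS ComplexConjugate Filter Topology
open scoped ContDiff

section Final

variable {n s : ℕ} (H : Hyp n) {B : (Fin n → ℂ) → Submodule ℂ (Fin n → ℂ)} {p : Fin n → ℂ}

/-- there is a monotone condition describing both types -/
theorem exists_cond (hpsc : H.Pseudoconvex) (hs : 1 ≤ s) (hB : H.IsSubbundle s B)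
    (hp : p ∈ H.M) : ∃ T : ℕ → Prop, (∀ m k, k ≤ m → T m → T k) ∧ T 1 ∧
      (∀ m, 1 ≤ m → ((∀ G ∈ H.modc B m, H.pair G p = 0) ↔ T m)) ∧
      (∀ k, H.LeviVanish B p k ↔ T (k + 2)) := by
  obtain ⟨a, Φ, ha, hΦ, hli⟩ := exists_frame H hB hp
  obtain ⟨ρ', hreal, hρ⟩ := exists_rho H hp
  have hle := hB.le
  have haT : ∀ᶠ z in 𝓝 p, z ∈ H.M → ∀ i, (fun k => (a i k : (Fin n → ℂ) → ℂ) z) ∈ H.T10 z :=
    Eventually.of_forall fun z hz i => hle z hz (ha z hz i)
  have hequiv := local_equiv H hρ a hreal hp hpsc haT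
  refine ⟨(jd p a).TT ρ', ?_, ?_, ?_, ?_⟩
  · intro m k hk h j hj Z hZ
    exact h j (hj.trans hk) Z hZ
  · rw [hequiv]
    intro i j w hw
    omega
  · intro m hm
    exact comm_side H a hρ ha hΦ hle hp hm
  · intro k
    rw [hequiv]
    exact levi_side H a hρ ha hΦ hle hp hs hli k

theorem types_aux {T : ℕ → Prop} (hmono : ∀ m k, k ≤ m → T m → T k) (h1 : T 1)
    (hC : ∀ m, 1 ≤ m → ((∀ G ∈ H.modc B m, H.pair G p = 0) ↔ T m))
    (hL : ∀ k, H.LeviVanish B p k ↔ T (k + 2)) :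
    H.commType B p = H.leviType B p ∧
      ∀ m : ℕ, H.IsLeviType B p m ↔ H.commType B p = m := by
  have hcomm : ∀ m : ℕ, (1 ≤ m ∧ ∃ G ∈ H.modc B m, H.pair G p ≠ 0) ↔ ¬ T m := by
    intro m
    constructor
    · rintro ⟨hm, G, hG, hne⟩ hT
      exact hne ((hC m hm).2 hT G hG)
    · intro hT
      have hm : 1 ≤ m := by
        by_contra hlt
        exact hT (hmono 1 m (by omega) h1)
      refine ⟨hm, ?_⟩
      by_contra hno
      push Not at hno
      exact hT ((hC m hm).1 hno)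
  have hlev : ∀ m : ℕ, H.IsLeviType B p m ↔ (¬ T m ∧ ∀ k < m, T k) := by
    intro m
    constructor
    · rintro ⟨h2, h3, h4⟩
      rw [hL, show m - 2 + 2 = m by omega] at h4
      refine ⟨h4, fun k hk => ?_⟩
      rcases Nat.lt_or_ge m 3 with hm3 | hm3
      · exact hmono 1 k (by omega) h1
      · have := h3 hm3
        rw [hL, show m - 3 + 2 = m - 1 by omega] at this
        exact hmono _ k (by omega) this
    · rintro ⟨h2, h3⟩
      have hm2 : 2 ≤ m := by
        by_contra hlt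
        exact h2 (hmono 1 m (by omega) h1)
      refine ⟨hm2, fun hm3 => ?_, ?_⟩
      · rw [hL, show m - 3 + 2 = m - 1 by omega]
        exact h3 _ (by omega)
      · rw [hL, show m - 2 + 2 = m by omega]
        exact h2
  have hset1 : {t : ℕ∞ | ∃ m : ℕ, t = m ∧ 1 ≤ m ∧ ∃ G ∈ H.modc B m, H.pair G p ≠ 0} =
      {t : ℕ∞ | ∃ m : ℕ, t = m ∧ ¬ T m} := by
    ext t
    constructor
    · rintro ⟨m, h, h2⟩; exact ⟨m, h, (hcomm m).1 h2⟩
    · rintro ⟨m, h, h2⟩; exact ⟨m, h, (hcomm m).2 h2⟩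
  have hset2 : {c : ℕ∞ | ∃ m : ℕ, c = m ∧ H.IsLeviType B p m} =
      {c : ℕ∞ | ∃ m : ℕ, c = m ∧ (¬ T m ∧ ∀ k < m, T k)} := by
    ext t
    constructor
    · rintro ⟨m, h, h2⟩; exact ⟨m, h, (hlev m).1 h2⟩
    · rintro ⟨m, h, h2⟩; exact ⟨m, h, (hlev m).2 h2⟩
  rw [Hyp.commType, Hyp.leviType, hset1, hset2]
  by_cases hex : ∃ m, ¬ T m
  · classical
    set m0 := Nat.find hex with hm0
    have hspec : ¬ T m0 := Nat.find_spec hex
    have hmin : ∀ k < m0, T k := fun k hk => by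
      have := Nat.find_min hex hk
      exact not_not.1 this
    have e1 : sInf {t : ℕ∞ | ∃ m : ℕ, t = m ∧ ¬ T m} = m0 := by
      apply le_antisymm
      · exact sInf_le ⟨m0, rfl, hspec⟩
      · apply le_sInf
        rintro t ⟨m, rfl, hm⟩
        have : m0 ≤ m := Nat.find_min' hex hm
        exact_mod_cast this
    have e2 : sInf {c : ℕ∞ | ∃ m : ℕ, c = m ∧ (¬ T m ∧ ∀ k < m, T k)} = m0 := by
      apply le_antisymm
      · exact sInf_le ⟨m0, rfl, hspec, hmin⟩
      · apply le_sInf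
        rintro t ⟨m, rfl, hm⟩
        have : m0 ≤ m := Nat.find_min' hex hm.1
        exact_mod_cast this
    refine ⟨by rw [e1, e2], fun m => ?_⟩
    rw [hlev, e1]
    constructor
    · rintro ⟨h2, h3⟩
      have h4 : m0 ≤ m := Nat.find_min' hex h2
      have h5 : m = m0 := by
        by_contra hne
        exact hspec (h3 m0 (by omega))
      rw [h5]
    · intro h
      have : m0 = m := by exact_mod_cast h
      rw [← this]
      exact ⟨hspec, hmin⟩
  · push Not at hex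
    have e1 : {t : ℕ∞ | ∃ m : ℕ, t = m ∧ ¬ T m} = ∅ := by
      ext t
      simp [hex]
    have e2 : {c : ℕ∞ | ∃ m : ℕ, c = m ∧ (¬ T m ∧ ∀ k < m, T k)} = ∅ := by
      ext t
      simp [hex]
    rw [e1, e2]
    refine ⟨rfl, fun m => ?_⟩
    rw [hlev, sInf_empty]
    constructor
    · rintro ⟨h2, _⟩; exact absurd (hex m) h2
    · intro h; exact absurd h (by simp)

/-- the commutator type and the Levi-form type agree -/
theorem main (hpsc : H.Pseudoconvex) (hs : 1 ≤ s) (hB : H.IsSubbundle s B) (hp : p ∈ H.M) :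
    H.commType B p = H.leviType B p ∧
      ∀ m : ℕ, H.IsLeviType B p m ↔ H.commType B p = m := by
  obtain ⟨T, h1, h2, h3, h4⟩ := exists_cond H hpsc hs hB hp
  exact types_aux H h1 h2 h3 h4

end Final

end Pool.Agent.Lib.MP_d7cc7c_an
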