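import Pool.Agent.Lib.MP_d7cc7c_an.Germ

/-!
# Normalized smooth frames
-/

set_option linter.unusedSectionVars false

namespace Pool.Agent.Lib.MP_d7cc7c_an

open ComplexConjugate Filter Topology
open scoped ContDiff

section Frame

variable {n : ℕ}

theorem contDiffOn_det {m : ℕ} {V : Set (Fin n → ℂ)}
    {A : (Fin n → ℂ) → Matrix (Fin m) (Fin m) ℂ}
    (h : ∀ i j, ContDiffOn ℝ ∞ (fun z => A z i j) V) :
    ContDiffOn ℝ ∞ (fun z => (A z).det) V := by
  simp_rw [Matrix.det_apply']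
  exact ContDiffOn.sum fun σ _ => contDiffOn_const.mul (contDiffOn_prod fun i _ => h _ _)

theorem contDiffOn_inv_matrix {m : ℕ} {V : Set (Fin n → ℂ)}
    {A : (Fin n → ℂ) → Matrix (Fin m) (Fin m) ℂ}
    (h : ∀ i j, ContDiffOn ℝ ∞ (fun z => A z i j) V) (hd : ∀ z ∈ V, (A z).det ≠ 0)
    (i j : Fin m) : ContDiffOn ℝ ∞ (fun z => (A z)⁻¹ i j) V := by
  have h1 : (fun z => (A z)⁻¹ i j) = fun z => ((A z).det)⁻¹ * (A z).adjugate i j := by
    funext z
    rw [Matrix.inv_def, Matrix.smul_apply, smul_eq_mul, Ring.inverse_eq_inv']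
  rw [h1]
  refine ((contDiffOn_det h).inv hd).mul ?_
  simp_rw [Matrix.adjugate_apply]
  apply contDiffOn_det
  intro i' j'
  by_cases hj : i' = j
  · subst hj
    simp only [Matrix.updateRow_self]
    exact contDiffOn_const
  · simp only [Matrix.updateRow_ne hj]
    exact h _ _

theorem exists_frame (H : Hyp n) {s : ℕ} {B : (Fin n → ℂ) → Submodule ℂ (Fin n → ℂ)}
    (hB : H.IsSubbundle s B) {p : Fin n → ℂ} (hp : p ∈ H.M) :
    ∃ (a : Fin s → Fin n → Sm n) (Φ : Fin s → Fin n → ℂ),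
      (∀ z ∈ H.M, ∀ i, (fun k => (a i k : (Fin n → ℂ) → ℂ) z) ∈ B z) ∧
      (∀ᶠ z in 𝓝 p, z ∈ H.M → ∀ ξ ∈ B z, ∀ k,
        ξ k = ∑ i, (∑ m, Φ i m * ξ m) * (a i k : (Fin n → ℂ) → ℂ) z) ∧
      (∀ c : Fin s → ℂ, (∀ m, ∑ i, c i * (a i m : (Fin n → ℂ) → ℂ) p = 0) → c = 0) := by
  obtain ⟨V, hV, X, hX, hbasis⟩ := hB.frame p hp
  have hpV : p ∈ V := mem_of_mem_nhds hV
  have hli := (hbasis p ⟨hp, hpV⟩).1
  rw [Fintype.linearIndependent_iff] at hli
  set T : (Fin s → ℂ) →ₗ[ℂ] (Fin n → ℂ) := Fintype.linearCombination ℂ (fun i => X i p) with hT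
  have hker : LinearMap.ker T = ⊥ := by
    rw [LinearMap.ker_eq_bot']
    intro c hc
    rw [hT, Fintype.linearCombination_apply] at hc
    funext i
    exact hli c hc i
  obtain ⟨g, hg⟩ := LinearMap.exists_leftInverse_of_injective T hker
  set Φ : Fin s → Fin n → ℂ := fun i m => g (fun j => if m = j then 1 else 0) i with hΦ
  have hgΦ : ∀ ξ i, g ξ i = ∑ m, Φ i m * ξ m := by
    intro ξ i
    rw [LinearMap.pi_apply_eq_sum_univ g ξ, Finset.sum_apply]
    exact Finset.sum_congr rfl fun m _ => by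
      rw [Pi.smul_apply, smul_eq_mul, mul_comm]
  have hgX : ∀ i j, g (X j p) i = if i = j then 1 else 0 := by
    intro i j
    have h1 : T (Pi.single j 1) = X j p := by
      rw [hT, Fintype.linearCombination_apply, Finset.sum_eq_single j]
      · rw [Pi.single_eq_same, one_smul]
      · intro b _ hb; rw [Pi.single_eq_of_ne hb, zero_smul]
      · intro h; exact absurd (Finset.mem_univ _) h
    have h2 : g (T (Pi.single j 1)) = Pi.single j 1 := by
      rw [← LinearMap.comp_apply, hg]; rfl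
    rw [← h1, h2, Pi.single_apply]
  set A : (Fin n → ℂ) → Matrix (Fin s) (Fin s) ℂ :=
    fun z => Matrix.of fun i j => ∑ m, Φ i m * X j z m with hA
  have hAp : A p = 1 := by
    ext i j
    rw [Matrix.one_apply, ← hgX i j, hgΦ]; rfl
  set V0 := interior V with hV0
  have hV0o : IsOpen V0 := isOpen_interior
  have hpV0 : p ∈ V0 := mem_interior_iff_mem_nhds.2 hV
  have hXc : ∀ i k, ContDiffOn ℝ ∞ (fun z => X i z k) V0 := fun i k =>
    (contDiffOn_pi.1 ((hX i).mono interior_subset)) k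
  have hAc : ∀ i j, ContDiffOn ℝ ∞ (fun z => A z i j) V0 := by
    intro i j
    have : ContDiffOn ℝ ∞ (fun z => ∑ m, Φ i m * X j z m) V0 :=
      ContDiffOn.sum fun m _ => contDiffOn_const.mul (hXc j m)
    exact this
  have hdet := contDiffOn_det hAc
  set V1 := V0 ∩ (fun z => (A z).det) ⁻¹' {0}ᶜ with hV1
  have hV1o : IsOpen V1 :=
    hdet.continuousOn.isOpen_inter_preimage hV0o isClosed_singleton.isOpen_compl
  have hpV1 : p ∈ V1 := ⟨hpV0, by
    show (A p).det ∉ ({0} : Set ℂ)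
    rw [hAp, Matrix.det_one]; simp⟩
  have hV1V : V1 ⊆ V := fun z hz => interior_subset hz.1
  have hdet1 : ∀ z ∈ V1, (A z).det ≠ 0 := fun z hz h => hz.2 h
  have hinv := contDiffOn_inv_matrix (fun i j => (hAc i j).mono Set.inter_subset_left) hdet1
  set Y : Fin s → (Fin n → ℂ) → (Fin n → ℂ) :=
    fun j z k => ∑ i, (A z)⁻¹ i j * X i z k with hY
  have hYc : ∀ j k, ContDiffOn ℝ ∞ (fun z => Y j z k) V1 := by
    intro j k
    exact ContDiffOn.sum fun i _ => (hinv i j).mul ((hXc i k).mono Set.inter_subset_left)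
  obtain ⟨χ, hχ, hs, hχ1⟩ := exists_bump (hV1o.mem_nhds hpV1)
  have hYB : ∀ z ∈ H.M, z ∈ V1 → ∀ j, Y j z ∈ B z := by
    intro z hz hz1 j
    rw [← (hbasis z ⟨hz, hV1V hz1⟩).2, Submodule.mem_span_range_iff_exists_fun]
    refine ⟨fun i => (A z)⁻¹ i j, ?_⟩
    funext k
    rw [Finset.sum_apply]
    rfl
  refine ⟨fun j k => loc hχ hV1o hs (hYc j k), Φ, ?_, ?_, ?_⟩
  · intro z hz i
    have h1 : (fun k => (loc hχ hV1o hs (hYc i k) : (Fin n → ℂ) → ℂ) z) =
        (χ z : ℂ) • Y i z := by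
      funext k
      rw [loc_apply]; rfl
    rw [h1]
    by_cases hz1 : z ∈ V1
    · exact Submodule.smul_mem _ _ (hYB z hz hz1 i)
    · have : χ z = 0 := image_eq_zero_of_notMem_tsupport fun h => hz1 (hs h)
      rw [this]; simp
  · filter_upwards [hχ1, hV1o.mem_nhds hpV1] with z hχz hz1 hz ξ hξ k
    rw [← (hbasis z ⟨hz, hV1V hz1⟩).2, Submodule.mem_span_range_iff_exists_fun] at hξ
    obtain ⟨x, rfl⟩ := hξ
    have h1 : ∀ i, ∑ m, Φ i m * (∑ j, x j • X j z) m = ∑ j, A z i j * x j := by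
      intro i
      have : ∀ m, Φ i m * (∑ j, x j • X j z) m = ∑ j, Φ i m * X j z m * x j := by
        intro m
        rw [Finset.sum_apply, Finset.mul_sum]
        exact Finset.sum_congr rfl fun j _ => by rw [Pi.smul_apply, smul_eq_mul]; ring
      rw [Finset.sum_congr rfl fun m _ => this m, Finset.sum_comm]
      refine Finset.sum_congr rfl fun j _ => ?_
      rw [← Finset.sum_mul]; rfl
    have h2 : ∀ i, (loc hχ hV1o hs (hYc i k) : (Fin n → ℂ) → ℂ) z =
        ∑ l, (A z)⁻¹ l i * X l z k := by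
      intro i
      rw [loc_apply, hχz]; simp [hY]
    have h3 : (A z)⁻¹ * A z = 1 := Matrix.nonsing_inv_mul _ (isUnit_iff_ne_zero.2 (hdet1 z hz1))
    calc (∑ j, x j • X j z) k = ∑ l, x l * X l z k := by
          rw [Finset.sum_apply]; rfl
      _ = ∑ l, (∑ j, ((A z)⁻¹ * A z) l j * x j) * X l z k := by
          refine Finset.sum_congr rfl fun l _ => ?_
          rw [h3, Finset.sum_eq_single l]
          · rw [Matrix.one_apply_eq, one_mul]
          · intro b _ hb; rw [Matrix.one_apply_ne (Ne.symm hb), zero_mul]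
          · intro h; exact absurd (Finset.mem_univ _) h
      _ = ∑ i, (∑ m, Φ i m * (∑ j, x j • X j z) m) *
          (loc hχ hV1o hs (hYc i k) : (Fin n → ℂ) → ℂ) z := by
          have e1 : ∀ l, (∑ j, ((A z)⁻¹ * A z) l j * x j) * X l z k =
              ∑ i, (∑ j, A z i j * x j) * ((A z)⁻¹ l i * X l z k) := by
            intro l
            have e2 : ∀ j, ((A z)⁻¹ * A z) l j * x j = ∑ i, (A z)⁻¹ l i * (A z i j * x j) := by
              intro j
              rw [Matrix.mul_apply, Finset.sum_mul]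
              exact Finset.sum_congr rfl fun i _ => by ring
            rw [Finset.sum_congr rfl fun j _ => e2 j, Finset.sum_comm, Finset.sum_mul]
            refine Finset.sum_congr rfl fun i _ => ?_
            rw [← Finset.mul_sum]; ring
          rw [Finset.sum_congr rfl fun l _ => e1 l, Finset.sum_comm]
          refine Finset.sum_congr rfl fun i _ => ?_
          rw [h1, h2, ← Finset.mul_sum]
  · intro c hc
    funext i
    refine hli c ?_ i
    funext m
    rw [Finset.sum_apply]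
    have h1 : ∀ i, (loc hχ hV1o hs (hYc i m) : (Fin n → ℂ) → ℂ) p = X i p m := by
      intro i
      have h2 : χ p = 1 := hχ1.self_of_nhds
      rw [loc_apply, h2, Complex.ofReal_one, one_mul]
      show ∑ l, (A p)⁻¹ l i * X l p m = _
      rw [hAp, inv_one, Finset.sum_eq_single i]
      · rw [Matrix.one_apply_eq, one_mul]
      · intro b _ hb; rw [Matrix.one_apply_ne hb, zero_mul]
      · intro h; exact absurd (Finset.mem_univ _) h
    refine Eq.trans ?_ (hc m)
    exact Finset.sum_congr rfl fun i _ => by rw [h1, Pi.smul_apply, smul_eq_mul]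

end Frame

end Pool.Agent.Lib.MP_d7cc7c_an
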