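import Pool.Agent.Lib.MP_d7cc7c_an.Jets3

/-!
# Modules of vector fields: the algebraic part of the comparison
-/

set_option linter.unusedSectionVars false

namespace Pool.Agent.Lib.MP_d7cc7c_an

open NS MvPolynomial ComplexConjugate

namespace JD

variable {r n : ℕ} {O : Type*} [CommRing O] [Algebra ℂ O] (J : JD r n O)

/-- coefficients of the bracket of two vector fields -/
def bv (b b' : Fin n × Bool → O) : Fin n × Bool → O := fun κ => J.vf b (b' κ) - J.vf b' (b κ)

/-- coefficients of the vector field of a Lie element -/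
noncomputable def bz (j : ℕ) (Z : NS (Lt r) ℂ) : Fin n × Bool → O := fun κ => J.act j Z (J.zz κ)

theorem vf_add_left (b b' : Fin n × Bool → O) (F : O) :
    J.vf (b + b') F = J.vf b F + J.vf b' F := by
  rw [vf_apply, vf_apply, vf_apply, ← Finset.sum_add_distrib]
  exact Finset.sum_congr rfl fun κ _ => by rw [Pi.add_apply, add_mul]

theorem vf_smul_left (g : O) (b : Fin n × Bool → O) (F : O) :
    J.vf (g • b) F = g * J.vf b F := by
  rw [vf_apply, vf_apply, Finset.mul_sum]
  exact Finset.sum_congr rfl fun κ _ => by rw [Pi.smul_apply, smul_eq_mul, mul_assoc]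

theorem vf_sub_left (b b' : Fin n × Bool → O) (F : O) :
    J.vf (b - b') F = J.vf b F - J.vf b' F := by
  rw [vf_apply, vf_apply, vf_apply, ← Finset.sum_sub_distrib]
  exact Finset.sum_congr rfl fun κ _ => by rw [Pi.sub_apply, sub_mul]

theorem vf_zero_left (F : O) : J.vf 0 F = 0 := by
  rw [vf_apply]; simp

theorem vf_bz {j : ℕ} {Z : NS (Lt r) ℂ} (hZ : Z ∈ lie j) (F : O) :
    J.vf (J.bz j Z) F = J.act j Z F := by
  rw [vf_apply, J.act_LieS_eq j (mem_LieS_of_lie hZ) F]; rfl

theorem bz_letter (x : Lt r) : J.bz 1 (letter x) = J.cx x := by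
  funext κ
  rw [bz, act_letter_one, D, vf_zz]

theorem bv_cx_bz {j : ℕ} {Z : NS (Lt r) ℂ} (hZ : Z ∈ lie j) (x : Lt r) :
    J.bv (J.cx x) (J.bz j Z) = J.bz (j + 1) (letter x * Z - Z * letter x) := by
  funext κ
  show J.vf (J.cx x) (J.bz j Z κ) - J.vf (J.bz j Z) (J.cx x κ) = _
  rw [J.vf_bz hZ]
  show _ = J.act (j + 1) _ (J.zz κ)
  rw [act_sub, LinearMap.sub_apply, act_letter_mul, act_mul_letter]
  have : J.D x (J.zz κ) = J.cx x κ := J.vf_zz _ _
  rw [this]; rfl

theorem bz_smul (j : ℕ) (c : ℂ) (Z : NS (Lt r) ℂ) : J.bz j (c • Z) = c • J.bz j Z := by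
  funext κ
  show J.act j (c • Z) _ = _
  rw [act_smul]; rfl

theorem bz_add (j : ℕ) (Z Z' : NS (Lt r) ℂ) : J.bz j (Z + Z') = J.bz j Z + J.bz j Z' := by
  funext κ
  show J.act j (Z + Z') _ = _
  rw [act_add]; rfl

theorem bz_zero (j : ℕ) : J.bz j 0 = 0 := by
  funext κ
  show J.act j 0 _ = _
  rw [act_zero']; rfl

theorem bz_neg (j : ℕ) (Z : NS (Lt r) ℂ) : J.bz j (-Z) = -J.bz j Z := by
  funext κ
  show J.act j (-Z) _ = _
  rw [act_neg]; rfl

theorem bv_add_right (b c c' : Fin n × Bool → O) : J.bv b (c + c') = J.bv b c + J.bv b c' := by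
  funext κ
  show J.vf b (c κ + c' κ) - J.vf (c + c') (b κ) = _
  rw [map_add, vf_add_left]
  show _ = (J.vf b (c κ) - J.vf c (b κ)) + (J.vf b (c' κ) - J.vf c' (b κ))
  ring

theorem bv_smul_right (b : Fin n × Bool → O) (g : O) (c : Fin n × Bool → O) :
    J.bv b (g • c) = J.vf b g • c + g • J.bv b c := by
  funext κ
  show J.vf b (g * c κ) - J.vf (g • c) (b κ) = J.vf b g * c κ + g * (J.vf b (c κ) - J.vf c (b κ))
  rw [Derivation.leibniz, vf_smul_left, smul_eq_mul, smul_eq_mul]
  ring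

theorem bv_zero_right (b : Fin n × Bool → O) : J.bv b 0 = 0 := by
  funext κ
  show J.vf b 0 - J.vf 0 (b κ) = 0
  rw [map_zero, vf_zero_left, sub_zero]

theorem bv_csmul_right (b : Fin n × Bool → O) (g : ℂ) (c : Fin n × Bool → O) :
    J.bv b (g • c) = g • J.bv b c := by
  have h1 : g • c = (algebraMap ℂ O g) • c := by
    funext κ
    show g • c κ = algebraMap ℂ O g * c κ
    rw [Algebra.smul_def]
  have h2 : g • J.bv b c = (algebraMap ℂ O g) • J.bv b c := by
    funext κ
    show g • _ = algebraMap ℂ O g * _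
    rw [Algebra.smul_def]
  rw [h1, bv_smul_right, Derivation.map_algebraMap, zero_smul, zero_add, h2]

theorem bv_comm (b c : Fin n × Bool → O) : J.bv b c = -J.bv c b := by
  funext κ
  show J.vf b (c κ) - J.vf c (b κ) = -(J.vf c (b κ) - J.vf b (c κ))
  ring

/-- Lie elements are combinations of nested brackets of letters -/
theorem bz_mem_span {S : ℕ → Set (Fin n × Bool → O)} (h1 : ∀ x, J.cx x ∈ S 1)
    (h2 : ∀ (j : ℕ) (x : Lt r) (b), b ∈ S j → J.bv (J.cx x) b ∈ S (j + 1)) :
    ∀ (j : ℕ) {Z : NS (Lt r) ℂ}, Z ∈ lie j → J.bz j Z ∈ Submodule.span ℂ (S j)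
  | 0, Z, hZ => by
    rw [NS.lie_zero, Submodule.mem_bot] at hZ
    rw [hZ, bz_zero]; exact zero_mem _
  | 1, Z, hZ => by
    refine Submodule.span_induction ?_ ?_ ?_ ?_ hZ
    · rintro _ ⟨x, rfl⟩
      rw [bz_letter]
      exact Submodule.subset_span (h1 x)
    · rw [bz_zero]; exact zero_mem _
    · intro f g _ _ hf hg; rw [bz_add]; exact add_mem hf hg
    · intro c f _ hf; rw [bz_smul]; exact Submodule.smul_mem _ _ hf
  | (j + 2), Z, hZ => by
    refine Submodule.span_induction ?_ ?_ ?_ ?_ hZ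
    · rintro _ ⟨b, hb, x, rfl⟩
      have h3 := bz_mem_span h1 h2 (j + 1) hb
      have h4 : J.bz (j + 2) (b * letter x - letter x * b) =
          -J.bv (J.cx x) (J.bz (j + 1) b) := by
        rw [bv_cx_bz _ hb, ← bz_neg]
        congr 1; abel
      rw [h4]
      apply neg_mem
      refine Submodule.span_induction
        (p := fun c _ => J.bv (J.cx x) c ∈ Submodule.span ℂ (S (j + 2))) ?_ ?_ ?_ ?_ h3
      · intro c hc
        exact Submodule.subset_span (h2 _ x c hc)
      · rw [bv_zero_right]; exact zero_mem _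
      · intro f g _ _ hf hg; rw [bv_add_right]; exact add_mem hf hg
      · intro c f _ hf; rw [bv_csmul_right]; exact Submodule.smul_mem _ _ hf
    · rw [bz_zero]; exact zero_mem _
    · intro f g _ _ hf hg; rw [bz_add]; exact add_mem hf hg
    · intro c f _ hf; rw [bz_smul]; exact Submodule.smul_mem _ _ hf

section Ideal

variable (I : Ideal O)

/-- fields in the module generated by the letters, modulo the ideal -/
def E1 (b : Fin n × Bool → O) : Prop :=
  ∃ f : Lt r → O, ∀ κ, b κ - ∑ x, f x * J.cx x κ ∈ I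

/-- the module generated by the Lie elements of degree at most `k` -/
noncomputable def Lsp (k : ℕ) : Submodule O (Fin n × Bool → O) :=
  Submodule.span O {b | ∃ j, 1 ≤ j ∧ j ≤ k ∧ ∃ Z ∈ (lie j : Submodule ℂ (NS (Lt r) ℂ)),
    b = J.bz j Z}

/-- the same modulo the ideal -/
def LL (k : ℕ) (b : Fin n × Bool → O) : Prop := ∃ c ∈ J.Lsp k, ∀ κ, b κ - c κ ∈ I

theorem cx_mem_Lsp {k : ℕ} (hk : 1 ≤ k) (x : Lt r) : J.cx x ∈ J.Lsp k :=
  Submodule.subset_span ⟨1, le_rfl, hk, letter x, letter_mem_lie x, (J.bz_letter x).symm⟩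

theorem Lsp_mono {k l : ℕ} (h : k ≤ l) : J.Lsp k ≤ J.Lsp l := by
  apply Submodule.span_mono
  rintro b ⟨j, h1, h2, Z, hZ, rfl⟩
  exact ⟨j, h1, h2.trans h, Z, hZ, rfl⟩

variable {I}

theorem LL_of_E1 {b : Fin n × Bool → O} (h : J.E1 I b) {k : ℕ} (hk : 1 ≤ k) : J.LL I k b := by
  obtain ⟨f, hf⟩ := h
  refine ⟨∑ x, f x • J.cx x, sum_mem fun x _ => Submodule.smul_mem _ _ (J.cx_mem_Lsp hk x), ?_⟩
  intro κ
  rw [Finset.sum_apply]
  exact hf κ

theorem vf_mem_I (F : O) {b : Fin n × Bool → O} (h : ∀ κ, b κ ∈ I) : J.vf b F ∈ I := by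
  rw [vf_apply]
  exact sum_mem fun κ _ => I.mul_mem_right _ (h κ)

theorem act_mem_I (hD : ∀ x F, F ∈ I → J.D x F ∈ I)
    (hsm : ∀ (c : ℂ) (F : O), F ∈ I → c • F ∈ I) (j : ℕ) (Z : NS (Lt r) ℂ) {F : O}
    (hF : F ∈ I) : J.act j Z F ∈ I := by
  induction j generalizing Z with
  | zero => rw [act_zero_apply]; exact hsm _ _ hF
  | succ j ih => rw [act_succ_apply]; exact sum_mem fun x _ => hD x _ (ih _)

theorem smul_mem_I (c : ℂ) (F : O) (h : F ∈ I) : c • F ∈ I := by
  rw [Algebra.smul_def]; exact I.mul_mem_left _ h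

theorem vf_Lsp_mem_I (hD : ∀ x F, F ∈ I → J.D x F ∈ I) {k : ℕ} {c : Fin n × Bool → O}
    (hc : c ∈ J.Lsp k) {F : O} (hF : F ∈ I) : J.vf c F ∈ I := by
  refine Submodule.span_induction (p := fun c _ => J.vf c F ∈ I) ?_ ?_ ?_ ?_ hc
  · rintro _ ⟨j, _, _, Z, hZ, rfl⟩
    rw [J.vf_bz hZ]
    exact J.act_mem_I hD smul_mem_I j Z hF
  · rw [vf_zero_left]; exact zero_mem _
  · intro b b' _ _ h h'; rw [vf_add_left]; exact add_mem h h'
  · intro g b _ h; rw [vf_smul_left]; exact I.mul_mem_left _ h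

theorem bv_cx_Lsp {k : ℕ} {c : Fin n × Bool → O} (hc : c ∈ J.Lsp k) (x : Lt r) :
    J.bv (J.cx x) c ∈ J.Lsp (k + 1) := by
  refine Submodule.span_induction (p := fun c _ => J.bv (J.cx x) c ∈ J.Lsp (k + 1))
    ?_ ?_ ?_ ?_ hc
  · rintro _ ⟨j, h1, h2, Z, hZ, rfl⟩
    rw [J.bv_cx_bz hZ]
    apply Submodule.subset_span
    refine ⟨j + 1, by omega, by omega, _, ?_, rfl⟩
    have := lie_bracket (letter_mem_lie (K := ℂ) x) hZ
    rwa [add_comm] at this
  · rw [bv_zero_right]; exact zero_mem _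
  · intro b b' _ _ h h'; rw [bv_add_right]; exact add_mem h h'
  · intro g b hb h
    rw [bv_smul_right]
    exact add_mem (Submodule.smul_mem _ _ (J.Lsp_mono (Nat.le_succ k) hb))
      (Submodule.smul_mem _ _ h)

theorem LL_bv (hD : ∀ x F, F ∈ I → J.D x F ∈ I) {k : ℕ} {b b' : Fin n × Bool → O}
    (hb : J.E1 I b) (hb' : J.LL I k b') : J.LL I (k + 1) (J.bv b b') := by
  obtain ⟨f, hf⟩ := hb
  obtain ⟨c', hc', hcc'⟩ := hb'
  set c : Fin n × Bool → O := ∑ x, f x • J.cx x with hc
  have hcm : c ∈ J.Lsp 1 := sum_mem fun x _ => Submodule.smul_mem _ _ (J.cx_mem_Lsp le_rfl x)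
  have hcc : ∀ κ, (b - c) κ ∈ I := by
    intro κ
    rw [hc, Pi.sub_apply, Finset.sum_apply]
    exact hf κ
  refine ⟨J.bv c c', ?_, ?_⟩
  · rw [bv_comm, hc]
    apply neg_mem
    have key : ∀ s : Finset (Lt r), J.bv c' (∑ x ∈ s, f x • J.cx x) ∈ J.Lsp (k + 1) := by
      intro s
      induction s using Finset.cons_induction with
      | empty => rw [Finset.sum_empty, bv_zero_right]; exact zero_mem _
      | cons x s hx ih =>
        rw [Finset.sum_cons, bv_add_right]
        refine add_mem ?_ ih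
        rw [bv_smul_right]
        refine add_mem (Submodule.smul_mem _ _ (J.cx_mem_Lsp (by omega) x)) ?_
        apply Submodule.smul_mem
        rw [bv_comm]
        exact neg_mem (J.bv_cx_Lsp hc' x)
    exact key _
  · intro κ
    have e : J.bv b b' κ - J.bv c c' κ = (J.vf c (b' κ - c' κ) + J.vf (b - c) (b' κ)) -
        (J.vf c' (b κ - c κ) + J.vf (b' - c') (b κ)) := by
      show (J.vf b (b' κ) - J.vf b' (b κ)) - (J.vf c (c' κ) - J.vf c' (c κ)) = _
      rw [map_sub, map_sub, vf_sub_left, vf_sub_left]; ring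
    rw [e]
    refine sub_mem (add_mem ?_ ?_) (add_mem ?_ ?_)
    · exact J.vf_Lsp_mem_I hD hcm (hcc' κ)
    · exact J.vf_mem_I _ hcc
    · exact J.vf_Lsp_mem_I hD hc' (hcc κ)
    · exact J.vf_mem_I _ hcc'

/-- the pairing with `∂ρ` -/
noncomputable def pr (ρ : O) (b : Fin n × Bool → O) : ℂ :=
  ∑ k, J.pe (b (k, false)) * J.pe (J.dd (k, false) ρ)

theorem pr_add (ρ : O) (b b' : Fin n × Bool → O) : J.pr ρ (b + b') = J.pr ρ b + J.pr ρ b' := by
  rw [pr, pr, pr, ← Finset.sum_add_distrib]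
  exact Finset.sum_congr rfl fun k _ => by rw [Pi.add_apply, map_add, add_mul]

theorem pr_smul (ρ : O) (g : O) (b : Fin n × Bool → O) :
    J.pr ρ (g • b) = J.pe g * J.pr ρ b := by
  rw [pr, pr, Finset.mul_sum]
  exact Finset.sum_congr rfl fun k _ => by rw [Pi.smul_apply, smul_eq_mul, map_mul, mul_assoc]

theorem pr_zero (ρ : O) : J.pr ρ 0 = 0 := by
  rw [pr]; simp

theorem pr_csmul (ρ : O) (g : ℂ) (b : Fin n × Bool → O) :
    J.pr ρ (g • b) = g * J.pr ρ b := by
  rw [pr, pr, Finset.mul_sum]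
  exact Finset.sum_congr rfl fun k _ => by
    rw [Pi.smul_apply, map_smul, smul_eq_mul, mul_assoc]

theorem TT_iff_pr {ρ : O} {m : ℕ} : J.TT ρ m ↔
    ∀ j ≤ m, ∀ Z ∈ (lie j : Submodule ℂ (NS (Lt r) ℂ)), J.pr ρ (J.bz j Z) = 0 := Iff.rfl

theorem pr_LL (hpe : ∀ F ∈ I, J.pe F = 0) {ρ : O} {k : ℕ} (hT : J.TT ρ k)
    {b : Fin n × Bool → O} (hb : J.LL I k b) : J.pr ρ b = 0 := by
  obtain ⟨c, hc, hbc⟩ := hb
  have h1 : J.pr ρ b = J.pr ρ c := by
    refine Finset.sum_congr rfl fun k _ => ?_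
    have := hpe _ (hbc (k, false))
    rw [map_sub, sub_eq_zero] at this
    rw [this]
  rw [h1]
  refine Submodule.span_induction (p := fun c _ => J.pr ρ c = 0) ?_ ?_ ?_ ?_ hc
  · rintro _ ⟨j, _, h2, Z, hZ, rfl⟩
    exact hT j h2 Z hZ
  · exact J.pr_zero ρ
  · intro b b' _ _ h h'; rw [pr_add, h, h', add_zero]
  · intro g b _ h; rw [pr_smul, h, mul_zero]

/-! ### the filtration -/

/-- functions vanishing at the point to order `k` along the letters -/
def JJ : ℕ → O → Prop
  | 0, F => J.pe F = 0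
  | (k + 1), F => J.pe F = 0 ∧ ∀ x, JJ k (J.D x F)

theorem JJ_pe {k : ℕ} {F : O} (h : J.JJ k F) : J.pe F = 0 := by
  cases k with
  | zero => exact h
  | succ k => exact h.1

theorem JJ_mono {k : ℕ} {F : O} (h : J.JJ (k + 1) F) : J.JJ k F := by
  induction k generalizing F with
  | zero => exact h.1
  | succ k ih => exact ⟨h.1, fun x => ih (h.2 x)⟩

theorem JJ_add {k : ℕ} {F G : O} (hF : J.JJ k F) (hG : J.JJ k G) : J.JJ k (F + G) := by
  induction k generalizing F G with
  | zero =>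
    show J.pe (F + G) = 0
    rw [map_add, J.JJ_pe hF, J.JJ_pe hG, add_zero]
  | succ k ih =>
    refine ⟨by rw [map_add, J.JJ_pe hF, J.JJ_pe hG, add_zero], fun x => ?_⟩
    rw [map_add]; exact ih (hF.2 x) (hG.2 x)

theorem JJ_zero (k : ℕ) : J.JJ k 0 := by
  induction k with
  | zero => exact map_zero _
  | succ k ih => exact ⟨map_zero _, fun x => by rw [map_zero]; exact ih⟩

theorem JJ_sum {ι : Type*} (s : Finset ι) {k : ℕ} {F : ι → O} (h : ∀ i ∈ s, J.JJ k (F i)) :
    J.JJ k (∑ i ∈ s, F i) := by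
  induction s using Finset.cons_induction with
  | empty => exact J.JJ_zero k
  | cons a s ha ih =>
    rw [Finset.sum_cons]
    exact J.JJ_add (h a (Finset.mem_cons_self a s)) (ih fun i hi => h i (Finset.mem_cons_of_mem hi))

theorem JJ_mul {k : ℕ} (G : O) {F : O} (hF : J.JJ k F) : J.JJ k (G * F) := by
  induction k generalizing F G with
  | zero =>
    show J.pe (G * F) = 0
    rw [map_mul, J.JJ_pe hF, mul_zero]
  | succ k ih =>
    refine ⟨by rw [map_mul, hF.1, mul_zero], fun x => ?_⟩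
    rw [Derivation.leibniz, smul_eq_mul, smul_eq_mul, mul_comm F]
    exact J.JJ_add (ih _ (hF.2 x)) (ih _ (J.JJ_mono hF))

theorem JJ_of_mem (hD : ∀ x F, F ∈ I → J.D x F ∈ I) (hpe : ∀ F ∈ I, J.pe F = 0) (k : ℕ) {F : O}
    (hF : F ∈ I) : J.JJ k F := by
  induction k generalizing F with
  | zero => exact hpe F hF
  | succ k ih => exact ⟨hpe F hF, fun x => ih (hD x F hF)⟩

theorem vf_E1 {b : Fin n × Bool → O} {f : Lt r → O}
    (F : O) : J.vf b F = ∑ x, f x * J.D x F +
      J.vf (fun κ => b κ - ∑ x, f x * J.cx x κ) F := by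
  have h1 : b = ∑ x, f x • J.cx x + (fun κ => b κ - ∑ x, f x * J.cx x κ) := by
    funext κ
    rw [Pi.add_apply, Finset.sum_apply]
    simp
  conv_lhs => rw [h1]
  rw [vf_add_left]
  congr 1
  have key : ∀ s : Finset (Lt r), J.vf (∑ x ∈ s, f x • J.cx x) F = ∑ x ∈ s, f x * J.D x F := by
    intro s
    induction s using Finset.cons_induction with
    | empty => rw [Finset.sum_empty, Finset.sum_empty, vf_zero_left]
    | cons x s hx ih => rw [Finset.sum_cons, Finset.sum_cons, vf_add_left, vf_smul_left, ih]; rfl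
  exact key _

theorem JJ_vf (hD : ∀ x F, F ∈ I → J.D x F ∈ I) (hpe : ∀ F ∈ I, J.pe F = 0) {k : ℕ}
    {b : Fin n × Bool → O} (hb : J.E1 I b) {F : O} (hF : J.JJ (k + 1) F) :
    J.JJ k (J.vf b F) := by
  obtain ⟨f, hf⟩ := hb
  rw [J.vf_E1 (b := b) (f := f)]
  refine J.JJ_add (J.JJ_sum _ fun x _ => J.JJ_mul _ (hF.2 x)) ?_
  exact J.JJ_of_mem hD hpe k (J.vf_mem_I F hf)

theorem wd_append (w : List (Lt r)) (x : Lt r) (F : O) :
    J.wd (w ++ [x]) F = J.wd w (J.D x F) := by
  induction w with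
  | nil => rfl
  | cons y w ih => rw [List.cons_append, wd, wd, ih]

theorem JJ_iff_wd {k : ℕ} {F : O} : J.JJ k F ↔
    ∀ w : List (Lt r), w.length ≤ k → J.pe (J.wd w F) = 0 := by
  induction k generalizing F with
  | zero =>
    constructor
    · intro h w hw
      have : w = [] := List.eq_nil_of_length_eq_zero (by omega)
      subst this; exact h
    · intro h; exact h [] (by simp)
  | succ k ih =>
    constructor
    · intro h w hw
      rcases List.eq_nil_or_concat w with h1 | ⟨u, x, h1⟩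
      · subst h1; exact h.1
      · subst h1
        rw [List.concat_eq_append, wd_append]
        rw [List.concat_eq_append, List.length_append] at hw
        exact (ih.1 (h.2 x)) u (by simpa using hw)
    · intro h
      refine ⟨h [] (by simp), fun x => ih.2 fun u hu => ?_⟩
      rw [← wd_append]
      exact h _ (by simpa using hu)

theorem CC_iff_JJ {ρ : O} {k : ℕ} : J.CC ρ (k + 2) ↔ ∀ i j, J.JJ k (J.lam i j ρ) := by
  constructor
  · intro h i j
    rw [JJ_iff_wd]
    intro w hw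
    exact h i j w (by omega)
  · intro h i j w hw
    exact (J.JJ_iff_wd.1 (h i j)) w (by omega)

/-- the Levi form of a field -/
def Lam (l : Fin n → O) (F : O) : O :=
  ∑ k, ∑ m, l k * J.co (l m) * J.dd (m, true) (J.dd (k, false) F)

/-- fields applied in succession -/
def fold (bs : List (Fin n × Bool → O)) (F : O) : O := bs.foldr (fun b G => J.vf b G) F

@[simp] theorem fold_nil (F : O) : J.fold [] F = F := rfl
@[simp] theorem fold_cons (b : Fin n × Bool → O) (bs : List (Fin n × Bool → O)) (F : O) :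
    J.fold (b :: bs) F = J.vf b (J.fold bs F) := rfl

theorem JJ_fold (hD : ∀ x F, F ∈ I → J.D x F ∈ I) (hpe : ∀ F ∈ I, J.pe F = 0)
    (bs : List (Fin n × Bool → O)) (hbs : ∀ b ∈ bs, J.E1 I b) {k : ℕ} {F : O}
    (hF : J.JJ (k + bs.length) F) : J.JJ k (J.fold bs F) := by
  induction bs generalizing k with
  | nil => exact hF
  | cons b bs ih =>
    rw [fold_cons]
    apply J.JJ_vf hD hpe (hbs b List.mem_cons_self)
    apply ih (fun b hb => hbs b (List.mem_cons_of_mem _ hb))
    rw [List.length_cons] at hF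
    rwa [show k + 1 + bs.length = k + (bs.length + 1) by ring]

/-- the Levi form of a field which is a combination of the letters -/
theorem JJ_Lam (hD : ∀ x F, F ∈ I → J.D x F ∈ I) (hpe : ∀ F ∈ I, J.pe F = 0)
    (hco : ∀ F ∈ I, J.co F ∈ I) {ρ : O} {k : ℕ}
    (h : ∀ i j, J.JJ k (J.lam i j ρ)) {l : Fin n → O} {f : Fin r → O}
    (hl : ∀ m, l m - ∑ i, f i * J.cf i m ∈ I) : J.JJ k (J.Lam l ρ) := by
  have h1 : J.Lam l ρ - ∑ i, ∑ j, f i * J.co (f j) * J.lam i j ρ ∈ I := by
    have e1 : ∑ i, ∑ j, f i * J.co (f j) * J.lam i j ρ =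
        ∑ k, ∑ m, (∑ i, f i * J.cf i k) * J.co (∑ j, f j * J.cf j m) *
          J.dd (m, true) (J.dd (k, false) ρ) := by
      simp only [lam, map_sum, map_mul, Finset.mul_sum, Finset.sum_mul]
      have e2 : ∀ i : Fin r, ∑ j, ∑ k, ∑ m, f i * J.co (f j) *
          (J.cf i k * J.co (J.cf j m) * J.dd (m, true) (J.dd (k, false) ρ)) =
          ∑ k, ∑ m, ∑ j, f i * J.co (f j) *
          (J.cf i k * J.co (J.cf j m) * J.dd (m, true) (J.dd (k, false) ρ)) := by
        intro i
        rw [Finset.sum_comm]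
        refine Finset.sum_congr rfl fun k _ => ?_
        rw [Finset.sum_comm]
      rw [Finset.sum_congr rfl fun i _ => e2 i, Finset.sum_comm]
      refine Finset.sum_congr rfl fun k _ => ?_
      rw [Finset.sum_comm]
      refine Finset.sum_congr rfl fun m _ => ?_
      rw [Finset.sum_comm]
      refine Finset.sum_congr rfl fun j _ => ?_
      refine Finset.sum_congr rfl fun i _ => ?_
      ring
    rw [e1, Lam, ← Finset.sum_sub_distrib]
    refine sum_mem fun k _ => ?_
    rw [← Finset.sum_sub_distrib]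
    refine sum_mem fun m _ => ?_
    rw [← sub_mul]
    apply I.mul_mem_right
    have e3 : l k * J.co (l m) - (∑ i, f i * J.cf i k) * J.co (∑ j, f j * J.cf j m) =
        (l k - ∑ i, f i * J.cf i k) * J.co (l m) +
        (∑ i, f i * J.cf i k) * J.co (l m - ∑ j, f j * J.cf j m) := by
      rw [map_sub]; ring
    rw [e3]
    exact add_mem (I.mul_mem_right _ (hl k)) (I.mul_mem_left _ (hco _ (hl m)))
  have h2 : J.Lam l ρ = (J.Lam l ρ - ∑ i, ∑ j, f i * J.co (f j) * J.lam i j ρ) +
      ∑ i, ∑ j, f i * J.co (f j) * J.lam i j ρ := by ring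
  rw [h2]
  exact J.JJ_add (J.JJ_of_mem hD hpe k h1)
    (J.JJ_sum _ fun i _ => J.JJ_sum _ fun j _ => J.JJ_mul _ (h i j))

end Ideal

section Converse

/-- the vanishing condition -/
def PP (ρ : O) (Es : Set (Fin n × Bool → O)) (Ss : Set (Fin n → O)) (k : ℕ) : Prop :=
  ∀ bs : List (Fin n × Bool → O), bs.length = k → (∀ b ∈ bs, b ∈ Es) →
    ∀ l ∈ Ss, (∃ m, J.pe (l m) ≠ 0) → J.pe (J.fold bs (J.Lam l ρ)) = 0

variable {ρ : O} {Es : Set (Fin n × Bool → O)} {Ss : Set (Fin n → O)}

theorem Lam_smul (g : O) (l : Fin n → O) (F : O) :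
    J.Lam (g • l) F = g * J.co g * J.Lam l F := by
  rw [Lam, Lam, Finset.mul_sum]
  refine Finset.sum_congr rfl fun k _ => ?_
  rw [Finset.mul_sum]
  refine Finset.sum_congr rfl fun m _ => ?_
  rw [Pi.smul_apply, Pi.smul_apply, smul_eq_mul, smul_eq_mul, map_mul]
  ring

theorem PP_step (hE : ∀ (g : O), ∀ b ∈ Es, g • b ∈ Es) (hS : ∀ (g : O), ∀ l ∈ Ss, g • l ∈ Ss)
    (hcx : ∀ x, J.cx x ∈ Es) {i0 : Fin r} {m0 : Fin n} (hne : J.pe (J.cf i0 m0) ≠ 0)
    {k : ℕ} (h : J.PP ρ Es Ss (k + 1)) : J.PP ρ Es Ss k := by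
  have hz : J.D (i0, false) (J.zc m0) = J.cf i0 m0 := J.D_zc_false i0 m0
  intro bs hlen hbs l hl hlne
  cases bs with
  | nil =>
    simp only [List.length_nil] at hlen
    subst hlen
    rw [fold_nil]
    have h1 := h [J.cx (i0, false)] rfl (by simpa using hcx _) l hl hlne
    set g : O := 1 + J.zc m0 with hg
    have hpg : J.pe g = 1 := by rw [hg, map_add, map_one, J.pe_zc, add_zero]
    have h2 := h [J.cx (i0, false)] rfl (by simpa using hcx _) (g • l) (hS g l hl) (by
      obtain ⟨m, hm⟩ := hlne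
      refine ⟨m, ?_⟩
      rw [Pi.smul_apply, smul_eq_mul, map_mul, hpg, one_mul]; exact hm)
    rw [fold_cons, fold_nil] at h1 h2
    rw [Lam_smul, Derivation.leibniz, map_add, smul_eq_mul, smul_eq_mul, map_mul, h1, mul_zero,
      zero_add, map_mul, Derivation.leibniz, map_add, smul_eq_mul, smul_eq_mul, map_mul, map_mul,
      J.pe_co, hpg, map_one, one_mul, one_mul] at h2
    have h3 : J.pe (J.vf (J.cx (i0, false)) (J.co g)) = 0 := by
      have : J.vf (J.cx (i0, false)) (J.co g) = 0 := by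
        rw [hg, map_add, map_one, map_add, Derivation.map_one_eq_zero, zero_add]
        have e1 := J.co_D (i0, true) (J.zc m0)
        rw [D_zc_true, map_zero] at e1
        exact e1.symm
      rw [this, map_zero]
    have h4 : J.pe (J.vf (J.cx (i0, false)) g) = J.pe (J.cf i0 m0) := by
      rw [hg, map_add, Derivation.map_one_eq_zero, zero_add]
      exact congrArg J.pe hz
    rw [h3, h4, zero_add] at h2
    exact (mul_eq_zero.1 h2).resolve_right hne
  | cons b bs =>
    have hb : b ∈ Es := hbs b List.mem_cons_self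
    have hbs' : ∀ c ∈ bs, c ∈ Es := fun c hc => hbs c (List.mem_cons_of_mem _ hc)
    have h1 := h (J.cx (i0, false) :: b :: bs) (by simp [← hlen]) (by
      intro c hc
      rcases List.mem_cons.1 hc with h | h
      · rw [h]; exact hcx _
      · exact hbs c h) l hl hlne
    have h2 := h (J.cx (i0, false) :: (J.zc m0 • b) :: bs) (by simp [← hlen]) (by
      intro c hc
      rcases List.mem_cons.1 hc with h | h
      · rw [h]; exact hcx _
      · rcases List.mem_cons.1 h with h | h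
        · rw [h]; exact hE _ _ hb
        · exact hbs' c h) l hl hlne
    rw [fold_cons, fold_cons, vf_smul_left, Derivation.leibniz, map_add, smul_eq_mul,
      smul_eq_mul, map_mul, map_mul, J.pe_zc, zero_mul, zero_add] at h2
    have h4 : J.pe (J.vf (J.cx (i0, false)) (J.zc m0)) = J.pe (J.cf i0 m0) :=
      congrArg J.pe hz
    rw [h4] at h2
    rw [fold_cons]
    exact (mul_eq_zero.1 h2).resolve_right hne

theorem polarize {T : Fin r → Fin r → ℂ}
    (h : ∀ c : Fin r → ℂ, ∑ i, ∑ j, c i * conj (c j) * T i j = 0) (i j : Fin r) : T i j = 0 := by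
  set B : (Fin r → ℂ) → (Fin r → ℂ) → ℂ := fun u v => ∑ i, ∑ j, u i * conj (v j) * T i j with hB
  have hadd1 : ∀ u u' v, B (u + u') v = B u v + B u' v := by
    intro u u' v
    simp only [hB]
    rw [← Finset.sum_add_distrib]
    refine Finset.sum_congr rfl fun i _ => ?_
    rw [← Finset.sum_add_distrib]
    exact Finset.sum_congr rfl fun j _ => by rw [Pi.add_apply]; ring
  have hadd2 : ∀ u v v', B u (v + v') = B u v + B u v' := by
    intro u v v'
    simp only [hB]
    rw [← Finset.sum_add_distrib]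
    refine Finset.sum_congr rfl fun i _ => ?_
    rw [← Finset.sum_add_distrib]
    exact Finset.sum_congr rfl fun j _ => by rw [Pi.add_apply, map_add]; ring
  have hs1 : ∀ (c : ℂ) u v, B (c • u) v = c * B u v := by
    intro c u v
    simp only [hB]
    rw [Finset.mul_sum]
    refine Finset.sum_congr rfl fun i _ => ?_
    rw [Finset.mul_sum]
    exact Finset.sum_congr rfl fun j _ => by rw [Pi.smul_apply, smul_eq_mul]; ring
  have hs2 : ∀ (c : ℂ) u v, B u (c • v) = conj c * B u v := by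
    intro c u v
    simp only [hB]
    rw [Finset.mul_sum]
    refine Finset.sum_congr rfl fun i _ => ?_
    rw [Finset.mul_sum]
    exact Finset.sum_congr rfl fun j _ => by
      rw [Pi.smul_apply, smul_eq_mul, map_mul]; ring
  have hBB : ∀ u, B u u = 0 := fun u => h u
  have hBuv : ∀ u v, B v u = 0 ∧ B u v = 0 := by
    intro u v
    apply two_conj
    intro c
    have e := hBB (u + c • v)
    rw [hadd1, hadd2, hadd2, hs1, hs1, hs2, hs2, hBB, hBB, mul_zero, mul_zero] at e
    linear_combination e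
  have e := (hBuv (Pi.single i 1) (Pi.single j 1)).2
  simp only [hB] at e
  rw [Finset.sum_eq_single i, Finset.sum_eq_single j] at e
  · simpa using e
  · intro b _ hb; rw [Pi.single_eq_of_ne hb]; simp
  · intro h; exact absurd (Finset.mem_univ _) h
  · intro b _ hb
    apply Finset.sum_eq_zero
    intro b' _
    rw [Pi.single_eq_of_ne hb]; simp
  · intro h; exact absurd (Finset.mem_univ _) h

theorem fold_words (w : List (Lt r)) (F : O) : J.fold (w.map J.cx) F = J.wd w F := by
  induction w with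
  | nil => rfl
  | cons x w ih => rw [List.map_cons, fold_cons, ih]; rfl

theorem wd_add (w : List (Lt r)) (F G : O) : J.wd w (F + G) = J.wd w F + J.wd w G := by
  induction w with
  | nil => rfl
  | cons x w ih => rw [wd, wd, wd, ih, map_add]

theorem wd_zero (w : List (Lt r)) : J.wd w 0 = 0 := by
  induction w with
  | nil => rfl
  | cons x w ih => rw [wd, ih, map_zero]

theorem wd_smul (w : List (Lt r)) (c : ℂ) (F : O) : J.wd w (c • F) = c • J.wd w F := by
  induction w with
  | nil => rfl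
  | cons x w ih => rw [wd, wd, ih, Derivation.map_smul]

theorem wd_sum {ι : Type*} (s : Finset ι) (w : List (Lt r)) (F : ι → O) :
    J.wd w (∑ i ∈ s, F i) = ∑ i ∈ s, J.wd w (F i) := by
  induction s using Finset.cons_induction with
  | empty => exact J.wd_zero w
  | cons a s ha ih => rw [Finset.sum_cons, Finset.sum_cons, wd_add, ih]

theorem Lam_comb (c : Fin r → ℂ) (F : O) :
    J.Lam (fun m => ∑ i, c i • J.cf i m) F =
      ∑ i, ∑ j, (c i * conj (c j)) • J.lam i j F := by
  have e : ∀ k m : Fin n, (∑ i, c i • J.cf i k) * J.co (∑ j, c j • J.cf j m) *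
      J.dd (m, true) (J.dd (k, false) F) = ∑ i, ∑ j, (c i * conj (c j)) •
      (J.cf i k * J.co (J.cf j m) * J.dd (m, true) (J.dd (k, false) F)) := by
    intro k m
    rw [map_sum, Finset.sum_mul, Finset.sum_mul]
    refine Finset.sum_congr rfl fun i _ => ?_
    rw [Finset.mul_sum, Finset.sum_mul]
    refine Finset.sum_congr rfl fun j _ => ?_
    rw [J.co_smul, smul_mul_smul_comm, smul_mul_assoc]
  simp only [Lam, lam, Finset.smul_sum]
  rw [Finset.sum_congr rfl fun k _ => Finset.sum_congr rfl fun m _ => e k m]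
  have e2 : ∀ k : Fin n, ∑ m, ∑ i, ∑ j, (c i * conj (c j)) •
      (J.cf i k * J.co (J.cf j m) * J.dd (m, true) (J.dd (k, false) F)) =
      ∑ i, ∑ j, ∑ m, (c i * conj (c j)) •
      (J.cf i k * J.co (J.cf j m) * J.dd (m, true) (J.dd (k, false) F)) := by
    intro k
    rw [Finset.sum_comm]
    refine Finset.sum_congr rfl fun i _ => ?_
    rw [Finset.sum_comm]
  rw [Finset.sum_congr rfl fun k _ => e2 k, Finset.sum_comm]
  refine Finset.sum_congr rfl fun i _ => ?_
  rw [Finset.sum_comm]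

theorem CC_of_PP (hE : ∀ (g : O), ∀ b ∈ Es, g • b ∈ Es)
    (hS : ∀ (g : O), ∀ l ∈ Ss, g • l ∈ Ss) (hcx : ∀ x, J.cx x ∈ Es)
    (hSc : ∀ c : Fin r → ℂ, (fun m => ∑ i, c i • J.cf i m) ∈ Ss)
    (hli : ∀ c : Fin r → ℂ, (∀ m, ∑ i, c i * J.pe (J.cf i m) = 0) → c = 0) (hr : 0 < r)
    {k : ℕ} (h : J.PP ρ Es Ss k) : J.CC ρ (k + 2) := by
  have hne : ∃ m0, J.pe (J.cf ⟨0, hr⟩ m0) ≠ 0 := by
    by_contra hno
    push Not at hno
    have h1 := hli (Pi.single ⟨0, hr⟩ 1) (by
      intro m
      rw [Finset.sum_eq_single ⟨0, hr⟩]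
      · rw [hno m, mul_zero]
      · intro b _ hb; rw [Pi.single_eq_of_ne hb, zero_mul]
      · intro h; exact absurd (Finset.mem_univ _) h)
    have h2 := congrFun h1 ⟨0, hr⟩
    rw [Pi.single_eq_same] at h2
    exact one_ne_zero h2
  obtain ⟨m0, hm0⟩ := hne
  have hdown : ∀ d, d ≤ k → J.PP ρ Es Ss (k - d) := by
    intro d
    induction d with
    | zero => intro _; exact h
    | succ d ih =>
      intro hd
      have h1 := ih (by omega)
      have h2 : k - d = (k - (d + 1)) + 1 := by omega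
      rw [h2] at h1
      exact J.PP_step hE hS hcx hm0 h1
  intro i j w hw
  have h1 := hdown (k - w.length) (by omega)
  rw [show k - (k - w.length) = w.length by omega] at h1
  refine polarize (T := fun i j => J.pe (J.wd w (J.lam i j ρ))) ?_ i j
  intro c
  by_cases hc : c = 0
  · subst hc; simp
  · have h2 := h1 (w.map J.cx) (by simp) (by
      intro b hb
      obtain ⟨x, _, rfl⟩ := List.mem_map.1 hb
      exact hcx x) _ (hSc c) (by
      by_contra hno
      push Not at hno
      apply hc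
      apply hli
      intro m
      have := hno m
      rw [map_sum] at this
      rw [← this]
      exact Finset.sum_congr rfl fun i _ => by rw [map_smul, smul_eq_mul])
    rw [fold_words, Lam_comb, wd_sum, map_sum] at h2
    rw [← h2]
    refine Finset.sum_congr rfl fun i _ => ?_
    rw [wd_sum, map_sum]
    exact Finset.sum_congr rfl fun j _ => by rw [wd_smul, map_smul, smul_eq_mul]

end Converse

end JD

end Pool.Agent.Lib.MP_d7cc7c_an
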