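import Pool.Agent.Lib.MP_d7cc7c_an.Analytic
import Pool.Agent.Lib.MP_d7cc7c_an.Link

/-!
# Germs of smooth functions and vector fields
-/

set_option linter.unusedSectionVars false

namespace Pool.Agent.Lib.MP_d7cc7c_an

open ComplexConjugate Filter Topology
open scoped ContDiff

section Bump

variable {n : ℕ}

theorem exists_bump {p : Fin n → ℂ} {V : Set (Fin n → ℂ)} (hV : V ∈ 𝓝 p) :
    ∃ χ : (Fin n → ℂ) → ℝ, ContDiff ℝ ∞ χ ∧ tsupport χ ⊆ V ∧ ∀ᶠ z in 𝓝 p, χ z = 1 := by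
  obtain ⟨δ, hδ, hb⟩ := Metric.mem_nhds_iff.1 hV
  let f : ContDiffBump p := ⟨δ / 4, δ / 2, by positivity, by linarith⟩
  refine ⟨f, f.contDiff, ?_, ?_⟩
  · rw [f.tsupport_eq]
    refine Set.Subset.trans ?_ hb
    exact Metric.closedBall_subset_ball (by show δ / 2 < δ; linarith)
  · filter_upwards [Metric.closedBall_mem_nhds p (show 0 < δ / 4 by positivity)] with z hz
    exact f.one_of_mem_closedBall hz

theorem contDiff_bump_mul {χ : (Fin n → ℂ) → ℝ} (hχ : ContDiff ℝ ∞ χ) {V : Set (Fin n → ℂ)}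
    (hV : IsOpen V) (hs : tsupport χ ⊆ V) {f : (Fin n → ℂ) → ℂ} (hf : ContDiffOn ℝ ∞ f V) :
    ContDiff ℝ ∞ (fun z => (χ z : ℂ) * f z) := by
  rw [contDiff_iff_contDiffAt]
  intro z
  by_cases hz : z ∈ tsupport χ
  · have h1 : ContDiffAt ℝ ∞ f z := (hf z (hs hz)).contDiffAt (hV.mem_nhds (hs hz))
    have h2 : ContDiffAt ℝ ∞ (fun z => (χ z : ℂ)) z :=
      (Complex.ofRealCLM.contDiff.comp hχ).contDiffAt
    exact h2.mul h1
  · have h1 : (fun z => (χ z : ℂ) * f z) =ᶠ[𝓝 z] fun _ => 0 := by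
      have h2 : (tsupport χ)ᶜ ∈ 𝓝 z := (isClosed_tsupport χ).isOpen_compl.mem_nhds hz
      filter_upwards [h2] with w hw
      rw [image_eq_zero_of_notMem_tsupport hw]; simp
    exact contDiffAt_const.congr_of_eventuallyEq h1

/-- localisation of a smooth function -/
noncomputable def loc {χ : (Fin n → ℂ) → ℝ} (hχ : ContDiff ℝ ∞ χ) {V : Set (Fin n → ℂ)}
    (hV : IsOpen V) (hs : tsupport χ ⊆ V) {f : (Fin n → ℂ) → ℂ} (hf : ContDiffOn ℝ ∞ f V) :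
    Sm n := ⟨fun z => (χ z : ℂ) * f z, contDiff_bump_mul hχ hV hs hf⟩

theorem loc_apply {χ : (Fin n → ℂ) → ℝ} (hχ : ContDiff ℝ ∞ χ) {V : Set (Fin n → ℂ)}
    (hV : IsOpen V) (hs : tsupport χ ⊆ V) {f : (Fin n → ℂ) → ℂ} (hf : ContDiffOn ℝ ∞ f V)
    (z : Fin n → ℂ) : (loc hχ hV hs hf : (Fin n → ℂ) → ℂ) z = (χ z : ℂ) * f z := rfl

theorem exists_loc {p : Fin n → ℂ} {V : Set (Fin n → ℂ)} (hV : IsOpen V) (hp : p ∈ V)
    {f : (Fin n → ℂ) → ℂ} (hf : ContDiffOn ℝ ∞ f V) :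
    ∃ F : Sm n, f =ᶠ[𝓝 p] (F : (Fin n → ℂ) → ℂ) := by
  obtain ⟨χ, hχ, hs, h1⟩ := exists_bump (hV.mem_nhds hp)
  refine ⟨loc hχ hV hs hf, ?_⟩
  filter_upwards [h1] with z hz
  rw [loc_apply, hz]; simp

end Bump

section Approx

variable {n : ℕ}

/-- a vector field is represented by smooth functions near the point -/
def Ap (p : Fin n → ℂ) (X : VF n) (b : Fin n × Bool → Sm n) : Prop :=
  ∀ᶠ z in 𝓝 p, (∀ k, (X z).1 k = (b (k, false) : (Fin n → ℂ) → ℂ) z) ∧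
    (∀ k, (X z).2 k = (b (k, true) : (Fin n → ℂ) → ℂ) z)

variable {p : Fin n → ℂ}

theorem fderiv_congr {f g : (Fin n → ℂ) → ℂ} (h : f =ᶠ[𝓝 p] g) :
    fderiv ℝ f =ᶠ[𝓝 p] fderiv ℝ g := h.fderiv

theorem dz_congr {f g : (Fin n → ℂ) → ℂ} (h : f =ᶠ[𝓝 p] g) (k : Fin n) :
    dz k f =ᶠ[𝓝 p] dz k g := by
  filter_upwards [fderiv_congr h] with z hz
  rw [dz, dz, hz]

theorem dzb_congr {f g : (Fin n → ℂ) → ℂ} (h : f =ᶠ[𝓝 p] g) (k : Fin n) :
    dzb k f =ᶠ[𝓝 p] dzb k g := by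
  filter_upwards [fderiv_congr h] with z hz
  rw [dzb, dzb, hz]

theorem dz_eq_wir (k : Fin n) (F : Sm n) :
    dz k (F : (Fin n → ℂ) → ℂ) = (wir (k, false) F : (Fin n → ℂ) → ℂ) := by
  funext z; rw [wir_false_apply]

theorem dzb_eq_wir (k : Fin n) (F : Sm n) :
    dzb k (F : (Fin n → ℂ) → ℂ) = (wir (k, true) F : (Fin n → ℂ) → ℂ) := by
  funext z; rw [wir_true_apply]

theorem sm_sum_apply {ι : Type*} (s : Finset ι) (F : ι → Sm n) (z : Fin n → ℂ) :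
    ((∑ i ∈ s, F i : Sm n) : (Fin n → ℂ) → ℂ) z = ∑ i ∈ s, (F i : (Fin n → ℂ) → ℂ) z := by
  have := map_sum (evP z) F s
  simpa using this

theorem vf_apply_sm {r : ℕ} (a : Fin r → Fin n → Sm n) (b : Fin n × Bool → Sm n) (F : Sm n)
    (z : Fin n → ℂ) : ((jd p a).vf b F : (Fin n → ℂ) → ℂ) z =
      ∑ k, (b (k, false) : (Fin n → ℂ) → ℂ) z * (wir (k, false) F : (Fin n → ℂ) → ℂ) z +
      ∑ k, (b (k, true) : (Fin n → ℂ) → ℂ) z * (wir (k, true) F : (Fin n → ℂ) → ℂ) z := by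
  rw [JD.vf_apply, sm_sum_apply, JD.sum_fin_bool, add_comm]
  rfl

theorem app_ap {r : ℕ} (a : Fin r → Fin n → Sm n) {X : VF n} {b : Fin n × Bool → Sm n}
    {f : (Fin n → ℂ) → ℂ} {F : Sm n} (hX : Ap p X b) (hf : f =ᶠ[𝓝 p] (F : (Fin n → ℂ) → ℂ)) :
    X.app f =ᶠ[𝓝 p] ((jd p a).vf b F : (Fin n → ℂ) → ℂ) := by
  have h1 : ∀ᶠ z in 𝓝 p, ∀ k, dz k f z = (wir (k, false) F : (Fin n → ℂ) → ℂ) z := by
    rw [eventually_all]
    intro k
    have := dz_congr hf k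
    rw [dz_eq_wir] at this
    exact this
  have h2 : ∀ᶠ z in 𝓝 p, ∀ k, dzb k f z = (wir (k, true) F : (Fin n → ℂ) → ℂ) z := by
    rw [eventually_all]
    intro k
    have := dzb_congr hf k
    rw [dzb_eq_wir] at this
    exact this
  filter_upwards [h1, h2, hX] with z h1 h2 hX
  rw [vf_apply_sm, VF.app]
  congr 1
  · exact Finset.sum_congr rfl fun k _ => by rw [h1, hX.1]
  · exact Finset.sum_congr rfl fun k _ => by rw [h2, hX.2]

theorem comm_ap {r : ℕ} (a : Fin r → Fin n → Sm n) {X Y : VF n} {b b' : Fin n × Bool → Sm n}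
    (hX : Ap p X b) (hY : Ap p Y b') : Ap p (X.comm Y) ((jd p a).bv b b') := by
  have hX1 : ∀ k, (fun w => (X w).1 k) =ᶠ[𝓝 p] (b (k, false) : (Fin n → ℂ) → ℂ) :=
    fun k => hX.mono fun z hz => hz.1 k
  have hX2 : ∀ k, (fun w => (X w).2 k) =ᶠ[𝓝 p] (b (k, true) : (Fin n → ℂ) → ℂ) :=
    fun k => hX.mono fun z hz => hz.2 k
  have hY1 : ∀ k, (fun w => (Y w).1 k) =ᶠ[𝓝 p] (b' (k, false) : (Fin n → ℂ) → ℂ) :=
    fun k => hY.mono fun z hz => hz.1 k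
  have hY2 : ∀ k, (fun w => (Y w).2 k) =ᶠ[𝓝 p] (b' (k, true) : (Fin n → ℂ) → ℂ) :=
    fun k => hY.mono fun z hz => hz.2 k
  have e1 := eventually_all.2 fun k => app_ap a hX (hY1 k)
  have e2 := eventually_all.2 fun k => app_ap a hX (hY2 k)
  have e3 := eventually_all.2 fun k => app_ap a hY (hX1 k)
  have e4 := eventually_all.2 fun k => app_ap a hY (hX2 k)
  filter_upwards [e1, e2, e3, e4] with z h1 h2 h3 h4
  refine ⟨fun k => ?_, fun k => ?_⟩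
  · show X.app (fun w => (Y w).1 k) z - Y.app (fun w => (X w).1 k) z = _
    rw [h1 k, h3 k]; rfl
  · show X.app (fun w => (Y w).2 k) z - Y.app (fun w => (X w).2 k) z = _
    rw [h2 k, h4 k]; rfl

theorem contDiffOn_fst {U : Set (Fin n → ℂ)} {X : VF n} (hX : ContDiffOn ℝ ∞ X U) (k : Fin n) :
    ContDiffOn ℝ ∞ (fun z => (X z).1 k) U := by
  have h1 : ContDiffOn ℝ ∞ (fun z => (X z).1) U := contDiff_fst.comp_contDiffOn hX
  exact (contDiffOn_pi.1 h1) k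

theorem contDiffOn_snd {U : Set (Fin n → ℂ)} {X : VF n} (hX : ContDiffOn ℝ ∞ X U) (k : Fin n) :
    ContDiffOn ℝ ∞ (fun z => (X z).2 k) U := by
  have h1 : ContDiffOn ℝ ∞ (fun z => (X z).2) U := contDiff_snd.comp_contDiffOn hX
  exact (contDiffOn_pi.1 h1) k

theorem contDiffOn_of_comp {U : Set (Fin n → ℂ)} {X : VF n}
    (h1 : ∀ k, ContDiffOn ℝ ∞ (fun z => (X z).1 k) U)
    (h2 : ∀ k, ContDiffOn ℝ ∞ (fun z => (X z).2 k) U) : ContDiffOn ℝ ∞ X U :=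
  (contDiffOn_pi.2 h1).prodMk (contDiffOn_pi.2 h2)

theorem exists_ap {U : Set (Fin n → ℂ)} (hU : IsOpen U) (hp : p ∈ U) {X : VF n}
    (hX : ContDiffOn ℝ ∞ X U) : ∃ b, Ap p X b := by
  choose b1 hb1 using fun k => exists_loc hU hp (contDiffOn_fst hX k)
  choose b2 hb2 using fun k => exists_loc hU hp (contDiffOn_snd hX k)
  refine ⟨fun κ => if κ.2 then b2 κ.1 else b1 κ.1, ?_⟩
  filter_upwards [eventually_all.2 hb1, eventually_all.2 hb2] with z h1 h2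
  exact ⟨fun k => h1 k, fun k => h2 k⟩

theorem contDiffOn_app {U : Set (Fin n → ℂ)} (hU : IsOpen U) {X : VF n}
    (hX : ContDiffOn ℝ ∞ X U) {f : (Fin n → ℂ) → ℂ} (hf : ContDiffOn ℝ ∞ f U) :
    ContDiffOn ℝ ∞ (X.app f) U := by
  have h1 : ContDiffOn ℝ ∞ (fderiv ℝ f) U := hf.fderiv_of_isOpen hU (by simp)
  have h2 : ∀ v, ContDiffOn ℝ ∞ (fun z => fderiv ℝ f z v) U :=
    fun v => h1.clm_apply contDiffOn_const
  have h3 : ∀ k, ContDiffOn ℝ ∞ (dz k f) U := by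
    intro k
    have : ContDiffOn ℝ ∞ (fun z => (fderiv ℝ f z (Pi.single k 1) -
        Complex.I * fderiv ℝ f z (Pi.single k Complex.I)) / 2) U :=
      ((h2 _).sub (contDiffOn_const.mul (h2 _))).div_const _
    exact this
  have h4 : ∀ k, ContDiffOn ℝ ∞ (dzb k f) U := by
    intro k
    have : ContDiffOn ℝ ∞ (fun z => (fderiv ℝ f z (Pi.single k 1) +
        Complex.I * fderiv ℝ f z (Pi.single k Complex.I)) / 2) U :=
      ((h2 _).add (contDiffOn_const.mul (h2 _))).div_const _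
    exact this
  exact (ContDiffOn.sum fun k _ => (contDiffOn_fst hX k).mul (h3 k)).add
    (ContDiffOn.sum fun k _ => (contDiffOn_snd hX k).mul (h4 k))

theorem contDiffOn_comm {U : Set (Fin n → ℂ)} (hU : IsOpen U) {X Y : VF n}
    (hX : ContDiffOn ℝ ∞ X U) (hY : ContDiffOn ℝ ∞ Y U) : ContDiffOn ℝ ∞ (X.comm Y) U := by
  apply contDiffOn_of_comp
  · intro k
    exact (contDiffOn_app hU hX (contDiffOn_fst hY k)).sub
      (contDiffOn_app hU hY (contDiffOn_fst hX k))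
  · intro k
    exact (contDiffOn_app hU hX (contDiffOn_snd hY k)).sub
      (contDiffOn_app hU hY (contDiffOn_snd hX k))

end Approx

section Tangent

variable {n : ℕ} (H : Hyp n)

theorem mem_T10 {z ξ : Fin n → ℂ} : ξ ∈ H.T10 z ↔ ∑ j, H.ρz j z * ξ j = 0 := Iff.rfl

theorem rho_contDiffAt {z : Fin n → ℂ} (hz : z ∈ H.U) : ContDiffAt ℝ ∞ H.ρ z :=
  (H.smooth z hz).contDiffAt (H.isOpen.mem_nhds hz)

/-- the differential of a real function vanishing on `M` is proportional to `dρ` -/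
theorem lagrange {z : Fin n → ℂ} (hz : z ∈ H.M) {φ : (Fin n → ℂ) → ℝ}
    (hφ : ContDiffAt ℝ ∞ φ z) (h0 : ∀ᶠ w in 𝓝 z, w ∈ H.M → φ w = 0) :
    ∃ c : ℝ, fderiv ℝ φ z = c • fderiv ℝ H.ρ z := by
  have hne : (∞ : WithTop ℕ∞) ≠ 0 := by simp
  have h1 : HasStrictFDerivAt H.ρ (fderiv ℝ H.ρ z) z :=
    (rho_contDiffAt H hz.1).hasStrictFDerivAt hne
  have h2 : HasStrictFDerivAt φ (fderiv ℝ φ z) z := hφ.hasStrictFDerivAt hne
  have h3 : IsLocalExtrOn φ {w | H.ρ w = H.ρ z} z := by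
    left
    have e1 : φ z = 0 := h0.self_of_nhds hz
    show ∀ᶠ w in 𝓝[{w | H.ρ w = H.ρ z}] z, φ z ≤ φ w
    rw [eventually_nhdsWithin_iff]
    filter_upwards [h0, H.isOpen.mem_nhds hz.1] with w hw hwU hwz
    have : w ∈ H.M := ⟨hwU, by
      have : H.ρ w = H.ρ z := hwz
      rw [this, hz.2]⟩
    rw [e1, hw this]
  obtain ⟨a, b, hab, he⟩ := IsLocalExtrOn.exists_multipliers_of_hasStrictFDerivAt_1d h3 h1 h2
  have hb : b ≠ 0 := by
    rintro rfl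
    rw [zero_smul, add_zero] at he
    have ha : a ≠ 0 := by
      rintro rfl
      exact hab rfl
    exact H.regular z hz.1 hz.2 ((smul_eq_zero.1 he).resolve_left ha)
  refine ⟨-(a / b), ?_⟩
  have h4 : b • fderiv ℝ φ z = -(a • fderiv ℝ H.ρ z) := eq_neg_of_add_eq_zero_right he
  ext v
  have h5 := congrArg (fun L : (Fin n → ℂ) →L[ℝ] ℝ => L v) h4
  simp only [ContinuousLinearMap.smul_apply, ContinuousLinearMap.neg_apply, smul_eq_mul] at h5
  simp only [ContinuousLinearMap.smul_apply, smul_eq_mul]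
  field_simp
  linarith

/-- the differential of a complex function vanishing on `M` is proportional to `dρ` -/
theorem lagrange_complex {z : Fin n → ℂ} (hz : z ∈ H.M) (F : Sm n)
    (h0 : ∀ᶠ w in 𝓝 z, w ∈ H.M → (F : (Fin n → ℂ) → ℂ) w = 0) :
    ∃ c : ℂ, ∀ v, fderiv ℝ (F : (Fin n → ℂ) → ℂ) z v = c * (fderiv ℝ H.ρ z v : ℂ) := by
  have hre : ContDiffAt ℝ ∞ (fun w => ((F : (Fin n → ℂ) → ℂ) w).re) z :=
    (Complex.reCLM.contDiff.comp (smc F)).contDiffAt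
  have him : ContDiffAt ℝ ∞ (fun w => ((F : (Fin n → ℂ) → ℂ) w).im) z :=
    (Complex.imCLM.contDiff.comp (smc F)).contDiffAt
  obtain ⟨c1, h1⟩ := lagrange H hz hre (h0.mono fun w hw hwM => by rw [hw hwM]; rfl)
  obtain ⟨c2, h2⟩ := lagrange H hz him (h0.mono fun w hw hwM => by rw [hw hwM]; rfl)
  refine ⟨c1 + c2 * Complex.I, fun v => ?_⟩
  have e1 : fderiv ℝ (fun w => ((F : (Fin n → ℂ) → ℂ) w).re) z v =
      (fderiv ℝ (F : (Fin n → ℂ) → ℂ) z v).re := by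
    have := (Complex.reCLM.hasFDerivAt.comp z (smd F z).hasFDerivAt).fderiv
    have h3 : fderiv ℝ (fun w => ((F : (Fin n → ℂ) → ℂ) w).re) z = _ := this
    rw [h3]; rfl
  have e2 : fderiv ℝ (fun w => ((F : (Fin n → ℂ) → ℂ) w).im) z v =
      (fderiv ℝ (F : (Fin n → ℂ) → ℂ) z v).im := by
    have := (Complex.imCLM.hasFDerivAt.comp z (smd F z).hasFDerivAt).fderiv
    have h3 : fderiv ℝ (fun w => ((F : (Fin n → ℂ) → ℂ) w).im) z = _ := this
    rw [h3]; rfl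
  rw [h1] at e1
  rw [h2] at e2
  rw [← Complex.re_add_im (fderiv ℝ (F : (Fin n → ℂ) → ℂ) z v), ← e1, ← e2]
  simp only [ContinuousLinearMap.smul_apply, smul_eq_mul, Complex.ofReal_mul]
  ring

theorem fderiv_ofReal {z : Fin n → ℂ} (hz : z ∈ H.U) (v : Fin n → ℂ) :
    fderiv ℝ (fun w => (H.ρ w : ℂ)) z v = (fderiv ℝ H.ρ z v : ℂ) := by
  have hd : DifferentiableAt ℝ H.ρ z := (rho_contDiffAt H hz).differentiableAt (by simp)
  have := (Complex.ofRealCLM.hasFDerivAt.comp z hd.hasFDerivAt).fderiv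
  have h3 : fderiv ℝ (fun w => (H.ρ w : ℂ)) z = _ := this
  rw [h3]; rfl

/-- derivatives along tangential vectors of functions vanishing on `M` vanish -/
theorem tangential {z : Fin n → ℂ} (hz : z ∈ H.M) (F : Sm n)
    (h0 : ∀ᶠ w in 𝓝 z, w ∈ H.M → (F : (Fin n → ℂ) → ℂ) w = 0) {ξ : Fin n → ℂ}
    (hξ : ξ ∈ H.T10 z) :
    ∑ k, ξ k * (wir (k, false) F : (Fin n → ℂ) → ℂ) z = 0 ∧
    ∑ k, conj (ξ k) * (wir (k, true) F : (Fin n → ℂ) → ℂ) z = 0 := by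
  obtain ⟨c, hc⟩ := lagrange_complex H hz F h0
  rw [mem_T10] at hξ
  have e1 : ∀ k, (wir (k, false) F : (Fin n → ℂ) → ℂ) z = c * H.ρz k z := by
    intro k
    rw [wir_false_apply, dz, Hyp.ρz, dz, hc, hc, fderiv_ofReal H hz.1, fderiv_ofReal H hz.1]
    ring
  have e2 : ∀ k, (wir (k, true) F : (Fin n → ℂ) → ℂ) z = c * conj (H.ρz k z) := by
    intro k
    rw [wir_true_apply, dzb, Hyp.ρz, dz, hc, hc, fderiv_ofReal H hz.1, fderiv_ofReal H hz.1,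
      map_div₀, map_sub, map_mul, Complex.conj_I, Complex.conj_ofReal, Complex.conj_ofReal,
      map_ofNat]
    ring
  constructor
  · have : ∑ k, ξ k * (wir (k, false) F : (Fin n → ℂ) → ℂ) z = c * ∑ k, H.ρz k z * ξ k := by
      rw [Finset.mul_sum]
      exact Finset.sum_congr rfl fun k _ => by rw [e1]; ring
    rw [this, hξ, mul_zero]
  · have : ∑ k, conj (ξ k) * (wir (k, true) F : (Fin n → ℂ) → ℂ) z =
        c * conj (∑ k, H.ρz k z * ξ k) := by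
      rw [map_sum, Finset.mul_sum]
      exact Finset.sum_congr rfl fun k _ => by rw [e2, map_mul]; ring
    rw [this, hξ, map_zero, mul_zero]

/-- the ideal of germs of functions vanishing on `M` -/
def IM (p : Fin n → ℂ) : Ideal (Sm n) where
  carrier := {F | ∀ᶠ z in 𝓝 p, z ∈ H.M → (F : (Fin n → ℂ) → ℂ) z = 0}
  add_mem' := by
    intro F G hF hG
    have hF' : ∀ᶠ z in 𝓝 p, z ∈ H.M → (F : (Fin n → ℂ) → ℂ) z = 0 := hF
    have hG' : ∀ᶠ z in 𝓝 p, z ∈ H.M → (G : (Fin n → ℂ) → ℂ) z = 0 := hG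
    show ∀ᶠ z in 𝓝 p, z ∈ H.M → ((F + G : Sm n) : (Fin n → ℂ) → ℂ) z = 0
    filter_upwards [hF', hG'] with z h1 h2 hz
    show (F : (Fin n → ℂ) → ℂ) z + (G : (Fin n → ℂ) → ℂ) z = 0
    rw [h1 hz, h2 hz, add_zero]
  zero_mem' := by
    show ∀ᶠ z in 𝓝 p, z ∈ H.M → ((0 : Sm n) : (Fin n → ℂ) → ℂ) z = 0
    exact Eventually.of_forall fun z _ => rfl
  smul_mem' := by
    intro G F hF
    have hF' : ∀ᶠ z in 𝓝 p, z ∈ H.M → (F : (Fin n → ℂ) → ℂ) z = 0 := hF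
    show ∀ᶠ z in 𝓝 p, z ∈ H.M → ((G * F : Sm n) : (Fin n → ℂ) → ℂ) z = 0
    filter_upwards [hF'] with z h1 hz
    show (G : (Fin n → ℂ) → ℂ) z * (F : (Fin n → ℂ) → ℂ) z = 0
    rw [h1 hz, mul_zero]

theorem mem_IM {p : Fin n → ℂ} {F : Sm n} :
    F ∈ IM H p ↔ ∀ᶠ z in 𝓝 p, z ∈ H.M → (F : (Fin n → ℂ) → ℂ) z = 0 := Iff.rfl

theorem IM_pe {p : Fin n → ℂ} (hp : p ∈ H.M) {F : Sm n} (hF : F ∈ IM H p) : evP p F = 0 :=
  (mem_IM H).1 hF |>.self_of_nhds hp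

theorem IM_co {p : Fin n → ℂ} {F : Sm n} (hF : F ∈ IM H p) : coS F ∈ IM H p := by
  rw [mem_IM] at hF ⊢
  filter_upwards [hF] with z h hz
  rw [coS_apply, h hz, map_zero]

theorem IM_of_eventuallyEq {p : Fin n → ℂ} {F G : Sm n}
    (h : (F : (Fin n → ℂ) → ℂ) =ᶠ[𝓝 p] (G : (Fin n → ℂ) → ℂ)) : F - G ∈ IM H p := by
  rw [mem_IM]
  filter_upwards [h] with z hz _
  show (F : (Fin n → ℂ) → ℂ) z - (G : (Fin n → ℂ) → ℂ) z = 0
  rw [hz, sub_self]

/-- the letters preserve the ideal -/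
theorem IM_D {r : ℕ} {p : Fin n → ℂ} (a : Fin r → Fin n → Sm n)
    (ha : ∀ᶠ z in 𝓝 p, z ∈ H.M → ∀ i, (fun k => (a i k : (Fin n → ℂ) → ℂ) z) ∈ H.T10 z)
    (x : Lt r) (F : Sm n) (hF : F ∈ IM H p) : (jd p a).D x F ∈ IM H p := by
  rw [mem_IM] at hF ⊢
  filter_upwards [eventually_eventually_nhds.2 hF, ha] with z h1 h2 hz
  obtain ⟨i, b⟩ := x
  have h3 := tangential H hz F h1 (h2 hz i)
  rw [JD.D, vf_apply_sm]
  cases b
  · rw [← h3.1]
    have : ∑ k, ((jd p a).cx (i, false) (k, true) : (Fin n → ℂ) → ℂ) z *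
        (wir (k, true) F : (Fin n → ℂ) → ℂ) z = 0 := by
      apply Finset.sum_eq_zero
      intro k _
      have : (jd p a).cx (i, false) (k, true) = 0 := by simp [JD.cx]
      rw [this]
      show (0 : ℂ) * _ = 0
      rw [zero_mul]
    rw [this, add_zero]
    rfl
  · rw [← h3.2]
    have : ∑ k, ((jd p a).cx (i, true) (k, false) : (Fin n → ℂ) → ℂ) z *
        (wir (k, false) F : (Fin n → ℂ) → ℂ) z = 0 := by
      apply Finset.sum_eq_zero
      intro k _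
      have : (jd p a).cx (i, true) (k, false) = 0 := by simp [JD.cx]
      rw [this]
      show (0 : ℂ) * _ = 0
      rw [zero_mul]
    rw [this, zero_add]
    rfl

end Tangent

end Pool.Agent.Lib.MP_d7cc7c_an
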