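import Pool.Agent.Lib.MP_d7cc7c_an.Part2

/-!
# Jets: the action of series on an algebra of functions
-/

set_option linter.unusedSectionVars false

namespace Pool.Agent.Lib.MP_d7cc7c_an

open NS MvPolynomial ComplexConjugate
open Finset.HasAntidiagonal

/-- an algebra of functions with coordinates, Wirtinger derivations, conjugation, a point, and
the coefficients of `r` vector fields of type `(1,0)` -/
structure JD (r n : ℕ) (O : Type*) [CommRing O] [Algebra ℂ O] where
  /-- the derivations -/
  dd : Fin n × Bool → Derivation ℂ O O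
  dd_comm : ∀ κ κ' F, dd κ (dd κ' F) = dd κ' (dd κ F)
  /-- conjugation -/
  co : O →+* O
  co_smul : ∀ (c : ℂ) (F : O), co (c • F) = conj c • co F
  co_co : ∀ F, co (co F) = F
  co_dd : ∀ k b F, co (dd (k, b) F) = dd (k, !b) (co F)
  /-- evaluation at the point -/
  pe : O →ₐ[ℂ] ℂ
  pe_co : ∀ F, pe (co F) = conj (pe F)
  /-- centered coordinates -/
  zc : Fin n → O
  dd_zc : ∀ k l, dd (k, false) (zc l) = if k = l then 1 else 0
  ddb_zc : ∀ k l, dd (k, true) (zc l) = 0
  pe_zc : ∀ k, pe (zc k) = 0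
  /-- coefficients of the vector fields -/
  cf : Fin r → Fin n → O

namespace JD

variable {r n : ℕ} {O : Type*} [CommRing O] [Algebra ℂ O] (J : JD r n O)

/-- all coordinates -/
def zz (κ : Fin n × Bool) : O := if κ.2 then J.co (J.zc κ.1) else J.zc κ.1

@[simp] theorem zz_false (k : Fin n) : J.zz (k, false) = J.zc k := rfl
@[simp] theorem zz_true (k : Fin n) : J.zz (k, true) = J.co (J.zc k) := rfl

theorem dd_zz (κ κ' : Fin n × Bool) : J.dd κ (J.zz κ') = if κ = κ' then 1 else 0 := by
  obtain ⟨k, b⟩ := κ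
  obtain ⟨k', b'⟩ := κ'
  cases b <;> cases b'
  · rw [zz_false, J.dd_zc]; simp
  · rw [zz_true]
    have := J.co_dd k true (J.zc k')
    rw [J.ddb_zc, map_zero] at this
    simpa using this.symm
  · rw [zz_false, J.ddb_zc]; simp
  · rw [zz_true]
    have := J.co_dd k false (J.zc k')
    rw [J.dd_zc] at this
    simp only [Bool.not_false] at this
    rw [← this]
    by_cases h : k = k'
    · simp [h]
    · simp [h]

theorem co_zz (κ : Fin n × Bool) : J.co (J.zz κ) = J.zz (κ.1, !κ.2) := by
  obtain ⟨k, b⟩ := κ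
  cases b <;> simp [J.co_co]

theorem pe_zz (κ : Fin n × Bool) : J.pe (J.zz κ) = 0 := by
  obtain ⟨k, b⟩ := κ
  cases b <;> simp [J.pe_co, J.pe_zc]

/-- coordinate vector fields -/
def vf (b : Fin n × Bool → O) : Derivation ℂ O O := ∑ κ, b κ • J.dd κ

theorem vf_apply (b : Fin n × Bool → O) (F : O) : J.vf b F = ∑ κ, b κ * J.dd κ F := by
  have key : ∀ s : Finset (Fin n × Bool), (∑ κ ∈ s, b κ • J.dd κ : Derivation ℂ O O) F =
      ∑ κ ∈ s, b κ * J.dd κ F := by
    intro s
    induction s using Finset.cons_induction with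
    | empty => simp
    | cons a s ha ih =>
      rw [Finset.sum_cons, Finset.sum_cons, Derivation.add_apply, ih]; rfl
  exact key _

theorem vf_zz (b : Fin n × Bool → O) (κ : Fin n × Bool) : J.vf b (J.zz κ) = b κ := by
  rw [vf_apply, Finset.sum_eq_single κ]
  · rw [dd_zz, if_pos rfl, mul_one]
  · intro κ' _ h
    rw [dd_zz, if_neg h, mul_zero]
  · intro h; exact absurd (Finset.mem_univ _) h

theorem vf_bracket (b b' : Fin n × Bool → O) (F : O) :
    J.vf b (J.vf b' F) - J.vf b' (J.vf b F) =
      J.vf (fun κ => J.vf b (b' κ) - J.vf b' (b κ)) F := by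
  have h1 : ∀ b b' : Fin n × Bool → O, J.vf b (J.vf b' F) =
      ∑ κ, J.vf b (b' κ) * J.dd κ F + ∑ κ, ∑ κ', b κ * b' κ' * J.dd κ (J.dd κ' F) := by
    intro b b'
    rw [J.vf_apply b' F, map_sum, Finset.sum_comm (s := (Finset.univ : Finset (Fin n × Bool)))
      (t := (Finset.univ : Finset (Fin n × Bool)))
      (f := fun κ κ' => b κ * b' κ' * J.dd κ (J.dd κ' F)), ← Finset.sum_add_distrib]
    apply Finset.sum_congr rfl
    intro κ' _
    rw [Derivation.leibniz, smul_eq_mul, smul_eq_mul, J.vf_apply b (J.dd κ' F), Finset.mul_sum,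
      add_comm, mul_comm (J.dd κ' F)]
    congr 1
    apply Finset.sum_congr rfl
    intro κ _
    ring
  rw [h1 b b', h1 b' b, J.vf_apply (fun κ => J.vf b (b' κ) - J.vf b' (b κ))]
  simp_rw [sub_mul]
  rw [Finset.sum_sub_distrib]
  have h2 : ∑ κ, ∑ κ', b' κ * b κ' * J.dd κ (J.dd κ' F) =
      ∑ κ, ∑ κ', b κ * b' κ' * J.dd κ (J.dd κ' F) := by
    rw [Finset.sum_comm]
    apply Finset.sum_congr rfl
    intro κ _
    apply Finset.sum_congr rfl
    intro κ' _
    rw [J.dd_comm κ' κ]; ring
  rw [h2]; ring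

theorem co_vf (b : Fin n × Bool → O) (F : O) :
    J.co (J.vf b F) = J.vf (fun κ => J.co (b (κ.1, !κ.2))) (J.co F) := by
  rw [vf_apply, vf_apply, map_sum]
  let e : (Fin n × Bool) ≃ (Fin n × Bool) :=
    ⟨fun κ => (κ.1, !κ.2), fun κ => (κ.1, !κ.2), fun κ => by simp, fun κ => by simp⟩
  rw [← Equiv.sum_comp e]
  apply Finset.sum_congr rfl
  rintro ⟨k, b'⟩ _
  simp only [e, Equiv.coe_fn_mk, map_mul, J.co_dd, Bool.not_not]

/-- coefficients of the letters -/
def cx (x : Lt r) (κ : Fin n × Bool) : O :=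
  if x.2 = κ.2 then (if x.2 then J.co (J.cf x.1 κ.1) else J.cf x.1 κ.1) else 0

/-- the vector fields of the letters -/
def D (x : Lt r) : Derivation ℂ O O := J.vf (J.cx x)

theorem D_apply (x : Lt r) (F : O) : J.D x F = ∑ κ, J.cx x κ * J.dd κ F := J.vf_apply _ _

theorem D_zc_false (i : Fin r) (k : Fin n) : J.D (i, false) (J.zc k) = J.cf i k := by
  have := J.vf_zz (J.cx (i, false)) (k, false)
  rw [zz_false] at this
  rw [D, this]; simp [cx]

theorem D_zc_true (i : Fin r) (k : Fin n) : J.D (i, true) (J.zc k) = 0 := by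
  have := J.vf_zz (J.cx (i, true)) (k, false)
  rw [zz_false] at this
  rw [D, this]; simp [cx]

theorem co_cx (x : Lt r) (κ : Fin n × Bool) : J.co (J.cx x (κ.1, !κ.2)) = J.cx (bar x) κ := by
  obtain ⟨i, b⟩ := x
  obtain ⟨k, c⟩ := κ
  cases b <;> cases c <;> simp [cx, bar, J.co_co]

theorem co_D (x : Lt r) (F : O) : J.co (J.D x F) = J.D (bar x) (J.co F) := by
  rw [D, co_vf]
  have : (fun κ : Fin n × Bool => J.co (J.cx x (κ.1, !κ.2))) = J.cx (bar x) := by
    funext κ; exact J.co_cx x κ
  rw [this]; rfl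

/-- the action of a series in degree `k` -/
noncomputable def act : ℕ → NS (Lt r) ℂ → O →ₗ[ℂ] O
  | 0, f => f [] • LinearMap.id
  | (k + 1), f => ∑ x : Lt r, (J.D x : O →ₗ[ℂ] O).comp (act k (shift x f))

theorem act_zero_apply (f : NS (Lt r) ℂ) (F : O) : J.act 0 f F = f [] • F := rfl

theorem act_succ_apply (k : ℕ) (f : NS (Lt r) ℂ) (F : O) :
    J.act (k + 1) f F = ∑ x : Lt r, J.D x (J.act k (shift x f) F) := by
  rw [act, LinearMap.sum_apply]; rfl

theorem act_add (k : ℕ) (f g : NS (Lt r) ℂ) : J.act k (f + g) = J.act k f + J.act k g := by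
  ext F
  induction k generalizing f g with
  | zero => rw [LinearMap.add_apply, act_zero_apply, act_zero_apply, act_zero_apply, add_app,
      add_smul]
  | succ k ih =>
    rw [LinearMap.add_apply, act_succ_apply, act_succ_apply, act_succ_apply,
      ← Finset.sum_add_distrib]
    apply Finset.sum_congr rfl
    intro x _
    rw [shift_add, ih, LinearMap.add_apply, map_add]

theorem act_smul (k : ℕ) (c : ℂ) (f : NS (Lt r) ℂ) : J.act k (c • f) = c • J.act k f := by
  ext F
  induction k generalizing f with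
  | zero => rw [LinearMap.smul_apply, act_zero_apply, act_zero_apply, smul_app, smul_eq_mul,
      mul_smul]
  | succ k ih =>
    rw [LinearMap.smul_apply, act_succ_apply, act_succ_apply, Finset.smul_sum]
    apply Finset.sum_congr rfl
    intro x _
    rw [shift_smul, ih, LinearMap.smul_apply, Derivation.map_smul]

/-- the action as a linear map in the series -/
noncomputable def actL (k : ℕ) : NS (Lt r) ℂ →ₗ[ℂ] (O →ₗ[ℂ] O) where
  toFun f := J.act k f
  map_add' := J.act_add k
  map_smul' := J.act_smul k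

@[simp] theorem actL_apply (k : ℕ) (f : NS (Lt r) ℂ) : J.actL k f = J.act k f := rfl

theorem act_zero' (k : ℕ) : J.act k 0 = 0 := map_zero (J.actL k)
theorem act_sub (k : ℕ) (f g : NS (Lt r) ℂ) : J.act k (f - g) = J.act k f - J.act k g :=
  map_sub (J.actL k) f g
theorem act_neg (k : ℕ) (f : NS (Lt r) ℂ) : J.act k (-f) = -J.act k f :=
  map_neg (J.actL k) f

theorem act_mul (k : ℕ) (f g : NS (Lt r) ℂ) (F : O) : J.act k (f * g) F =
    ∑ p ∈ antidiagonal k, J.act p.1 f (J.act p.2 g F) := by
  induction k generalizing f with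
  | zero =>
    simp only [Finset.Nat.antidiagonal_zero, Finset.sum_singleton]
    rw [act_zero_apply, act_zero_apply, act_zero_apply, mul_nil, mul_smul]
  | succ k ih =>
    rw [act_succ_apply]
    have h1 : ∀ x : Lt r, J.D x (J.act k (shift x (f * g)) F) =
        f [] • J.D x (J.act k (shift x g) F) +
        ∑ p ∈ antidiagonal k, J.D x (J.act p.1 (shift x f) (J.act p.2 g F)) := by
      intro x
      rw [shift_mul, act_add, act_smul, LinearMap.add_apply, LinearMap.smul_apply, map_add,
        Derivation.map_smul, ih, map_sum]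
    simp_rw [h1]
    rw [Finset.sum_add_distrib, ← Finset.smul_sum, ← act_succ_apply, Finset.sum_comm,
      Finset.Nat.antidiagonal_succ, Finset.sum_cons, Finset.sum_map]
    congr 1
    apply Finset.sum_congr rfl
    rintro ⟨i, j⟩ _
    simp only [Function.Embedding.prodMap, Function.Embedding.coeFn_mk, Prod.map]
    rw [← act_succ_apply]
    rfl

theorem act_congr {k : ℕ} {f g : NS (Lt r) ℂ} (h : ∀ w : List (Lt r), w.length = k → f w = g w) :
    J.act k f = J.act k g := by
  ext F
  induction k generalizing f g with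
  | zero => rw [act_zero_apply, act_zero_apply, h [] rfl]
  | succ k ih =>
    rw [act_succ_apply, act_succ_apply]
    apply Finset.sum_congr rfl
    intro x _
    rw [ih (f := shift x f) (g := shift x g)]
    intro w hw
    exact h (x :: w) (by simp [hw])

theorem act_comp_self (k : ℕ) (f : NS (Lt r) ℂ) : J.act k (comp k f) = J.act k f :=
  J.act_congr fun w hw => by rw [comp_apply, if_pos hw]

theorem act_comp_ne {k m : ℕ} (hkm : k ≠ m) (f : NS (Lt r) ℂ) : J.act k (comp m f) = 0 := by
  rw [← J.act_zero' k]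
  apply J.act_congr
  intro w hw
  rw [comp_apply, if_neg (by omega)]; rfl

theorem act_E (k : ℕ) (f : NS (Lt r) ℂ) : J.act k (E f) = (k : ℂ) • J.act k f := by
  rw [← act_smul]
  apply J.act_congr
  intro w hw
  rw [E_apply, hw]; rfl

theorem act_one_zero : J.act 0 1 = LinearMap.id := by
  ext F
  rw [act_zero_apply, one_nil, one_smul]; rfl

theorem act_one_succ (k : ℕ) : J.act (k + 1) 1 = 0 := by
  rw [← J.act_zero' (k + 1)]
  apply J.act_congr
  intro w hw
  cases w with
  | nil => simp at hw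
  | cons x w => rfl

theorem act_letter_one (x : Lt r) (F : O) : J.act 1 (letter x) F = J.D x F := by
  rw [act_succ_apply, Finset.sum_eq_single x]
  · rw [shift_letter, if_pos rfl, act_one_zero]; rfl
  · intro y _ hy
    rw [shift_letter, if_neg hy, act_zero', LinearMap.zero_apply, map_zero]
  · intro h; exact absurd (Finset.mem_univ _) h

theorem act_letter_ne {k : ℕ} (hk : k ≠ 1) (x : Lt r) : J.act k (letter x) = 0 := by
  rw [← comp_letter_one, act_comp_ne _ hk]

theorem act_mul_letter (k : ℕ) (f : NS (Lt r) ℂ) (x : Lt r) (F : O) :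
    J.act (k + 1) (f * letter x) F = J.act k f (J.D x F) := by
  rw [act_mul, Finset.sum_eq_single (k, 1)]
  · rw [act_letter_one]
  · rintro ⟨i, j⟩ hij hne
    rw [mem_antidiagonal] at hij
    have : j ≠ 1 := by rintro rfl; apply hne; simp at hij; simp [hij]
    simp only [J.act_letter_ne this, LinearMap.zero_apply, map_zero]
  · intro h; exact absurd (mem_antidiagonal.2 (by rfl)) h

theorem act_letter_mul (k : ℕ) (f : NS (Lt r) ℂ) (x : Lt r) (F : O) :
    J.act (k + 1) (letter x * f) F = J.D x (J.act k f F) := by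
  rw [act_mul, Finset.sum_eq_single (1, k)]
  · rw [act_letter_one]
  · rintro ⟨i, j⟩ hij hne
    rw [mem_antidiagonal] at hij
    have : i ≠ 1 := by rintro rfl; apply hne; simp at hij; simp; omega
    simp only [J.act_letter_ne this, LinearMap.zero_apply]
  · intro h; exact absurd (mem_antidiagonal.2 (by omega)) h

/-- Lie elements act as vector fields -/
theorem act_lie : ∀ (k : ℕ) {f : NS (Lt r) ℂ}, f ∈ lie k →
    ∃ b : Fin n × Bool → O, ∀ F, J.act k f F = J.vf b F
  | 0, f, hf => by
    rw [NS.lie_zero, Submodule.mem_bot] at hf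
    refine ⟨0, fun F => ?_⟩
    rw [hf, act_zero', vf_apply]; simp
  | 1, f, hf => by
    refine Submodule.span_induction ?_ ?_ ?_ ?_ hf
    · rintro _ ⟨x, rfl⟩
      exact ⟨J.cx x, fun F => J.act_letter_one x F⟩
    · refine ⟨0, fun F => ?_⟩
      rw [act_zero', vf_apply]; simp
    · rintro f g _ _ ⟨b, hb⟩ ⟨b', hb'⟩
      refine ⟨b + b', fun F => ?_⟩
      rw [act_add, LinearMap.add_apply, hb, hb', vf_apply, vf_apply, vf_apply,
        ← Finset.sum_add_distrib]
      simp [add_mul]
    · rintro c f _ ⟨b, hb⟩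
      refine ⟨fun κ => c • b κ, fun F => ?_⟩
      rw [act_smul, LinearMap.smul_apply, hb, vf_apply, vf_apply, Finset.smul_sum]
      simp
  | (k + 2), f, hf => by
    refine Submodule.span_induction ?_ ?_ ?_ ?_ hf
    · rintro _ ⟨g, hg, x, rfl⟩
      obtain ⟨b, hb⟩ := act_lie (k + 1) hg
      refine ⟨fun κ => J.vf b (J.cx x κ) - J.vf (J.cx x) (b κ), fun F => ?_⟩
      rw [act_sub, LinearMap.sub_apply, act_mul_letter, act_letter_mul, hb, hb, ← vf_bracket]
      rfl
    · refine ⟨0, fun F => ?_⟩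
      rw [act_zero', vf_apply]; simp
    · rintro f g _ _ ⟨b, hb⟩ ⟨b', hb'⟩
      refine ⟨b + b', fun F => ?_⟩
      rw [act_add, LinearMap.add_apply, hb, hb', vf_apply, vf_apply, vf_apply,
        ← Finset.sum_add_distrib]
      simp [add_mul]
    · rintro c f _ ⟨b, hb⟩
      refine ⟨fun κ => c • b κ, fun F => ?_⟩
      rw [act_smul, LinearMap.smul_apply, hb, vf_apply, vf_apply, Finset.smul_sum]
      simp

theorem act_LieS (k : ℕ) {f : NS (Lt r) ℂ} (hf : f ∈ LieS (Lt r) ℂ) :
    ∃ b : Fin n × Bool → O, ∀ F, J.act k f F = J.vf b F := by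
  obtain ⟨b, hb⟩ := J.act_lie k (hf k)
  exact ⟨b, fun F => by rw [← act_comp_self]; exact hb F⟩

theorem act_LieS_eq (k : ℕ) {f : NS (Lt r) ℂ} (hf : f ∈ LieS (Lt r) ℂ) (F : O) :
    J.act k f F = ∑ κ, J.act k f (J.zz κ) * J.dd κ F := by
  obtain ⟨b, hb⟩ := J.act_LieS k hf
  rw [hb, vf_apply]
  apply Finset.sum_congr rfl
  intro κ _
  rw [hb, vf_zz]

theorem act_LieS_leibniz (k : ℕ) {f : NS (Lt r) ℂ} (hf : f ∈ LieS (Lt r) ℂ) (F G : O) :
    J.act k f (F * G) = J.act k f F * G + F * J.act k f G := by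
  obtain ⟨b, hb⟩ := J.act_LieS k hf
  rw [hb, hb, hb, Derivation.leibniz, smul_eq_mul, smul_eq_mul]
  ring

theorem co_act (k : ℕ) (f : NS (Lt r) ℂ) (F : O) :
    J.co (J.act k f F) = J.act k (sg f) (J.co F) := by
  induction k generalizing f with
  | zero => rw [act_zero_apply, act_zero_apply, J.co_smul]; rfl
  | succ k ih =>
    rw [act_succ_apply, act_succ_apply, map_sum]
    rw [← Equiv.sum_comp (bar_invol (r := r)).toPerm]
    apply Finset.sum_congr rfl
    intro x _
    rw [co_D, ih]
    simp only [Function.Involutive.coe_toPerm]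
    have h1 : bar (bar x) = x := bar_invol x
    have h2 : sg (shift (bar x) f) = shift x (sg f) := rfl
    rw [h1]
    congr 2

/-! ### words -/

/-- the iterated derivative along a word -/
def wd : List (Lt r) → O → O
  | [], F => F
  | (x :: w), F => J.D x (wd w F)

/-- the words of length `k` -/
def Wn : ℕ → Finset (List (Lt r))
  | 0 => {[]}
  | (k + 1) => (Finset.univ ×ˢ Wn k).map
      ⟨fun p => p.1 :: p.2, fun p q h => by
        have := List.cons.inj h
        exact Prod.ext this.1 this.2⟩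

theorem mem_Wn {k : ℕ} {w : List (Lt r)} : w ∈ Wn k ↔ w.length = k := by
  induction k generalizing w with
  | zero => simp [Wn]
  | succ k ih =>
    rw [Wn, Finset.mem_map]
    constructor
    · rintro ⟨⟨x, u⟩, h, rfl⟩
      rw [Finset.mem_product] at h
      simp [ih.1 h.2]
    · intro h
      cases w with
      | nil => simp at h
      | cons x w =>
        refine ⟨(x, w), ?_, rfl⟩
        rw [Finset.mem_product]
        exact ⟨Finset.mem_univ _, ih.2 (by simpa using h)⟩

theorem sum_Wn_succ {M : Type*} [AddCommMonoid M] (k : ℕ) (f : List (Lt r) → M) :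
    ∑ w ∈ Wn (k + 1), f w = ∑ x : Lt r, ∑ w ∈ Wn k, f (x :: w) := by
  rw [Wn, Finset.sum_map, Finset.sum_product]
  rfl

theorem act_eq_sum (k : ℕ) (f : NS (Lt r) ℂ) (F : O) :
    J.act k f F = ∑ w ∈ Wn k, f w • J.wd w F := by
  induction k generalizing f with
  | zero => simp [Wn, act_zero_apply, wd]
  | succ k ih =>
    rw [act_succ_apply, sum_Wn_succ]
    apply Finset.sum_congr rfl
    intro x _
    rw [ih, map_sum]
    apply Finset.sum_congr rfl
    intro w _
    rw [Derivation.map_smul]; rfl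

theorem wd_conj_zc (w : List (Lt r)) (hw : ∀ x ∈ w, x.2 = true) (hne : w ≠ []) (k : Fin n) :
    J.wd w (J.zc k) = 0 := by
  induction w with
  | nil => exact absurd rfl hne
  | cons x w ih =>
    rw [wd]
    by_cases h : w = []
    · subst h
      rw [wd]
      obtain ⟨i, b⟩ := x
      have : b = true := hw (i, b) (by simp)
      subst this
      exact J.D_zc_true i k
    · rw [ih (fun y hy => hw y (List.mem_cons_of_mem _ hy)) h, map_zero]

theorem act_QB_zc {q : NS (Lt r) ℂ} (hq : QB q) (j : ℕ) (k : Fin n) :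
    J.act j q (J.zc k) = if j = 0 then J.zc k else 0 := by
  cases j with
  | zero => rw [act_zero_apply, hq.1, one_smul, if_pos rfl]
  | succ j =>
    rw [if_neg (by omega), act_eq_sum]
    apply Finset.sum_eq_zero
    intro w hw
    rw [mem_Wn] at hw
    by_cases h : ∃ x ∈ w, x.2 = false
    · rw [hq.2 w h, zero_smul]
    · push Not at h
      rw [J.wd_conj_zc w (fun x hx => by simpa using h x hx) (by rintro rfl; simp at hw),
        smul_zero]

theorem act_mul_QB {q : NS (Lt r) ℂ} (hq : QB q) (h : NS (Lt r) ℂ) (j : ℕ) (k : Fin n) :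
    J.act j (h * q) (J.zc k) = J.act j h (J.zc k) := by
  rw [act_mul, Finset.sum_eq_single (j, 0)]
  · rw [J.act_QB_zc hq, if_pos rfl]
  · rintro ⟨a, b⟩ hab hne
    rw [mem_antidiagonal] at hab
    have : b ≠ 0 := by rintro rfl; apply hne; simp at hab; simp [hab]
    simp only
    rw [J.act_QB_zc hq, if_neg this, map_zero]
  · intro h; exact absurd (mem_antidiagonal.2 (by simp)) h

end JD

end Pool.Agent.Lib.MP_d7cc7c_an
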