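import Pool.Agent.Lib.MP_d7cc7c_an.Jets

/-!
# Jets: generating series and the polynomials attached to a function
-/

set_option linter.unusedSectionVars false

namespace Pool.Agent.Lib.MP_d7cc7c_an

open NS MvPolynomial ComplexConjugate
open Finset.HasAntidiagonal

section Theta

variable {K K' : Type*} [CommRing K] [CommRing K']

/-- the Euler operator on power series -/
noncomputable def th (A : PowerSeries K) : PowerSeries K :=
  PowerSeries.mk fun n => (n : K) * PowerSeries.coeff n A

@[simp] theorem coeff_th (n : ℕ) (A : PowerSeries K) :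
    PowerSeries.coeff n (th A) = (n : K) * PowerSeries.coeff n A := PowerSeries.coeff_mk _ _

theorem coeff_zero_mul' (A B : PowerSeries K) : PowerSeries.coeff 0 (A * B) =
    PowerSeries.coeff 0 A * PowerSeries.coeff 0 B := by
  rw [PowerSeries.coeff_mul]
  simp

theorem th_add (A B : PowerSeries K) : th (A + B) = th A + th B := by
  ext n; simp [mul_add]

theorem th_sub (A B : PowerSeries K) : th (A - B) = th A - th B := by
  ext n; simp [mul_sub]

theorem th_zero : th (0 : PowerSeries K) = 0 := by ext n; simp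

theorem th_sum {ι : Type*} (s : Finset ι) (A : ι → PowerSeries K) :
    th (∑ i ∈ s, A i) = ∑ i ∈ s, th (A i) := by
  induction s using Finset.cons_induction with
  | empty => simp [th_zero]
  | cons a s ha ih => rw [Finset.sum_cons, Finset.sum_cons, th_add, ih]

theorem th_mul (A B : PowerSeries K) : th (A * B) = th A * B + A * th B := by
  ext n
  rw [coeff_th, map_add, PowerSeries.coeff_mul, PowerSeries.coeff_mul, PowerSeries.coeff_mul,
    Finset.mul_sum, ← Finset.sum_add_distrib]
  apply Finset.sum_congr rfl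
  rintro ⟨i, j⟩ hij
  rw [mem_antidiagonal] at hij
  simp only [coeff_th]
  rw [← hij]
  push_cast
  ring

theorem th_map (f : K →+* K') (A : PowerSeries K) :
    th (PowerSeries.map f A) = PowerSeries.map f (th A) := by
  ext n; simp

/-- coefficientwise derivation -/
noncomputable def dP [Algebra ℂ K] (δ : Derivation ℂ K K) (A : PowerSeries K) : PowerSeries K :=
  PowerSeries.mk fun n => δ (PowerSeries.coeff n A)

@[simp] theorem coeff_dP [Algebra ℂ K] (δ : Derivation ℂ K K) (n : ℕ) (A : PowerSeries K) :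
    PowerSeries.coeff n (dP δ A) = δ (PowerSeries.coeff n A) := PowerSeries.coeff_mk _ _

theorem dP_mul [Algebra ℂ K] (δ : Derivation ℂ K K) (A B : PowerSeries K) :
    dP δ (A * B) = dP δ A * B + A * dP δ B := by
  ext n
  rw [coeff_dP, map_add, PowerSeries.coeff_mul, PowerSeries.coeff_mul, PowerSeries.coeff_mul,
    map_sum, ← Finset.sum_add_distrib]
  apply Finset.sum_congr rfl
  rintro ⟨i, j⟩ _
  simp only [coeff_dP, Derivation.leibniz, smul_eq_mul]
  ring

theorem dP_sum [Algebra ℂ K] (δ : Derivation ℂ K K) {ι : Type*} (s : Finset ι)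
    (A : ι → PowerSeries K) : dP δ (∑ i ∈ s, A i) = ∑ i ∈ s, dP δ (A i) := by
  ext n; simp

theorem th_dP [Algebra ℂ K] (δ : Derivation ℂ K K) (A : PowerSeries K) :
    th (dP δ A) = dP δ (th A) := by
  ext n
  simp

end Theta

namespace JD

variable {r n : ℕ} {O : Type*} [CommRing O] [Algebra ℂ O] (J : JD r n O)

/-- uniqueness principle -/
theorem th_uniq {K : Type*} [CommRing K] [IsDomain K] [CharZero K] (S : O → PowerSeries K)
    (G : Fin n × Bool → PowerSeries K) (hG : ∀ κ, PowerSeries.coeff 0 (G κ) = 0)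
    (h0 : ∀ F, PowerSeries.coeff 0 (S F) = 0)
    (h : ∀ F, th (S F) = ∑ κ, G κ * S (J.dd κ F)) : ∀ F, S F = 0 := by
  have key : ∀ m, ∀ F, PowerSeries.coeff m (S F) = 0 := by
    intro m
    induction m using Nat.strong_induction_on with
    | _ m ih =>
      intro F
      rcases Nat.eq_zero_or_pos m with hm | hm
      · subst hm; exact h0 F
      · have h1 := congrArg (PowerSeries.coeff m) (h F)
        rw [coeff_th, map_sum, Finset.sum_eq_zero] at h1
        · have : (m : K) ≠ 0 := by exact_mod_cast hm.ne'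
          exact (mul_eq_zero.1 h1).resolve_left this
        · intro κ _
          rw [PowerSeries.coeff_mul]
          apply Finset.sum_eq_zero
          rintro ⟨i, j⟩ hij
          rw [mem_antidiagonal] at hij
          rcases Nat.eq_zero_or_pos i with hi | hi
          · subst hi; rw [hG, zero_mul]
          · simp only at hij ⊢
            rw [ih j (by omega), mul_zero]
  intro F
  ext m
  exact key m F

/-- the generating series -/
noncomputable def A (f : NS (Lt r) ℂ) (F : O) : PowerSeries ℂ :=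
  PowerSeries.mk fun k => J.pe (J.act k f F)

@[simp] theorem coeff_A (f : NS (Lt r) ℂ) (F : O) (k : ℕ) :
    PowerSeries.coeff k (J.A f F) = J.pe (J.act k f F) := PowerSeries.coeff_mk _ _

theorem A_add (f : NS (Lt r) ℂ) (F G : O) : J.A f (F + G) = J.A f F + J.A f G := by
  ext k; simp

theorem A_zero (f : NS (Lt r) ℂ) : J.A f 0 = 0 := by
  ext k; simp

theorem A_sum (f : NS (Lt r) ℂ) {ι : Type*} (s : Finset ι) (F : ι → O) :
    J.A f (∑ i ∈ s, F i) = ∑ i ∈ s, J.A f (F i) := by
  ext k; simp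

theorem A_zz_zero (f : NS (Lt r) ℂ) (κ : Fin n × Bool) :
    PowerSeries.coeff 0 (J.A f (J.zz κ)) = 0 := by
  rw [coeff_A, act_zero_apply, map_smul, pe_zz, smul_zero]

theorem th_A_aux {g l : NS (Lt r) ℂ} (hE : E g = g * l) (N : ℕ) (F : O) :
    PowerSeries.X ^ (N + 1) ∣ th (J.A g F) -
      ∑ j ∈ Finset.range (N + 1), PowerSeries.X ^ j * J.A g (J.act j l F) := by
  rw [PowerSeries.X_pow_dvd_iff]
  intro m hm
  rw [map_sub, coeff_th, coeff_A, map_sum, sub_eq_zero]
  have h1 : (m : ℂ) * J.pe (J.act m g F) = J.pe (J.act m (E g) F) := by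
    rw [act_E, LinearMap.smul_apply, map_smul, smul_eq_mul]
  rw [h1, hE, act_mul, map_sum, ← Finset.Nat.sum_antidiagonal_swap]
  simp only [Prod.fst_swap, Prod.snd_swap]
  rw [Finset.Nat.sum_antidiagonal_eq_sum_range_succ_mk]
  have h2 : Finset.range (m + 1) ⊆ Finset.range (N + 1) := by
    intro x hx
    rw [Finset.mem_range] at hx ⊢
    omega
  rw [← Finset.sum_subset h2]
  · apply Finset.sum_congr rfl
    intro j hj
    rw [Finset.mem_range] at hj
    rw [PowerSeries.coeff_X_pow_mul', if_pos (by omega), coeff_A]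
  · intro j _ hj
    rw [Finset.mem_range] at hj
    rw [PowerSeries.coeff_X_pow_mul', if_neg (by omega)]

theorem act_LieS_zero {l : NS (Lt r) ℂ} (hl : l ∈ LieS (Lt r) ℂ) : J.act 0 l = 0 := by
  ext F
  rw [act_zero_apply, LieS_nil hl, zero_smul]; rfl

/-- group elements act multiplicatively -/
theorem A_mul {g : NS (Lt r) ℂ} (hg : IsGrp g) (F G : O) :
    J.A g (F * G) = J.A g F * J.A g G := by
  obtain ⟨h0, l, hl, hE⟩ := hg
  have key : ∀ m, ∀ F G, PowerSeries.coeff m (J.A g (F * G) - J.A g F * J.A g G) = 0 := by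
    intro m
    induction m using Nat.strong_induction_on with
    | _ m ih =>
      intro F G
      rcases Nat.eq_zero_or_pos m with hm | hm
      · subst hm
        rw [map_sub, coeff_zero_mul', coeff_A, coeff_A,
          coeff_A, act_zero_apply, act_zero_apply, act_zero_apply, h0, one_smul, one_smul,
          one_smul, map_mul, sub_self]
      · have h1 := J.th_A_aux hE m (F * G)
        have h2 := (J.th_A_aux hE m F).mul_right (J.A g G)
        have h3 := (J.th_A_aux hE m G).mul_left (J.A g F)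
        have h4 := dvd_sub h1 (dvd_add h2 h3)
        have h5 := (PowerSeries.X_pow_dvd_iff.1 h4) m (by omega)
        have h6 : th (J.A g (F * G)) -
            ∑ j ∈ Finset.range (m + 1), PowerSeries.X ^ j * J.A g (J.act j l (F * G)) -
            ((th (J.A g F) - ∑ j ∈ Finset.range (m + 1), PowerSeries.X ^ j *
              J.A g (J.act j l F)) * J.A g G +
            J.A g F * (th (J.A g G) - ∑ j ∈ Finset.range (m + 1), PowerSeries.X ^ j *
              J.A g (J.act j l G))) =
            th (J.A g (F * G) - J.A g F * J.A g G) -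
            ∑ j ∈ Finset.range (m + 1), PowerSeries.X ^ j *
              ((J.A g (J.act j l F * G) - J.A g (J.act j l F) * J.A g G) +
              (J.A g (F * J.act j l G) - J.A g F * J.A g (J.act j l G))) := by
          have h7 : ∑ j ∈ Finset.range (m + 1), PowerSeries.X ^ j *
              ((J.A g (J.act j l F * G) - J.A g (J.act j l F) * J.A g G) +
              (J.A g (F * J.act j l G) - J.A g F * J.A g (J.act j l G))) =
              ∑ j ∈ Finset.range (m + 1), PowerSeries.X ^ j * J.A g (J.act j l (F * G)) -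
              (∑ j ∈ Finset.range (m + 1), PowerSeries.X ^ j * J.A g (J.act j l F)) * J.A g G -
              J.A g F * (∑ j ∈ Finset.range (m + 1), PowerSeries.X ^ j *
                J.A g (J.act j l G)) := by
            rw [Finset.sum_mul, Finset.mul_sum, ← Finset.sum_sub_distrib,
              ← Finset.sum_sub_distrib]
            apply Finset.sum_congr rfl
            intro j _
            rw [J.act_LieS_leibniz j hl, A_add]
            ring
          rw [h7, th_sub, th_mul]
          ring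
        rw [h6, map_sub, coeff_th, map_sum, Finset.sum_eq_zero, sub_zero] at h5
        · have : (m : ℂ) ≠ 0 := by exact_mod_cast hm.ne'
          exact (mul_eq_zero.1 h5).resolve_left this
        · intro j hj
          rw [Finset.mem_range] at hj
          rw [PowerSeries.coeff_X_pow_mul', if_pos (by omega)]
          rcases Nat.eq_zero_or_pos j with hj0 | hj0
          · subst hj0
            rw [J.act_LieS_zero hl]
            simp [A_zero]
          · rw [map_add, ih (m - j) (by omega), ih (m - j) (by omega), add_zero]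
  rw [← sub_eq_zero]
  ext m
  exact key m F G

/-- the chain rule for the action of group elements -/
theorem th_A {g : NS (Lt r) ℂ} (hg : IsGrp g) (F : O) :
    th (J.A g F) = ∑ κ, th (J.A g (J.zz κ)) * J.A g (J.dd κ F) := by
  obtain ⟨h0, l, hl, hE⟩ := id hg
  rw [← sub_eq_zero]
  ext N
  have h1 := J.th_A_aux hE N F
  have h2 : PowerSeries.X ^ (N + 1) ∣ ∑ κ, (th (J.A g (J.zz κ)) -
      ∑ j ∈ Finset.range (N + 1), PowerSeries.X ^ j * J.A g (J.act j l (J.zz κ))) *
        J.A g (J.dd κ F) := by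
    apply Finset.dvd_sum
    intro κ _
    exact (J.th_A_aux hE N (J.zz κ)).mul_right _
  have h3 := dvd_sub h1 h2
  have h4 : ∑ j ∈ Finset.range (N + 1), PowerSeries.X ^ j * J.A g (J.act j l F) =
      ∑ κ, (∑ j ∈ Finset.range (N + 1), PowerSeries.X ^ j * J.A g (J.act j l (J.zz κ))) *
        J.A g (J.dd κ F) := by
    simp_rw [Finset.sum_mul]
    rw [Finset.sum_comm]
    apply Finset.sum_congr rfl
    intro j _
    rw [J.act_LieS_eq j hl F, A_sum, Finset.mul_sum]
    apply Finset.sum_congr rfl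
    intro κ _
    rw [J.A_mul hg, mul_assoc]
  have h5 := (PowerSeries.X_pow_dvd_iff.1 h3) N (by omega)
  rw [h4] at h5
  simp_rw [sub_mul] at h5
  rw [Finset.sum_sub_distrib] at h5
  rw [map_sub]
  simp only [map_sub] at h5
  rw [map_zero]
  linear_combination h5

/-- the coordinates along a series -/
noncomputable def Ps (κ : Fin n × Bool) : PowerSeries (Pol (Lt r)) :=
  PowerSeries.mk fun j => if κ.2 then
    ∑ w ∈ Wn j, C (conj (J.pe (J.wd w (J.zc κ.1)))) * X (w, true)
  else ∑ w ∈ Wn j, C (J.pe (J.wd w (J.zc κ.1))) * X (w, false)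

theorem coeff_Ps_false (k : Fin n) (j : ℕ) : PowerSeries.coeff j (J.Ps (k, false)) =
    ∑ w ∈ Wn j, C (J.pe (J.wd w (J.zc k))) * X (w, false) := by
  rw [Ps, PowerSeries.coeff_mk]; rfl

theorem coeff_Ps_true (k : Fin n) (j : ℕ) : PowerSeries.coeff j (J.Ps (k, true)) =
    ∑ w ∈ Wn j, C (conj (J.pe (J.wd w (J.zc k)))) * X (w, true) := by
  rw [Ps, PowerSeries.coeff_mk]; rfl

theorem pe_act (j : ℕ) (f : NS (Lt r) ℂ) (F : O) :
    J.pe (J.act j f F) = ∑ w ∈ Wn j, f w * J.pe (J.wd w F) := by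
  rw [act_eq_sum, map_sum]
  apply Finset.sum_congr rfl
  intro w _
  rw [map_smul, smul_eq_mul]

theorem map_Ps_false (h : NS (Lt r) ℂ) (k : Fin n) :
    PowerSeries.map (ev h : Pol (Lt r) →+* ℂ) (J.Ps (k, false)) = J.A h (J.zc k) := by
  ext j
  rw [PowerSeries.coeff_map, coeff_Ps_false, coeff_A, pe_act, RingHom.coe_coe, map_sum]
  apply Finset.sum_congr rfl
  intro w _
  rw [map_mul, ev_C, ev_X_false, mul_comm]

theorem map_Ps_true (h : NS (Lt r) ℂ) (k : Fin n) :
    PowerSeries.map (ev h : Pol (Lt r) →+* ℂ) (J.Ps (k, true)) =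
      PowerSeries.map (starRingEnd ℂ) (J.A h (J.zc k)) := by
  ext j
  rw [PowerSeries.coeff_map, coeff_Ps_true, PowerSeries.coeff_map, coeff_A, pe_act,
    RingHom.coe_coe, map_sum, map_sum]
  apply Finset.sum_congr rfl
  intro w _
  rw [map_mul, ev_C, ev_X_true, map_mul, mul_comm]

theorem conj_A (f : NS (Lt r) ℂ) (F : O) :
    PowerSeries.map (starRingEnd ℂ) (J.A f F) = J.A (sg f) (J.co F) := by
  ext j
  rw [PowerSeries.coeff_map, coeff_A, coeff_A, ← co_act, J.pe_co]

/-- the polynomials attached to a function -/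
noncomputable def Rc : ℕ → O → Pol (Lt r)
  | 0, F => C (J.pe F)
  | (m + 1), F => C (1 / ((m : ℂ) + 1)) * ∑ κ : Fin n × Bool, ∑ i : Fin (m + 1),
      (((i : ℕ) + 1 : ℕ) : Pol (Lt r)) * PowerSeries.coeff ((i : ℕ) + 1) (J.Ps κ) *
        Rc (m - (i : ℕ)) (J.dd κ F)
termination_by m => m
decreasing_by omega

/-- generating series of the polynomials attached to a function -/
noncomputable def R (F : O) : PowerSeries (Pol (Lt r)) := PowerSeries.mk fun m => J.Rc m F

@[simp] theorem coeff_R (m : ℕ) (F : O) : PowerSeries.coeff m (J.R F) = J.Rc m F :=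
  PowerSeries.coeff_mk _ _

theorem Rc_zero (F : O) : J.Rc 0 F = C (J.pe F) := by rw [Rc]

theorem th_R (F : O) : th (J.R F) = ∑ κ, th (J.Ps κ) * J.R (J.dd κ F) := by
  ext1 m
  rw [coeff_th, coeff_R, map_sum]
  cases m with
  | zero =>
    rw [Nat.cast_zero, zero_mul]
    symm
    apply Finset.sum_eq_zero
    intro κ _
    rw [coeff_zero_mul', coeff_th, Nat.cast_zero,
      zero_mul, zero_mul]
  | succ m =>
    rw [Rc, ← mul_assoc]
    have h1 : ((m + 1 : ℕ) : Pol (Lt r)) * C (1 / ((m : ℂ) + 1)) = 1 := by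
      have h2 : ((m + 1 : ℕ) : Pol (Lt r)) = C ((m : ℂ) + 1) := by
        rw [map_add, map_natCast, map_one]; push_cast; rfl
      rw [h2, ← map_mul, mul_one_div_cancel, map_one]
      exact_mod_cast Nat.succ_ne_zero m
    rw [h1, one_mul]
    apply Finset.sum_congr rfl
    intro κ _
    rw [PowerSeries.coeff_mul, Finset.Nat.antidiagonal_succ, Finset.sum_cons, Finset.sum_map,
      coeff_th, Nat.cast_zero, zero_mul, zero_mul, zero_add]
    have h3 := Finset.Nat.sum_antidiagonal_eq_sum_range_succ_mk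
      (fun p : ℕ × ℕ => ((p.1 + 1 : ℕ) : Pol (Lt r)) * PowerSeries.coeff (p.1 + 1) (J.Ps κ) *
        J.Rc p.2 (J.dd κ F)) m
    rw [Finset.sum_range] at h3
    rw [← h3]
    apply Finset.sum_congr rfl
    rintro ⟨i, j⟩ _
    simp only [Function.Embedding.prodMap, Function.Embedding.coeFn_mk, Prod.map, coeff_th,
      coeff_R, Nat.succ_eq_add_one, Function.Embedding.refl_apply]

/-- values of the generating series -/
noncomputable def Rh (h : NS (Lt r) ℂ) (F : O) : PowerSeries ℂ :=
  PowerSeries.map (ev h : Pol (Lt r) →+* ℂ) (J.R F)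

@[simp] theorem coeff_Rh (h : NS (Lt r) ℂ) (m : ℕ) (F : O) :
    PowerSeries.coeff m (J.Rh h F) = ev h (J.Rc m F) := by
  rw [Rh, PowerSeries.coeff_map, coeff_R]; rfl

theorem th_Rh (h : NS (Lt r) ℂ) (F : O) : th (J.Rh h F) =
    ∑ κ, th (PowerSeries.map (ev h : Pol (Lt r) →+* ℂ) (J.Ps κ)) * J.Rh h (J.dd κ F) := by
  rw [Rh, th_map, th_R, map_sum]
  apply Finset.sum_congr rfl
  intro κ _
  rw [map_mul, th_map]; rfl

theorem coeff_zero_Rh (h : NS (Lt r) ℂ) (F : O) : PowerSeries.coeff 0 (J.Rh h F) = J.pe F := by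
  rw [coeff_Rh, Rc_zero, ev_C]

/-- values at real group elements -/
theorem Rh_real {g : NS (Lt r) ℂ} (hg : IsGrp g) (hr : sg g = g) (F : O) :
    J.Rh g F = J.A g F := by
  have hP : ∀ κ, PowerSeries.map (ev g : Pol (Lt r) →+* ℂ) (J.Ps κ) = J.A g (J.zz κ) := by
    rintro ⟨k, b⟩
    cases b
    · rw [map_Ps_false, zz_false]
    · rw [map_Ps_true, conj_A, hr, zz_true]
  have := J.th_uniq (fun F => J.Rh g F - J.A g F) (fun κ => th (J.A g (J.zz κ)))
    (fun κ => by rw [coeff_th, Nat.cast_zero, zero_mul])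
    (fun F => by
      rw [map_sub, coeff_zero_Rh, coeff_A, act_zero_apply, hg.nil, one_smul, sub_self])
    (fun F => by
      rw [th_sub, th_Rh, J.th_A hg, ← Finset.sum_sub_distrib]
      apply Finset.sum_congr rfl
      intro κ _
      rw [hP]; ring) F
  exact sub_eq_zero.1 this

theorem A_mul_QB {q : NS (Lt r) ℂ} (hq : QB q) (h : NS (Lt r) ℂ) (k : Fin n) :
    J.A (h * q) (J.zc k) = J.A h (J.zc k) := by
  ext j
  rw [coeff_A, coeff_A, act_mul_QB _ hq]

theorem Rh_mul_QB {q : NS (Lt r) ℂ} (hq : QB q) (h : NS (Lt r) ℂ) (F : O) :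
    J.Rh (h * q) F = J.Rh h F := by
  have hP : ∀ κ, PowerSeries.map (ev (h * q) : Pol (Lt r) →+* ℂ) (J.Ps κ) =
      PowerSeries.map (ev h : Pol (Lt r) →+* ℂ) (J.Ps κ) := by
    rintro ⟨k, b⟩
    cases b
    · rw [map_Ps_false, map_Ps_false, J.A_mul_QB hq]
    · rw [map_Ps_true, map_Ps_true, J.A_mul_QB hq]
  have := J.th_uniq (fun F => J.Rh (h * q) F - J.Rh h F)
    (fun κ => th (PowerSeries.map (ev h : Pol (Lt r) →+* ℂ) (J.Ps κ)))
    (fun κ => by rw [coeff_th, Nat.cast_zero, zero_mul])
    (fun F => by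
      rw [map_sub, coeff_zero_Rh, coeff_zero_Rh, sub_self])
    (fun F => by
      rw [th_sub, th_Rh, th_Rh, ← Finset.sum_sub_distrib]
      apply Finset.sum_congr rfl
      intro κ _
      rw [hP]; ring) F
  exact sub_eq_zero.1 this

theorem Rinv_Rc (m : ℕ) (F : O) : Rinv (J.Rc m F) := by
  intro h q hq
  have := congrArg (PowerSeries.coeff m) (J.Rh_mul_QB hq h F)
  rwa [coeff_Rh, coeff_Rh] at this

/-- derivations of the generating series -/
theorem dP_R (δ : Derivation ℂ (Pol (Lt r)) (Pol (Lt r))) (F : O) :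
    dP δ (J.R F) = ∑ κ, dP δ (J.Ps κ) * J.R (J.dd κ F) := by
  have hz : ∀ κ, PowerSeries.coeff 0 (J.Ps κ) = 0 := by
    rintro ⟨k, b⟩
    cases b
    · rw [coeff_Ps_false]
      simp [Wn, wd, J.pe_zc]
    · rw [coeff_Ps_true]
      simp [Wn, wd, J.pe_zc]
  have e1 : ∀ F, th (dP δ (J.R F)) = ∑ κ, th (dP δ (J.Ps κ)) * J.R (J.dd κ F) +
      ∑ κ, th (J.Ps κ) * dP δ (J.R (J.dd κ F)) := by
    intro F
    rw [th_dP, th_R, dP_sum, ← Finset.sum_add_distrib]
    apply Finset.sum_congr rfl
    intro κ _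
    rw [dP_mul, th_dP]
  have e2 : ∀ F, th (∑ κ, dP δ (J.Ps κ) * J.R (J.dd κ F)) =
      ∑ κ, th (dP δ (J.Ps κ)) * J.R (J.dd κ F) +
      ∑ κ', th (J.Ps κ') * ∑ κ, dP δ (J.Ps κ) * J.R (J.dd κ (J.dd κ' F)) := by
    intro F
    have e3 : ∑ κ', th (J.Ps κ') * ∑ κ, dP δ (J.Ps κ) * J.R (J.dd κ (J.dd κ' F)) =
        ∑ κ, dP δ (J.Ps κ) * ∑ κ', th (J.Ps κ') * J.R (J.dd κ' (J.dd κ F)) := by
      have e4 : ∀ κ', th (J.Ps κ') * ∑ κ, dP δ (J.Ps κ) * J.R (J.dd κ (J.dd κ' F)) =
          ∑ κ, th (J.Ps κ') * (dP δ (J.Ps κ) * J.R (J.dd κ (J.dd κ' F))) :=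
        fun κ' => Finset.mul_sum _ _ _
      have e5 : ∀ κ, dP δ (J.Ps κ) * ∑ κ', th (J.Ps κ') * J.R (J.dd κ' (J.dd κ F)) =
          ∑ κ', dP δ (J.Ps κ) * (th (J.Ps κ') * J.R (J.dd κ' (J.dd κ F))) :=
        fun κ => Finset.mul_sum _ _ _
      rw [Finset.sum_congr rfl (fun κ' _ => e4 κ'), Finset.sum_congr rfl (fun κ _ => e5 κ),
        Finset.sum_comm]
      apply Finset.sum_congr rfl
      intro κ _
      apply Finset.sum_congr rfl
      intro κ' _
      rw [J.dd_comm κ' κ, mul_left_comm]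
    rw [e3, th_sum, ← Finset.sum_add_distrib]
    apply Finset.sum_congr rfl
    intro κ _
    rw [th_mul, th_R]
  have := J.th_uniq (fun F => dP δ (J.R F) - ∑ κ, dP δ (J.Ps κ) * J.R (J.dd κ F))
    (fun κ => th (J.Ps κ))
    (fun κ => by rw [coeff_th, Nat.cast_zero, zero_mul])
    (fun F => by
      rw [map_sub, coeff_dP, coeff_R, Rc_zero, derivation_C, map_sum, Finset.sum_eq_zero,
        sub_zero]
      intro κ _
      rw [coeff_zero_mul', coeff_dP, hz, map_zero, zero_mul])
    (fun F => by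
      rw [th_sub, e1, e2, add_sub_add_left_eq_sub, ← Finset.sum_sub_distrib]
      apply Finset.sum_congr rfl
      intro κ _
      rw [mul_sub]) F
  exact sub_eq_zero.1 this

end JD

end Pool.Agent.Lib.MP_d7cc7c_an
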