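import Pool.Agent.Lib.MP_d7cc7c_an.Jets2

/-!
# Jets: derivatives, and the algebraic core of the theorem
-/

set_option linter.unusedSectionVars false

namespace Pool.Agent.Lib.MP_d7cc7c_an

open NS MvPolynomial ComplexConjugate
open Finset.HasAntidiagonal

namespace JD

variable {r n : ℕ} {O : Type*} [CommRing O] [Algebra ℂ O] (J : JD r n O)

theorem sum_fin_bool {M : Type*} [AddCommMonoid M] (f : Fin n × Bool → M) :
    ∑ κ, f κ = ∑ k, f (k, true) + ∑ k, f (k, false) := by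
  rw [Fintype.sum_prod_type, ← Finset.sum_add_distrib]
  apply Finset.sum_congr rfl
  intro k _
  rw [Fintype.sum_bool]

theorem dv_Ps_false (u : NS (Lt r) ℂ) (k : Fin n) (j : ℕ) :
    dv (cst u) (PowerSeries.coeff j (J.Ps (k, false))) =
      C (∑ w ∈ Wn j, u w * J.pe (J.wd w (J.zc k))) := by
  rw [coeff_Ps_false, map_sum, map_sum]
  apply Finset.sum_congr rfl
  intro w _
  rw [Derivation.leibniz, dv_C, dv_X_false, cst_apply, smul_zero, add_zero, smul_eq_mul, ← map_mul,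
    mul_comm]

theorem dv_Ps_true (u : NS (Lt r) ℂ) (k : Fin n) (j : ℕ) :
    dv (cst u) (PowerSeries.coeff j (J.Ps (k, true))) = 0 := by
  rw [coeff_Ps_true, map_sum]
  apply Finset.sum_eq_zero
  intro w _
  rw [Derivation.leibniz, dv_C, dv_X_true, smul_zero, smul_zero, add_zero]

theorem dvb_Ps_true (u : NS (Lt r) ℂ) (k : Fin n) (j : ℕ) :
    dvb (cst (cc u)) (PowerSeries.coeff j (J.Ps (k, true))) =
      C (conj (∑ w ∈ Wn j, u w * J.pe (J.wd w (J.zc k)))) := by
  rw [coeff_Ps_true, map_sum, map_sum, map_sum]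
  apply Finset.sum_congr rfl
  intro w _
  rw [Derivation.leibniz, dvb_C, dvb_X_true, cst_apply, smul_zero, add_zero, smul_eq_mul, cc_apply,
    map_mul (starRingEnd ℂ), map_mul C, mul_comm]

theorem dvb_Ps_false (u : NS (Lt r) ℂ) (k : Fin n) (j : ℕ) :
    dvb (cst (cc u)) (PowerSeries.coeff j (J.Ps (k, false))) = 0 := by
  rw [coeff_Ps_false, map_sum]
  apply Finset.sum_eq_zero
  intro w _
  rw [Derivation.leibniz, dvb_C, dvb_X_false, smul_zero, smul_zero, add_zero]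

/-- the first derivative as a series of polynomials -/
theorem dP_dv_R (u : NS (Lt r) ℂ) (F : O) : dP (dv (cst u)) (J.R F) =
    ∑ k, PowerSeries.map C (J.A u (J.zc k)) * J.R (J.dd (k, false) F) := by
  rw [dP_R, sum_fin_bool, Finset.sum_eq_zero, zero_add]
  · apply Finset.sum_congr rfl
    intro k _
    congr 1
    ext1 j
    rw [coeff_dP, dv_Ps_false, PowerSeries.coeff_map, coeff_A, pe_act]
  · intro k _
    have : dP (dv (cst u)) (J.Ps (k, true)) = 0 := by
      ext1 j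
      rw [coeff_dP, dv_Ps_true]; simp
    rw [this, zero_mul]

theorem dP_dvb_R (u : NS (Lt r) ℂ) (F : O) : dP (dvb (cst (cc u))) (J.R F) =
    ∑ k, PowerSeries.map C (PowerSeries.map (starRingEnd ℂ) (J.A u (J.zc k))) *
      J.R (J.dd (k, true) F) := by
  rw [dP_R, sum_fin_bool, add_comm, Finset.sum_eq_zero, zero_add]
  · apply Finset.sum_congr rfl
    intro k _
    congr 1
    ext1 j
    rw [coeff_dP, dvb_Ps_true, PowerSeries.coeff_map, PowerSeries.coeff_map, coeff_A, pe_act]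
  · intro k _
    have : dP (dvb (cst (cc u))) (J.Ps (k, false)) = 0 := by
      ext1 j
      rw [coeff_dP, dvb_Ps_false]; simp
    rw [this, zero_mul]

theorem map_ev_C (h : NS (Lt r) ℂ) (A : PowerSeries ℂ) :
    PowerSeries.map (ev h : Pol (Lt r) →+* ℂ) (PowerSeries.map C A) = A := by
  ext j
  simp

theorem D1_Rc (h u : NS (Lt r) ℂ) (F : O) (m : ℕ) : D1 (J.Rc m F) h u =
    PowerSeries.coeff m (∑ k, J.A u (J.zc k) * J.Rh h (J.dd (k, false) F)) := by
  have h1 : D1 (J.Rc m F) h u =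
      PowerSeries.coeff m (PowerSeries.map (ev h : Pol (Lt r) →+* ℂ) (dP (dv (cst u)) (J.R F))) := by
    rw [PowerSeries.coeff_map, coeff_dP, coeff_R]; rfl
  rw [h1, dP_dv_R, map_sum]
  congr 1
  apply Finset.sum_congr rfl
  intro k _
  rw [map_mul, map_ev_C]; rfl

theorem D1b_Rc (h u : NS (Lt r) ℂ) (F : O) (m : ℕ) : D1b (J.Rc m F) h u =
    PowerSeries.coeff m (∑ k, PowerSeries.map (starRingEnd ℂ) (J.A u (J.zc k)) *
      J.Rh h (J.dd (k, true) F)) := by
  have h1 : D1b (J.Rc m F) h u =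
      PowerSeries.coeff m (PowerSeries.map (ev h : Pol (Lt r) →+* ℂ)
        (dP (dvb (cst (cc u))) (J.R F))) := by
    rw [PowerSeries.coeff_map, coeff_dP, coeff_R]; rfl
  rw [h1, dP_dvb_R, map_sum]
  congr 1
  apply Finset.sum_congr rfl
  intro k _
  rw [map_mul, map_ev_C]; rfl

theorem Lev_Rc (h u v : NS (Lt r) ℂ) (F : O) (m : ℕ) : Lev (J.Rc m F) h u v =
    PowerSeries.coeff m (∑ k, ∑ l, J.A u (J.zc k) *
      PowerSeries.map (starRingEnd ℂ) (J.A v (J.zc l)) *
      J.Rh h (J.dd (l, true) (J.dd (k, false) F))) := by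
  have h1 : Lev (J.Rc m F) h u v =
      PowerSeries.coeff m (PowerSeries.map (ev h : Pol (Lt r) →+* ℂ)
        (dP (dvb (cst (cc v))) (dP (dv (cst u)) (J.R F)))) := by
    rw [PowerSeries.coeff_map, coeff_dP, coeff_dP, coeff_R]; rfl
  rw [h1, dP_dv_R, dP_sum, map_sum]
  congr 1
  apply Finset.sum_congr rfl
  intro k _
  have h2 : dP (dvb (cst (cc v))) (PowerSeries.map C (J.A u (J.zc k))) = 0 := by
    ext1 j
    rw [coeff_dP, PowerSeries.coeff_map, dvb_C]; simp
  rw [dP_mul, h2, zero_mul, zero_add, dP_dvb_R, map_mul, map_ev_C, map_sum, Finset.mul_sum]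
  apply Finset.sum_congr rfl
  intro l _
  rw [map_mul, map_ev_C, mul_assoc]; rfl

theorem Rh_one (F : O) : J.Rh 1 F = PowerSeries.C (J.pe F) := by
  rw [J.Rh_real isGrp_one (map_one _)]
  ext j
  rw [coeff_A, PowerSeries.coeff_C]
  cases j with
  | zero => rw [act_one_zero]; simp
  | succ j => rw [act_one_succ]; simp

theorem D1_one (u : NS (Lt r) ℂ) (F : O) (m : ℕ) : D1 (J.Rc m F) 1 u =
    ∑ k, J.pe (J.act m u (J.zc k)) * J.pe (J.dd (k, false) F) := by
  rw [D1_Rc, map_sum]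
  apply Finset.sum_congr rfl
  intro k _
  rw [Rh_one, PowerSeries.coeff_mul_C, coeff_A]

theorem D1b_one (u : NS (Lt r) ℂ) (F : O) (m : ℕ) : D1b (J.Rc m F) 1 u =
    ∑ k, conj (J.pe (J.act m u (J.zc k))) * J.pe (J.dd (k, true) F) := by
  rw [D1b_Rc, map_sum]
  apply Finset.sum_congr rfl
  intro k _
  rw [Rh_one, PowerSeries.coeff_mul_C, PowerSeries.coeff_map, coeff_A]

theorem A_mul_letter (g : NS (Lt r) ℂ) (x : Lt r) (F : O) :
    J.A (g * letter x) F = PowerSeries.X * J.A g (J.D x F) := by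
  ext j
  cases j with
  | zero =>
    rw [coeff_A, act_zero_apply, mul_nil, letter_nil, mul_zero, zero_smul, coeff_zero_mul']
    simp
  | succ j =>
    rw [coeff_A, act_mul_letter, PowerSeries.coeff_succ_X_mul, coeff_A]

/-- Levi form coefficients -/
def lam (i j : Fin r) (F : O) : O :=
  ∑ k, ∑ l, J.cf i k * J.co (J.cf j l) * J.dd (l, true) (J.dd (k, false) F)

theorem Lev_real {g : NS (Lt r) ℂ} (hg : IsGrp g) (hr : sg g = g) (i j : Fin r) (F : O) (m : ℕ) :
    Lev (J.Rc m F) g (g * letter (i, false)) (g * letter (j, false)) =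
      PowerSeries.coeff m (PowerSeries.X * (PowerSeries.X * J.A g (J.lam i j F))) := by
  rw [Lev_Rc]
  congr 1
  rw [lam, A_sum, Finset.mul_sum, Finset.mul_sum]
  apply Finset.sum_congr rfl
  intro k _
  rw [A_sum, Finset.mul_sum, Finset.mul_sum]
  apply Finset.sum_congr rfl
  intro l _
  rw [A_mul_letter, A_mul_letter, D_zc_false, D_zc_false, map_mul, PowerSeries.map_X, conj_A, hr,
    J.Rh_real hg hr, J.A_mul hg, J.A_mul hg]
  ring

theorem Lev_real_succ {g : NS (Lt r) ℂ} (hg : IsGrp g) (hr : sg g = g) (i j : Fin r) (F : O)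
    (m : ℕ) : Lev (J.Rc (m + 2) F) g (g * letter (i, false)) (g * letter (j, false)) =
      ∑ w ∈ Wn m, J.pe (J.wd w (J.lam i j F)) * g w := by
  rw [J.Lev_real hg hr, PowerSeries.coeff_succ_X_mul, PowerSeries.coeff_succ_X_mul, coeff_A,
    pe_act]
  apply Finset.sum_congr rfl
  intro w _
  rw [mul_comm]

theorem Lev_real_low {g : NS (Lt r) ℂ} (hg : IsGrp g) (hr : sg g = g) (i j : Fin r) (F : O)
    {m : ℕ} (hm : m < 2) :
    Lev (J.Rc m F) g (g * letter (i, false)) (g * letter (j, false)) = 0 := by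
  rw [J.Lev_real hg hr]
  interval_cases m
  · rw [coeff_zero_mul']; simp
  · rw [PowerSeries.coeff_succ_X_mul, coeff_zero_mul']; simp

section Core

variable (ρ : O)

/-- vanishing of the polynomials up to order `m` -/
def VV (m : ℕ) : Prop := ∀ j ≤ m, VanG (J.Rc j ρ)

/-- vanishing of the commutator conditions up to order `m` -/
def TT (m : ℕ) : Prop := ∀ j ≤ m, ∀ Z ∈ (lie j : Submodule ℂ (NS (Lt r) ℂ)),
  ∑ k, J.pe (J.act j Z (J.zc k)) * J.pe (J.dd (k, false) ρ) = 0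

/-- vanishing of the Levi form conditions up to order `m` -/
def CC (m : ℕ) : Prop := ∀ (i j : Fin r) (w : List (Lt r)), w.length + 2 ≤ m →
  J.pe (J.wd w (J.lam i j ρ)) = 0

variable {ρ}

theorem TT_of_VV {m : ℕ} (h : J.VV ρ m) : J.TT ρ m := by
  intro j hj Z hZ
  rw [← D1_one]
  have := (h j hj).D1_eq isGrp_one (mem_LieS_of_lie hZ)
  rwa [one_mul] at this

theorem CC_of_VV {m : ℕ} (h : J.VV ρ m) : J.CC ρ m := by
  intro i j w hw
  have h1 := functional_disc (Wn w.length) (fun w => J.pe (J.wd w (J.lam i j ρ))) (by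
    intro q k φ hd
    have hg : IsGrp (NS.map (eL (-1)) k) := hd.hg.map _
    have hr := hd.real _ conj_neg_one
    rw [← J.Lev_real_succ hg hr]
    exact (h _ hw).Lev hg (mem_LieS_of_lie (letter_mem_lie _))
      (mem_LieS_of_lie (letter_mem_lie _)))
  exact h1 w (mem_Wn.2 rfl)

theorem ev_Rc_real (htan : ∀ w, J.pe (J.wd w ρ) = 0) {g : NS (Lt r) ℂ} (hg : IsGrp g)
    (hr : sg g = g) (m : ℕ) : ev g (J.Rc m ρ) = 0 := by
  rw [← coeff_Rh, J.Rh_real hg hr, coeff_A, pe_act]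
  apply Finset.sum_eq_zero
  intro w _
  rw [htan, mul_zero]

theorem VV_of_TT (hreal : J.co ρ = ρ) (htan : ∀ w, J.pe (J.wd w ρ) = 0)
    (hpsh : ∀ m, (∀ j < m, VanG (J.Rc j ρ)) → PSH (J.Rc m ρ)) {m : ℕ} (h : J.TT ρ m) :
    J.VV ρ m := by
  intro j hj
  induction j using Nat.strong_induction_on with
  | _ j ih =>
    have hP := hpsh j (fun i hi => ih i hi (by omega))
    have h0 : ∀ g : NS (Lt r) ℂ, IsGrp g → sg g = g → ev g (J.Rc j ρ) = 0 :=
      fun g hg hr => J.ev_Rc_real htan hg hr j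
    have h1 : ∀ Z ∈ LieS (Lt r) ℂ, D1 (J.Rc j ρ) 1 Z = 0 ∧ D1b (J.Rc j ρ) 1 Z = 0 := by
      intro Z hZ
      have e1 : ∑ k, J.pe (J.act j Z (J.zc k)) * J.pe (J.dd (k, false) ρ) = 0 := by
        have := h j hj (comp j Z) (hZ j)
        rwa [act_comp_self] at this
      refine ⟨by rw [D1_one, e1], ?_⟩
      rw [D1b_one]
      have e2 := congrArg conj e1
      rw [map_sum, map_zero] at e2
      rw [← e2]
      apply Finset.sum_congr rfl
      intro k _
      rw [map_mul, ← J.pe_co (J.dd (k, false) ρ), J.co_dd, hreal]; rfl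
    apply vanG_of_real (J.Rinv_Rc j ρ) hP h0
    intro g hg hr i i'
    rcases Nat.lt_or_ge j 2 with hj2 | hj2
    · exact J.Lev_real_low hg hr i i' ρ hj2
    · obtain ⟨j', rfl⟩ : ∃ j', j = j' + 2 := ⟨j - 2, by omega⟩
      have h3 := levi_coeff (J.Rinv_Rc _ ρ) hP h0 h1 i i' (Wn j')
        (fun w => J.pe (J.wd w (J.lam i i' ρ)))
        (fun g hg hr => J.Lev_real_succ hg hr i i' ρ j')
      rw [J.Lev_real_succ hg hr]
      exact Finset.sum_eq_zero fun w hw => by rw [h3 w hw, zero_mul]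

theorem VV_of_CC (htan : ∀ w, J.pe (J.wd w ρ) = 0)
    (hpsh : ∀ m, (∀ j < m, VanG (J.Rc j ρ)) → PSH (J.Rc m ρ)) {m : ℕ} (h : J.CC ρ m) :
    J.VV ρ m := by
  intro j hj
  induction j using Nat.strong_induction_on with
  | _ j ih =>
    have hP := hpsh j (fun i hi => ih i hi (by omega))
    have h0 : ∀ g : NS (Lt r) ℂ, IsGrp g → sg g = g → ev g (J.Rc j ρ) = 0 :=
      fun g hg hr => J.ev_Rc_real htan hg hr j
    apply vanG_of_real (J.Rinv_Rc j ρ) hP h0
    intro g hg hr i i'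
    rcases Nat.lt_or_ge j 2 with hj2 | hj2
    · exact J.Lev_real_low hg hr i i' ρ hj2
    · obtain ⟨j', rfl⟩ : ∃ j', j = j' + 2 := ⟨j - 2, by omega⟩
      rw [J.Lev_real_succ hg hr]
      refine Finset.sum_eq_zero fun w hw => ?_
      rw [h i i' w (by rw [mem_Wn] at hw; omega), zero_mul]

/-- the algebraic core -/
theorem TT_iff_CC (hreal : J.co ρ = ρ) (htan : ∀ w, J.pe (J.wd w ρ) = 0)
    (hpsh : ∀ m, (∀ j < m, VanG (J.Rc j ρ)) → PSH (J.Rc m ρ)) (m : ℕ) :
    J.TT ρ m ↔ J.CC ρ m :=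
  ⟨fun h => J.CC_of_VV (J.VV_of_TT hreal htan hpsh h),
    fun h => J.TT_of_VV (J.VV_of_CC htan hpsh h)⟩

end Core

end JD

end Pool.Agent.Lib.MP_d7cc7c_an
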