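import Pool.Agent.Lib.MP_d7cc7c_an.Real

/-!
# Laurent polynomials: conjugation, negative and positive parts, evaluation
-/

set_option linter.unusedSectionVars false

namespace Pool.Agent.Lib.MP_d7cc7c_an

open ComplexConjugate

/-- Laurent polynomials -/
abbrev LP (R : Type*) [CommRing R] := LaurentPolynomial R

section Laurent

variable {R S : Type*} [CommRing R] [CommRing S]

/-- change of coefficients -/
noncomputable def mL (f : R →+* S) : LP R →+* LP S := AddMonoidAlgebra.mapRingHom ℤ f

@[simp] theorem mL_coeff (f : R →+* S) (x : LP R) (n : ℤ) : (mL f x).coeff n = f (x.coeff n) :=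
  AddMonoidAlgebra.coeff_mapRingHom f x n

theorem mL_C (f : R →+* S) (a : R) : mL f (LaurentPolynomial.C a) = LaurentPolynomial.C (f a) := by
  ext n
  simp only [mL_coeff, LaurentPolynomial.C_apply]
  split_ifs <;> simp

theorem mL_comp {T : Type*} [CommRing T] (f : R →+* S) (g : S →+* T) (x : LP R) :
    mL g (mL f x) = mL (g.comp f) x := by
  ext n; simp

theorem mL_id (x : LP R) : mL (RingHom.id R) x = x := by ext n; simp

/-- conjugation of Laurent polynomials -/
noncomputable def cL (c : R →+* R) : LP R →+* LP R :=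
  (LaurentPolynomial.invert (R := R) : LP R ≃ₐ[R] LP R).toRingEquiv.toRingHom.comp (mL c)

@[simp] theorem cL_coeff (c : R →+* R) (x : LP R) (n : ℤ) :
    (cL c x).coeff n = c (x.coeff (-n)) := by
  show (LaurentPolynomial.invert (mL c x)).coeff n = _
  rw [LaurentPolynomial.invert_apply, mL_coeff]

theorem cL_C (c : R →+* R) (a : R) : cL c (LaurentPolynomial.C a) = LaurentPolynomial.C (c a) := by
  ext n
  simp only [cL_coeff, LaurentPolynomial.C_apply, neg_eq_zero]
  split_ifs <;> simp

theorem cL_T (c : R →+* R) (n : ℤ) :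
    cL c (LaurentPolynomial.T n) = LaurentPolynomial.T (-n) := by
  ext m
  simp only [cL_coeff, LaurentPolynomial.T_apply]
  by_cases h : n = -m
  · rw [if_pos h, if_pos (by omega), map_one]
  · rw [if_neg h, if_neg (by omega), map_zero]

theorem cL_cL (c : R →+* R) (hc : ∀ a, c (c a) = a) (x : LP R) : cL c (cL c x) = x := by
  ext n; simp [hc]

/-- negative part -/
noncomputable def ngL : LP R →+ LP R where
  toFun x := AddMonoidAlgebra.ofCoeff (x.coeff.filter (fun n => n < 0))
  map_zero' := by
    ext n
    simp [Finsupp.filter_apply]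
  map_add' x y := by
    ext n
    simp only [Finsupp.filter_apply, AddMonoidAlgebra.coeff_add,
      Finsupp.add_apply]
    split_ifs <;> simp

@[simp] theorem ngL_coeff (x : LP R) (n : ℤ) :
    (ngL x).coeff n = if n < 0 then x.coeff n else 0 := by
  show (x.coeff.filter (fun n => n < 0)) n = _
  rw [Finsupp.filter_apply]

/-- positive part -/
noncomputable def psL : LP R →+ LP R where
  toFun x := AddMonoidAlgebra.ofCoeff (x.coeff.filter (fun n => 0 < n))
  map_zero' := by
    ext n
    simp [Finsupp.filter_apply]
  map_add' x y := by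
    ext n
    simp only [Finsupp.filter_apply, AddMonoidAlgebra.coeff_add,
      Finsupp.add_apply]
    split_ifs <;> simp

@[simp] theorem psL_coeff (x : LP R) (n : ℤ) :
    (psL x).coeff n = if 0 < n then x.coeff n else 0 := by
  show (x.coeff.filter (fun n => 0 < n)) n = _
  rw [Finsupp.filter_apply]

theorem decomp (x : LP R) : x = ngL x + LaurentPolynomial.C (x.coeff 0) + psL x := by
  ext n
  simp only [AddMonoidAlgebra.coeff_add, Finsupp.add_apply, ngL_coeff, psL_coeff,
    LaurentPolynomial.C_apply]
  rcases lt_trichotomy n 0 with h | h | h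
  · rw [if_pos h, if_neg (by omega), if_neg (by omega)]; simp
  · subst h; simp
  · rw [if_neg (by omega), if_neg (by omega), if_pos h]; simp

theorem ngL_ngL (x : LP R) : ngL (ngL x) = ngL x := by
  ext n; simp only [ngL_coeff]; split_ifs <;> rfl

theorem ngL_C (a : R) : ngL (LaurentPolynomial.C a) = 0 := by
  ext n
  simp only [ngL_coeff, LaurentPolynomial.C_apply, AddMonoidAlgebra.coeff_zero, Finsupp.coe_zero,
    Pi.zero_apply]
  split_ifs with h1 h2
  · omega
  · rfl
  · rfl

theorem ngL_cL_ngL (c : R →+* R) (x : LP R) : ngL (cL c (ngL x)) = 0 := by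
  ext n
  simp only [ngL_coeff, cL_coeff, AddMonoidAlgebra.coeff_zero, Finsupp.coe_zero, Pi.zero_apply]
  split_ifs with h1 h2
  · omega
  · simp
  · rfl

theorem psL_eq (c : R →+* R) (hc : ∀ a, c (c a) = a) (x : LP R) :
    psL x = cL c (ngL (cL c x)) := by
  ext n
  simp only [psL_coeff, ngL_coeff, cL_coeff, neg_neg]
  by_cases h : 0 < n
  · rw [if_pos h, if_pos (by omega), hc]
  · rw [if_neg h, if_neg (by omega), map_zero]

/-- evaluation at one -/
noncomputable def e1 : LP R →+* R := LaurentPolynomial.eval₂ (RingHom.id R) 1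

@[simp] theorem e1_C (a : R) : e1 (LaurentPolynomial.C a) = a := by
  rw [e1, LaurentPolynomial.eval₂_C]; rfl

@[simp] theorem e1_T (n : ℤ) : e1 (LaurentPolynomial.T n : LP R) = 1 := by
  rw [e1, LaurentPolynomial.eval₂_T]; simp

theorem e1_cL (c : R →+* R) (x : LP R) : e1 (cL c x) = c (e1 x) := by
  induction x using LaurentPolynomial.induction_on' with
  | add p q hp hq => rw [map_add, map_add, map_add, map_add, hp, hq]
  | C_mul_T n a =>
    rw [map_mul, map_mul, map_mul, cL_C, cL_T, e1_C, e1_T, e1_C, e1_T, mul_one, mul_one]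

theorem e1_mL (f : R →+* S) (x : LP R) : e1 (mL f x) = f (e1 x) := by
  induction x using LaurentPolynomial.induction_on' with
  | add p q hp hq => rw [map_add, map_add, map_add, map_add, hp, hq]
  | C_mul_T n a =>
    have hT : mL f (LaurentPolynomial.T n) = LaurentPolynomial.T n := by
      ext m
      simp only [mL_coeff, LaurentPolynomial.T_apply]
      split_ifs <;> simp
    rw [map_mul, map_mul, map_mul, mL_C, hT, e1_C, e1_T, e1_C, e1_T, mul_one, mul_one]

theorem mL_T (f : R →+* S) (n : ℤ) :
    mL f (LaurentPolynomial.T n) = LaurentPolynomial.T n := by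
  ext m
  simp only [mL_coeff, LaurentPolynomial.T_apply]
  split_ifs <;> simp

theorem mL_cL (f : R →+* S) (c : R →+* R) (d : S →+* S) (h : ∀ a, f (c a) = d (f a))
    (x : LP R) : mL f (cL c x) = cL d (mL f x) := by
  ext n; simp [h]

theorem toLaurent_coeff_nat (p : Polynomial R) (n : ℕ) :
    (Polynomial.toLaurent p).coeff (n : ℤ) = p.coeff n := by
  induction p using Polynomial.induction_on' with
  | add p q hp hq =>
    rw [map_add, AddMonoidAlgebra.coeff_add, Finsupp.add_apply, hp, hq, Polynomial.coeff_add]
  | monomial m a =>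
    rw [Polynomial.toLaurent_C_mul_T, ← LaurentPolynomial.single_eq_C_mul_T,
      Polynomial.coeff_monomial]
    show (Finsupp.single (m : ℤ) a) (n : ℤ) = _
    rw [Finsupp.single_apply]
    simp

theorem toLaurent_coeff_neg (p : Polynomial R) {n : ℤ} (hn : n < 0) :
    (Polynomial.toLaurent p).coeff n = 0 := by
  induction p using Polynomial.induction_on' with
  | add p q hp hq =>
    rw [map_add, AddMonoidAlgebra.coeff_add, Finsupp.add_apply, hp, hq, add_zero]
  | monomial m a =>
    rw [Polynomial.toLaurent_C_mul_T, ← LaurentPolynomial.single_eq_C_mul_T]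
    show (Finsupp.single (m : ℤ) a) n = _
    rw [Finsupp.single_apply, if_neg (by omega)]

theorem ngL_toLaurent (p : Polynomial R) : ngL (Polynomial.toLaurent p) = 0 := by
  ext n
  simp only [ngL_coeff, AddMonoidAlgebra.coeff_zero, Finsupp.coe_zero, Pi.zero_apply]
  split_ifs with h
  · exact toLaurent_coeff_neg p h
  · rfl

theorem exists_toLaurent {x : LP R} (hx : ngL x = 0) :
    ∃ p : Polynomial R, Polynomial.toLaurent p = x := by
  refine ⟨LaurentPolynomial.trunc x, ?_⟩
  have key : ∀ y : LP R, Polynomial.toLaurent (LaurentPolynomial.trunc y) = y - ngL y := by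
    intro y
    induction y using LaurentPolynomial.induction_on' with
    | add p q hp hq => rw [map_add, map_add, map_add, hp, hq]; abel
    | C_mul_T n a =>
      rw [LaurentPolynomial.trunc_C_mul_T]
      have hng : ngL (LaurentPolynomial.C a * LaurentPolynomial.T n : LP R) =
          if n < 0 then LaurentPolynomial.C a * LaurentPolynomial.T n else 0 := by
        rw [← LaurentPolynomial.single_eq_C_mul_T]
        ext m
        simp only [ngL_coeff]
        show (if m < 0 then (Finsupp.single n a) m else 0) = _
        by_cases hn : n < 0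
        · rw [if_pos hn]
          show _ = (Finsupp.single n a) m
          by_cases hm : m < 0
          · rw [if_pos hm]
          · rw [if_neg hm, Finsupp.single_apply, if_neg (by omega)]
        · rw [if_neg hn]
          show _ = (0 : R)
          by_cases hm : m < 0
          · rw [if_pos hm, Finsupp.single_apply, if_neg (by omega)]
          · rw [if_neg hm]
      rw [hng]
      split_ifs with h1 h2 h3
      · omega
      · rw [Polynomial.toLaurent_C_mul_T, sub_zero]
        congr 2; omega
      · rw [map_zero, sub_self]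
      · omega
  rw [key, hx, sub_zero]

theorem mL_toLaurent (f : R →+* S) (p : Polynomial R) :
    mL f (Polynomial.toLaurent p) = Polynomial.toLaurent (p.map f) := by
  ext n
  rw [mL_coeff]
  rcases lt_or_ge n 0 with h | h
  · rw [toLaurent_coeff_neg _ h, toLaurent_coeff_neg _ h, map_zero]
  · obtain ⟨m, rfl⟩ := Int.eq_ofNat_of_zero_le h
    rw [toLaurent_coeff_nat, toLaurent_coeff_nat, Polynomial.coeff_map]

/-- evaluation at a unit -/
noncomputable def eL (u : Rˣ) : LP R →+* R := LaurentPolynomial.eval₂ (RingHom.id R) u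

@[simp] theorem eL_C (u : Rˣ) (a : R) : eL u (LaurentPolynomial.C a) = a := by
  rw [eL, LaurentPolynomial.eval₂_C]; rfl

@[simp] theorem eL_T (u : Rˣ) (n : ℤ) : eL u (LaurentPolynomial.T n) = ((u ^ n : Rˣ) : R) := by
  rw [eL, LaurentPolynomial.eval₂_T]

theorem eL_toLaurent (u : Rˣ) (p : Polynomial R) : eL u (Polynomial.toLaurent p) = p.eval ↑u := by
  rw [eL, LaurentPolynomial.eval₂_toLaurent]; rfl

theorem eL_mL (f : R →+* S) (u : Rˣ) (v : Sˣ) (h : f u = v) (x : LP R) :
    eL v (mL f x) = f (eL u x) := by
  have huv : Units.map (f : R →* S) u = v := by ext; exact h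
  induction x using LaurentPolynomial.induction_on' with
  | add p q hp hq => rw [map_add, map_add, map_add, map_add, hp, hq]
  | C_mul_T n a =>
    rw [map_mul, map_mul, map_mul, mL_C, mL_T, eL_C, eL_T, eL_C, eL_T, map_mul, ← huv,
      ← map_zpow]
    rfl

theorem eL_cL (c : R →+* R) (u : Rˣ) (h : c u = ((u⁻¹ : Rˣ) : R)) (x : LP R) :
    eL u (cL c x) = c (eL u x) := by
  have huv : Units.map (c : R →* R) u = u⁻¹ := by ext; exact h
  induction x using LaurentPolynomial.induction_on' with
  | add p q hp hq => rw [map_add, map_add, map_add, map_add, hp, hq]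
  | C_mul_T n a =>
    rw [map_mul, map_mul, map_mul, cL_C, cL_T, eL_C, eL_T, eL_C, eL_T, map_mul]
    congr 1
    have h2 : c ((u ^ n : Rˣ) : R) = ((Units.map (c : R →* R) u ^ n : Rˣ) : R) := by
      rw [← map_zpow]; rfl
    rw [h2, huv, inv_zpow, zpow_neg]

end Laurent

end Pool.Agent.Lib.MP_d7cc7c_an
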