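import Pool.Agent.Lib.MP_d7cc7c_an.Exp

/-!
# Lie series and the group of exponentials of Lie series
-/

set_option linter.unusedSectionVars false

namespace Pool.Agent.Lib.MP_d7cc7c_an

namespace NS

open Finset.HasAntidiagonal

section LieDef

variable {X K K' : Type*} [CommRing K] [CommRing K'] [DecidableEq X]

/-- homogeneous Lie elements of degree `n` -/
def lie : ℕ → Submodule K (NS X K)
  | 0 => ⊥
  | 1 => Submodule.span K (Set.range letter)
  | (n + 2) => Submodule.span K
      {f | ∃ b, b ∈ lie (n + 1) ∧ ∃ x : X, f = b * letter x - letter x * b}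

theorem lie_zero : (lie 0 : Submodule K (NS X K)) = ⊥ := rfl

theorem letter_mem_lie (x : X) : (letter x : NS X K) ∈ lie 1 :=
  Submodule.subset_span ⟨x, rfl⟩

theorem bracket_letter_mem {n : ℕ} {b : NS X K} (hb : b ∈ lie (n + 1)) (x : X) :
    b * letter x - letter x * b ∈ lie (n + 2) :=
  Submodule.subset_span ⟨b, hb, x, rfl⟩

theorem comp_lie {n : ℕ} {f : NS X K} (hf : f ∈ lie n) : comp n f = f := by
  match n with
  | 0 =>
    rw [lie_zero, Submodule.mem_bot] at hf
    rw [hf, comp_zero]
  | 1 =>
    refine Submodule.span_induction ?_ ?_ ?_ ?_ hf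
    · rintro _ ⟨x, rfl⟩; exact comp_letter_one x
    · exact comp_zero 1
    · intro f g _ _ h1 h2; rw [comp_add, h1, h2]
    · intro c f _ h; rw [comp_smul, h]
  | (n + 2) =>
    refine Submodule.span_induction ?_ ?_ ?_ ?_ hf
    · rintro _ ⟨b, hb, x, rfl⟩
      have h1 := comp_lie hb
      have h2 : comp (n + 2) (b * letter x) = b * letter x := by
        rw [comp_mul, Finset.sum_eq_single (n + 1, 1)]
        · simp only [h1, comp_letter_one]
        · rintro ⟨i, j⟩ hij hne
          rw [mem_antidiagonal] at hij
          have : j ≠ 1 := by rintro rfl; apply hne; simp at hij; simp [hij]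
          simp only [comp_letter_ne this, mul_zero]
        · intro h; exact absurd (mem_antidiagonal.2 (by rfl)) h
      have h3 : comp (n + 2) (letter x * b) = letter x * b := by
        rw [comp_mul, Finset.sum_eq_single (1, n + 1)]
        · simp only [h1, comp_letter_one]
        · rintro ⟨i, j⟩ hij hne
          rw [mem_antidiagonal] at hij
          have : i ≠ 1 := by rintro rfl; apply hne; simp at hij; simp; omega
          simp only [comp_letter_ne this, zero_mul]
        · intro h; exact absurd (mem_antidiagonal.2 (by omega)) h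
      rw [comp_sub, h2, h3]
    · exact comp_zero _
    · intro f g _ _ h1 h2; rw [comp_add, h1, h2]
    · intro c f _ h; rw [comp_smul, h]

theorem ord_lie {n : ℕ} {f : NS X K} (hf : f ∈ lie n) : Ord n f := by
  rw [← comp_lie hf]; exact ord_comp n f

theorem E_lie {n : ℕ} {f : NS X K} (hf : f ∈ lie n) : E f = (n : K) • f := by
  rw [← comp_lie hf, E_comp]

theorem lie_nil {n : ℕ} {f : NS X K} (hf : f ∈ lie n) : f [] = 0 := by
  rcases Nat.eq_zero_or_pos n with h | h
  · subst h
    rw [lie_zero, Submodule.mem_bot] at hf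
    rw [hf]; rfl
  · exact ord_lie hf [] h

theorem comp_lie_ne {m n : ℕ} (h : m ≠ n) {f : NS X K} (hf : f ∈ lie n) : comp m f = 0 := by
  rw [← comp_lie hf, comp_comp_ne h]

/-- additive maps on coefficients preserve Lie elements -/
theorem amap_mem_lie_aux : ∀ (n : ℕ) {f : NS X K}, f ∈ (lie n : Submodule K (NS X K)) →
    ∀ φ : K →+ K', amap φ f ∈ (lie n : Submodule K' (NS X K'))
  | 0, f, hf, φ => by
    rw [lie_zero, Submodule.mem_bot] at hf
    rw [hf, amap_zero]; exact zero_mem _
  | 1, f, hf, φ => by
    revert φ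
    refine Submodule.span_induction
      (p := fun f _ => ∀ φ : K →+ K', amap φ f ∈ (lie 1 : Submodule K' (NS X K'))) ?_ ?_ ?_ ?_ hf
    · rintro _ ⟨x, rfl⟩ φ
      have h1 : amap φ (letter x : NS X K) = φ 1 • letter x := by
        have := amap_letter_mul φ x (1 : NS X K)
        rw [mul_one] at this
        rw [this]
        have h2 : amap φ (1 : NS X K) = φ 1 • (1 : NS X K') := by
          ext w; cases w <;> simp
        rw [h2, mul_smul_comm, mul_one]
      rw [h1]
      exact Submodule.smul_mem _ _ (letter_mem_lie x)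
    · intro φ; rw [amap_zero]; exact zero_mem _
    · intro f g _ _ h1 h2 φ; rw [amap_add]; exact add_mem (h1 φ) (h2 φ)
    · intro c f _ h φ
      have h2 : amap φ (c • f) = amap (φ.comp (AddMonoidHom.mulLeft c)) f := by
        ext w; simp
      rw [h2]; exact h _
  | (n + 2), f, hf, φ => by
    revert φ
    refine Submodule.span_induction
      (p := fun f _ => ∀ φ : K →+ K', amap φ f ∈ (lie (n + 2) : Submodule K' (NS X K')))
      ?_ ?_ ?_ ?_ hf
    · rintro _ ⟨b, hb, x, rfl⟩ φ
      rw [amap_sub, amap_mul_letter, amap_letter_mul]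
      exact bracket_letter_mem (amap_mem_lie_aux (n + 1) hb φ) x
    · intro φ; rw [amap_zero]; exact zero_mem _
    · intro f g _ _ h1 h2 φ; rw [amap_add]; exact add_mem (h1 φ) (h2 φ)
    · intro c f _ h φ
      have h2 : amap φ (c • f) = amap (φ.comp (AddMonoidHom.mulLeft c)) f := by
        ext w; simp
      rw [h2]; exact h _

theorem amap_mem_lie (φ : K →+ K') {n : ℕ} {f : NS X K} (hf : f ∈ lie n) :
    amap φ f ∈ (lie n : Submodule K' (NS X K')) := amap_mem_lie_aux n hf φ

theorem map_mem_lie (φ : K →+* K') {n : ℕ} {f : NS X K} (hf : f ∈ lie n) :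
    map φ f ∈ (lie n : Submodule K' (NS X K')) := amap_mem_lie φ.toAddMonoidHom hf

theorem pre_mem_lie (s : X → X) (hs : Function.Involutive s) : ∀ (n : ℕ) {f : NS X K},
    f ∈ (lie n : Submodule K (NS X K)) → pre s f ∈ (lie n : Submodule K (NS X K))
  | 0, f, hf => by
    rw [lie_zero, Submodule.mem_bot] at hf
    rw [hf, map_zero]; exact zero_mem _
  | 1, f, hf => by
    refine Submodule.span_induction ?_ ?_ ?_ ?_ hf
    · rintro _ ⟨x, rfl⟩
      rw [pre_letter s hs]; exact letter_mem_lie _
    · rw [map_zero]; exact zero_mem _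
    · intro f g _ _ h1 h2; rw [map_add]; exact add_mem h1 h2
    · intro c f _ h; rw [pre_smul]; exact Submodule.smul_mem _ _ h
  | (n + 2), f, hf => by
    refine Submodule.span_induction ?_ ?_ ?_ ?_ hf
    · rintro _ ⟨b, hb, x, rfl⟩
      rw [map_sub, map_mul, map_mul, pre_letter s hs]
      exact bracket_letter_mem (pre_mem_lie s hs (n + 1) hb) _
    · rw [map_zero]; exact zero_mem _
    · intro f g _ _ h1 h2; rw [map_add]; exact add_mem h1 h2
    · intro c f _ h; rw [pre_smul]; exact Submodule.smul_mem _ _ h

theorem lie_bracket_one {m : ℕ} {a b : NS X K} (ha : a ∈ lie (m + 1)) (hb : b ∈ lie 1) :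
    a * b - b * a ∈ lie (m + 2) := by
  refine Submodule.span_induction ?_ ?_ ?_ ?_ hb
  · rintro _ ⟨x, rfl⟩
    exact bracket_letter_mem ha x
  · rw [mul_zero, zero_mul, sub_zero]; exact zero_mem _
  · intro f g _ _ h1 h2
    have : a * (f + g) - (f + g) * a = (a * f - f * a) + (a * g - g * a) := by noncomm_ring
    rw [this]; exact add_mem h1 h2
  · intro c f _ h
    have : a * (c • f) - (c • f) * a = c • (a * f - f * a) := by
      rw [mul_smul_comm, smul_mul_assoc, smul_sub]
    rw [this]; exact Submodule.smul_mem _ _ h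

/-- Lie elements are closed under brackets -/
theorem lie_bracket_aux : ∀ (n : ℕ) {m : ℕ} {a b : NS X K}, a ∈ lie (m + 1) → b ∈ lie (n + 1) →
    a * b - b * a ∈ lie (m + n + 2)
  | 0, m, a, b, ha, hb => lie_bracket_one ha hb
  | (n + 1), m, a, b, ha, hb => by
    refine Submodule.span_induction ?_ ?_ ?_ ?_ hb
    · rintro _ ⟨c, hc, x, rfl⟩
      have h1 : a * c - c * a ∈ lie (m + n + 2) := lie_bracket_aux n ha hc
      have h2 : a * letter x - letter x * a ∈ lie (m + 2) := bracket_letter_mem ha x
      have h3 := bracket_letter_mem (n := m + n + 1) h1 x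
      have h4 := lie_bracket_aux n (m := m + 1) h2 hc
      have h5 : a * (c * letter x - letter x * c) - (c * letter x - letter x * c) * a =
        ((a * c - c * a) * letter x - letter x * (a * c - c * a)) -
        ((a * letter x - letter x * a) * c - c * (a * letter x - letter x * a)) := by
        noncomm_ring
      rw [h5]
      refine sub_mem ?_ ?_
      · have : m + (n + 1) + 2 = m + n + 1 + 2 := by ring
        rw [this]; exact h3
      · have : m + (n + 1) + 2 = m + 1 + n + 2 := by ring
        rw [this]; exact h4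
    · rw [mul_zero, zero_mul, sub_zero]; exact zero_mem _
    · intro f g _ _ h1 h2
      have : a * (f + g) - (f + g) * a = (a * f - f * a) + (a * g - g * a) := by noncomm_ring
      rw [this]; exact add_mem h1 h2
    · intro c f _ h
      have : a * (c • f) - (c • f) * a = c • (a * f - f * a) := by
        rw [mul_smul_comm, smul_mul_assoc, smul_sub]
      rw [this]; exact Submodule.smul_mem _ _ h

theorem lie_bracket {m n : ℕ} {a b : NS X K} (ha : a ∈ lie m) (hb : b ∈ lie n) :
    a * b - b * a ∈ lie (m + n) := by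
  match m, n with
  | 0, n =>
    rw [lie_zero, Submodule.mem_bot] at ha
    rw [ha, zero_mul, mul_zero, sub_zero]; exact zero_mem _
  | m, 0 =>
    rw [lie_zero, Submodule.mem_bot] at hb
    rw [hb, zero_mul, mul_zero, sub_zero]; exact zero_mem _
  | (m + 1), (n + 1) =>
    have := lie_bracket_aux n ha hb
    have h2 : m + 1 + (n + 1) = m + n + 2 := by ring
    rw [h2]; exact this

/-- Lie series -/
def LieS (X K : Type*) [CommRing K] [DecidableEq X] : Submodule K (NS X K) where
  carrier := {f | ∀ n, comp n f ∈ lie n}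
  add_mem' := fun {f g} hf hg n => by rw [comp_add]; exact add_mem (hf n) (hg n)
  zero_mem' := fun n => by rw [comp_zero]; exact zero_mem _
  smul_mem' := fun c f hf n => by rw [comp_smul]; exact Submodule.smul_mem _ _ (hf n)

theorem mem_LieS {f : NS X K} : f ∈ LieS X K ↔ ∀ n, comp n f ∈ lie n := Iff.rfl

theorem LieS_comp {f : NS X K} (hf : f ∈ LieS X K) (n : ℕ) : comp n f ∈ lie n := hf n

theorem mem_LieS_of_lie {n : ℕ} {f : NS X K} (hf : f ∈ lie n) : f ∈ LieS X K := by
  intro m
  by_cases h : m = n
  · subst h; rw [comp_lie hf]; exact hf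
  · rw [comp_lie_ne h hf]; exact zero_mem _

theorem LieS_comp_zero {f : NS X K} (hf : f ∈ LieS X K) : comp 0 f = 0 := by
  have := hf 0
  rwa [lie_zero, Submodule.mem_bot] at this

theorem LieS_nil {f : NS X K} (hf : f ∈ LieS X K) : f [] = 0 := by
  have := congrArg (fun g : NS X K => g []) (LieS_comp_zero hf)
  simpa [comp_apply] using this

theorem trun_mem_LieS {f : NS X K} (hf : f ∈ LieS X K) (n : ℕ) : trun n f ∈ LieS X K := by
  rw [trun_eq_sum]
  exact sum_mem fun i _ => mem_LieS_of_lie (hf i)

theorem amap_mem_LieS (φ : K →+ K') {f : NS X K} (hf : f ∈ LieS X K) :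
    amap φ f ∈ LieS X K' := fun n => by
  rw [comp_amap]; exact amap_mem_lie φ (hf n)

theorem map_mem_LieS (φ : K →+* K') {f : NS X K} (hf : f ∈ LieS X K) :
    map φ f ∈ LieS X K' := fun n => by
  rw [comp_map]; exact map_mem_lie φ (hf n)

theorem pre_mem_LieS (s : X → X) (hs : Function.Involutive s) {f : NS X K} (hf : f ∈ LieS X K) :
    pre s f ∈ LieS X K := fun n => by
  rw [comp_pre]; exact pre_mem_lie s hs n (hf n)

theorem dil_mem_LieS (t : K) {f : NS X K} (hf : f ∈ LieS X K) : dil t f ∈ LieS X K := fun n => by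
  rw [comp_dil]; exact Submodule.smul_mem _ _ (hf n)

theorem comp_bracket (n : ℕ) (f g : NS X K) : comp n (f * g - g * f) =
    ∑ p ∈ antidiagonal n, (comp p.1 f * comp p.2 g - comp p.2 g * comp p.1 f) := by
  rw [comp_sub, comp_mul, comp_mul, Finset.sum_sub_distrib]
  congr 1
  exact (Finset.Nat.sum_antidiagonal_swap (f := fun p : ℕ × ℕ => comp p.1 g * comp p.2 f)).symm

theorem LieS_bracket {f g : NS X K} (hf : f ∈ LieS X K) (hg : g ∈ LieS X K) :
    f * g - g * f ∈ LieS X K := fun n => by
  rw [comp_bracket]
  refine sum_mem ?_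
  rintro ⟨i, j⟩ hij
  rw [mem_antidiagonal] at hij
  subst hij
  exact lie_bracket (hf i) (hg j)

theorem comp_congr {n : ℕ} {f g : NS X K} (h : Agr n f g) : comp n f = comp n g := by
  ext w
  rw [comp_apply, comp_apply]
  split_ifs with h1
  · exact h w (le_of_eq h1)
  · rfl

/-- the group -/
def IsGrp (g : NS X K) : Prop := g [] = 1 ∧ ∃ l ∈ LieS X K, E g = g * l

theorem IsGrp.nil {g : NS X K} (h : IsGrp g) : g [] = 1 := h.1

theorem isGrp_one : IsGrp (1 : NS X K) :=
  ⟨rfl, 0, zero_mem _, by rw [E_one, mul_zero]⟩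

theorem IsGrp.map (φ : K →+* K') {g : NS X K} (h : IsGrp g) : IsGrp (map φ g) := by
  obtain ⟨h0, l, hl, he⟩ := h
  exact ⟨by simp [h0], NS.map φ l, map_mem_LieS φ hl, by rw [E_map, he, map_mul]⟩

theorem IsGrp.pre (s : X → X) (hs : Function.Involutive s) {g : NS X K} (h : IsGrp g) :
    IsGrp (pre s g) := by
  obtain ⟨h0, l, hl, he⟩ := h
  exact ⟨by simp [h0], NS.pre s l, pre_mem_LieS s hs hl, by rw [E_pre, he, map_mul]⟩

theorem IsGrp.dil (t : K) {g : NS X K} (h : IsGrp g) : IsGrp (dil t g) := by
  obtain ⟨h0, l, hl, he⟩ := h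
  exact ⟨by simp [h0], NS.dil t l, dil_mem_LieS t hl, by rw [E_dil, he, map_mul]⟩

end LieDef

section Group

variable {X K K' : Type*} [CommRing K] [CommRing K'] [DecidableEq X] [Algebra ℚ K] [Algebra ℚ K']

theorem lie_of_natCast_smul {n c : ℕ} (hc : c ≠ 0) {f : NS X K} (h : (c : K) • f ∈ lie n) :
    f ∈ lie n := by
  have h1 : f = (algebraMap ℚ K (1 / c)) • ((c : K) • f) := by
    rw [smul_smul]
    have : algebraMap ℚ K (1 / c) * (c : K) = 1 := by
      rw [← map_natCast (algebraMap ℚ K) c, ← map_mul, one_div, inv_mul_cancel₀ (by exact_mod_cast hc),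
        map_one]
    rw [this, one_smul]
  rw [h1]
  exact Submodule.smul_mem _ _ h

theorem isGrp_nexp {n : ℕ} {b : NS X K} (hb : b ∈ lie n) : IsGrp (nexp b) :=
  ⟨nexp_nil b, (n : K) • b, Submodule.smul_mem _ _ (mem_LieS_of_lie hb),
    E_nexp (lie_nil hb) (E_lie hb)⟩

/-- conjugation preserves Lie series -/
theorem conj_mem_aux {g l : NS X K} (hg : g [] = 1) (hl : l ∈ LieS X K) (he : E g = g * l) :
    ∀ (k : ℕ) {m : ℕ} {b : NS X K}, b ∈ lie m → comp (m + k) (g * b * inv g) ∈ lie (m + k) := by
  intro k
  induction k using Nat.strong_induction_on with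
  | _ k ih =>
    intro m b hb
    rcases Nat.eq_zero_or_pos k with hk | hk
    · subst hk
      have h1 : Agr m (g * b * inv g) b := by
        rw [agr_iff_ord]
        have : g * b * inv g - b = (g - 1) * b * inv g + b * (inv g - 1) := by noncomm_ring
        rw [this]
        refine Ord.add ?_ ?_
        · refine Ord.mul_right ?_ _
          rw [add_comm]
          exact (ord_one_iff.2 (by simp [hg])).mul (ord_lie hb)
        · exact (ord_lie hb).mul (ord_one_iff.2 (by simp [inv_nil hg]))
      rw [add_zero, comp_congr h1, comp_lie hb]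
      exact hb
    · have h1 : E (g * b * inv g) = g * (l * b - b * l) * inv g + (m : K) • (g * b * inv g) := by
        rw [E_mul, E_mul, E_inv hg, he, E_lie hb, mul_smul_comm, ← smul_mul_assoc]
        have h2 : inv g * (g * l) = l := inv_mul_cancel_left' hg l
        rw [h2, add_mul]
        simp only [smul_mul_assoc]
        noncomm_ring
      have h2 := congrArg (comp (m + k)) h1
      rw [comp_E, comp_add, comp_smul] at h2
      have h3 : (k : K) • comp (m + k) (g * b * inv g) =
          comp (m + k) (g * (l * b - b * l) * inv g) := by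
        rw [Nat.cast_add, add_smul, add_comm ((m : K) • _)] at h2
        exact add_right_cancel h2
      refine lie_of_natCast_smul (c := k) (by omega) ?_
      rw [h3]
      have h4 : Agr (m + k) (g * (l * b - b * l) * inv g)
          (g * (trun k l * b - b * trun k l) * inv g) := by
        have h5 : Ord (k + 1) (l - trun k l) := by
          have := agr_iff_ord.1 (agr_trun k l)
          intro w hw
          have h6 := this w hw
          simp only [sub_app] at h6 ⊢
          rw [← neg_sub, h6, neg_zero]
        rw [agr_iff_ord]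
        have h7 : g * (l * b - b * l) * inv g - g * (trun k l * b - b * trun k l) * inv g =
          g * ((l - trun k l) * b) * inv g - g * (b * (l - trun k l)) * inv g := by noncomm_ring
        rw [h7]
        refine Ord.sub ?_ ?_
        · refine Ord.mul_right (Ord.mul_left _ ?_) _
          have := h5.mul (ord_lie hb)
          exact this.mono (by omega)
        · refine Ord.mul_right (Ord.mul_left _ ?_) _
          have := (ord_lie hb).mul h5
          exact this.mono (by omega)
      rw [comp_congr h4]
      have h8 : g * (trun k l * b - b * trun k l) * inv g =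
          ∑ j ∈ Finset.range (k + 1), g * (comp j l * b - b * comp j l) * inv g := by
        rw [trun_eq_sum, Finset.sum_mul, Finset.mul_sum, ← Finset.sum_sub_distrib, Finset.mul_sum,
          Finset.sum_mul]
      rw [h8, comp_sum]
      refine sum_mem ?_
      intro j hj
      rw [Finset.mem_range] at hj
      rcases Nat.eq_zero_or_pos j with hj0 | hj0
      · subst hj0
        rw [LieS_comp_zero hl, zero_mul, mul_zero, sub_zero, mul_zero, zero_mul, comp_zero]
        exact zero_mem _
      · have h9 : comp j l * b - b * comp j l ∈ lie (j + m) := lie_bracket (hl j) hb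
        have h10 := ih (k - j) (by omega) h9
        have h11 : j + m + (k - j) = m + k := by omega
        rw [h11] at h10
        exact h10

theorem conj_mem_LieS {g b : NS X K} (hg : IsGrp g) (hb : b ∈ LieS X K) :
    g * b * inv g ∈ LieS X K := by
  obtain ⟨h0, l, hl, he⟩ := hg
  intro n
  have h1 : Agr n (g * b * inv g) (g * trun n b * inv g) :=
    ((Agr.refl n g).mul (agr_trun n b).symm).mul (Agr.refl n _)
  rw [comp_congr h1, trun_eq_sum, Finset.mul_sum, Finset.sum_mul, comp_sum]
  refine sum_mem ?_
  intro i hi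
  rw [Finset.mem_range] at hi
  have := conj_mem_aux h0 hl he (n - i) (hb i)
  have h2 : i + (n - i) = n := by omega
  rwa [h2] at this

theorem IsGrp.inv {g : NS X K} (h : IsGrp g) : IsGrp (inv g) := by
  obtain ⟨h0, l, hl, he⟩ := id h
  refine ⟨inv_nil h0, - (g * l * NS.inv g), neg_mem (conj_mem_LieS h hl), ?_⟩
  rw [E_inv h0, he, mul_neg]
  have h2 : NS.inv g * (g * l) = l := inv_mul_cancel_left' h0 l
  have h3 : NS.inv g * (g * l * NS.inv g) = l * NS.inv g := by
    rw [mul_assoc g l, inv_mul_cancel_left' h0]
  rw [h2, h3]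

theorem conj_mem_LieS' {g b : NS X K} (hg : IsGrp g) (hb : b ∈ LieS X K) :
    inv g * b * g ∈ LieS X K := by
  have := conj_mem_LieS hg.inv hb
  rwa [inv_inv' hg.nil] at this

theorem IsGrp.mul {g h : NS X K} (hg : IsGrp g) (hh : IsGrp h) : IsGrp (g * h) := by
  obtain ⟨h0, l, hl, he⟩ := id hg
  obtain ⟨h0', l', hl', he'⟩ := id hh
  refine ⟨by simp [h0, h0'], NS.inv h * l * h + l', add_mem (conj_mem_LieS' hh hl) hl', ?_⟩
  rw [E_mul, he, he', mul_add]
  have : g * h * (NS.inv h * l * h) = g * l * h := by
    calc g * h * (NS.inv h * l * h) = g * (h * NS.inv h) * l * h := by noncomm_ring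
      _ = _ := by rw [mul_inv h0', mul_one]
  rw [this, mul_assoc g h]

/-- leading terms of group elements are Lie elements -/
theorem comp_mem_lie_of_ord {g : NS X K} (hg : IsGrp g) {s : ℕ} (hs : 0 < s)
    (h : Ord s (g - 1)) : comp s g ∈ lie s := by
  obtain ⟨h0, l, hl, he⟩ := hg
  refine lie_of_natCast_smul (c := s) (by omega) ?_
  rw [← comp_E, he]
  have h1 : Agr s (g * l) l := by
    rw [agr_iff_ord]
    have : g * l - l = (g - 1) * l := by noncomm_ring
    rw [this]
    exact h.mul (ord_one_iff.2 (LieS_nil hl))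
  rw [comp_congr h1]
  exact hl s

/-- logarithmic derivatives are Lie series -/
theorem logDeriv_mem_LieS (d : K →+ K) (hd : ∀ a b, d (a * b) = d a * b + a * d b) {g : NS X K}
    (hg : IsGrp g) : inv g * amap d g ∈ LieS X K := by
  obtain ⟨h0, l, hl, he⟩ := hg
  have hleib : ∀ f f' : NS X K, amap d (f * f') = amap d f * f' + f * amap d f' := by
    intro f f'
    have := amap_mul_twisted (RingHom.id K) (RingHom.id K) d (by simpa using hd) f f'
    exact this
  set y := inv g * amap d g with hy
  have h1 : amap d g = g * y := by rw [hy, mul_inv_cancel_left' h0]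
  have h2 : E y = y * l - l * y + amap d l := by
    have h3 : E (amap d g) = amap d (E g) := E_amap d g
    rw [he, hleib, h1, E_mul, he] at h3
    have h4 : g * E y = g * (y * l - l * y + amap d l) := by
      have : g * E y = (g * l * y + g * E y) - g * l * y := by abel
      rw [this, h3]; noncomm_ring
    have h5 := congrArg (fun z => inv g * z) h4
    simpa [inv_mul_cancel_left' h0] using h5
  have hd1 : d 1 = 0 := by
    have := hd 1 1
    simpa using this
  have hy0 : y [] = 0 := by
    rw [hy, mul_nil, inv_nil h0, one_mul, amap_apply, h0, hd1]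
  intro n
  induction n using Nat.strong_induction_on with
  | _ n ih =>
    rcases Nat.eq_zero_or_pos n with hn | hn
    · subst hn
      have : comp 0 y = 0 := by
        apply comp_eq_zero_of_ord (ord_one_iff.2 hy0)
        omega
      rw [this]; exact zero_mem _
    · refine lie_of_natCast_smul (c := n) (by omega) ?_
      rw [← comp_E, h2, comp_add]
      refine add_mem ?_ (amap_mem_LieS d hl n)
      rw [comp_bracket]
      refine sum_mem ?_
      rintro ⟨i, j⟩ hij
      rw [mem_antidiagonal] at hij
      simp only at hij ⊢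
      rcases Nat.eq_zero_or_pos j with hj | hj
      · subst hj
        rw [LieS_comp_zero hl, zero_mul, mul_zero, sub_zero]
        exact zero_mem _
      · subst hij
        exact lie_bracket (ih i (by omega)) (hl j)

end Group

end NS

end Pool.Agent.Lib.MP_d7cc7c_an
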