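import Pool.Agent.Lib.MP_d7cc7c_an.Real

/-!
# Homogeneous polynomials and their translates
-/

set_option linter.unusedSectionVars false

namespace Pool.Agent.Lib.MP_d7cc7c_an

open NS MvPolynomial ComplexConjugate ComplexOrder

variable {r : ℕ}

/-- homogeneity of weight `m` -/
def Hom (m : ℕ) (p : Pol (Lt r)) : Prop :=
  ∀ (h : NS (Lt r) ℂ) (t : ℝ), 0 < t → ev (dil (t : ℂ) h) p = (t : ℂ) ^ m * ev h p

/-- right invariance -/
def Rinv (p : Pol (Lt r)) : Prop := ∀ h q : NS (Lt r) ℂ, QB q → ev (h * q) p = ev h p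

/-- left invariance -/
def Linv (p : Pol (Lt r)) : Prop :=
  ∀ g h : NS (Lt r) ℂ, IsGrp g → sg g = g → IsGrp h → ev (g * h) p = ev h p

/-- invariance under the filtration -/
def Dinv (s : ℕ) (p : Pol (Lt r)) : Prop :=
  ∀ k h : NS (Lt r) ℂ, IsGrp k → Dn s k → IsGrp h → ev (k * h) p = ev h p

/-- the class of polynomials in the Liouville theorem -/
structure Cls (m : ℕ) (p : Pol (Lt r)) : Prop where
  hom : Hom m p
  rinv : Rinv p
  linv : Linv p
  psh : PSH p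

theorem continuousAt_dil (h : NS (Lt r) ℂ) (p : Pol (Lt r)) (t : ℝ) :
    ContinuousAt (fun s : ℝ => ev (dil (s : ℂ) h) p) t := by
  apply continuousAt_ev
  intro w
  show ContinuousAt (fun s : ℝ => (s : ℂ) ^ w.length * h w) t
  exact ((Complex.continuous_ofReal.pow _).mul continuous_const).continuousAt

theorem Hom.one {m : ℕ} (hm : 0 < m) {p : Pol (Lt r)} (hp : Hom m p) : ev 1 p = 0 := by
  have h1 := hp 1 2 (by norm_num)
  rw [map_one] at h1
  have h2 : ((2 : ℝ) : ℂ) ^ m - 1 ≠ 0 := by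
    intro h3
    have h4 : ((2 : ℝ) : ℂ) ^ m = 1 := by linear_combination h3
    have h5 : (2 : ℝ) ^ m = 1 := by exact_mod_cast h4
    have h6 : (1 : ℝ) < 2 ^ m := one_lt_pow₀ (by norm_num) (by omega)
    linarith
  have h3 : (((2 : ℝ) : ℂ) ^ m - 1) * ev 1 p = 0 := by linear_combination -h1
  exact (mul_eq_zero.1 h3).resolve_left h2

theorem Hom.zero {p : Pol (Lt r)} (hp : Hom 0 p) {h : NS (Lt r) ℂ} (hh : h [] = 1) :
    ev h p = ev 1 p := by
  have h1 : Filter.Tendsto (fun s : ℝ => ev (dil (s : ℂ) h) p) (nhdsWithin 0 (Set.Ioi 0))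
      (nhds (ev (dil ((0 : ℝ) : ℂ) h) p)) :=
    (continuousAt_dil h p 0).continuousWithinAt
  rw [Complex.ofReal_zero, dil_zero_of hh] at h1
  have h2 : Filter.Tendsto (fun _ : ℝ => ev h p) (nhdsWithin 0 (Set.Ioi 0)) (nhds (ev 1 p)) := by
    refine h1.congr' ?_
    filter_upwards [self_mem_nhdsWithin] with t ht
    rw [hp h t ht]; simp
  exact tendsto_nhds_unique tendsto_const_nhds h2

theorem map_dil_C (h : NS (Lt r) ℂ) (t : ℂ) :
    NS.map ((Polynomial.aeval t : Polynomial ℂ →ₐ[ℂ] ℂ) : Polynomial ℂ →+* ℂ)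
      (dil Polynomial.X (NS.map Polynomial.C h)) = dil t h := by
  rw [dil_map]
  ext w
  simp

theorem Hom.congr {m : ℕ} {p : Pol (Lt r)} (hp : Hom m p) {h h' : NS (Lt r) ℂ}
    (hh : Agr m h h') : ev h p = ev h' p := by
  let A : NS (Lt r) ℂ → NS (Lt r) (Polynomial ℂ) :=
    fun h => dil Polynomial.X (NS.map Polynomial.C h)
  let Q : NS (Lt r) ℂ → Polynomial ℂ := fun h => evK (A h) (A (cc h)) p
  have h1 : ∀ (h : NS (Lt r) ℂ) (t : ℝ), (Q h).eval (t : ℂ) = ev (dil (t : ℂ) h) p := by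
    intro h t
    have h2 : (Q h).eval (t : ℂ) = (Polynomial.aeval (t : ℂ) : Polynomial ℂ →ₐ[ℂ] ℂ) (Q h) := by
      rw [Polynomial.aeval_def, Polynomial.eval₂_eq_eval_map]
      simp
    rw [h2]
    show (Polynomial.aeval (t : ℂ) : Polynomial ℂ →ₐ[ℂ] ℂ) (evK (A h) (A (cc h)) p) = _
    rw [evK_comp, map_dil_C, map_dil_C]
    have h3 : dil (t : ℂ) (cc h) = cc (dil (t : ℂ) h) := by ext w; simp
    rw [h3]; rfl
  have h2 : ∀ h : NS (Lt r) ℂ, Q h = Polynomial.C (ev h p) * Polynomial.X ^ m := by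
    intro h
    apply poly_eq_of_pos_real
    intro t ht
    rw [h1, hp h t ht, Polynomial.eval_mul, Polynomial.eval_C, Polynomial.eval_pow,
      Polynomial.eval_X, mul_comm]
  have h3 : Polynomial.X ^ (m + 1) ∣ Q h - Q h' := by
    rw [← Ideal.mem_span_singleton, ← Ideal.Quotient.eq_zero_iff_mem, map_sub, sub_eq_zero]
    let φ : Polynomial ℂ →ₐ[ℂ] (Polynomial ℂ ⧸
        Ideal.span {(Polynomial.X ^ (m + 1) : Polynomial ℂ)}) :=
      Ideal.Quotient.mkₐ ℂ (Ideal.span {(Polynomial.X ^ (m + 1) : Polynomial ℂ)})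
    have key : ∀ f f' : NS (Lt r) ℂ, Agr m f f' →
        NS.map (φ : Polynomial ℂ →+* (Polynomial ℂ ⧸
          Ideal.span {(Polynomial.X ^ (m + 1) : Polynomial ℂ)})) (A f) =
        NS.map (φ : Polynomial ℂ →+* (Polynomial ℂ ⧸
          Ideal.span {(Polynomial.X ^ (m + 1) : Polynomial ℂ)})) (A f') := by
      intro f f' hf
      ext w
      show φ (Polynomial.X ^ w.length * Polynomial.C (f w)) =
        φ (Polynomial.X ^ w.length * Polynomial.C (f' w))
      by_cases hw : w.length ≤ m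
      · rw [hf w hw]
      · have h0 : φ (Polynomial.X ^ w.length) = 0 := by
          apply Ideal.Quotient.eq_zero_iff_mem.2
          rw [Ideal.mem_span_singleton]
          exact pow_dvd_pow _ (by omega)
        rw [map_mul, map_mul, h0, zero_mul, zero_mul]
    have h4 : φ (Q h) = φ (Q h') := by
      show φ (evK (A h) (A (cc h)) p) = φ (evK (A h') (A (cc h')) p)
      rw [evK_comp, evK_comp, key h h' hh, key (cc h) (cc h') (fun w hw => by simp [hh w hw])]
    exact h4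
  rw [Polynomial.X_pow_dvd_iff] at h3
  have h4 := h3 m (Nat.lt_succ_self m)
  rw [h2, h2] at h4
  simpa [sub_eq_zero] using h4

theorem Hom.dinv {m : ℕ} {p : Pol (Lt r)} (hp : Hom m p) : Dinv (m + 1) p := by
  intro k h _ hk hh
  apply hp.congr
  rw [agr_iff_ord]
  have : k * h - h = (k - 1) * h := by noncomm_ring
  rw [this]
  exact Ord.mul_right hk h

theorem Dinv.mono {s s' : ℕ} {p : Pol (Lt r)} (hp : Dinv s p) (h : s ≤ s') : Dinv s' p :=
  fun k h' hk hk' hh => hp k h' hk (hk'.mono h) hh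

theorem nexp_smul_nil (t : ℂ) (a : NS (Lt r) ℂ) : nexp (t • a) [] = 1 := nexp_nil _

/-! ### inheritance of properties by coefficients -/

theorem Rinv.coef {p : Pol (Lt r)} (hp : Rinv p) (a : NS (Lt r) ℂ) (i : ℕ) : Rinv (pc a p i) := by
  intro h q hq
  have h1 : Ql (evl (h * q)) a p = Ql (evl h) a p := by
    apply poly_eq_of_real
    intro t
    rw [Ql_evl, Ql_evl, ← mul_assoc, hp _ q hq]
  have h2 := congrArg (fun Q => Polynomial.coeff Q i) h1
  simpa only [Ql_coeff, evl_apply] using h2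

theorem Linv.coef {p : Pol (Lt r)} (hp : Linv p) {s : ℕ} (hs : 0 < s) (hD : Dinv (s + 1) p)
    {a : NS (Lt r) ℂ} (ha : a ∈ lie s) (i : ℕ) : Linv (pc a p i) := by
  intro g h hg hgr hh
  have h1 : Ql (evl (g * h)) a p = Ql (evl h) a p := by
    apply poly_eq_of_real
    intro t
    rw [Ql_evl, Ql_evl]
    set u := nexp ((t : ℂ) • a) with hu
    have hug : IsGrp u := isGrp_nexp_smul ha _
    have huD : Dn s u := ord_nexp_sub_one hs ((ord_lie ha).smul _)
    have h2 : u * (g * h) = g * ((NS.inv g * u * g * NS.inv u) * (u * h)) := by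
      have e1 : NS.inv g * u * g * NS.inv u * (u * h) = NS.inv g * (u * (g * h)) := by
        rw [mul_assoc (NS.inv g * u * g), inv_mul_cancel_left' hug.nil]; noncomm_ring
      rw [e1, mul_inv_cancel_left' hg.nil]
    have hk : IsGrp (NS.inv g * u * g * NS.inv u) := ((hg.inv.mul hug).mul hg).mul hug.inv
    rw [h2, hp g _ hg hgr (hk.mul (hug.mul hh)), hD _ _ hk (huD.comm hs hg.nil) (hug.mul hh)]
  have h2 := congrArg (fun Q => Polynomial.coeff Q i) h1
  simpa only [Ql_coeff, evl_apply] using h2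

theorem Dinv.coef {p : Pol (Lt r)} {s : ℕ} (hD : Dinv s p)
    {n : ℕ} {a : NS (Lt r) ℂ} (ha : a ∈ lie n) (i : ℕ) : Dinv s (pc a p i) := by
  intro k h hk hkD hh
  have h1 : Ql (evl (k * h)) a p = Ql (evl h) a p := by
    apply poly_eq_of_real
    intro t
    rw [Ql_evl, Ql_evl]
    set u := nexp ((t : ℂ) • a) with hu
    have hug : IsGrp u := isGrp_nexp_smul ha _
    have h2 : u * (k * h) = (u * k * NS.inv u) * (u * h) := by
      rw [mul_assoc (u * k), inv_mul_cancel_left' hug.nil]; noncomm_ring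
    rw [h2, hD _ _ ((hug.mul hk).mul hug.inv) (hkD.conj hug.nil) (hug.mul hh)]
  have h2 := congrArg (fun Q => Polynomial.coeff Q i) h1
  simpa only [Ql_coeff, evl_apply] using h2

theorem Hom.coef_aux {m : ℕ} {p : Pol (Lt r)} (hp : Hom m p) {s : ℕ} {a : NS (Lt r) ℂ}
    (ha : a ∈ lie s) (i : ℕ) (h : NS (Lt r) ℂ) (t : ℝ) (ht : 0 < t) :
    (t : ℂ) ^ (i * s) * ev (dil (t : ℂ) h) (pc a p i) = (t : ℂ) ^ m * ev h (pc a p i) := by
  have h1 : (Ql (evl (dil (t : ℂ) h)) a p).comp (Polynomial.C ((t : ℂ) ^ s) * Polynomial.X) =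
      Polynomial.C ((t : ℂ) ^ m) * Ql (evl h) a p := by
    apply poly_eq_of_real
    intro T
    rw [Polynomial.eval_comp, Polynomial.eval_mul, Polynomial.eval_mul, Polynomial.eval_C,
      Polynomial.eval_C, Polynomial.eval_X]
    have e1 : (t : ℂ) ^ s * (T : ℂ) = ((t ^ s * T : ℝ) : ℂ) := by push_cast; rfl
    rw [e1, Ql_evl, Ql_evl]
    have e2 : nexp (((t ^ s * T : ℝ) : ℂ) • a) * dil (t : ℂ) h =
        dil (t : ℂ) (nexp ((T : ℂ) • a) * h) := by
      rw [map_mul, dil_nexp]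
      congr 2
      rw [← comp_lie (Submodule.smul_mem _ (T : ℂ) ha), dil_comp, comp_smul, comp_lie ha, smul_smul]
      push_cast; rfl
    rw [e2, hp _ t ht]
  have h2 := congrArg (fun Q => Polynomial.coeff Q i) h1
  simp only [Polynomial.comp_C_mul_X_coeff, Polynomial.coeff_C_mul, Ql_coeff, evl_apply] at h2
  rw [← h2, ← pow_mul, mul_comm s i]
  ring

theorem Hom.coef {m : ℕ} {p : Pol (Lt r)} (hp : Hom m p) {s : ℕ} {a : NS (Lt r) ℂ}
    (ha : a ∈ lie s) {i : ℕ} (hi : i * s ≤ m) : Hom (m - i * s) (pc a p i) := by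
  intro h t ht
  have h1 := hp.coef_aux ha i h t ht
  have h2 : (t : ℂ) ^ m = (t : ℂ) ^ (i * s) * (t : ℂ) ^ (m - i * s) := by
    rw [← pow_add]; congr 1; omega
  rw [h2, mul_assoc] at h1
  have h3 : (t : ℂ) ^ (i * s) ≠ 0 := pow_ne_zero _ (by exact_mod_cast ht.ne')
  exact mul_left_cancel₀ h3 h1

theorem Hom.coef_zero {m : ℕ} {p : Pol (Lt r)} (hp : Hom m p) {s : ℕ} {a : NS (Lt r) ℂ}
    (ha : a ∈ lie s) {i : ℕ} (hi : m < i * s) (h : NS (Lt r) ℂ) : ev h (pc a p i) = 0 := by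
  have h1 : ∀ t : ℝ, 0 < t → ev h (pc a p i) =
      (t : ℂ) ^ (i * s - m) * ev (dil (t : ℂ) h) (pc a p i) := by
    intro t ht
    have h1 := hp.coef_aux ha i h t ht
    have h2 : (t : ℂ) ^ (i * s) = (t : ℂ) ^ m * (t : ℂ) ^ (i * s - m) := by
      rw [← pow_add]; congr 1; omega
    rw [h2, mul_assoc] at h1
    have h3 : (t : ℂ) ^ m ≠ 0 := pow_ne_zero _ (by exact_mod_cast ht.ne')
    exact (mul_left_cancel₀ h3 h1).symm
  have h2 : ContinuousAt (fun t : ℝ => (t : ℂ) ^ (i * s - m) *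
      ev (dil (t : ℂ) h) (pc a p i)) 0 :=
    (Complex.continuous_ofReal.pow _).continuousAt.mul (continuousAt_dil h _ 0)
  have h3 : Filter.Tendsto (fun t : ℝ => (t : ℂ) ^ (i * s - m) *
      ev (dil (t : ℂ) h) (pc a p i)) (nhdsWithin 0 (Set.Ioi 0)) (nhds 0) := by
    have h4 := h2.continuousWithinAt (s := Set.Ioi 0)
    unfold ContinuousWithinAt at h4
    have h5 : i * s - m ≠ 0 := by omega
    simpa [h5] using h4
  have h4 : Filter.Tendsto (fun _ : ℝ => ev h (pc a p i))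
      (nhdsWithin 0 (Set.Ioi 0)) (nhds 0) := by
    refine h3.congr' ?_
    filter_upwards [self_mem_nhdsWithin] with t ht
    exact (h1 t ht).symm
  exact tendsto_nhds_unique tendsto_const_nhds h4

/-- leading coefficients are plurisubharmonic -/
theorem PSH.coef {p : Pol (Lt r)} (hp : PSH p) {s : ℕ} {a : NS (Lt r) ℂ} (ha : a ∈ lie s) {i : ℕ}
    (hi : ∀ j, i < j → ∀ h, IsGrp h → ∀ Z ∈ LieS (Lt r) ℂ,
      Lev (pc a p j) h (h * Z) (h * Z) = 0) :
    PSH (pc a p i) ∧ (Odd i → ∀ h, IsGrp h → ∀ Z ∈ LieS (Lt r) ℂ,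
      Lev (pc a p i) h (h * Z) (h * Z) = 0) := by
  have key : ∀ h, IsGrp h → ∀ Z ∈ LieS (Lt r) ℂ,
      0 ≤ Lev (pc a p i) h (h * Z) (h * Z) ∧
      (Odd i → Lev (pc a p i) h (h * Z) (h * Z) = 0) := by
    intro h hh Z hZ
    have h1 : (Ql (Levl h (h * Z) (h * Z)) a p).natDegree ≤ i := by
      rw [Polynomial.natDegree_le_iff_coeff_eq_zero]
      intro N hN
      rw [Ql_coeff, Levl_apply]
      exact hi N hN h hh Z hZ
    have h2 := poly_nonneg_lead h1 (by
      intro t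
      rw [Ql_Levl, ← mul_assoc]
      exact hp _ ((isGrp_nexp_smul ha _).mul hh) Z hZ)
    rw [Ql_coeff, Levl_apply] at h2
    exact h2
  exact ⟨fun h hh Z hZ => (key h hh Z hZ).1, fun ho h hh Z hZ => (key h hh Z hZ).2 ho⟩

/-! ### second derivatives -/

theorem Tz_real (Z : NS (Lt r) ℂ) : Tz Z = Rz Z + Rzb Z := rfl

theorem Tz_I (Z : NS (Lt r) ℂ) (p : Pol (Lt r)) :
    Tz (Complex.I • Z) p = C Complex.I * (Rz Z p - Rzb Z p) := by
  rw [Tz, Rz, Rzb, Derivation.add_apply]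
  have h1 : (cst (Complex.I • Z) * gen : NS (Lt r) (Pol (Lt r))) =
      (C Complex.I : Pol (Lt r)) • (cst Z * gen) := by
    rw [cst_smul, smul_mul_assoc]
  have h2 : (cst (cc (Complex.I • Z)) * genb : NS (Lt r) (Pol (Lt r))) =
      (C (-Complex.I) : Pol (Lt r)) • (cst (cc Z) * genb) := by
    rw [cc_smul, Complex.conj_I, cst_smul, smul_mul_assoc]
  rw [h1, h2, dv_smul, dvb_smul, Derivation.smul_apply, Derivation.smul_apply, smul_eq_mul,
    smul_eq_mul, C_neg]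
  ring

theorem sg_smul_real {Z : NS (Lt r) ℂ} (hZ : sg Z = Z) (t : ℝ) : sg ((t : ℂ) • Z) = (t : ℂ) • Z := by
  rw [sg_smul, hZ, Complex.conj_ofReal]

/-- infinitesimal left invariance -/
theorem Linv.vanTz {p : Pol (Lt r)} (hp : Linv p) {n : ℕ} {Z : NS (Lt r) ℂ} (hZ : Z ∈ lie n)
    (hr : sg Z = Z) : VanG (Tz Z p) := by
  intro h hh
  have h1 := hasDerivAt_Ql (lie_nil hZ) h p 0
  have h2 : (fun s : ℝ => (Ql (evl h) Z p).eval (s : ℂ)) = fun _ => ev h p := by
    funext s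
    rw [Ql_evl]
    apply hp _ _ (isGrp_nexp_smul hZ _) _ hh
    rw [sg_nexp, sg_smul_real hr]
  rw [h2] at h1
  have h3 := h1.unique (hasDerivAt_const 0 (ev h p))
  rw [Ql_evl, Complex.ofReal_zero, zero_smul, nexp_zero, one_mul] at h3
  exact h3

theorem VanG.vanTz {p : Pol (Lt r)} (hp : VanG p) {Z : NS (Lt r) ℂ} (hZ : Z ∈ LieS (Lt r) ℂ) :
    VanG (Tz Z p) := by
  intro h hh
  rw [Tz_real, Derivation.add_apply, map_add, hp.Rz hZ h hh, hp.Rzb hZ h hh, add_zero]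

theorem second_deriv {p : Pol (Lt r)} (hp : Linv p) {n : ℕ} {Z : NS (Lt r) ℂ} (hZ : Z ∈ lie n)
    (hr : sg Z = Z) {h : NS (Lt r) ℂ} (hh : IsGrp h) :
    ev h (pc (Complex.I • Z) p 2) = 2 * Lev p h (Z * h) (Z * h) := by
  have hZI : (Complex.I • Z) [] = 0 := by simp [lie_nil hZ]
  have h1 := pc_two hZI h p
  have h2 : VanG (Tz Z (Tz Z p)) := (hp.vanTz hZ hr).vanTz (mem_LieS_of_lie hZ)
  have h3 := h2 h hh
  have h4 : Tz (Complex.I • Z) (Tz (Complex.I • Z) p) + Tz Z (Tz Z p) =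
      C 4 * Rzb Z (Rz Z p) := by
    rw [Tz_I, Tz_I, Tz_real]
    have hC : (C Complex.I : Pol (Lt r)) * C Complex.I = C (-1) := by
      rw [← C_mul, Complex.I_mul_I]
    have e1 : ∀ D : Derivation ℂ (Pol (Lt r)) (Pol (Lt r)), ∀ q : Pol (Lt r),
        D (C Complex.I * q) = C Complex.I * D q := by
      intro D q
      rw [Derivation.leibniz, derivation_C, smul_zero, add_zero, smul_eq_mul]
    simp only [e1, map_sub, Derivation.add_apply, map_add]
    rw [Rzb_Rz_comm]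
    have hC4 : (C 4 : Pol (Lt r)) = 4 := by
      rw [show (4 : ℂ) = ((4 : ℕ) : ℂ) by norm_num, map_natCast]; norm_num
    have hCm : (C (-1) : Pol (Lt r)) = -1 := by rw [C_neg, C_1]
    rw [hC4]
    rw [hCm] at hC
    linear_combination (Rz Z (Rz Z p) - Rz Z (Rzb Z p) - (Rz Z (Rzb Z p) - Rzb Z (Rzb Z p))) * hC
  have h5 := congrArg (ev h) h4
  rw [map_add, h3, add_zero, map_mul, ev_C, ev_Rzb_Rz] at h5
  rw [h5] at h1
  linear_combination h1 / 2

/-- Taylor expansion along the one parameter group -/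
theorem Ql_taylor {a : NS (Lt r) ℂ} (ha : a [] = 0) (h : NS (Lt r) ℂ) (p : Pol (Lt r)) (t : ℝ) :
    Ql (evl (nexp ((t : ℂ) • a) * h)) a p = Polynomial.taylor (t : ℂ) (Ql (evl h) a p) := by
  apply poly_eq_of_real
  intro s
  rw [Polynomial.taylor_eval, ← Complex.ofReal_add, Ql_evl, Ql_evl, ← mul_assoc,
    nexp_smul_mul ha, ← Complex.ofReal_add]

/-- convexity -/
theorem convex_lead {p : Pol (Lt r)} (hp : Linv p) (hpsh : PSH p) {n : ℕ} {Z : NS (Lt r) ℂ}
    (hZ : Z ∈ lie n) (hr : sg Z = Z) {h : NS (Lt r) ℂ} (hh : IsGrp h) {d : ℕ} (hd : 2 ≤ d)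
    (hv : ∀ j, d < j → ev h (pc (Complex.I • Z) p j) = 0) :
    0 ≤ ev h (pc (Complex.I • Z) p d) ∧ (Odd d → ev h (pc (Complex.I • Z) p d) = 0) := by
  set a := Complex.I • Z with ha
  have haL : a ∈ lie n := Submodule.smul_mem _ _ hZ
  have ha0 : a [] = 0 := lie_nil haL
  set Q := Ql (evl h) a p with hQ
  have h1 : ∀ t : ℝ, 0 ≤ (Polynomial.hasseDeriv 2 Q).eval (t : ℂ) := by
    intro t
    have hg : IsGrp (nexp ((t : ℂ) • a) * h) := (isGrp_nexp_smul haL _).mul hh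
    have h2 := second_deriv hp hZ hr hg
    have h3 : ev (nexp ((t : ℂ) • a) * h) (pc a p 2) = (Polynomial.hasseDeriv 2 Q).eval (t : ℂ) := by
      have h4 := congrArg (fun P => Polynomial.coeff P 2) (Ql_taylor ha0 h p t)
      simp only [Ql_coeff, evl_apply, Polynomial.taylor_coeff] at h4
      exact h4
    rw [← h3, h2]
    exact mul_nonneg (by norm_num) (hpsh.left hg (mem_LieS_of_lie hZ))
  have hdeg : Q.natDegree ≤ d := by
    rw [Polynomial.natDegree_le_iff_coeff_eq_zero]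
    intro N hN
    rw [hQ, Ql_coeff, evl_apply]
    exact hv N hN
  have h2 : (Polynomial.hasseDeriv 2 Q).natDegree ≤ d - 2 :=
    (Polynomial.natDegree_hasseDeriv_le Q 2).trans (by omega)
  have h3 := poly_nonneg_lead h2 h1
  rw [Polynomial.hasseDeriv_coeff, hQ, Ql_coeff, evl_apply] at h3
  have h4 : d - 2 + 2 = d := by omega
  rw [h4] at h3
  have h5 : 0 < d.choose 2 := Nat.choose_pos hd
  have h6 : ((d.choose 2 : ℕ) : ℂ) ≠ 0 := by exact_mod_cast h5.ne'
  have h7 : (0 : ℂ) ≤ ((d.choose 2 : ℕ) : ℂ)⁻¹ := by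
    have h8 : (0 : ℝ) ≤ ((d.choose 2 : ℕ) : ℝ)⁻¹ := by positivity
    have h9 : (0 : ℂ) ≤ ((((d.choose 2 : ℕ) : ℝ)⁻¹ : ℝ) : ℂ) := by exact_mod_cast h8
    simpa using h9
  constructor
  · have := mul_nonneg h7 h3.1
    rwa [inv_mul_cancel_left₀ h6] at this
  · intro hodd
    have h8 : Odd (d - 2) := by
      obtain ⟨k, hk⟩ := hodd
      exact ⟨k - 1, by omega⟩
    exact (mul_eq_zero.1 (h3.2 h8)).resolve_left h6

/-- Euler's identity forces vanishing -/
theorem euler_zero {k : ℕ} (hk : 0 < k) {v : Pol (Lt r)} (hv : Hom k v)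
    (h1 : ∀ h, IsGrp h → ∀ Z ∈ LieS (Lt r) ℂ, D1 v h (h * Z) = 0 ∧ D1b v h (h * Z) = 0) :
    VanG v := by
  intro h hh
  obtain ⟨h0, l, hl, he⟩ := id hh
  have hc : HasDer (fun s : ℝ => dil (s : ℂ) h) (E h) 1 := by
    intro w
    show HasDerivAt (fun s : ℝ => (s : ℂ) ^ w.length * h w) ((w.length : ℂ) * h w) 1
    have h2 : HasDerivAt (fun s : ℝ => (s : ℂ)) 1 1 := Complex.ofRealCLM.hasDerivAt
    have h3 := (h2.pow w.length).mul_const (h w)
    refine HasDerivAt.congr_deriv h3 ?_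
    simp
  have h2 := hasDerivAt_ev v hc
  rw [Complex.ofReal_one, dil_one, he, (h1 h hh l hl).1, (h1 h hh l hl).2, add_zero] at h2
  have h3 : HasDerivAt (fun s : ℝ => (s : ℂ) ^ k * ev h v) ((k : ℂ) * ev h v) 1 := by
    have h2 : HasDerivAt (fun s : ℝ => (s : ℂ)) 1 1 := Complex.ofRealCLM.hasDerivAt
    have h3 := (h2.pow k).mul_const (ev h v)
    refine HasDerivAt.congr_deriv h3 ?_
    simp
  have h4 : HasDerivAt (fun s : ℝ => ev (dil (s : ℂ) h) v) ((k : ℂ) * ev h v) 1 := by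
    refine h3.congr_of_eventuallyEq ?_
    filter_upwards [lt_mem_nhds (zero_lt_one : (0 : ℝ) < 1)] with t ht
    exact hv h t ht
  have h5 := h4.unique h2
  have h6 : (k : ℂ) ≠ 0 := by exact_mod_cast hk.ne'
  exact (mul_eq_zero.1 h5).resolve_left h6

/-- Lemma B -/
theorem lemmaB {m : ℕ} {p : Pol (Lt r)} (hh : Hom m p) (hL : Linv p) (hP : PSH p) {n : ℕ}
    (hn : n < m) {Z : NS (Lt r) ℂ} (hZ : Z ∈ lie n) (hr : sg Z = Z)
    (h0 : ∀ h, IsGrp h → Lev p h (Z * h) (Z * h) = 0) :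
    VanG (Tz (Complex.I • Z) p) := by
  set a := Complex.I • Z with ha
  have haL : a ∈ lie n := Submodule.smul_mem _ _ hZ
  have ha0 : a [] = 0 := lie_nil haL
  have hF : VanG (Rz Z p + Rzb Z p) := hL.vanTz hZ hr
  have hnull : ∀ h, IsGrp h → ∀ Z' ∈ LieS (Lt r) ℂ, Lev p h (Z * h) (h * Z') = 0 ∧
      Lev p h (h * Z') (Z * h) = 0 := by
    intro h hg Z' hZ'
    have h1 := h0 h hg
    rw [left_eq_right hg] at h1 ⊢
    exact hP.null hg (conj_mem_LieS' hg (mem_LieS_of_lie hZ)) hZ' h1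
  have hpc : ∀ h, ev h (pc a p 1) = ev h (Tz a p) := fun h => pc_one ha0 h p
  have hhom : Hom (m - n) (Tz a p) := by
    have h1 := hh.coef haL (i := 1) (by omega)
    rw [one_mul] at h1
    intro h t ht
    rw [← hpc, ← hpc]
    exact h1 h t ht
  apply euler_zero (by omega) hhom
  intro h hg Z' hZ'
  constructor
  · -- holomorphic derivative: `Tz a p = - 2 I Rzb Z p` on the group
    have h1 : VanG (Tz a p - C (-2 * Complex.I) * Rzb Z p) := by
      intro h' hg'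
      have h2 := hF h' hg'
      rw [map_add] at h2
      rw [map_sub, ha, Tz_I, map_mul, map_mul, map_sub, ev_C, ev_C]
      linear_combination Complex.I * h2
    have h3 := h1.D1_eq hg hZ'
    rw [D1_sub, sub_eq_zero] at h3
    rw [h3]
    have h4 : (C (-2 * Complex.I) : Pol (Lt r)) * Rzb Z p = (-2 * Complex.I) • Rzb Z p :=
      C_mul'
    rw [h4, D1_smul, ← ev_Dz, ev_Dz_Rzb, (hnull h hg Z' hZ').2, mul_zero]
  · have h1 : VanG (Tz a p - C (2 * Complex.I) * Rz Z p) := by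
      intro h' hg'
      have h2 := hF h' hg'
      rw [map_add] at h2
      rw [map_sub, ha, Tz_I, map_mul, map_mul, map_sub, ev_C, ev_C]
      linear_combination (-Complex.I) * h2
    have h3 := h1.D1b_eq hg hZ'
    rw [D1b_sub, sub_eq_zero] at h3
    rw [h3]
    have h4 : (C (2 * Complex.I) : Pol (Lt r)) * Rz Z p = (2 * Complex.I) • Rz Z p :=
      C_mul'
    rw [h4, D1b_smul, ← ev_Dzb, ev_Dzb_Rz, (hnull h hg Z' hZ').1, mul_zero]

/-- invariance along the one parameter group -/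
theorem inv_of_Tz {p : Pol (Lt r)} {n : ℕ} {a : NS (Lt r) ℂ} (ha : a ∈ lie n)
    (hv : VanG (Tz a p)) {h : NS (Lt r) ℂ} (hh : IsGrp h) (t : ℝ) :
    ev (nexp ((t : ℂ) • a) * h) p = ev h p := by
  have h1 : Polynomial.derivative (Ql (evl h) a p) = 0 := by
    rw [derivative_Ql (lie_nil ha)]
    apply poly_eq_of_real
    intro s
    rw [Ql_evl, hv _ ((isGrp_nexp_smul ha _).mul hh)]
    simp
  have h2 := Polynomial.natDegree_eq_zero_of_derivative_eq_zero h1
  rw [Polynomial.natDegree_eq_zero] at h2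
  obtain ⟨c, hc⟩ := h2
  have h3 := Ql_evl a h p t
  have h4 := Ql_evl a h p 0
  rw [← hc, Polynomial.eval_C] at h3 h4
  rw [Complex.ofReal_zero, zero_smul, nexp_zero, one_mul] at h4
  rw [← h3, h4]

end Pool.Agent.Lib.MP_d7cc7c_an
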