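import Pool.Agent.Lib.MP_d7cc7c_an.Liou

/-!
# The Liouville theorem
-/

set_option linter.unusedSectionVars false

namespace Pool.Agent.Lib.MP_d7cc7c_an

open NS MvPolynomial ComplexConjugate ComplexOrder

variable {r : ℕ}

/-- invariance under `exp b` -/
def InvS (p : Pol (Lt r)) (b : NS (Lt r) ℂ) : Prop := ∀ h, IsGrp h → ev (nexp b * h) p = ev h p

theorem InvS.zero (p : Pol (Lt r)) : InvS p 0 := fun h _ => by rw [nexp_zero, one_mul]

/-- a group element whose leading term is `W` may be replaced by `exp W` -/
theorem invS_of_group {p : Pol (Lt r)} {s : ℕ} (hs : 0 < s) (hD : Dinv (s + 1) p)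
    {W K : NS (Lt r) ℂ} (hW : W ∈ lie s) (hK : IsGrp K) (hKW : Ord (s + 1) (K - 1 - W))
    (hinv : ∀ h, IsGrp h → ev (K * h) p = ev h p) : InvS p W := by
  intro h hh
  have hk := dn_nexp_neg_mul hs (ord_lie hW) hKW
  have hkg : IsGrp (nexp (-W) * K) := (isGrp_nexp (neg_mem hW)).mul hK
  set k := nexp (-W) * K with hkdef
  have h1 : nexp W * h = K * (NS.inv k * h) := by
    have h2 : K = nexp W * k := by
      rw [hkdef, ← mul_assoc, nexp_mul_neg (lie_nil hW), one_mul]
    calc nexp W * h = nexp W * (k * NS.inv k) * h := by rw [mul_inv hkg.nil, mul_one]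
      _ = (nexp W * k) * (NS.inv k * h) := by noncomm_ring
      _ = K * (NS.inv k * h) := by rw [← h2]
  rw [h1, hinv _ (hkg.inv.mul hh), hD _ _ hkg.inv (Dn.inv (by omega) hk) hh]

theorem InvS.add {p : Pol (Lt r)} {s : ℕ} (hs : 0 < s) (hD : Dinv (s + 1) p)
    {b b' : NS (Lt r) ℂ} (hb : b ∈ lie s) (hb' : b' ∈ lie s) (h1 : InvS p b) (h2 : InvS p b') :
    InvS p (b + b') := by
  apply invS_of_group hs hD (add_mem hb hb') ((isGrp_nexp hb).mul (isGrp_nexp hb'))
  · have e1 : nexp b * nexp b' - 1 - (b + b') = (nexp b - 1) * (nexp b' - 1) +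
        (nexp b - 1 - b) + (nexp b' - 1 - b') := by noncomm_ring
    rw [e1]
    refine Ord.add (Ord.add ?_ ?_) ?_
    · exact ((ord_nexp_sub_one hs (ord_lie hb)).mul (ord_nexp_sub_one hs (ord_lie hb'))).mono
        (by omega)
    · exact (ord_nexp_sub_one_sub hs (ord_lie hb)).mono (by omega)
    · exact (ord_nexp_sub_one_sub hs (ord_lie hb')).mono (by omega)
  · intro h hh
    rw [mul_assoc, h1 _ ((isGrp_nexp hb').mul hh), h2 _ hh]

theorem InvS.real {p : Pol (Lt r)} (hL : Linv p) {s : ℕ} {b : NS (Lt r) ℂ} (hb : b ∈ lie s)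
    (hr : sg b = b) : InvS p b := fun h hh => hL _ _ (isGrp_nexp hb) (by rw [sg_nexp, hr]) hh

theorem dinv_of_invS {p : Pol (Lt r)} {s : ℕ} (hs : 0 < s) (hD : Dinv (s + 1) p)
    (h : ∀ f ∈ (lie s : Submodule ℂ (NS (Lt r) ℂ)), InvS p f) : Dinv s p := by
  intro k h' hk hkD hh
  have hb : comp s k ∈ lie s := comp_mem_lie_of_ord hk hs hkD
  have h1 : Ord (s + 1) (k - 1 - comp s k) := by
    intro w hw
    rw [sub_app, comp_apply]
    by_cases hl : w.length = s
    · rw [if_pos hl]
      have : (1 : NS (Lt r) ℂ) w = 0 := by
        cases w with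
        | nil => simp at hl; omega
        | cons x w => rfl
      rw [sub_app, this]; ring
    · rw [if_neg hl, sub_zero]
      exact hkD w (by omega)
  have h2 := dn_nexp_neg_mul hs (ord_lie hb) h1
  have h3 : k * h' = nexp (comp s k) * ((nexp (-comp s k) * k) * h') := by
    calc k * h' = (nexp (comp s k) * nexp (-comp s k)) * k * h' := by
          rw [nexp_mul_neg (lie_nil hb), one_mul]
      _ = _ := by noncomm_ring
  have hg : IsGrp (nexp (-comp s k) * k) := (isGrp_nexp (neg_mem hb)).mul hk
  rw [h3, h _ hb _ (hg.mul hh), hD _ _ hg h2 hh]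

theorem dinv_of_I {p : Pol (Lt r)} (hL : Linv p) {s : ℕ} (hs : 0 < s) (hD : Dinv (s + 1) p)
    (h : ∀ f ∈ (lie s : Submodule ℂ (NS (Lt r) ℂ)), sg f = f → InvS p (Complex.I • f)) :
    Dinv s p := by
  apply dinv_of_invS hs hD
  intro f hf
  obtain ⟨f1, f2, h1, h2, hr1, hr2, rfl⟩ := exists_real_parts hf
  exact InvS.add hs hD h1 (Submodule.smul_mem _ _ h2) (InvS.real hL h1 hr1) (h f2 h2 hr2)

/-- the first step of the filtration -/
theorem vanG_of_dinv_two {p : Pol (Lt r)} (hR : Rinv p) (hL : Linv p) (hD : Dinv 2 p)
    (h1 : ev 1 p = 0) : VanG p := by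
  intro h hh
  obtain ⟨g, q, hg, hgr, hqg, hq, hk⟩ := exists_real_QB hh
  have hgq := hg.mul hqg
  set k := NS.inv (g * q) * h with hkdef
  have hkg : IsGrp k := hgq.inv.mul hh
  have e1 : h = g * ((q * k * NS.inv q) * q) := by
    rw [inv_mul_cancel_right' hqg.nil, ← mul_assoc, hkdef, mul_inv_cancel_left' hgq.nil]
  rw [e1, hL g _ hg hgr (((hqg.mul hkg).mul hqg.inv).mul hqg),
    hD _ _ ((hqg.mul hkg).mul hqg.inv) (hk.conj hqg.nil) hqg]
  have := hR 1 q hq
  rw [one_mul] at this
  rw [this, h1]

/-- Lemma C -/
theorem lemmaC {s : ℕ} {p : Pol (Lt r)} (hp : Cls (s + 2) p)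
    (hLev : ∀ X ∈ (lie (s + 1) : Submodule ℂ (NS (Lt r) ℂ)), sg X = X → ∀ h, IsGrp h →
      Lev p h (X * h) (X * h) = 0) : Dinv (s + 2) p := by
  have hD : Dinv (s + 2 + 1) p := hp.hom.dinv
  have hinv : ∀ X ∈ (lie (s + 1) : Submodule ℂ (NS (Lt r) ℂ)), sg X = X →
      InvS p (Complex.I • X) := by
    intro X hX hr h hh
    have h1 := lemmaB hp.hom hp.linv hp.psh (by omega) hX hr (hLev X hX hr)
    have h2 := inv_of_Tz (Submodule.smul_mem _ _ hX) h1 hh 1
    rwa [Complex.ofReal_one, one_smul] at h2
  apply dinv_of_invS (by omega) hD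
  -- commutators
  have hcomm : ∀ X ∈ (lie (s + 1) : Submodule ℂ (NS (Lt r) ℂ)), sg X = X →
      ∀ y ∈ (lie 1 : Submodule ℂ (NS (Lt r) ℂ)), sg y = y →
      InvS p (Complex.I • (X * y - y * X)) := by
    intro X hX hr y hy hyr
    have hA : Complex.I • X ∈ (lie (s + 1) : Submodule ℂ (NS (Lt r) ℂ)) :=
      Submodule.smul_mem _ _ hX
    have hW : (Complex.I • X) * y - y * (Complex.I • X) = Complex.I • (X * y - y * X) := by
      rw [smul_mul_assoc, mul_smul_comm, smul_sub]
    have hWl : Complex.I • (X * y - y * X) ∈ (lie (s + 2) : Submodule ℂ (NS (Lt r) ℂ)) :=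
      Submodule.smul_mem _ _ (lie_bracket_one hX hy)
    have hgA := isGrp_nexp hA
    have hgA' := isGrp_nexp (neg_mem hA)
    have hgy := isGrp_nexp hy
    have hgy' := isGrp_nexp (neg_mem hy)
    apply invS_of_group (K := nexp (-(Complex.I • X)) * nexp (-y) * nexp (Complex.I • X) * nexp y)
      (by omega) hD hWl (((hgA'.mul hgy').mul hgA).mul hgy)
    · have := comm_nexp (a := s + 1) (b := 1) (by omega) (by omega) (ord_lie hA) (ord_lie hy)
      rw [hW] at this
      exact this
    · intro h hh
      have e1 : nexp (-(Complex.I • X)) * nexp (-y) * nexp (Complex.I • X) * nexp y * h =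
          nexp (-(Complex.I • X)) * (nexp (-y) * (nexp (Complex.I • X) * (nexp y * h))) := by
        noncomm_ring
      have e2 : InvS p (-(Complex.I • X)) := by
        have := hinv (-X) (neg_mem hX) (by rw [map_neg, hr])
        rwa [smul_neg] at this
      have e3 : InvS p (-y) := InvS.real hp.linv (neg_mem hy) (by rw [map_neg, hyr])
      rw [e1, e2 _ (hgy'.mul (hgA.mul (hgy.mul hh))), e3 _ (hgA.mul (hgy.mul hh)),
        hinv X hX hr _ (hgy.mul hh), InvS.real hp.linv hy hyr _ hh]
  have hbr : ∀ b ∈ (lie (s + 1) : Submodule ℂ (NS (Lt r) ℂ)), ∀ x : Lt r,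
      InvS p (b * letter x - letter x * b) := by
    intro b hb x
    obtain ⟨b1, b2, hb1, hb2, hr1, hr2, rfl⟩ := exists_real_parts hb
    obtain ⟨y1, y2, hy1, hy2, hs1, hs2, hx⟩ := exists_real_parts (letter_mem_lie (K := ℂ) x)
    rw [hx]
    have e1 : (b1 + Complex.I • b2) * (y1 + Complex.I • y2) -
        (y1 + Complex.I • y2) * (b1 + Complex.I • b2) =
        (((b1 * y1 - y1 * b1) + (-(b2 * y2 - y2 * b2))) +
        Complex.I • (b2 * y1 - y1 * b2)) + Complex.I • (b1 * y2 - y2 * b1) := by
      simp only [mul_add, add_mul, smul_mul_assoc, mul_smul_comm, smul_sub, smul_smul,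
        Complex.I_mul_I, neg_smul, one_smul, smul_add]
      abel
    rw [e1]
    have m11 := lie_bracket_one hb1 hy1
    have m22 := lie_bracket_one hb2 hy2
    have m21 := lie_bracket_one hb2 hy1
    have m12 := lie_bracket_one hb1 hy2
    have i11 : InvS p (b1 * y1 - y1 * b1) := InvS.real hp.linv m11 (by
      rw [map_sub, map_mul, map_mul, hr1, hs1])
    have i22 : InvS p (-(b2 * y2 - y2 * b2)) := InvS.real hp.linv (neg_mem m22) (by
      rw [map_neg, map_sub, map_mul, map_mul, hr2, hs2])
    have i21 := hcomm b2 hb2 hr2 y1 hy1 hs1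
    have i12 := hcomm b1 hb1 hr1 y2 hy2 hs2
    have m3 := add_mem m11 (neg_mem m22)
    have i3 := InvS.add (by omega) hD m11 (neg_mem m22) i11 i22
    have m4 := add_mem m3 (Submodule.smul_mem _ Complex.I m21)
    have i4 := InvS.add (by omega) hD m3 (Submodule.smul_mem _ Complex.I m21) i3 i21
    exact InvS.add (by omega) hD m4 (Submodule.smul_mem _ Complex.I m12) i4 i12
  have hall : ∀ f ∈ (lie (s + 2) : Submodule ℂ (NS (Lt r) ℂ)), ∀ c : ℂ, InvS p (c • f) := by
    intro f hf
    refine Submodule.span_induction (p := fun f _ => ∀ c : ℂ, InvS p (c • f)) ?_ ?_ ?_ ?_ hf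
    · rintro _ ⟨b, hb, x, rfl⟩ c
      have : c • (b * letter x - letter x * b) =
          (c • b) * letter x - letter x * (c • b) := by
        rw [smul_mul_assoc, mul_smul_comm, smul_sub]
      rw [this]
      exact hbr _ (Submodule.smul_mem _ _ hb) x
    · intro c; rw [smul_zero]; exact InvS.zero p
    · intro f g hf hg h1 h2 c
      rw [smul_add]
      exact InvS.add (by omega) hD (Submodule.smul_mem (lie (s + 2)) c hf)
        (Submodule.smul_mem (lie (s + 2)) c hg) (h1 c) (h2 c)
    · intro c' f _ h1 c
      rw [smul_smul]; exact h1 _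
  intro f hf
  have := hall f hf 1
  rwa [one_smul] at this

theorem Hom.vanG_of_zero {p : Pol (Lt r)} (hp : Hom 0 p) : VanG (p - C (ev 1 p)) := by
  intro h hh
  rw [map_sub, ev_C, hp.zero hh.nil, sub_self]

/-- the Liouville theorem -/
theorem liouville : ∀ m : ℕ, 0 < m → m ≠ 2 → ∀ p : Pol (Lt r), Cls m p → VanG p := by
  intro m
  induction m using Nat.strong_induction_on with
  | _ m ih =>
    intro hm hm2 p hp
    by_contra hne
    have hD : Dinv (m + 1) p := hp.hom.dinv
    have h1 : ev 1 p = 0 := hp.hom.one hm
    have hD2 : ¬ Dinv 2 p := fun h => hne (vanG_of_dinv_two hp.rinv hp.linv h h1)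
    classical
    have hex : ∃ n, Dinv (n + 1) p := ⟨m, hD⟩
    obtain ⟨s, hs1, hsD, hsm, hsn⟩ : ∃ s, 2 ≤ s ∧ Dinv (s + 1) p ∧ s ≤ m ∧ ¬ Dinv s p := by
      refine ⟨Nat.find hex, ?_, Nat.find_spec hex, Nat.find_min' hex hD, ?_⟩
      · by_contra hlt
        have h2 := Nat.find_spec hex
        exact hD2 (h2.mono (by omega))
      · intro h2
        have h3 := Nat.find_spec hex
        have h4 : 2 ≤ Nat.find hex := by
          by_contra hlt
          exact hD2 (h3.mono (by omega))
        have h5 := Nat.find_min hex (m := Nat.find hex - 1) (by omega)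
        apply h5
        rwa [Nat.sub_add_cancel (by omega)]
    rcases Nat.lt_or_ge s m with hlt | hge
    · -- the case `s < m`
      have hbex : ∃ b ∈ (lie s : Submodule ℂ (NS (Lt r) ℂ)), sg b = b ∧
          ¬ InvS p (Complex.I • b) := by
        by_contra hno
        push Not at hno
        exact hsn (dinv_of_I hp.linv (by omega) hsD hno)
      obtain ⟨b, hb, hbr, hbn⟩ := hbex
      set a := Complex.I • b with ha
      have haL : a ∈ (lie s : Submodule ℂ (NS (Lt r) ℂ)) := Submodule.smul_mem _ _ hb
      have ha0 : a [] = 0 := lie_nil haL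
      -- the degree
      have hdeg : ∃ d, 1 ≤ d ∧ ¬ VanG (pc a p d) := by
        by_contra hno
        push Not at hno
        apply hbn
        intro h hh
        have e1 := Ql_evl a h p 1
        rw [Complex.ofReal_one, one_smul] at e1
        have e2 : Ql (evl h) a p = Polynomial.C (ev h p) := by
          ext i
          rw [Ql_coeff, evl_apply, Polynomial.coeff_C]
          by_cases hi : i = 0
          · subst hi; rw [if_pos rfl, pc_zero]
          · rw [if_neg hi]; exact hno i (by omega) h hh
        rw [← e1, e2]; simp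
      obtain ⟨d0, hd0, hd0n⟩ := hdeg
      have hbound : ∀ j, (Texp a p).natDegree < j → VanG (pc a p j) := by
        intro j hj h _
        rw [pc, Polynomial.coeff_eq_zero_of_natDegree_lt hj, map_zero]
      obtain ⟨d, hd1, hdn, hdmax⟩ : ∃ d, 1 ≤ d ∧ ¬ VanG (pc a p d) ∧
          ∀ j, d < j → VanG (pc a p j) := by
        have hd0le : d0 ≤ (Texp a p).natDegree := by
          by_contra hlt
          exact hd0n (hbound d0 (by omega))
        refine ⟨Nat.findGreatest (fun j => ¬ VanG (pc a p j)) (Texp a p).natDegree, ?_, ?_, ?_⟩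
        · exact hd0.trans (Nat.le_findGreatest hd0le hd0n)
        · exact Nat.findGreatest_spec (P := fun j => ¬ VanG (pc a p j)) hd0le hd0n
        · intro j hj
          by_cases hj2 : j ≤ (Texp a p).natDegree
          · by_contra hjn
            have := Nat.le_findGreatest (P := fun j => ¬ VanG (pc a p j)) hj2 hjn
            omega
          · exact hbound j (by omega)
      have hds : d * s ≤ m := by
        by_contra hlt
        exact hdn (fun h _ => hp.hom.coef_zero haL (by omega) h)
      rcases Nat.lt_or_ge d 2 with hd2 | hd2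
      · -- `d = 1`
        have hd : d = 1 := by omega
        subst hd
        have hLev : ∀ h, IsGrp h → Lev p h (b * h) (b * h) = 0 := by
          intro h hh
          have e1 := second_deriv hp.linv hb hbr hh
          rw [← ha, hdmax 2 (by omega) h hh] at e1
          linear_combination -e1 / 2
        have e2 := lemmaB hp.hom hp.linv hp.psh hlt hb hbr hLev
        apply hdn
        intro h hh
        rw [pc_one ha0]
        exact e2 h hh
      · -- `d ≥ 2`
        have hconv : ∀ h, IsGrp h → 0 ≤ ev h (pc a p d) ∧ (Odd d → ev h (pc a p d) = 0) := by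
          intro h hh
          exact convex_lead hp.linv hp.psh hb hbr hh hd2 (fun j hj => hdmax j hj h hh)
        have heven : Even d := by
          rw [← Nat.not_odd_iff_even]
          intro hodd
          exact hdn (fun h hh => (hconv h hh).2 hodd)
        have hpsh : PSH (pc a p d) :=
          (hp.psh.coef haL (fun j hj h hh Z hZ => (hdmax j hj).Lev hh hZ hZ)).1
        have hcls : Cls (m - d * s) (pc a p d) :=
          ⟨hp.hom.coef haL hds, hp.rinv.coef a d, hp.linv.coef (by omega) hsD haL d, hpsh⟩
        have hdspos : 0 < d * s := Nat.mul_pos (by omega) (by omega)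
        by_cases h0 : m - d * s = 0
        · -- weight zero
          rw [h0] at hcls
          have hc0 := hcls.hom.vanG_of_zero
          have hms : m = d * s := by omega
          have hUhom : Hom s (pc a p (d - 1)) := by
            have e1 : (d - 1) * s ≤ m := by
              rw [hms]; exact Nat.mul_le_mul_right _ (by omega)
            have e2 := hp.hom.coef haL e1
            have e3 : m - (d - 1) * s = s := by
              rw [hms, ← Nat.sub_mul]
              have : d - (d - 1) = 1 := by omega
              rw [this, one_mul]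
            rwa [e3] at e2
          have hU := hp.psh.coef haL (i := d - 1) (by
            intro j hj h hh Z hZ
            rcases Nat.lt_or_ge d j with hj2 | hj2
            · exact (hdmax j hj2).Lev hh hZ hZ
            · have hjd : j = d := by omega
              subst hjd
              have e1 := hc0.Lev hh hZ hZ
              have e2 : Lev (pc a p j - C (ev 1 (pc a p j))) h (h * Z) (h * Z) =
                  Lev (pc a p j) h (h * Z) (h * Z) := by
                simp [Lev]
              rw [← e2]; exact e1)
          have hUodd : Odd (d - 1) := by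
            obtain ⟨k, hk⟩ := heven
            exact ⟨k - 1, by omega⟩
          have hUcls : Cls s (pc a p (d - 1)) :=
            ⟨hUhom, hp.rinv.coef a _, hp.linv.coef (by omega) hsD haL _, hU.1⟩
          obtain ⟨s', rfl⟩ : ∃ s', s = s' + 2 := ⟨s - 2, by omega⟩
          have hDU := lemmaC hUcls (by
            intro X hX _ h hh
            rw [left_eq_right hh]
            exact hU.2 hUodd h hh _ (conj_mem_LieS' hh (mem_LieS_of_lie hX)))
          apply hdn
          intro h hh
          set Q := Ql (evl h) a p with hQ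
          have e1 : Polynomial.hasseDeriv (d - 1) Q = Polynomial.C (ev h (pc a p (d - 1))) := by
            apply poly_eq_of_real
            intro t
            have e2 := congrArg (fun P => Polynomial.coeff P (d - 1)) (Ql_taylor ha0 h p t)
            simp only [Ql_coeff, evl_apply, Polynomial.taylor_coeff] at e2
            rw [Polynomial.eval_C, hQ, ← e2]
            exact hDU _ _ (isGrp_nexp_smul haL _)
              (ord_nexp_sub_one (by omega) ((ord_lie haL).smul _)) hh
          have e3 := congrArg (fun P => Polynomial.coeff P 1) e1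
          simp only [Polynomial.hasseDeriv_coeff, Polynomial.coeff_C] at e3
          have e4 : 1 + (d - 1) = d := by omega
          rw [e4, hQ, Ql_coeff, evl_apply] at e3
          simp only [one_ne_zero, if_false] at e3
          have e5 : ((d.choose (d - 1) : ℕ) : ℂ) ≠ 0 := by
            have : 0 < d.choose (d - 1) := Nat.choose_pos (by omega)
            exact_mod_cast this.ne'
          exact (mul_eq_zero.1 e3).resolve_left e5
        · by_cases h2 : m - d * s = 2
          · -- weight two
            rw [h2] at hcls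
            set P := pc a p d with hP
            have hD3 : Dinv (2 + 1) P := hcls.hom.dinv
            have hD2' : Dinv 2 P := by
              apply dinv_of_I hcls.linv (by omega) hD3
              intro f hf hfr h hh
              have hfL : Complex.I • f ∈ (lie 2 : Submodule ℂ (NS (Lt r) ℂ)) :=
                Submodule.smul_mem _ _ hf
              have e1 : (Ql (evl h) (Complex.I • f) P).natDegree ≤ 1 := by
                rw [Polynomial.natDegree_le_iff_coeff_eq_zero]
                intro N hN
                rw [Ql_coeff, evl_apply]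
                exact hcls.hom.coef_zero hfL (by omega) h
              have e2 := poly_nonneg_lead e1 (by
                intro t
                rw [Ql_evl]
                exact (hconv _ ((isGrp_nexp_smul hfL _).mul hh)).1)
              have e3 : Ql (evl h) (Complex.I • f) P = Polynomial.C (ev h P) := by
                ext i
                rw [Polynomial.coeff_C]
                rcases Nat.lt_or_ge 1 i with hi | hi
                · rw [if_neg (by omega)]
                  exact Polynomial.coeff_eq_zero_of_natDegree_lt (by omega)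
                · interval_cases i
                  · rw [if_pos rfl, Ql_coeff, evl_apply, pc_zero]
                  · rw [if_neg (by omega)]
                    exact e2.2 odd_one
              have e4 := Ql_evl (Complex.I • f) h P 1
              rw [Complex.ofReal_one, one_smul, e3, Polynomial.eval_C] at e4
              exact e4.symm
            exact hdn (vanG_of_dinv_two hcls.rinv hcls.linv hD2' (hcls.hom.one (by omega)))
          · exact hdn (ih (m - d * s) (by omega) (by omega) h2 _ hcls)
    · -- the case `s = m`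
      have hsm' : s = m := le_antisymm hsm hge
      subst hsm'
      obtain ⟨s', rfl⟩ : ∃ s', s = s' + 2 := ⟨s - 2, by omega⟩
      apply hsn
      apply lemmaC hp
      intro X hX hXr h hh
      have e1 := second_deriv hp.linv hX hXr hh
      rw [hp.hom.coef_zero (Submodule.smul_mem _ _ hX) (by omega) h] at e1
      linear_combination -e1 / 2

end Pool.Agent.Lib.MP_d7cc7c_an
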