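import Pool.Agent.Lib.MP_d7cc7c_an.Frame

/-!
# Comparison of the definitions with the algebraic conditions
-/

set_option linter.unusedSectionVars false

namespace Pool.Agent.Lib.MP_d7cc7c_an

open NS ComplexConjugate Filter Topology
open scoped ContDiff

section Neg

variable {r n : ℕ} {O : Type*} [CommRing O] [Algebra ℂ O] (J : JD r n O)

theorem lam_neg (i j : Fin r) (F : O) : J.lam i j (-F) = -J.lam i j F := by
  simp only [JD.lam, map_neg, mul_neg, Finset.sum_neg_distrib]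

theorem wd_neg (w : List (Lt r)) (F : O) : J.wd w (-F) = -J.wd w F := by
  induction w with
  | nil => rfl
  | cons x w ih => rw [JD.wd, JD.wd, ih, map_neg]

theorem TT_neg (ρ : O) (m : ℕ) : J.TT (-ρ) m ↔ J.TT ρ m := by
  have h : ∀ j (Z : NS (Lt r) ℂ), ∑ k, J.pe (J.act j Z (J.zc k)) * J.pe (J.dd (k, false) (-ρ)) =
      -∑ k, J.pe (J.act j Z (J.zc k)) * J.pe (J.dd (k, false) ρ) := by
    intro j Z
    simp only [map_neg, mul_neg, Finset.sum_neg_distrib]
  constructor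
  · intro hT j hj Z hZ
    have := hT j hj Z hZ
    rw [h] at this
    exact neg_eq_zero.1 this
  · intro hT j hj Z hZ
    rw [h, hT j hj Z hZ, neg_zero]

theorem CC_neg (ρ : O) (m : ℕ) : J.CC (-ρ) m ↔ J.CC ρ m := by
  constructor
  · intro hC i j w hw
    have := hC i j w hw
    rw [lam_neg, wd_neg, map_neg] at this
    exact neg_eq_zero.1 this
  · intro hC i j w hw
    rw [lam_neg, wd_neg, map_neg, hC i j w hw, neg_zero]

end Neg

section Setup

variable {n : ℕ} (H : Hyp n) {p : Fin n → ℂ}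

theorem exists_rho (hp : p ∈ H.M) : ∃ ρ' : Sm n, coS ρ' = ρ' ∧
    (fun z => (H.ρ z : ℂ)) =ᶠ[𝓝 p] (ρ' : (Fin n → ℂ) → ℂ) := by
  obtain ⟨χ, hχ, hs, h1⟩ := exists_bump (H.isOpen.mem_nhds hp.1)
  have hf : ContDiffOn ℝ ∞ (fun z => (H.ρ z : ℂ)) H.U :=
    Complex.ofRealCLM.contDiff.comp_contDiffOn H.smooth
  refine ⟨loc hχ H.isOpen hs hf, ?_, ?_⟩
  · ext z
    rw [coS_apply, loc_apply, map_mul, Complex.conj_ofReal, Complex.conj_ofReal]
  · filter_upwards [h1] with z hz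
    rw [loc_apply, hz]; simp

variable {ρ' : Sm n} (hρ : (fun z => (H.ρ z : ℂ)) =ᶠ[𝓝 p] (ρ' : (Fin n → ℂ) → ℂ))

include hρ

theorem rz_ev : ∀ᶠ z in 𝓝 p, ∀ k, H.ρz k z = (wir (k, false) ρ' : (Fin n → ℂ) → ℂ) z := by
  rw [eventually_all]
  intro k
  have := dz_congr hρ k
  rw [dz_eq_wir] at this
  exact this

theorem rzz_ev : ∀ᶠ z in 𝓝 p, ∀ k l, dzb l (H.ρz k) z =
    (wir (l, true) (wir (k, false) ρ') : (Fin n → ℂ) → ℂ) z := by
  rw [eventually_all]
  intro k
  rw [eventually_all]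
  intro l
  have h1 : H.ρz k =ᶠ[𝓝 p] (wir (k, false) ρ' : (Fin n → ℂ) → ℂ) :=
    (rz_ev H hρ).mono fun z hz => hz k
  have := dzb_congr h1 l
  rw [dzb_eq_wir] at this
  exact this

theorem levi_ev : ∀ᶠ z in 𝓝 p, ∀ u v, H.levi z u v = lv ρ' z u v := by
  filter_upwards [rzz_ev H hρ] with z hz u v
  rw [Hyp.levi, lv]
  refine Finset.sum_congr rfl fun k _ => Finset.sum_congr rfl fun l _ => ?_
  rw [hz k l]; ring

theorem rho_mem_IM : ρ' ∈ IM H p := by
  rw [mem_IM]
  filter_upwards [hρ] with z hz hM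
  rw [← hz, hM.2]; simp

theorem grad_ne (hreal : coS ρ' = ρ') (hp : p ∈ H.M) :
    ∃ k, (wir (k, false) ρ' : (Fin n → ℂ) → ℂ) p ≠ 0 := by
  by_contra hno
  push Not at hno
  apply H.regular p hp.1 hp.2
  ext v
  have h1 : fderiv ℝ (fun z => (H.ρ z : ℂ)) p = fderiv ℝ (ρ' : (Fin n → ℂ) → ℂ) p :=
    hρ.fderiv_eq
  have h2 := fderiv_ofReal H hp.1 v
  rw [h1, fderiv_real hreal] at h2
  have h3 : el ρ' p v = 0 := by
    rw [el]
    exact Finset.sum_eq_zero fun k _ => by rw [hno k, mul_zero]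
  rw [h3] at h2
  simp only [Complex.zero_re, mul_zero] at h2
  exact_mod_cast h2.symm

/-- the equivalence of the algebraic conditions -/
theorem local_equiv {r : ℕ} (a : Fin r → Fin n → Sm n) (hreal : coS ρ' = ρ') (hp : p ∈ H.M)
    (hpsc : H.Pseudoconvex)
    (ha : ∀ᶠ z in 𝓝 p, z ∈ H.M → ∀ i, (fun k => (a i k : (Fin n → ℂ) → ℂ) z) ∈ H.T10 z)
    (m : ℕ) : (jd p a).TT ρ' m ↔ (jd p a).CC ρ' m := by
  have hD := IM_D H a ha
  have hwd : ∀ (w : List (Lt r)) (F : Sm n), F ∈ IM H p → (jd p a).wd w F ∈ IM H p := by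
    intro w F hF
    induction w with
    | nil => exact hF
    | cons x w ih => exact hD x _ ih
  have htan : ∀ w, (jd p a).pe ((jd p a).wd w ρ') = 0 := fun w =>
    IM_pe H hp (hwd w _ (rho_mem_IM H hρ))
  have h0 : (ρ' : (Fin n → ℂ) → ℂ) p = 0 := by
    have := htan []
    exact this
  have hgrad := grad_ne H hρ hreal hp
  rcases hpsc with h | h
  · have hps : ∀ᶠ z in 𝓝 p, (ρ' : (Fin n → ℂ) → ℂ) z = 0 → ∀ v, el ρ' z v = 0 →
        0 ≤ (lv ρ' z v v).re := by
      filter_upwards [hρ, rz_ev H hρ, levi_ev H hρ, H.isOpen.mem_nhds hp.1] with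
        z h1 h2 h3 h4 h5 v h6
      rw [← h3]
      apply h z ⟨h4, by rw [← h1] at h5; exact_mod_cast h5⟩
      rw [mem_T10, ← h6, el]
      exact Finset.sum_congr rfl fun k _ => by rw [h2]; ring
    exact (jd p a).TT_iff_CC hreal htan
      (fun m hm => psh_Rc p a ρ' hreal hgrad h0 hps m hm) m
  · rw [← TT_neg, ← CC_neg]
    have hps : ∀ᶠ z in 𝓝 p, ((-ρ' : Sm n) : (Fin n → ℂ) → ℂ) z = 0 → ∀ v, el (-ρ') z v = 0 →
        0 ≤ (lv (-ρ') z v v).re := by
      filter_upwards [hρ, rz_ev H hρ, levi_ev H hρ, H.isOpen.mem_nhds hp.1] with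
        z h1 h2 h3 h4 h5 v h6
      have e1 : el (-ρ') z v = -el ρ' z v := by
        rw [el, el, ← Finset.sum_neg_distrib]
        refine Finset.sum_congr rfl fun k _ => ?_
        rw [map_neg]
        show v k * -((wir (k, false) ρ' : (Fin n → ℂ) → ℂ) z) = _
        ring
      have e2 : lv (-ρ') z v v = -lv ρ' z v v := by
        rw [lv, lv, ← Finset.sum_neg_distrib]
        refine Finset.sum_congr rfl fun k _ => ?_
        rw [← Finset.sum_neg_distrib]
        refine Finset.sum_congr rfl fun l _ => ?_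
        rw [map_neg, map_neg]
        show v k * conj (v l) * -((wir (l, true) (wir (k, false) ρ') : (Fin n → ℂ) → ℂ) z) = _
        ring
      have h5' : (ρ' : (Fin n → ℂ) → ℂ) z = 0 := by
        have : -((ρ' : (Fin n → ℂ) → ℂ) z) = 0 := h5
        exact neg_eq_zero.1 this
      rw [e1, neg_eq_zero] at h6
      rw [e2, ← h3, Complex.neg_re]
      have := h z ⟨h4, by rw [← h1] at h5'; exact_mod_cast h5'⟩ v (by
        rw [mem_T10, ← h6, el]
        exact Finset.sum_congr rfl fun k _ => by rw [h2]; ring)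
      linarith
    refine (jd p a).TT_iff_CC (ρ := -ρ') (by
        show coS (-ρ') = -ρ'
        rw [map_neg, hreal]) ?_
      (fun m hm => psh_Rc p a (-ρ') (by rw [map_neg, hreal]) ?_ ?_ hps m hm) m
    · intro w
      rw [wd_neg, map_neg, htan, neg_zero]
    · obtain ⟨k, hk⟩ := hgrad
      refine ⟨k, ?_⟩
      rw [map_neg]
      show -((wir (k, false) ρ' : (Fin n → ℂ) → ℂ) p) ≠ 0
      exact neg_ne_zero.2 hk
    · show -((ρ' : (Fin n → ℂ) → ℂ) p) = 0
      rw [h0, neg_zero]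

end Setup

end Pool.Agent.Lib.MP_d7cc7c_an
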