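import Pool.Agent.Lib.MP_d7cc7c_an.Smooth

/-!
# A lower bound for the Levi form near a pseudoconvex hypersurface
-/

set_option linter.unusedSectionVars false

namespace Pool.Agent.Lib.MP_d7cc7c_an

open ComplexConjugate Filter Topology Asymptotics
open scoped ContDiff

section Lower

variable {n : ℕ}

/-- the linear form `∂ρ` -/
noncomputable def el (ρ : Sm n) (z v : Fin n → ℂ) : ℂ :=
  ∑ k, v k * (wir (k, false) ρ : (Fin n → ℂ) → ℂ) z

/-- the Levi form -/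
noncomputable def lv (ρ : Sm n) (z u v : Fin n → ℂ) : ℂ :=
  ∑ k, ∑ l, u k * conj (v l) * (wir (l, true) (wir (k, false) ρ) : (Fin n → ℂ) → ℂ) z

theorem el_add (ρ : Sm n) (z u v : Fin n → ℂ) : el ρ z (u + v) = el ρ z u + el ρ z v := by
  rw [el, el, el, ← Finset.sum_add_distrib]
  exact Finset.sum_congr rfl fun k _ => by rw [Pi.add_apply]; ring

theorem el_smul (ρ : Sm n) (z : Fin n → ℂ) (c : ℂ) (v : Fin n → ℂ) :
    el ρ z (c • v) = c * el ρ z v := by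
  rw [el, el, Finset.mul_sum]
  exact Finset.sum_congr rfl fun k _ => by rw [Pi.smul_apply, smul_eq_mul]; ring

theorem lv_add_left (ρ : Sm n) (z u u' v : Fin n → ℂ) :
    lv ρ z (u + u') v = lv ρ z u v + lv ρ z u' v := by
  rw [lv, lv, lv, ← Finset.sum_add_distrib]
  refine Finset.sum_congr rfl fun k _ => ?_
  rw [← Finset.sum_add_distrib]
  exact Finset.sum_congr rfl fun l _ => by rw [Pi.add_apply]; ring

theorem lv_add_right (ρ : Sm n) (z u v v' : Fin n → ℂ) :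
    lv ρ z u (v + v') = lv ρ z u v + lv ρ z u v' := by
  rw [lv, lv, lv, ← Finset.sum_add_distrib]
  refine Finset.sum_congr rfl fun k _ => ?_
  rw [← Finset.sum_add_distrib]
  exact Finset.sum_congr rfl fun l _ => by rw [Pi.add_apply, map_add]; ring

/-- the Levi form of a real function is hermitian -/
theorem lv_conj (ρ : Sm n) (hρ : coS ρ = ρ) (z u v : Fin n → ℂ) :
    conj (lv ρ z u v) = lv ρ z v u := by
  have h1 : ∀ k l, conj ((wir (l, true) (wir (k, false) ρ) : (Fin n → ℂ) → ℂ) z) =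
      (wir (k, true) (wir (l, false) ρ) : (Fin n → ℂ) → ℂ) z := by
    intro k l
    have h1 : coS (wir (l, true) (wir (k, false) ρ)) = wir (k, true) (wir (l, false) ρ) := by
      rw [coS_wir, coS_wir, hρ, wir_comm]; rfl
    exact congrArg (fun F : Sm n => (F : (Fin n → ℂ) → ℂ) z) h1
  calc conj (lv ρ z u v) = ∑ k, ∑ l, v l * conj (u k) *
        (wir (k, true) (wir (l, false) ρ) : (Fin n → ℂ) → ℂ) z := by
        rw [lv, map_sum]
        refine Finset.sum_congr rfl fun k _ => ?_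
        rw [map_sum]
        refine Finset.sum_congr rfl fun l _ => ?_
        rw [map_mul, map_mul, Complex.conj_conj, h1]; ring
    _ = lv ρ z v u := by rw [lv, Finset.sum_comm]

theorem lv_im (ρ : Sm n) (hρ : coS ρ = ρ) (z v : Fin n → ℂ) : (lv ρ z v v).im = 0 :=
  Complex.conj_eq_iff_im.1 (lv_conj ρ hρ z v v)

theorem real_val {ρ : Sm n} (hρ : coS ρ = ρ) (z : Fin n → ℂ) :
    (((ρ : (Fin n → ℂ) → ℂ) z).re : ℂ) = (ρ : (Fin n → ℂ) → ℂ) z := by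
  have h := congrArg (fun F : Sm n => (F : (Fin n → ℂ) → ℂ) z) hρ
  exact Complex.conj_eq_iff_re.1 h

theorem fderiv_real {ρ : Sm n} (hρ : coS ρ = ρ) (z v : Fin n → ℂ) :
    fderiv ℝ (ρ : (Fin n → ℂ) → ℂ) z v = ((2 * (el ρ z v).re : ℝ) : ℂ) := by
  rw [fderiv_wir]
  have h1 : ∀ k, (wir (k, true) ρ : (Fin n → ℂ) → ℂ) z =
      conj ((wir (k, false) ρ : (Fin n → ℂ) → ℂ) z) := by
    intro k
    have : coS (wir (k, false) ρ) = wir (k, true) ρ := by rw [coS_wir, hρ]; rfl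
    rw [← this]; rfl
  rw [Finset.sum_add_distrib]
  have h2 : ∑ k, conj (v k) * (wir (k, true) ρ : (Fin n → ℂ) → ℂ) z = conj (el ρ z v) := by
    rw [el, map_sum]
    exact Finset.sum_congr rfl fun k _ => by rw [h1, map_mul]
  rw [h2]
  show el ρ z v + conj (el ρ z v) = _
  rw [Complex.add_conj]

/-- local bounds for smooth functions -/
theorem local_bound (F : Sm n) (p : Fin n → ℂ) : ∃ A : ℝ, 0 ≤ A ∧
    ∀ᶠ x in 𝓝 (p, p), ‖(F : (Fin n → ℂ) → ℂ) x.1‖ ≤ A ∧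
      ‖(F : (Fin n → ℂ) → ℂ) x.1 - (F : (Fin n → ℂ) → ℂ) x.2‖ ≤ A * ‖x.1 - x.2‖ := by
  have h1 : ContDiffAt ℝ 1 (F : (Fin n → ℂ) → ℂ) p :=
    ((smc F).of_le (by exact ENat.LEInfty.out)).contDiffAt
  obtain ⟨K, t, ht, hK⟩ := h1.exists_lipschitzOnWith
  refine ⟨max (K : ℝ) (‖(F : (Fin n → ℂ) → ℂ) p‖ + 1), le_max_of_le_left K.2, ?_⟩
  have h2 : ∀ᶠ z in 𝓝 p, ‖(F : (Fin n → ℂ) → ℂ) z‖ ≤ ‖(F : (Fin n → ℂ) → ℂ) p‖ + 1 := by
    have : ContinuousAt (fun z => ‖(F : (Fin n → ℂ) → ℂ) z‖) p := (smcont F).norm.continuousAt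
    have h3 := this.eventually (gt_mem_nhds (show ‖(F : (Fin n → ℂ) → ℂ) p‖ <
      ‖(F : (Fin n → ℂ) → ℂ) p‖ + 1 by linarith))
    exact h3.mono fun z hz => le_of_lt hz
  rw [nhds_prod_eq]
  have h3 : ∀ᶠ x : (Fin n → ℂ) × (Fin n → ℂ) in 𝓝 p ×ˢ 𝓝 p, x.1 ∈ t ∧
      ‖(F : (Fin n → ℂ) → ℂ) x.1‖ ≤ ‖(F : (Fin n → ℂ) → ℂ) p‖ + 1 :=
    tendsto_fst.eventually ((eventually_mem_set.2 ht).and h2)
  have h4 : ∀ᶠ x : (Fin n → ℂ) × (Fin n → ℂ) in 𝓝 p ×ˢ 𝓝 p, x.2 ∈ t :=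
    tendsto_snd.eventually (eventually_mem_set.2 ht)
  filter_upwards [h3, h4] with x hx1 hx2
  refine ⟨hx1.2.trans (le_max_right _ _), ?_⟩
  have := hK.dist_le_mul x.1 hx1.1 x.2 hx2
  rw [dist_eq_norm, dist_eq_norm] at this
  exact this.trans (mul_le_mul_of_nonneg_right (le_max_left _ _) (norm_nonneg _))

theorem local_bound_el (ρ : Sm n) (p : Fin n → ℂ) : ∃ A : ℝ, 0 ≤ A ∧
    ∀ᶠ x in 𝓝 (p, p), ∀ v, ‖el ρ x.1 v‖ ≤ A * ‖v‖ ∧
      ‖el ρ x.1 v - el ρ x.2 v‖ ≤ A * ‖x.1 - x.2‖ * ‖v‖ := by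
  choose A hA0 hA using fun k => local_bound (wir (k, false) ρ) p
  refine ⟨∑ k, A k, Finset.sum_nonneg fun k _ => hA0 k, ?_⟩
  filter_upwards [eventually_all.2 hA] with x hx v
  constructor
  · rw [el, Finset.sum_mul]
    refine (norm_sum_le _ _).trans (Finset.sum_le_sum fun k _ => ?_)
    rw [norm_mul, mul_comm]
    exact mul_le_mul (hx k).1 (norm_le_pi_norm v k) (norm_nonneg _) (hA0 k)
  · rw [el, el, ← Finset.sum_sub_distrib, Finset.sum_mul, Finset.sum_mul]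
    refine (norm_sum_le _ _).trans (Finset.sum_le_sum fun k _ => ?_)
    rw [← mul_sub, norm_mul, mul_comm]
    exact mul_le_mul (hx k).2 (norm_le_pi_norm v k) (norm_nonneg _)
      (mul_nonneg (hA0 k) (norm_nonneg _))

theorem local_bound_lv (ρ : Sm n) (p : Fin n → ℂ) : ∃ A : ℝ, 0 ≤ A ∧
    ∀ᶠ x in 𝓝 (p, p), ∀ u v, ‖lv ρ x.1 u v‖ ≤ A * ‖u‖ * ‖v‖ ∧
      ‖lv ρ x.1 u v - lv ρ x.2 u v‖ ≤ A * ‖x.1 - x.2‖ * ‖u‖ * ‖v‖ := by
  choose A hA0 hA using fun q : Fin n × Fin n =>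
    local_bound (wir (q.2, true) (wir (q.1, false) ρ)) p
  have hlv : ∀ z u v, lv ρ z u v = ∑ q : Fin n × Fin n, u q.1 * conj (v q.2) *
      (wir (q.2, true) (wir (q.1, false) ρ) : (Fin n → ℂ) → ℂ) z := by
    intro z u v
    rw [lv, Fintype.sum_prod_type]
  refine ⟨∑ q, A q, Finset.sum_nonneg fun k _ => hA0 k, ?_⟩
  filter_upwards [eventually_all.2 hA] with x hx u v
  have huv : ∀ q : Fin n × Fin n, ‖u q.1 * conj (v q.2)‖ ≤ ‖u‖ * ‖v‖ := by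
    intro q
    rw [norm_mul, RCLike.norm_conj]
    exact mul_le_mul (norm_le_pi_norm u _) (norm_le_pi_norm v _) (norm_nonneg _) (norm_nonneg _)
  constructor
  · rw [hlv, Finset.sum_mul, Finset.sum_mul]
    refine (norm_sum_le _ _).trans (Finset.sum_le_sum fun q _ => ?_)
    rw [norm_mul, mul_comm, mul_assoc]
    exact mul_le_mul (hx q).1 (huv q) (norm_nonneg _) (hA0 q)
  · rw [hlv, hlv, ← Finset.sum_sub_distrib, Finset.sum_mul, Finset.sum_mul, Finset.sum_mul]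
    refine (norm_sum_le _ _).trans (Finset.sum_le_sum fun q _ => ?_)
    rw [← mul_sub, norm_mul, mul_comm, mul_assoc]
    exact mul_le_mul (hx q).2 (huv q) (norm_nonneg _) (mul_nonneg (hA0 q) (norm_nonneg _))

/-- the lower bound for the Levi form -/
theorem levi_lower (ρ : Sm n) (hρ : coS ρ = ρ) (p : Fin n → ℂ)
    (hd : ∃ k, (wir (k, false) ρ : (Fin n → ℂ) → ℂ) p ≠ 0)
    (h0 : (ρ : (Fin n → ℂ) → ℂ) p = 0)
    (hpsc : ∀ᶠ z in 𝓝 p, (ρ : (Fin n → ℂ) → ℂ) z = 0 → ∀ v, el ρ z v = 0 →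
      0 ≤ (lv ρ z v v).re) :
    ∃ C : ℝ, 0 ≤ C ∧ ∀ᶠ z in 𝓝 p, ∀ v, -(C * (‖(ρ : (Fin n → ℂ) → ℂ) z‖ * ‖v‖ ^ 2 +
      ‖v‖ * ‖el ρ z v‖)) ≤ (lv ρ z v v).re := by
  obtain ⟨k, hk⟩ := hd
  set e : Fin n → ℂ := Pi.single k (1 / (wir (k, false) ρ : (Fin n → ℂ) → ℂ) p) with he
  have hpe : el ρ p e = 1 := by
    rw [el, Finset.sum_eq_single k]
    · rw [he, Pi.single_eq_same, one_div, inv_mul_cancel₀ hk]
    · intro j _ hj
      rw [he, Pi.single_eq_of_ne hj, zero_mul]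
    · intro h; exact absurd (Finset.mem_univ _) h
  obtain ⟨A, hA0, hA⟩ := local_bound_el ρ p
  obtain ⟨B, hB0, hB⟩ := local_bound_lv ρ p
  have hcont : Continuous (fun z => (el ρ z e).re) := by
    apply Complex.continuous_re.comp
    exact continuous_finset_sum _ fun k _ => continuous_const.mul (smcont _)
  have hre : ∀ᶠ z in 𝓝 p, 1 / 2 ≤ (el ρ z e).re := by
    have h1 : (1 / 2 : ℝ) < (el ρ p e).re := by rw [hpe]; norm_num
    exact (hcont.continuousAt.eventually (lt_mem_nhds h1)).mono fun z hz => le_of_lt hz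
  have hre2 : ∀ᶠ x : (Fin n → ℂ) × (Fin n → ℂ) in 𝓝 (p, p), 1 / 2 ≤ (el ρ x.2 e).re := by
    rw [nhds_prod_eq]; exact tendsto_snd.eventually hre
  have hpsc2 : ∀ᶠ x : (Fin n → ℂ) × (Fin n → ℂ) in 𝓝 (p, p),
      (ρ : (Fin n → ℂ) → ℂ) x.2 = 0 → ∀ v, el ρ x.2 v = 0 → 0 ≤ (lv ρ x.2 v v).re := by
    rw [nhds_prod_eq]; exact tendsto_snd.eventually hpsc
  have hAs : ∀ᶠ x : (Fin n → ℂ) × (Fin n → ℂ) in 𝓝 (p, p), ∀ v, ‖el ρ x.2 v‖ ≤ A * ‖v‖ := by
    have := (continuous_swap.tendsto (p, p)).eventually hA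
    exact this.mono fun x hx v => (hx v).1
  have hBs : ∀ᶠ x : (Fin n → ℂ) × (Fin n → ℂ) in 𝓝 (p, p), ∀ u v,
      ‖lv ρ x.2 u v‖ ≤ B * ‖u‖ * ‖v‖ := by
    have := (continuous_swap.tendsto (p, p)).eventually hB
    exact this.mono fun x hx u v => (hx u v).1
  obtain ⟨δ, hδ, hball⟩ := Metric.eventually_nhds_iff.1
    (hA.and (hB.and (hre2.and (hpsc2.and (hAs.and hBs)))))
  have hnear : ∀ᶠ z in 𝓝 p, dist z p < δ / 2 ∧ ‖(ρ : (Fin n → ℂ) → ℂ) z‖ * ‖e‖ < δ / 2 := by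
    apply Filter.Eventually.and
    · exact Metric.ball_mem_nhds p (half_pos hδ)
    · have hc : Continuous (fun z => ‖(ρ : (Fin n → ℂ) → ℂ) z‖ * ‖e‖) :=
        (smcont ρ).norm.mul continuous_const
      have h1 : ‖(ρ : (Fin n → ℂ) → ℂ) p‖ * ‖e‖ < δ / 2 := by
        rw [h0, norm_zero, zero_mul]; exact half_pos hδ
      exact hc.continuousAt.eventually (gt_mem_nhds h1)
  set K : ℝ := 2 * B * ‖e‖ * (2 + 2 * A * ‖e‖) with hK
  have hK0 : 0 ≤ K := by positivity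
  refine ⟨K + K * A * ‖e‖ + B * ‖e‖, by positivity, ?_⟩
  filter_upwards [hnear] with z hz v
  -- the nearby point
  have hzr : ∀ w, (((ρ : (Fin n → ℂ) → ℂ) w).re : ℂ) = (ρ : (Fin n → ℂ) → ℂ) w := real_val hρ
  set T : ℝ := ‖(ρ : (Fin n → ℂ) → ℂ) z‖ with hT
  have hT0 : 0 ≤ T := norm_nonneg _
  have hTre : T = |((ρ : (Fin n → ℂ) → ℂ) z).re| := by
    rw [hT, ← hzr z, Complex.norm_real, Real.norm_eq_abs, Complex.ofReal_re]
  have hin : ∀ t : ℝ, |t| ≤ T → dist (z + (t : ℂ) • e) p < δ := by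
    intro t ht
    have h1 : dist (z + (t : ℂ) • e) z ≤ T * ‖e‖ := by
      rw [dist_eq_norm, add_sub_cancel_left, norm_smul, Complex.norm_real, Real.norm_eq_abs]
      exact mul_le_mul_of_nonneg_right ht (norm_nonneg _)
    calc dist (z + (t : ℂ) • e) p ≤ dist (z + (t : ℂ) • e) z + dist z p := dist_triangle _ _ _
      _ < δ := by linarith [hz.1, hz.2]
  have hzδ : dist z p < δ := by linarith [hz.1]
  have hpair : ∀ w, dist w p < δ → dist ((z, w) : (Fin n → ℂ) × (Fin n → ℂ)) (p, p) < δ := by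
    intro w hw
    rw [Prod.dist_eq]; exact max_lt hzδ hw
  set g : ℝ → ℝ := fun t => ((ρ : (Fin n → ℂ) → ℂ) (z + (t : ℂ) • e)).re with hg
  have hgd : ∀ t : ℝ, HasDerivAt g (2 * (el ρ (z + (t : ℂ) • e) e).re) t := by
    intro t
    have h1 : HasDerivAt (fun t : ℝ => z + (t : ℂ) • e) e t := by
      have h2 : HasDerivAt (fun t : ℝ => (t : ℂ)) 1 t := Complex.ofRealCLM.hasDerivAt
      have h3 := (h2.smul_const e).const_add z
      simpa using h3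
    have h2 := ((smd ρ (z + (t : ℂ) • e)).hasFDerivAt).comp_hasDerivAt t h1
    have h3 := (Complex.reCLM.hasFDerivAt).comp_hasDerivAt t h2
    refine HasDerivAt.congr_deriv h3 ?_
    rw [fderiv_real hρ]
    simp
  have hgc : Continuous g := continuous_iff_continuousAt.2 fun t => (hgd t).continuousAt
  have hg0 : g 0 = ((ρ : (Fin n → ℂ) → ℂ) z).re := by simp [hg]
  have hmono : ∀ t : ℝ, |t| ≤ T → 1 ≤ 2 * (el ρ (z + (t : ℂ) • e) e).re := by
    intro t ht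
    have := (hball (hpair _ (hin t ht))).2.2.1
    linarith
  have hgT : 0 ≤ g T := by
    rcases eq_or_lt_of_le hT0 with h | h
    · rw [← h, hg0]
      have : ((ρ : (Fin n → ℂ) → ℂ) z).re = 0 := by
        rw [← abs_eq_zero, ← hTre, ← h]
      rw [this]
    · obtain ⟨c, hc, hce⟩ := exists_hasDerivAt_eq_slope g _ h hgc.continuousOn
        (fun t _ => hgd t)
      have h1 := hmono c (by rw [abs_of_pos hc.1]; exact le_of_lt hc.2)
      rw [hce, sub_zero, le_div_iff₀ h, one_mul, hg0] at h1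
      have h2 := neg_abs_le ((ρ : (Fin n → ℂ) → ℂ) z).re
      rw [← hTre] at h2
      linarith
  have hgT' : g (-T) ≤ 0 := by
    rcases eq_or_lt_of_le hT0 with h | h
    · rw [← h, neg_zero, hg0]
      have : ((ρ : (Fin n → ℂ) → ℂ) z).re = 0 := by
        rw [← abs_eq_zero, ← hTre, ← h]
      rw [this]
    · obtain ⟨c, hc, hce⟩ := exists_hasDerivAt_eq_slope g _ (show -T < 0 by linarith)
        hgc.continuousOn (fun t _ => hgd t)
      have h1 := hmono c (by rw [abs_of_neg hc.2]; linarith [hc.1])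
      rw [hce, sub_neg_eq_add, zero_add, le_div_iff₀ h, one_mul, hg0] at h1
      have h2 := le_abs_self ((ρ : (Fin n → ℂ) → ℂ) z).re
      rw [← hTre] at h2
      linarith
  obtain ⟨t, ht, hgt⟩ : ∃ t ∈ Set.Icc (-T) T, g t = 0 := by
    have := intermediate_value_Icc (show -T ≤ T by linarith) hgc.continuousOn
    exact this ⟨hgT', hgT⟩
  have htT : |t| ≤ T := abs_le.2 ⟨ht.1, ht.2⟩
  set z' := z + (t : ℂ) • e with hz'
  have hρz' : (ρ : (Fin n → ℂ) → ℂ) z' = 0 := by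
    rw [← hzr z']
    have : ((ρ : (Fin n → ℂ) → ℂ) z').re = 0 := hgt
    rw [this]; simp
  have hzz' : ‖z - z'‖ ≤ T * ‖e‖ := by
    rw [hz', sub_add_cancel_left, norm_neg, norm_smul, Complex.norm_real, Real.norm_eq_abs]
    exact mul_le_mul_of_nonneg_right htT (norm_nonneg _)
  obtain ⟨b1, b2, b3, b4, b5, b6⟩ := hball (hpair z' (hin t htT))
  simp only at b1 b2 b3 b4 b5 b6
  -- the projected vector
  have hne : 1 / 2 ≤ ‖el ρ z' e‖ := b3.trans (Complex.re_le_norm _)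
  have hne0 : el ρ z' e ≠ 0 := by
    intro h
    rw [h, norm_zero] at hne
    linarith
  set c : ℂ := el ρ z' v / el ρ z' e with hc
  set w : Fin n → ℂ := c • e with hw
  have hv' : el ρ z' (v - w) = 0 := by
    have h1 : v - w = v + (-c) • e := by rw [hw, neg_smul, sub_eq_add_neg]
    rw [h1, el_add, el_smul, hc]
    field_simp
    ring
  have hpos := b4 hρz' (v - w) hv'
  set a : ℝ := ‖el ρ z v‖ + A * (T * ‖e‖) * ‖v‖ with ha
  have ha0 : 0 ≤ a := by positivity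
  have hel' : ‖el ρ z' v‖ ≤ a := by
    have h1 := (b1 v).2
    have h2 : el ρ z' v = el ρ z v - (el ρ z v - el ρ z' v) := by ring
    rw [h2]
    refine (norm_sub_le _ _).trans ?_
    rw [ha]
    have h3 : A * ‖z - z'‖ * ‖v‖ ≤ A * (T * ‖e‖) * ‖v‖ := by gcongr
    linarith
  have hcn : ‖c‖ ≤ 2 * ‖el ρ z' v‖ := by
    rw [hc, norm_div, div_le_iff₀ (lt_of_lt_of_le (by norm_num) hne)]
    nlinarith [norm_nonneg (el ρ z' v)]
  have hw1 : ‖w‖ ≤ 2 * a * ‖e‖ := by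
    rw [hw, norm_smul]
    have : ‖c‖ ≤ 2 * a := hcn.trans (by linarith)
    exact mul_le_mul_of_nonneg_right this (norm_nonneg _)
  have hw2 : ‖w‖ ≤ 2 * A * ‖e‖ * ‖v‖ := by
    rw [hw, norm_smul]
    have h1 : ‖c‖ ≤ 2 * (A * ‖v‖) := hcn.trans (by linarith [b5 v])
    calc ‖c‖ * ‖e‖ ≤ 2 * (A * ‖v‖) * ‖e‖ := mul_le_mul_of_nonneg_right h1 (norm_nonneg _)
      _ = _ := by ring
  have hvw : ‖v - w‖ ≤ (1 + 2 * A * ‖e‖) * ‖v‖ := by
    refine (norm_sub_le _ _).trans ?_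
    linarith
  have hsplit : lv ρ z' v v = lv ρ z' (v - w) (v - w) + lv ρ z' (v - w) w + lv ρ z' w v := by
    have h1 : lv ρ z' v v = lv ρ z' ((v - w) + w) v := by rw [sub_add_cancel]
    have h2 : lv ρ z' (v - w) v = lv ρ z' (v - w) ((v - w) + w) := by rw [sub_add_cancel]
    rw [h1, lv_add_left, h2, lv_add_right]
  have e1 : ‖lv ρ z' (v - w) w‖ ≤ B * ((1 + 2 * A * ‖e‖) * ‖v‖) * (2 * a * ‖e‖) :=
    (b6 _ _).trans (by gcongr)
  have e2 : ‖lv ρ z' w v‖ ≤ B * (2 * a * ‖e‖) * ‖v‖ := (b6 _ _).trans (by gcongr)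
  have e3 : ‖lv ρ z v v - lv ρ z' v v‖ ≤ B * (T * ‖e‖) * ‖v‖ * ‖v‖ :=
    ((b2 v v).2).trans (by gcongr)
  have f1 := (abs_le.1 (Complex.abs_re_le_norm (lv ρ z' (v - w) w))).1
  have f2 := (abs_le.1 (Complex.abs_re_le_norm (lv ρ z' w v))).1
  have f3 := (abs_le.1 (Complex.abs_re_le_norm (lv ρ z v v - lv ρ z' v v))).1
  have f4 : (lv ρ z' v v).re = (lv ρ z' (v - w) (v - w)).re + (lv ρ z' (v - w) w).re +
      (lv ρ z' w v).re := by rw [hsplit, Complex.add_re, Complex.add_re]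
  rw [Complex.sub_re] at f3
  have f5 : (lv ρ z v v).re ≥ -(K * a * ‖v‖) - B * (T * ‖e‖) * ‖v‖ * ‖v‖ := by
    have g1 : B * ((1 + 2 * A * ‖e‖) * ‖v‖) * (2 * a * ‖e‖) + B * (2 * a * ‖e‖) * ‖v‖ =
        K * a * ‖v‖ := by rw [hK]; ring
    linarith
  refine le_trans ?_ f5
  rw [ha]
  have g2 : (K + K * A * ‖e‖ + B * ‖e‖) * (T * ‖v‖ ^ 2 + ‖v‖ * ‖el ρ z v‖) -
      (K * (‖el ρ z v‖ + A * (T * ‖e‖) * ‖v‖) * ‖v‖ + B * (T * ‖e‖) * ‖v‖ * ‖v‖) =
      K * (T * ‖v‖ ^ 2) + (K * A * ‖e‖ + B * ‖e‖) * (‖v‖ * ‖el ρ z v‖) := by ring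
  have g3 : 0 ≤ K * (T * ‖v‖ ^ 2) + (K * A * ‖e‖ + B * ‖e‖) * (‖v‖ * ‖el ρ z v‖) := by
    positivity
  linarith

end Lower

end Pool.Agent.Lib.MP_d7cc7c_an
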