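import Mathlib

/-!
# Noncommutative formal power series

`NS X K` is the ring of noncommutative formal power series in the letters `X` with coefficients in
the commutative ring `K`.  The product is the deconcatenation product.
-/

set_option linter.unusedSectionVars false

namespace Pool.Agent.Lib.MP_d7cc7c_an

/-- noncommutative formal power series in the letters `X` over `K` -/
structure NS (X K : Type*) where
  /-- the coefficient function -/
  toFun : List X → K

namespace NS

section Basic

variable {X K : Type*} [CommRing K]

instance : CoeFun (NS X K) (fun _ => List X → K) := ⟨NS.toFun⟩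

@[simp] theorem mk_apply (f : List X → K) (w : List X) : (⟨f⟩ : NS X K) w = f w := rfl

@[ext] theorem ext {f g : NS X K} (h : ∀ w, f w = g w) : f = g := by
  cases f; cases g; congr 1; exact funext h

theorem toFun_injective : Function.Injective (NS.toFun : NS X K → List X → K) := by
  intro f g h; ext w; exact congrFun h w

instance : Zero (NS X K) := ⟨⟨fun _ => 0⟩⟩
instance : Add (NS X K) := ⟨fun f g => ⟨fun w => f w + g w⟩⟩
instance : Neg (NS X K) := ⟨fun f => ⟨fun w => - f w⟩⟩
instance : Sub (NS X K) := ⟨fun f g => ⟨fun w => f w - g w⟩⟩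
instance instSMulNS {S : Type*} [SMul S K] : SMul S (NS X K) := ⟨fun c f => ⟨fun w => c • f w⟩⟩

@[simp] theorem add_app (f g : NS X K) (w : List X) : (f + g) w = f w + g w := rfl
@[simp] theorem sub_app (f g : NS X K) (w : List X) : (f - g) w = f w - g w := rfl
@[simp] theorem neg_app (f : NS X K) (w : List X) : (-f) w = - f w := rfl
@[simp] theorem zero_app (w : List X) : (0 : NS X K) w = 0 := rfl
@[simp] theorem smul_app {S : Type*} [SMul S K] (c : S) (f : NS X K)
    (w : List X) : (c • f) w = c • f w := rfl

instance : AddCommGroup (NS X K) :=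
  Function.Injective.addCommGroup NS.toFun toFun_injective rfl (fun _ _ => rfl) (fun _ => rfl)
    (fun _ _ => rfl) (fun _ _ => rfl) (fun _ _ => rfl)

/-- coefficient functions as an additive map -/
def toFunHom : NS X K →+ (List X → K) where
  toFun f := f.toFun
  map_zero' := rfl
  map_add' _ _ := rfl

instance instModuleNS {S : Type*} [Semiring S] [Module S K] : Module S (NS X K) :=
  Function.Injective.module S toFunHom toFun_injective (fun _ _ => rfl)

@[simp] theorem sum_app {ι : Type*} (s : Finset ι) (f : ι → NS X K) (w : List X) :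
    (∑ i ∈ s, f i) w = ∑ i ∈ s, f i w := by
  induction s using Finset.cons_induction with
  | empty => simp
  | cons a s ha ih => rw [Finset.sum_cons, Finset.sum_cons, add_app, ih]

/-- left quotient by a letter -/
def shift (x : X) (f : NS X K) : NS X K := ⟨fun w => f (x :: w)⟩

@[simp] theorem shift_apply (x : X) (f : NS X K) (w : List X) : shift x f w = f (x :: w) := rfl

/-- the product -/
def mulAux : List X → NS X K → NS X K → K
  | [], f, g => f [] * g []
  | (x :: w), f, g => f [] * g (x :: w) + mulAux w (shift x f) g

instance : Mul (NS X K) := ⟨fun f g => ⟨fun w => mulAux w f g⟩⟩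

/-- the unit series -/
def oneAux : List X → K
  | [] => 1
  | (_ :: _) => 0

instance : One (NS X K) := ⟨⟨oneAux⟩⟩

@[simp] theorem one_nil : (1 : NS X K) [] = 1 := rfl
@[simp] theorem one_cons (x : X) (w : List X) : (1 : NS X K) (x :: w) = 0 := rfl

@[simp] theorem mul_nil (f g : NS X K) : (f * g) [] = f [] * g [] := rfl
theorem mul_cons (f g : NS X K) (x : X) (w : List X) :
    (f * g) (x :: w) = f [] * g (x :: w) + (shift x f * g) w := rfl

theorem shift_mul (f g : NS X K) (x : X) :
    shift x (f * g) = f [] • shift x g + shift x f * g := by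
  ext w; simp [mul_cons]

theorem add_mul' (f g h : NS X K) : (f + g) * h = f * h + g * h := by
  ext w
  induction w generalizing f g with
  | nil => simp [add_mul]
  | cons x w ih =>
    have h1 : shift x (f + g) = shift x f + shift x g := rfl
    rw [add_app, mul_cons, mul_cons, mul_cons, h1, ih]
    simp; ring

theorem mul_add' (f g h : NS X K) : f * (g + h) = f * g + f * h := by
  ext w
  induction w generalizing f with
  | nil => simp [mul_add]
  | cons x w ih =>
    rw [add_app, mul_cons, mul_cons, mul_cons, ih]
    simp; ring

theorem smul_mul' (c : K) (f g : NS X K) : (c • f) * g = c • (f * g) := by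
  ext w
  induction w generalizing f with
  | nil => simp [mul_assoc]
  | cons x w ih =>
    have h1 : shift x (c • f) = c • shift x f := rfl
    rw [smul_app, mul_cons, mul_cons, h1, ih]
    simp; ring

theorem mul_smul' (c : K) (f g : NS X K) : f * (c • g) = c • (f * g) := by
  ext w
  induction w generalizing f with
  | nil => simp [mul_left_comm]
  | cons x w ih =>
    rw [smul_app, mul_cons, mul_cons, ih]
    simp; ring

theorem mul_assoc' (f g h : NS X K) : (f * g) * h = f * (g * h) := by
  ext w
  induction w generalizing f with
  | nil => simp [mul_assoc]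
  | cons x w ih =>
    rw [mul_cons, mul_cons, shift_mul, add_mul', smul_mul', add_app, smul_app, ih, mul_cons g h]
    simp; ring

theorem zero_mul' (f : NS X K) : 0 * f = 0 := by
  have := smul_mul' (0 : K) 0 f
  simpa using this

theorem mul_zero' (f : NS X K) : f * 0 = 0 := by
  have := mul_smul' (0 : K) f 0
  simpa using this

theorem one_mul' (f : NS X K) : 1 * f = f := by
  ext w
  cases w with
  | nil => simp
  | cons x w =>
    have h1 : shift x (1 : NS X K) = 0 := rfl
    rw [mul_cons, h1, zero_mul']; simp

theorem mul_one' (f : NS X K) : f * 1 = f := by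
  ext w
  induction w generalizing f with
  | nil => simp
  | cons x w ih => rw [mul_cons, ih]; simp

instance : Ring (NS X K) :=
  { (inferInstance : AddCommGroup (NS X K)), (inferInstance : Mul (NS X K)),
    (inferInstance : One (NS X K)) with
    left_distrib := mul_add'
    right_distrib := add_mul'
    zero_mul := zero_mul'
    mul_zero := mul_zero'
    mul_assoc := mul_assoc'
    one_mul := one_mul'
    mul_one := mul_one' }

instance : Algebra K (NS X K) := Algebra.ofModule smul_mul' mul_smul'

@[simp] theorem shift_add (x : X) (f g : NS X K) : shift x (f + g) = shift x f + shift x g := rfl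
@[simp] theorem shift_sub (x : X) (f g : NS X K) : shift x (f - g) = shift x f - shift x g := rfl
@[simp] theorem shift_neg (x : X) (f : NS X K) : shift x (-f) = - shift x f := rfl
@[simp] theorem shift_zero (x : X) : shift x (0 : NS X K) = 0 := rfl
@[simp] theorem shift_one (x : X) : shift x (1 : NS X K) = 0 := rfl
@[simp] theorem shift_smul {S : Type*} [SMul S K] (x : X) (c : S) (f : NS X K) :
    shift x (c • f) = c • shift x f := rfl

@[simp] theorem natCast_mul_apply (n : ℕ) (f : NS X K) (w : List X) :
    ((n : NS X K) * f) w = n * f w := by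
  have : (n : NS X K) * f = (n : K) • f := by
    rw [← nsmul_eq_mul, Nat.cast_smul_eq_nsmul]
  rw [this]; simp

end Basic

section Maps

variable {X K K' : Type*} [CommRing K] [CommRing K']

/-- apply an additive map coefficientwise -/
def amap (φ : K →+ K') (f : NS X K) : NS X K' := ⟨fun w => φ (f w)⟩

@[simp] theorem amap_apply (φ : K →+ K') (f : NS X K) (w : List X) : amap φ f w = φ (f w) := rfl

@[simp] theorem shift_amap (φ : K →+ K') (f : NS X K) (x : X) :
    shift x (amap φ f) = amap φ (shift x f) := rfl

theorem amap_add (φ : K →+ K') (f g : NS X K) : amap φ (f + g) = amap φ f + amap φ g := by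
  ext w; simp

theorem amap_sub (φ : K →+ K') (f g : NS X K) : amap φ (f - g) = amap φ f - amap φ g := by
  ext w; simp

theorem amap_neg (φ : K →+ K') (f : NS X K) : amap φ (-f) = - amap φ f := by
  ext w; simp

@[simp] theorem amap_zero (φ : K →+ K') : amap φ (0 : NS X K) = 0 := by
  ext w; simp

/-- twisted Leibniz rule -/
theorem amap_mul_twisted (α β : K →+* K') (δ : K →+ K')
    (hδ : ∀ a b, δ (a * b) = δ a * β b + α a * δ b) (f g : NS X K) :
    amap δ (f * g) = amap δ f * amap β.toAddMonoidHom g + amap α.toAddMonoidHom f * amap δ g := by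
  ext w
  induction w generalizing f with
  | nil => simp [hδ]
  | cons x w ih =>
    have h1 : δ ((shift x f * g) w) = _ := ih (shift x f)
    rw [amap_apply, mul_cons, map_add, hδ, h1, add_app, add_app, mul_cons, mul_cons]
    simp only [amap_apply, shift_amap, RingHom.toAddMonoidHom_eq_coe, AddMonoidHom.coe_coe]
    ring

/-- functoriality of `NS` in the coefficient ring -/
def map (φ : K →+* K') : NS X K →+* NS X K' where
  toFun f := ⟨fun w => φ (f w)⟩
  map_one' := by
    ext w; cases w <;> simp
  map_mul' f g := by
    ext w
    induction w generalizing f with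
    | nil => simp
    | cons x w ih =>
      have h1 : φ ((shift x f * g) w) = _ := ih (shift x f)
      show φ ((f * g) (x :: w)) = _
      rw [mul_cons, map_add, h1, mul_cons]
      simp; rfl
  map_zero' := by ext w; simp
  map_add' f g := by ext w; simp

@[simp] theorem map_apply (φ : K →+* K') (f : NS X K) (w : List X) : map φ f w = φ (f w) := rfl

theorem map_eq_amap (φ : K →+* K') (f : NS X K) : map φ f = amap φ.toAddMonoidHom f := rfl

theorem map_smul' (φ : K →+* K') (c : K) (f : NS X K) : map φ (c • f) = φ c • map φ f := by
  ext w; simp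

theorem map_map {K'' : Type*} [CommRing K''] (φ : K →+* K') (ψ : K' →+* K'') (f : NS X K) :
    map ψ (map φ f) = map (ψ.comp φ) f := rfl

theorem map_id (f : NS X K) : map (RingHom.id K) f = f := rfl

theorem map_injective (φ : K →+* K') (hφ : Function.Injective φ) :
    Function.Injective (map (X := X) φ) := by
  intro f g h
  ext w
  exact hφ (congrArg (fun a : NS X K' => a w) h)

end Maps

section Rename

variable {X K : Type*} [CommRing K]

/-- precomposition with `List.map s`. For a bijection `s` this is a ring automorphism. -/
def pre (s : X → X) : NS X K →+* NS X K where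
  toFun f := ⟨fun w => f (w.map s)⟩
  map_one' := by ext w; cases w <;> rfl
  map_mul' f g := by
    ext w
    induction w generalizing f with
    | nil => simp
    | cons x w ih =>
      show (f * g) (s x :: w.map s) = _
      rw [mul_cons, mul_cons]
      congr 1
      exact ih (shift (s x) f)
  map_zero' := by ext w; rfl
  map_add' f g := by ext w; rfl

@[simp] theorem pre_apply (s : X → X) (f : NS X K) (w : List X) : pre s f w = f (w.map s) := rfl

theorem pre_smul (s : X → X) (c : K) (f : NS X K) : pre s (c • f) = c • pre s f := rfl

end Rename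

section Order

variable {X K K' : Type*} [CommRing K] [CommRing K']

/-- `f` has order at least `n`: it vanishes on words of length `< n` -/
def Ord (n : ℕ) (f : NS X K) : Prop := ∀ w : List X, w.length < n → f w = 0

theorem Ord.mono {m n : ℕ} {f : NS X K} (h : Ord n f) (hmn : m ≤ n) : Ord m f :=
  fun w hw => h w (lt_of_lt_of_le hw hmn)

theorem ord_zero_left (f : NS X K) : Ord 0 f := fun _ hw => absurd hw (Nat.not_lt_zero _)

@[simp] theorem ord_zero (n : ℕ) : Ord n (0 : NS X K) := fun _ _ => rfl

theorem Ord.add {n : ℕ} {f g : NS X K} (hf : Ord n f) (hg : Ord n g) : Ord n (f + g) :=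
  fun w hw => by simp [hf w hw, hg w hw]

theorem Ord.sub {n : ℕ} {f g : NS X K} (hf : Ord n f) (hg : Ord n g) : Ord n (f - g) :=
  fun w hw => by simp [hf w hw, hg w hw]

theorem Ord.neg {n : ℕ} {f : NS X K} (hf : Ord n f) : Ord n (-f) :=
  fun w hw => by simp [hf w hw]

theorem Ord.smul {n : ℕ} {f : NS X K} (c : K) (hf : Ord n f) : Ord n (c • f) :=
  fun w hw => by simp [hf w hw]

theorem Ord.sum {ι : Type*} {n : ℕ} (s : Finset ι) {f : ι → NS X K}
    (hf : ∀ i ∈ s, Ord n (f i)) : Ord n (∑ i ∈ s, f i) :=
  fun w hw => by
    rw [sum_app]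
    exact Finset.sum_eq_zero fun i hi => hf i hi w hw

theorem Ord.mul {m n : ℕ} {f g : NS X K} (hf : Ord m f) (hg : Ord n g) : Ord (m + n) (f * g) := by
  intro w
  induction w generalizing f m with
  | nil =>
    intro hw
    rw [mul_nil]
    by_cases hm : 0 < m
    · rw [hf [] hm, zero_mul]
    · have : 0 < n := by
        have h2 : List.length ([] : List X) = 0 := rfl
        omega
      rw [hg [] this, mul_zero]
  | cons x w ih =>
    intro hw
    rw [mul_cons]
    cases m with
    | zero =>
      rw [hg (x :: w) (by omega), mul_zero, zero_add]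
      exact ih (m := 0) (ord_zero_left _) (by simp at hw ⊢; omega)
    | succ m =>
      rw [hf [] (by simp), zero_mul, zero_add]
      refine ih (m := m) (fun u hu => hf (x :: u) (by simpa using hu)) (by simp at hw ⊢; omega)

theorem ord_one_iff {f : NS X K} : Ord 1 f ↔ f [] = 0 := by
  constructor
  · intro h; exact h [] (by simp)
  · intro h w hw
    have : w = [] := by
      cases w with
      | nil => rfl
      | cons x w => simp at hw
    rw [this, h]

theorem Ord.pow {m : ℕ} {f : NS X K} (hf : Ord m f) (n : ℕ) : Ord (n * m) (f ^ n) := by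
  induction n with
  | zero => simpa using ord_zero_left (1 : NS X K)
  | succ n ih =>
    rw [pow_succ]
    have := ih.mul hf
    rwa [show (n + 1) * m = n * m + m by ring]

theorem Ord.amap {n : ℕ} {f : NS X K} (φ : K →+ K') (hf : Ord n f) : Ord n (amap φ f) :=
  fun w hw => by simp [hf w hw]

theorem Ord.map {n : ℕ} {f : NS X K} (φ : K →+* K') (hf : Ord n f) : Ord n (NS.map φ f) :=
  fun w hw => by simp [hf w hw]

theorem Ord.mul_left {n : ℕ} {g : NS X K} (f : NS X K) (hg : Ord n g) : Ord n (f * g) := by
  simpa using (ord_zero_left f).mul hg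

theorem Ord.mul_right {n : ℕ} {f : NS X K} (hf : Ord n f) (g : NS X K) : Ord n (f * g) := by
  simpa using hf.mul (ord_zero_left g)

/-- congruence of products: agreement up to length `n` -/
theorem mul_congr_le {n : ℕ} {f f' g g' : NS X K} (hf : ∀ w : List X, w.length ≤ n → f w = f' w)
    (hg : ∀ w : List X, w.length ≤ n → g w = g' w) :
    ∀ w : List X, w.length ≤ n → (f * g) w = (f' * g') w := by
  have h1 : Ord (n + 1) (f - f') := fun w hw => by
    rw [sub_app, hf w (Nat.lt_succ_iff.1 hw), sub_self]
  have h2 : Ord (n + 1) (g - g') := fun w hw => by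
    rw [sub_app, hg w (Nat.lt_succ_iff.1 hw), sub_self]
  intro w hw
  have h3 : f * g - f' * g' = (f - f') * g + f' * (g - g') := by noncomm_ring
  have h4 : Ord (n + 1) (f * g - f' * g') := by
    rw [h3]; exact (h1.mul_right _).add (h2.mul_left _)
  have := h4 w (by omega)
  rwa [sub_app, sub_eq_zero] at this

/-- if `f` agrees with `f'` on words shorter than `w` and `g [] = 0` then products agree at `w` -/
theorem mul_congr_lt {f f' g : NS X K} (hg : g [] = 0) (w : List X)
    (hf : ∀ u : List X, u.length < w.length → f u = f' u) : (f * g) w = (f' * g) w := by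
  have h1 : Ord w.length (f - f') := fun u hu => by rw [sub_app, hf u hu, sub_self]
  have h2 := (h1.mul (ord_one_iff.2 hg)) w (by omega)
  rw [sub_mul, sub_app, sub_eq_zero] at h2
  exact h2

theorem mul_congr_lt' {f g g' : NS X K} (hf : f [] = 0) (w : List X)
    (hg : ∀ u : List X, u.length < w.length → g u = g' u) : (f * g) w = (f * g') w := by
  have h1 : Ord w.length (g - g') := fun u hu => by rw [sub_app, hg u hu, sub_self]
  have h2 := ((ord_one_iff.2 hf).mul h1) w (by omega)
  rw [mul_sub, sub_app, sub_eq_zero] at h2
  exact h2

/-- homogeneous component -/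
def comp (n : ℕ) (f : NS X K) : NS X K := ⟨fun w => if w.length = n then f w else 0⟩

theorem comp_apply (n : ℕ) (f : NS X K) (w : List X) :
    comp n f w = if w.length = n then f w else 0 := rfl

theorem comp_self_apply (f : NS X K) (w : List X) : comp w.length f w = f w := by
  simp [comp_apply]

theorem comp_add (n : ℕ) (f g : NS X K) : comp n (f + g) = comp n f + comp n g := by
  ext w; simp only [comp_apply, add_app]; split_ifs <;> simp

theorem comp_sub (n : ℕ) (f g : NS X K) : comp n (f - g) = comp n f - comp n g := by
  ext w; simp only [comp_apply, sub_app]; split_ifs <;> simp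

theorem comp_neg (n : ℕ) (f : NS X K) : comp n (-f) = - comp n f := by
  ext w; simp only [comp_apply, neg_app]; split_ifs <;> simp

@[simp] theorem comp_zero (n : ℕ) : comp n (0 : NS X K) = 0 := by
  ext w; simp [comp_apply]

theorem comp_smul (n : ℕ) (c : K) (f : NS X K) : comp n (c • f) = c • comp n f := by
  ext w; simp only [comp_apply, smul_app]; split_ifs <;> simp

theorem comp_sum {ι : Type*} (n : ℕ) (s : Finset ι) (f : ι → NS X K) :
    comp n (∑ i ∈ s, f i) = ∑ i ∈ s, comp n (f i) := by
  ext w
  simp only [comp_apply, sum_app]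
  split_ifs <;> simp

theorem comp_amap (n : ℕ) (φ : K →+ K') (f : NS X K) : comp n (amap φ f) = amap φ (comp n f) := by
  ext w; simp only [comp_apply, amap_apply]; split_ifs <;> simp

theorem comp_map (n : ℕ) (φ : K →+* K') (f : NS X K) : comp n (map φ f) = map φ (comp n f) :=
  comp_amap n φ.toAddMonoidHom f

theorem comp_pre (n : ℕ) (s : X → X) (f : NS X K) : comp n (pre s f) = pre s (comp n f) := by
  ext w; simp [comp_apply]

theorem comp_comp_self (n : ℕ) (f : NS X K) : comp n (comp n f) = comp n f := by
  ext w
  simp only [comp_apply]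
  split_ifs <;> rfl

theorem comp_comp_ne {m n : ℕ} (h : m ≠ n) (f : NS X K) : comp m (comp n f) = 0 := by
  ext w
  simp only [comp_apply, zero_app]
  split_ifs with h1 h2
  · omega
  · rfl
  · rfl

theorem shift_comp_succ (n : ℕ) (f : NS X K) (x : X) :
    shift x (comp (n + 1) f) = comp n (shift x f) := by
  ext w; simp [comp_apply]

theorem shift_comp_zero (f : NS X K) (x : X) : shift x (comp 0 f) = 0 := by
  ext w; simp [comp_apply]

theorem comp_mul (n : ℕ) (f g : NS X K) :
    comp n (f * g) = ∑ p ∈ Finset.HasAntidiagonal.antidiagonal n, comp p.1 f * comp p.2 g := by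
  ext w
  induction w generalizing f n with
  | nil =>
    rw [sum_app]
    cases n with
    | zero => simp [comp_apply]
    | succ n =>
      rw [comp_apply, if_neg (by simp)]
      symm
      apply Finset.sum_eq_zero
      rintro ⟨i, j⟩ hij
      rw [Finset.HasAntidiagonal.mem_antidiagonal] at hij
      simp only at hij
      rw [mul_nil, comp_apply, comp_apply]
      by_cases hi : i = 0
      · have hj : ¬ (List.length ([] : List X) = j) := by simp; omega
        rw [if_neg hj, mul_zero]
      · have hi' : ¬ (List.length ([] : List X) = i) := by simpa using Ne.symm hi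
        rw [if_neg hi', zero_mul]
  | cons x w ih =>
    cases n with
    | zero =>
      rw [comp_apply, if_neg (by simp), sum_app]
      simp only [Finset.Nat.antidiagonal_zero, Finset.sum_singleton]
      rw [mul_cons, shift_comp_zero, zero_mul, zero_app, comp_apply 0 g, if_neg (by simp)]
      simp
    | succ n =>
      have h1 : comp (n + 1) (f * g) (x :: w) = f [] * (comp (n + 1) g (x :: w)) +
          comp n (shift x f * g) w := by
        simp only [comp_apply, List.length_cons, add_left_inj]
        split_ifs <;> simp [mul_cons]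
      rw [h1, ih, sum_app, sum_app, Finset.Nat.antidiagonal_succ, Finset.sum_cons,
        Finset.sum_map]
      simp only [mul_cons, Function.Embedding.prodMap, Function.Embedding.coeFn_mk,
        shift_comp_zero,
        zero_mul, zero_app, add_zero]
      have h3 : comp 0 f [] = f [] := by simp [comp_apply]
      rw [h3]
      congr 1
      apply Finset.sum_congr rfl
      rintro ⟨i, j⟩ _
      show (comp i (shift x f) * comp j g) w = comp (i + 1) f [] * comp j g (x :: w) +
        (shift x (comp (i + 1) f) * comp j g) w
      rw [shift_comp_succ]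
      simp [comp_apply]

/-- extensionality through components -/
theorem ext_comp {f g : NS X K} (h : ∀ n, comp n f = comp n g) : f = g := by
  ext w
  have := congrArg (fun a : NS X K => a w) (h w.length)
  simpa [comp_self_apply] using this

theorem comp_eq_zero_of_ord {n m : ℕ} {f : NS X K} (hf : Ord m f) (h : n < m) : comp n f = 0 := by
  ext w
  rw [comp_apply]
  split_ifs with h1
  · rw [hf w (by omega)]; rfl
  · rfl

theorem ord_comp (n : ℕ) (f : NS X K) : Ord n (comp n f) := by
  intro w hw
  rw [comp_apply, if_neg (by omega)]

/-- the sum of the components up to degree `n` -/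
def trun (n : ℕ) (f : NS X K) : NS X K := ⟨fun w => if w.length ≤ n then f w else 0⟩

theorem trun_apply_of_le {n : ℕ} {f : NS X K} {w : List X} (h : w.length ≤ n) :
    trun n f w = f w := by simp [trun, h]

theorem trun_eq_sum (n : ℕ) (f : NS X K) : trun n f = ∑ i ∈ Finset.range (n + 1), comp i f := by
  ext w
  rw [sum_app]
  by_cases h : w.length ≤ n
  · rw [trun_apply_of_le h, Finset.sum_eq_single w.length]
    · rw [comp_self_apply]
    · intro b _ hb
      rw [comp_apply, if_neg (Ne.symm hb)]
    · intro h2
      exact absurd (Finset.mem_range.2 (by omega)) h2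
  · rw [Finset.sum_eq_zero]
    · simp [trun, h]
    · intro i hi
      rw [Finset.mem_range] at hi
      rw [comp_apply, if_neg (by omega)]

end Order

section Euler

variable {X K K' : Type*} [CommRing K] [CommRing K']

/-- the Euler (degree) operator -/
def E (f : NS X K) : NS X K := ⟨fun w => (w.length : K) * f w⟩

@[simp] theorem E_apply (f : NS X K) (w : List X) : E f w = (w.length : K) * f w := rfl

theorem E_add (f g : NS X K) : E (f + g) = E f + E g := by ext w; simp [mul_add]
theorem E_sub (f g : NS X K) : E (f - g) = E f - E g := by ext w; simp [mul_sub]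
theorem E_neg (f : NS X K) : E (-f) = - E f := by ext w; simp
@[simp] theorem E_zero : E (0 : NS X K) = 0 := by ext w; simp
@[simp] theorem E_one : E (1 : NS X K) = 0 := by ext w; cases w <;> simp
theorem E_smul (c : K) (f : NS X K) : E (c • f) = c • E f := by ext w; simp; ring

theorem shift_E (x : X) (f : NS X K) : shift x (E f) = shift x f + E (shift x f) := by
  ext w; simp; ring

theorem E_mul (f g : NS X K) : E (f * g) = E f * g + f * E g := by
  ext w
  induction w generalizing f with
  | nil => simp
  | cons x w ih =>
    have h1 : E (f * g) (x :: w) = (w.length + 1 : K) * (f [] * g (x :: w)) +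
        E (shift x f * g) w + (shift x f * g) w := by
      simp only [E_apply, mul_cons, List.length_cons]; push_cast; ring
    rw [h1, ih, add_app, add_app, mul_cons, mul_cons, shift_E, add_mul' (shift x f)]
    simp only [add_app, E_apply, List.length_cons]
    push_cast
    simp only [List.length_nil, Nat.cast_zero, zero_mul]
    ring

theorem E_comp (n : ℕ) (f : NS X K) : E (comp n f) = (n : K) • comp n f := by
  ext w
  simp only [E_apply, comp_apply, smul_app, smul_eq_mul]
  split_ifs with h
  · rw [h]
  · simp

theorem comp_E (n : ℕ) (f : NS X K) : comp n (E f) = (n : K) • comp n f := by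
  ext w
  simp only [E_apply, comp_apply, smul_app, smul_eq_mul]
  split_ifs with h
  · rw [h]
  · simp

theorem E_map (φ : K →+* K') (f : NS X K) : E (map φ f) = map φ (E f) := by
  ext w; simp

theorem E_amap (φ : K →+ K') (f : NS X K) : E (amap φ f) = amap φ (E f) := by
  ext w; simp [← nsmul_eq_mul]

theorem E_pre (s : X → X) (f : NS X K) : E (pre s f) = pre s (E f) := by
  ext w; simp

theorem ord_one_E (f : NS X K) : (E f) [] = 0 := by simp

end Euler

section Dilation

variable {X K K' : Type*} [CommRing K] [CommRing K']

/-- dilation -/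
def dil (t : K) : NS X K →+* NS X K where
  toFun f := ⟨fun w => t ^ w.length * f w⟩
  map_one' := by ext w; cases w <;> simp
  map_mul' f g := by
    ext w
    have key : ∀ (w : List X) (c : K) (f : NS X K),
        c * t ^ w.length * (f * g) w = ((⟨fun u => c * t ^ u.length * f u⟩ : NS X K) *
          (⟨fun u => t ^ u.length * g u⟩ : NS X K)) w := by
      intro w
      induction w with
      | nil => intro c f; simp [mul_assoc]
      | cons x w ih =>
        intro c f
        rw [mul_cons, mul_cons]
        have h1 : (shift x (⟨fun u => c * t ^ u.length * f u⟩ : NS X K)) =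
            (⟨fun u => (c * t) * t ^ u.length * (shift x f) u⟩ : NS X K) := by
          ext u; simp [pow_succ]; ring
        rw [h1, ← ih]
        simp [pow_succ]; ring
    have := key w 1 f
    simpa using this
  map_zero' := by ext w; simp
  map_add' f g := by ext w; simp [mul_add]

@[simp] theorem dil_apply (t : K) (f : NS X K) (w : List X) : dil t f w = t ^ w.length * f w := rfl

theorem dil_map (φ : K →+* K') (t : K) (f : NS X K) : map φ (dil t f) = dil (φ t) (map φ f) := by
  ext w; simp

theorem dil_one (f : NS X K) : dil 1 f = f := by ext w; simp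

theorem dil_dil (s t : K) (f : NS X K) : dil s (dil t f) = dil (s * t) f := by
  ext w; simp [mul_pow, mul_assoc]

theorem E_dil (t : K) (f : NS X K) : E (dil t f) = dil t (E f) := by
  ext w; simp; ring

theorem comp_dil (n : ℕ) (t : K) (f : NS X K) : comp n (dil t f) = t ^ n • comp n f := by
  ext w
  simp only [comp_apply, dil_apply, smul_app, smul_eq_mul]
  split_ifs with h
  · rw [h]
  · simp

theorem dil_comp (n : ℕ) (t : K) (f : NS X K) : dil t (comp n f) = t ^ n • comp n f := by
  ext w
  simp only [comp_apply, dil_apply, smul_app, smul_eq_mul]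
  split_ifs with h
  · rw [h]
  · simp

theorem dil_pre (s : X → X) (t : K) (f : NS X K) : pre s (dil t f) = dil t (pre s f) := by
  ext w; simp

theorem dil_zero_of {f : NS X K} (hf : f [] = 1) : dil 0 f = 1 := by
  ext w; cases w <;> simp [hf]

end Dilation

section Fixpoint

variable {X K : Type*} [CommRing K]

/-- contractive maps -/
def Contr (Φ : NS X K → NS X K) : Prop :=
  ∀ (f g : NS X K) (w : List X), (∀ u : List X, u.length < w.length → f u = g u) → Φ f w = Φ g w

/-- the fixpoint of a contractive map -/
def fixp (Φ : NS X K → NS X K) : NS X K := ⟨fun w => (Φ^[w.length + 1] 0) w⟩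

theorem iterate_stable {Φ : NS X K → NS X K} (hΦ : Contr Φ) :
    ∀ (n : ℕ) (w : List X), w.length < n → ∀ m, n ≤ m → (Φ^[m] 0) w = (Φ^[n] 0) w := by
  intro n
  induction n with
  | zero => intro w hw; omega
  | succ n ih =>
    intro w hw m hm
    obtain ⟨m, rfl⟩ : ∃ m', m = m' + 1 := ⟨m - 1, by omega⟩
    rw [Function.iterate_succ_apply', Function.iterate_succ_apply']
    apply hΦ
    intro u hu
    exact ih u (by omega) m (by omega)

theorem fixp_eq {Φ : NS X K → NS X K} (hΦ : Contr Φ) : fixp Φ = Φ (fixp Φ) := by
  ext w
  show (Φ^[w.length + 1] 0) w = _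
  rw [Function.iterate_succ_apply']
  apply hΦ
  intro u hu
  exact iterate_stable hΦ (u.length + 1) u (by omega) w.length (by omega)

theorem Contr.unique {Φ : NS X K → NS X K} (hΦ : Contr Φ) {f g : NS X K} (hf : f = Φ f)
    (hg : g = Φ g) : f = g := by
  have key : ∀ (n : ℕ) (w : List X), w.length < n → f w = g w := by
    intro n
    induction n with
    | zero => intro w hw; omega
    | succ n ih =>
      intro w hw
      rw [hf, hg]
      apply hΦ
      intro u hu
      exact ih u (by omega)
  ext w
  exact key (w.length + 1) w (by omega)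

end Fixpoint

section Inverse

variable {X K K' : Type*} [CommRing K] [CommRing K']

/-- inverse of a series with constant term `1` -/
noncomputable def inv (f : NS X K) : NS X K := fixp (fun g => 1 - g * (f - 1))

theorem inv_contr {f : NS X K} (hf : f [] = 1) : Contr (fun g : NS X K => 1 - g * (f - 1)) := by
  intro g g' w h
  rw [sub_app, sub_app, mul_congr_lt (by simp [hf]) w h]

theorem inv_mul {f : NS X K} (hf : f [] = 1) : inv f * f = 1 := by
  have h2 : inv f = 1 - inv f * (f - 1) := fixp_eq (inv_contr hf)
  have h3 : inv f * f = inv f + inv f * (f - 1) := by noncomm_ring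
  rw [h3]
  nth_rewrite 1 [h2]
  abel

theorem inv_nil {f : NS X K} (hf : f [] = 1) : (inv f) [] = 1 := by
  have h1 := congrArg (fun a : NS X K => a []) (inv_mul hf)
  simpa [hf] using h1

theorem mul_inv {f : NS X K} (hf : f [] = 1) : f * inv f = 1 := by
  have h1 := inv_mul hf
  have h2 := inv_mul (inv_nil hf)
  calc f * inv f = 1 * (f * inv f) := (one_mul _).symm
    _ = (inv (inv f) * inv f) * (f * inv f) := by rw [h2]
    _ = inv (inv f) * (inv f * f) * inv f := by noncomm_ring
    _ = 1 := by rw [h1, mul_one, h2]

theorem inv_uniq {f g : NS X K} (hf : f [] = 1) (h : f * g = 1) : g = inv f := by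
  calc g = 1 * g := (one_mul _).symm
    _ = (inv f * f) * g := by rw [inv_mul hf]
    _ = inv f * (f * g) := mul_assoc _ _ _
    _ = inv f := by rw [h, mul_one]

theorem inv_uniq' {f g : NS X K} (hf : f [] = 1) (h : g * f = 1) : g = inv f := by
  calc g = g * 1 := (mul_one _).symm
    _ = g * (f * inv f) := by rw [mul_inv hf]
    _ = (g * f) * inv f := (mul_assoc _ _ _).symm
    _ = inv f := by rw [h, one_mul]

theorem inv_inv' {f : NS X K} (hf : f [] = 1) : inv (inv f) = f :=
  (inv_uniq (inv_nil hf) (inv_mul hf)).symm

theorem inv_one : inv (1 : NS X K) = 1 := (inv_uniq (by simp) (one_mul 1)).symm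

theorem inv_mul_rev {f g : NS X K} (hf : f [] = 1) (hg : g [] = 1) :
    inv (f * g) = inv g * inv f := by
  symm
  apply inv_uniq (by simp [hf, hg])
  calc f * g * (inv g * inv f) = f * (g * inv g) * inv f := by noncomm_ring
    _ = 1 := by rw [mul_inv hg, mul_one, mul_inv hf]

theorem map_inv (φ : K →+* K') {f : NS X K} (hf : f [] = 1) : map φ (inv f) = inv (map φ f) := by
  apply inv_uniq (by simp [hf])
  rw [← map_mul, mul_inv hf, map_one]

theorem pre_inv (s : X → X) {f : NS X K} (hf : f [] = 1) : pre s (inv f) = inv (pre s f) := by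
  apply inv_uniq (by simp [hf])
  rw [← map_mul, mul_inv hf, map_one]

theorem dil_inv (t : K) {f : NS X K} (hf : f [] = 1) : dil t (inv f) = inv (dil t f) := by
  apply inv_uniq (by simp [hf])
  rw [← map_mul, mul_inv hf, map_one]

theorem inv_mul_cancel_left' {f : NS X K} (hf : f [] = 1) (g : NS X K) : inv f * (f * g) = g := by
  rw [← mul_assoc, inv_mul hf, one_mul]

theorem mul_inv_cancel_left' {f : NS X K} (hf : f [] = 1) (g : NS X K) : f * (inv f * g) = g := by
  rw [← mul_assoc, mul_inv hf, one_mul]

theorem mul_inv_cancel_right' {f : NS X K} (hf : f [] = 1) (g : NS X K) : g * f * inv f = g := by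
  rw [mul_assoc, mul_inv hf, mul_one]

theorem inv_mul_cancel_right' {f : NS X K} (hf : f [] = 1) (g : NS X K) : g * inv f * f = g := by
  rw [mul_assoc, inv_mul hf, mul_one]

theorem E_inv {f : NS X K} (hf : f [] = 1) : E (inv f) = - (inv f * E f * inv f) := by
  have h1 : E (inv f * f) = 0 := by rw [inv_mul hf, E_one]
  rw [E_mul] at h1
  have h2 : E (inv f) * f = - (inv f * E f) := eq_neg_of_add_eq_zero_left h1
  calc E (inv f) = E (inv f) * f * inv f := (mul_inv_cancel_right' hf _).symm
    _ = _ := by rw [h2]; noncomm_ring

end Inverse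

section Letters

variable {X K K' : Type*} [CommRing K] [CommRing K'] [DecidableEq X]

/-- a letter as a series -/
def letterAux (x : X) : List X → K
  | [y] => if y = x then 1 else 0
  | _ => 0

/-- a letter as a series -/
def letter (x : X) : NS X K := ⟨letterAux x⟩

@[simp] theorem letter_nil (x : X) : (letter x : NS X K) [] = 0 := rfl
@[simp] theorem letter_single (x y : X) : (letter x : NS X K) [y] = if y = x then 1 else 0 := rfl
@[simp] theorem letter_cons_cons (x y z : X) (w : List X) :
    (letter x : NS X K) (y :: z :: w) = 0 := rfl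

theorem shift_letter (x y : X) : shift y (letter x : NS X K) = if y = x then 1 else 0 := by
  ext w
  cases w with
  | nil => simp only [shift_apply, letter_single]; split_ifs <;> rfl
  | cons z w => simp only [shift_apply, letter_cons_cons]; split_ifs <;> rfl

theorem letter_mul_cons (x y : X) (f : NS X K) (w : List X) :
    ((letter x : NS X K) * f) (y :: w) = if y = x then f w else 0 := by
  rw [mul_cons, shift_letter, letter_nil, zero_mul, zero_add]
  split_ifs
  · rw [one_mul]
  · rw [zero_mul]; rfl

theorem map_letter (φ : K →+* K') (x : X) : map φ (letter x : NS X K) = letter x := by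
  ext w
  rcases w with _ | ⟨y, _ | ⟨z, w⟩⟩
  · simp
  · simp only [map_apply, letter_single]; split_ifs <;> simp
  · simp

theorem amap_letter_mul (φ : K →+ K') (x : X) (f : NS X K) :
    amap φ ((letter x : NS X K) * f) = (letter x : NS X K') * amap φ f := by
  ext w
  cases w with
  | nil => simp
  | cons y w =>
    rw [amap_apply, letter_mul_cons, letter_mul_cons]
    split_ifs <;> simp

theorem amap_mul_letter (φ : K →+ K') (x : X) (f : NS X K) :
    amap φ (f * (letter x : NS X K)) = amap φ f * (letter x : NS X K') := by
  ext w
  induction w generalizing f with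
  | nil => simp
  | cons y w ih =>
    have h1 : φ ((shift y f * (letter x : NS X K)) w) = _ := ih (shift y f)
    rw [amap_apply, mul_cons, mul_cons, map_add, h1, shift_amap]
    congr 1
    cases w with
    | nil => simp only [letter_single, amap_apply]; split_ifs <;> simp
    | cons z w => simp

theorem comp_letter_one (x : X) : comp 1 (letter x : NS X K) = letter x := by
  ext w
  rcases w with _ | ⟨y, _ | ⟨z, w⟩⟩ <;> simp [comp_apply]

theorem comp_letter_ne {n : ℕ} (hn : n ≠ 1) (x : X) : comp n (letter x : NS X K) = 0 := by
  rw [← comp_letter_one, comp_comp_ne hn]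

theorem ord_letter (x : X) : Ord 1 (letter x : NS X K) := ord_one_iff.2 (letter_nil x)

theorem pre_letter (s : X → X) (hs : Function.Involutive s) (x : X) :
    pre s (letter x : NS X K) = letter (s x) := by
  ext w
  rcases w with _ | ⟨y, _ | ⟨z, w⟩⟩
  · simp
  · simp only [pre_apply, List.map_cons, List.map_nil, letter_single]
    congr 1
    rw [eq_iff_iff]
    constructor
    · intro h; rw [← h, hs]
    · intro h; rw [h, hs]
  · simp

end Letters

section Congruence

variable {X K : Type*} [CommRing K]

/-- agreement on words of length at most `n` -/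
def Agr (n : ℕ) (f g : NS X K) : Prop := ∀ w : List X, w.length ≤ n → f w = g w

theorem Agr.refl (n : ℕ) (f : NS X K) : Agr n f f := fun _ _ => rfl
theorem Agr.symm {n : ℕ} {f g : NS X K} (h : Agr n f g) : Agr n g f := fun w hw => (h w hw).symm
theorem Agr.trans {n : ℕ} {f g h : NS X K} (h1 : Agr n f g) (h2 : Agr n g h) : Agr n f h :=
  fun w hw => (h1 w hw).trans (h2 w hw)
theorem Agr.mul {n : ℕ} {f f' g g' : NS X K} (hf : Agr n f f') (hg : Agr n g g') :
    Agr n (f * g) (f' * g') := mul_congr_le hf hg
theorem Agr.add {n : ℕ} {f f' g g' : NS X K} (hf : Agr n f f') (hg : Agr n g g') :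
    Agr n (f + g) (f' + g') := fun w hw => by rw [add_app, add_app, hf w hw, hg w hw]
theorem Agr.sub {n : ℕ} {f f' g g' : NS X K} (hf : Agr n f f') (hg : Agr n g g') :
    Agr n (f - g) (f' - g') := fun w hw => by rw [sub_app, sub_app, hf w hw, hg w hw]
theorem Agr.smul {n : ℕ} {f f' : NS X K} (c : K) (hf : Agr n f f') :
    Agr n (c • f) (c • f') := fun w hw => by rw [smul_app, smul_app, hf w hw]
theorem agr_iff_ord {n : ℕ} {f g : NS X K} : Agr n f g ↔ Ord (n + 1) (f - g) := by
  constructor
  · intro h w hw; rw [sub_app, h w (by omega), sub_self]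
  · intro h w hw
    have := h w (by omega)
    rwa [sub_app, sub_eq_zero] at this

theorem agr_trun (n : ℕ) (f : NS X K) : Agr n (trun n f) f := fun _ hw => trun_apply_of_le hw

end Congruence

end NS

end Pool.Agent.Lib.MP_d7cc7c_an
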