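import Pool.Agent.Lib.MP_d7cc7c_an.Family

/-!
# Vanishing of the Levi form coefficients
-/

set_option linter.unusedSectionVars false

namespace Pool.Agent.Lib.MP_d7cc7c_an

open NS MvPolynomial ComplexConjugate ComplexOrder

section Weights

variable {r : ℕ}

theorem exists_pole (x : LP ℂ) : ∃ N0 : ℕ, ∀ N : ℕ, N0 ≤ N → ∃ p : Polynomial ℂ,
    Polynomial.toLaurent p = LaurentPolynomial.T N * x := by
  obtain ⟨n, f', hf⟩ := LaurentPolynomial.exists_T_pow x
  refine ⟨n, fun N hN => ⟨f' * Polynomial.X ^ (N - n), ?_⟩⟩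
  rw [map_mul, hf, Polynomial.toLaurent_X_pow, mul_assoc, ← LaurentPolynomial.T_add, mul_comm]
  congr 2
  omega

theorem exists_even_pole (f : NS (Lt r) (LP ℂ)) (K : ℕ) : ∃ N : ℕ, Even N ∧
    ∀ w : List (Lt r), w.length ≤ K → ∃ p : Polynomial ℂ,
      Polynomial.toLaurent p = LaurentPolynomial.T N * f w := by
  choose N0 hN0 using fun w : List (Lt r) => exists_pole (f w)
  have hfin : Set.Finite {w : List (Lt r) | w.length ≤ K} := List.finite_length_le _ _
  refine ⟨2 * hfin.toFinset.sup N0, even_two_mul _, fun w hw => hN0 w _ ?_⟩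
  have : N0 w ≤ hfin.toFinset.sup N0 := Finset.le_sup (f := N0) (by simpa using hw)
  omega

/-- a word as a series -/
noncomputable def wS : List (Lt r) → NS (Lt r) ℂ
  | [] => 1
  | (x :: u) => letter x * wS u

theorem wS_apply (u w : List (Lt r)) : wS u w = if w = u then 1 else 0 := by
  induction u generalizing w with
  | nil => cases w <;> simp [wS]
  | cons x u ih =>
    cases w with
    | nil => simp [wS]
    | cons y w =>
      rw [wS, letter_mul_cons, ih]
      by_cases h1 : y = x
      · by_cases h2 : w = u <;> simp [h1, h2]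
      · simp [h1]

theorem two_conj {x y : ℂ} (h : ∀ c : ℂ, c * x + conj c * y = 0) : x = 0 ∧ y = 0 := by
  have h1 := h 1
  have h2 := h Complex.I
  simp only [one_mul, map_one, Complex.conj_I] at h1 h2
  have h3 : x - y = 0 := by
    have : Complex.I * (x - y) = 0 := by rw [← h2]; ring
    exact (mul_eq_zero.1 this).resolve_left Complex.I_ne_zero
  constructor
  · linear_combination (h1 + h3) / 2
  · linear_combination (h1 - h3) / 2

theorem unit_neg_one : ((-1 : ℂˣ) : ℂ) = -1 := by simp

theorem conj_neg_one : conj ((-1 : ℂˣ) : ℂ) = (((-1 : ℂˣ)⁻¹ : ℂˣ) : ℂ) := by simp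

theorem isDisc_one : IsDisc (starRingEnd ℂ) (1 : NS (Lt r) (LP ℂ)) 1 1 where
  qg := isGrp_one
  qb := QB.one
  hg := isGrp_one
  hr := map_one _
  h1 := map_one _
  hφ := by rw [map_one, mul_one]

/-- the Levi form vanishes at the points reached by discs -/
theorem levi_disc {P : Pol (Lt r)} (hR : Rinv P) (hP : PSH P)
    (h0 : ∀ g : NS (Lt r) ℂ, IsGrp g → sg g = g → ev g P = 0)
    (h1 : ∀ Z ∈ LieS (Lt r) ℂ, D1 P 1 Z = 0 ∧ D1b P 1 Z = 0)
    {q h : NS (Lt r) (LP ℂ)} {φ : NS (Lt r) (Polynomial ℂ)}
    (hd : IsDisc (starRingEnd ℂ) q h φ) (i j : Fin r) :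
    Lev P (NS.map (eL (-1)) h) (NS.map (eL (-1)) h * letter (i, false))
      (NS.map (eL (-1)) h * letter (j, false)) = 0 := by
  set h' := NS.map (eL (-1)) h with hh'
  set q' := NS.map (eL (-1)) q with hq'
  have hφ1 : dval φ (-1) = h' * q' := by
    have := hd.dval_eq (-1)
    rwa [unit_neg_one] at this
  have hq'b : QB q' := hd.qb.map _
  have hq'g : IsGrp q' := hd.qg.map _
  set Z := NS.inv q' * letter (j, false) * q' with hZ
  have hZm : Z ∈ LieS (Lt r) ℂ := conj_mem_LieS' hq'g (mem_LieS_of_lie (letter_mem_lie _))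
  obtain ⟨K, hK1, hK2⟩ := pderiv_bd (p := Dzb Z P)
  obtain ⟨N, hN, hp⟩ := exists_even_pole (h * letter (i, false) * q) K
  choose! p hp using hp
  set y : Polynomial ℂ := (Polynomial.X + 1) * (Polynomial.C (-1/2) * (Polynomial.X - 1)) with hy
  have hay : ∀ w : List (Lt r), w.length ≤ K →
      (Polynomial.toLaurent y * LaurentPolynomial.T N) *
        (h * letter (i, false) * q : NS (Lt r) (LP ℂ)) w = Polynomial.toLaurent (y * p w) := by
    intro w hw
    rw [map_mul Polynomial.toLaurent y (p w), hp w hw]; ring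
  have he1 : e1 (Polynomial.toLaurent y * LaurentPolynomial.T N) = 0 := by
    rw [map_mul, e1_T, mul_one]
    show eL (1 : ℂˣ) (Polynomial.toLaurent y) = 0
    rw [eL_toLaurent, hy]
    simp
  obtain ⟨Q, H, Φ, H', Φ', hds, -, hΦ0, hd1, hd2, -, hΦ', -⟩ :=
    exists_family hd i (Polynomial.toLaurent y * LaurentPolynomial.T N) he1 K (by
      intro w hw
      rw [hay w hw, ngL_toLaurent])
  have hΦw : ∀ w : List (Lt r), w.length ≤ K → Φ' w = y * p w := by
    intro w hw
    apply Polynomial.toLaurent_injective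
    rw [hΦ' w hw, hay w hw]
  have ha : HasDer (fun t => dval (Φ t) (-1)) (dval Φ' (-1)) 0 := fun w => hd1 (-1) w
  have hb : HasDer (fun t => dval (dder (Φ t)) (-1)) (dval (dder Φ') (-1)) 0 :=
    fun w => hd2 (-1) w
  have ha0 : Agr K (dval Φ' (-1)) 0 := by
    intro w hw
    rw [dval_apply, hΦw w hw, hy]
    simp
  have hb0 : Agr K (dval (dder Φ') (-1)) (h' * letter (i, false) * q') := by
    intro w hw
    rw [dval_apply, dder_apply, hΦw w hw, hy]
    have e1 : (Polynomial.derivative ((Polynomial.X + 1) *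
        (Polynomial.C (-1/2 : ℂ) * (Polynomial.X - 1)) * p w)).eval (-1) = (p w).eval (-1) := by
      simp [Polynomial.derivative_mul]
      ring
    rw [e1]
    have e2 : (p w).eval (-1) = eL (-1) (Polynomial.toLaurent (p w)) := by
      rw [eL_toLaurent, unit_neg_one]
    rw [e2, hp w hw, map_mul, eL_T]
    have e3 : (((-1 : ℂˣ) ^ (N : ℤ) : ℂˣ) : ℂ) = 1 := by
      rw [zpow_natCast, Units.val_pow_eq_pow_val, unit_neg_one, hN.neg_one_pow]
    rw [e3, one_mul]
    have e4 : h' * letter (i, false) * q' =
        NS.map (eL (-1)) (h * letter (i, false) * q) := by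
      rw [map_mul, map_mul, map_letter]
    rw [e4]; rfl
  have hder := hasDerivAt_D1 (Dzb Z P) ha hb (by
    intro v hv
    have e1 := D1_congr_right (hK2 v hv) (dval (Φ 0) (-1)) ha0
    have e2 := D1b_congr_right (hK2 v hv) (dval (Φ 0) (-1)) ha0
    rw [e1, e2]; simp)
  have hfield : ∀ k u : NS (Lt r) ℂ, D1 (Dzb Z P) k u = Lev P k u (k * Z) := by
    intro k u
    rw [D1, Dzb, Lev_fields' _ _ _ (ahol_Dzb Z)]
    simp only [map_mul, evS_genb, evS_cst, cc_cc]
  have hzero : (fun t : ℝ => D1 (Dzb Z P) (dval (Φ t) (-1)) (dval (dder (Φ t)) (-1))) =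
      fun _ => 0 := by
    funext t
    rw [hfield]
    exact propA hR hP h0 h1 (hds t) hZm
  rw [hzero] at hder
  have h2 := hder.unique (hasDerivAt_const 0 (0 : ℂ))
  rw [D1_congr_right hK1 _ hb0, hΦ0, hfield, hφ1] at h2
  have h3 : h' * q' * Z = h' * letter (j, false) * q' := by
    rw [hZ, mul_assoc h' q', mul_assoc (NS.inv q'), mul_inv_cancel_left' hq'b.1, ← mul_assoc]
  rw [h3, Lev_of_rinv (fun k => hR k _ hq'b)] at h2
  exact h2

/-- functionals vanishing at the points reached by discs -/
theorem functional_disc (W : Finset (List (Lt r))) (Λ : List (Lt r) → ℂ)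
    (hF : ∀ (q h : NS (Lt r) (LP ℂ)) (φ : NS (Lt r) (Polynomial ℂ)),
      IsDisc (starRingEnd ℂ) q h φ → ∑ w ∈ W, Λ w * (NS.map (eL (-1)) h) w = 0) :
    ∀ w ∈ W, Λ w = 0 := by
  have key : ∀ (u : List (Lt r)) (q h : NS (Lt r) (LP ℂ)) (φ : NS (Lt r) (Polynomial ℂ)),
      IsDisc (starRingEnd ℂ) q h φ →
      ∑ w ∈ W, Λ w * (NS.map (eL (-1)) h * wS u : NS (Lt r) ℂ) w = 0 := by
    intro u
    induction u with
    | nil =>
      intro q h φ hd
      rw [wS, mul_one]
      exact hF q h φ hd
    | cons x u ih =>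
      intro q h φ hd
      obtain ⟨i, b⟩ := x
      set K := W.sup List.length with hK
      obtain ⟨N, hN, hp⟩ := exists_even_pole (h * letter (i, false) * q) K
      choose! p hp using hp
      have hc : ∀ c : ℂ,
          c * ∑ w ∈ W, Λ w * (NS.map (eL (-1)) h * (letter (i, false) * wS u) : NS (Lt r) ℂ) w +
          conj c * ∑ w ∈ W, Λ w *
            (NS.map (eL (-1)) h * (letter (i, true) * wS u) : NS (Lt r) ℂ) w = 0 := by
        intro c
        set y : Polynomial ℂ := Polynomial.C (-c/2) * (Polynomial.X - 1) with hy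
        have hay : ∀ w : List (Lt r), w.length ≤ K →
            (Polynomial.toLaurent y * LaurentPolynomial.T N) *
              (h * letter (i, false) * q : NS (Lt r) (LP ℂ)) w =
              Polynomial.toLaurent (y * p w) := by
          intro w hw
          rw [map_mul Polynomial.toLaurent y (p w), hp w hw]; ring
        have he1 : e1 (Polynomial.toLaurent y * LaurentPolynomial.T N) = 0 := by
          rw [map_mul, e1_T, mul_one]
          show eL (1 : ℂˣ) (Polynomial.toLaurent y) = 0
          rw [eL_toLaurent, hy]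
          simp
        obtain ⟨Q, H, Φ, H', Φ', hds, hH0, -, -, -, hd3, -, hH'⟩ :=
          exists_family hd i (Polynomial.toLaurent y * LaurentPolynomial.T N) he1 K (by
            intro w hw
            rw [hay w hw, ngL_toLaurent])
        have ha : HasDer (fun t => NS.map (eL (-1)) (H t)) (NS.map (eL (-1)) H') 0 :=
          fun w => hd3 (-1) w
        have ha2 := ha.mul_const (wS u)
        have h1 : HasDerivAt (fun t : ℝ => ∑ w ∈ W, Λ w *
            (NS.map (eL (-1)) (H t) * wS u : NS (Lt r) ℂ) w)
            (∑ w ∈ W, Λ w * (NS.map (eL (-1)) H' * wS u : NS (Lt r) ℂ) w) 0 := by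
          apply HasDerivAt.fun_sum
          intro w _
          exact (ha2 w).const_mul _
        have h2 : (fun t : ℝ => ∑ w ∈ W, Λ w *
            (NS.map (eL (-1)) (H t) * wS u : NS (Lt r) ℂ) w) = fun _ => 0 := by
          funext t
          exact ih _ _ _ (hds t)
        rw [h2] at h1
        have h3 := h1.unique (hasDerivAt_const 0 (0 : ℂ))
        have hea : eL (-1) (Polynomial.toLaurent y * LaurentPolynomial.T N) = c := by
          rw [map_mul, eL_T, eL_toLaurent, unit_neg_one, zpow_natCast,
            Units.val_pow_eq_pow_val, unit_neg_one, hN.neg_one_pow, hy]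
          simp
          ring
        have hea2 : eL (-1) (cL (starRingEnd ℂ) (Polynomial.toLaurent y *
            LaurentPolynomial.T N)) = conj c := by
          rw [eL_cL _ _ conj_neg_one, hea]
        have h4 : Agr K (NS.map (eL (-1)) H')
            (NS.map (eL (-1)) h * (c • letter (i, false) + conj c • letter (i, true))) := by
          intro w hw
          rw [map_apply, hH' w hw]
          have e4 : NS.map (eL (-1)) h * (c • letter (i, false) + conj c • letter (i, true)) =
              NS.map (eL (-1)) (h * ((Polynomial.toLaurent y * LaurentPolynomial.T N) •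
                letter (i, false) + cL (starRingEnd ℂ) (Polynomial.toLaurent y *
                LaurentPolynomial.T N) • letter (i, true))) := by
            rw [map_mul, map_add, NS.map_smul', NS.map_smul', map_letter, map_letter, hea, hea2]
          rw [e4]; rfl
        have h5 : ∀ w ∈ W, (NS.map (eL (-1)) H' * wS u : NS (Lt r) ℂ) w =
            c * (NS.map (eL (-1)) h * (letter (i, false) * wS u) : NS (Lt r) ℂ) w +
            conj c * (NS.map (eL (-1)) h * (letter (i, true) * wS u) : NS (Lt r) ℂ) w := by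
          intro w hw
          have e1 : w.length ≤ K := Finset.le_sup (f := List.length) hw
          rw [(h4.mul (Agr.refl K (wS u))) w e1]
          have e2 : NS.map (eL (-1)) h * (c • letter (i, false) + conj c • letter (i, true)) *
              wS u = c • (NS.map (eL (-1)) h * (letter (i, false) * wS u)) +
              conj c • (NS.map (eL (-1)) h * (letter (i, true) * wS u)) := by
            rw [mul_add, add_mul, mul_smul_comm, mul_smul_comm, smul_mul_assoc, smul_mul_assoc,
              mul_assoc, mul_assoc]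
          rw [e2]; rfl
        rw [Finset.mul_sum, Finset.mul_sum, ← Finset.sum_add_distrib, ← h3]
        apply Finset.sum_congr rfl
        intro w hw
        rw [h5 w hw]; ring
      have h6 := two_conj hc
      cases b
      · exact h6.1
      · exact h6.2
  intro u hu
  have h1 := key u 1 1 1 isDisc_one
  rw [map_one, one_mul, Finset.sum_eq_single u] at h1
  · simpa [wS_apply] using h1
  · intro w _ hw
    rw [wS_apply, if_neg hw, mul_zero]
  · intro h; exact absurd hu h

/-- vanishing of the coefficients of the Levi form -/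
theorem levi_coeff {P : Pol (Lt r)} (hR : Rinv P) (hP : PSH P)
    (h0 : ∀ g : NS (Lt r) ℂ, IsGrp g → sg g = g → ev g P = 0)
    (h1 : ∀ Z ∈ LieS (Lt r) ℂ, D1 P 1 Z = 0 ∧ D1b P 1 Z = 0)
    (i j : Fin r) (W : Finset (List (Lt r))) (Λ : List (Lt r) → ℂ)
    (hΛ : ∀ g : NS (Lt r) ℂ, IsGrp g → sg g = g →
      Lev P g (g * letter (i, false)) (g * letter (j, false)) = ∑ w ∈ W, Λ w * g w) :
    ∀ w ∈ W, Λ w = 0 := by
  apply functional_disc
  intro q h φ hd
  rw [← hΛ _ (hd.hg.map _) (hd.real _ conj_neg_one)]
  exact levi_disc hR hP h0 h1 hd i j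

end Weights

end Pool.Agent.Lib.MP_d7cc7c_an
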