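import Pool.Agent.Lib.MP_d7cc7c_an.Lie

/-!
# Real polynomials on the space of noncommutative power series

`Pol α` is the ring of polynomials in the coefficients `h w` and their conjugates.
-/

set_option linter.unusedSectionVars false

namespace Pool.Agent.Lib.MP_d7cc7c_an

open NS MvPolynomial ComplexConjugate

section Basic

/-- polynomials in the coefficients of a series and their conjugates -/
abbrev Pol (α : Type*) := MvPolynomial (List α × Bool) ℂ

variable {α : Type*}

/-- coefficientwise conjugation -/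
noncomputable def cc : NS α ℂ →+* NS α ℂ := NS.map (starRingEnd ℂ)

@[simp] theorem cc_apply (f : NS α ℂ) (w : List α) : cc f w = conj (f w) := rfl

theorem cc_smul (c : ℂ) (f : NS α ℂ) : cc (c • f) = conj c • cc f := by
  ext w; simp

theorem cc_cc (f : NS α ℂ) : cc (cc f) = f := by ext w; simp

variable {K : Type*} [CommRing K] [Algebra ℂ K]

/-- the point of the variable set given by a pair of series -/
def pt (a a' : NS α K) : List α × Bool → K := fun v => if v.2 then a' v.1 else a v.1

@[simp] theorem pt_false (a a' : NS α K) (w : List α) : pt a a' (w, false) = a w := rfl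
@[simp] theorem pt_true (a a' : NS α K) (w : List α) : pt a a' (w, true) = a' w := rfl

/-- evaluation in an algebra -/
noncomputable def evK (a a' : NS α K) : Pol α →ₐ[ℂ] K := aeval (pt a a')

theorem evK_X (a a' : NS α K) (v : List α × Bool) : evK a a' (X v) = pt a a' v := aeval_X _ _

@[simp] theorem evK_X_false (a a' : NS α K) (w : List α) : evK a a' (X (w, false)) = a w :=
  aeval_X _ _
@[simp] theorem evK_X_true (a a' : NS α K) (w : List α) : evK a a' (X (w, true)) = a' w :=
  aeval_X _ _

theorem evK_comp {K' : Type*} [CommRing K'] [Algebra ℂ K'] (φ : K →ₐ[ℂ] K') (a a' : NS α K)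
    (p : Pol α) : φ (evK a a' p) = evK (NS.map (φ : K →+* K') a) (NS.map (φ : K →+* K') a') p := by
  have : φ.comp (evK a a') = evK (NS.map (φ : K →+* K') a) (NS.map (φ : K →+* K') a') := by
    apply MvPolynomial.algHom_ext
    rintro ⟨w, b⟩
    cases b <;> simp
  exact congrArg (fun f => f p) this

/-- evaluation at a complex series -/
noncomputable def ev (h : NS α ℂ) : Pol α →ₐ[ℂ] ℂ := evK h (cc h)

theorem ev_X (h : NS α ℂ) (v : List α × Bool) : ev h (X v) = pt h (cc h) v := aeval_X _ _

@[simp] theorem ev_X_false (h : NS α ℂ) (w : List α) : ev h (X (w, false)) = h w := aeval_X _ _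
@[simp] theorem ev_X_true (h : NS α ℂ) (w : List α) : ev h (X (w, true)) = conj (h w) :=
  aeval_X _ _

@[simp] theorem ev_C (h : NS α ℂ) (c : ℂ) : ev h (C c) = c := by
  rw [ev, evK, aeval_C]; rfl

/-- constant series -/
noncomputable def cst : NS α ℂ →+* NS α (Pol α) := NS.map C

@[simp] theorem cst_apply (u : NS α ℂ) (w : List α) : cst u w = C (u w) := rfl

/-- the generic series -/
noncomputable def gen : NS α (Pol α) := ⟨fun w => X (w, false)⟩

/-- the conjugate generic series -/
noncomputable def genb : NS α (Pol α) := ⟨fun w => X (w, true)⟩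

@[simp] theorem gen_apply (w : List α) : (gen : NS α (Pol α)) w = X (w, false) := rfl
@[simp] theorem genb_apply (w : List α) : (genb : NS α (Pol α)) w = X (w, true) := rfl

/-- evaluation of series of polynomials -/
noncomputable def evS (h : NS α ℂ) : NS α (Pol α) →+* NS α ℂ := NS.map (ev h : Pol α →+* ℂ)

@[simp] theorem evS_apply (h : NS α ℂ) (A : NS α (Pol α)) (w : List α) :
    evS h A w = ev h (A w) := rfl

@[simp] theorem evS_gen (h : NS α ℂ) : evS h gen = h := by ext w; simp
@[simp] theorem evS_genb (h : NS α ℂ) : evS h genb = cc h := by ext w; simp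
@[simp] theorem evS_cst (h u : NS α ℂ) : evS h (cst u) = u := by ext w; simp

/-- holomorphic vector fields -/
noncomputable def dv (A : NS α (Pol α)) : Derivation ℂ (Pol α) (Pol α) :=
  mkDerivation ℂ (fun v => if v.2 then 0 else A v.1)

/-- antiholomorphic vector fields -/
noncomputable def dvb (A : NS α (Pol α)) : Derivation ℂ (Pol α) (Pol α) :=
  mkDerivation ℂ (fun v => if v.2 then A v.1 else 0)

@[simp] theorem dv_X_false (A : NS α (Pol α)) (w : List α) : dv A (X (w, false)) = A w := by
  simp [dv, mkDerivation_X]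
@[simp] theorem dv_X_true (A : NS α (Pol α)) (w : List α) : dv A (X (w, true)) = 0 := by
  simp [dv, mkDerivation_X]
@[simp] theorem dvb_X_false (A : NS α (Pol α)) (w : List α) : dvb A (X (w, false)) = 0 := by
  simp [dvb, mkDerivation_X]
@[simp] theorem dvb_X_true (A : NS α (Pol α)) (w : List α) : dvb A (X (w, true)) = A w := by
  simp [dvb, mkDerivation_X]
@[simp] theorem dv_C (A : NS α (Pol α)) (c : ℂ) : dv A (C c) = 0 := derivation_C _ _
@[simp] theorem dvb_C (A : NS α (Pol α)) (c : ℂ) : dvb A (C c) = 0 := derivation_C _ _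

theorem dv_add (A B : NS α (Pol α)) : dv (A + B) = dv A + dv B := by
  apply derivation_ext
  rintro ⟨w, b⟩
  cases b <;> simp

theorem dvb_add (A B : NS α (Pol α)) : dvb (A + B) = dvb A + dvb B := by
  apply derivation_ext
  rintro ⟨w, b⟩
  cases b <;> simp

theorem dv_smul (c : Pol α) (A : NS α (Pol α)) : dv (c • A) = c • dv A := by
  apply derivation_ext
  rintro ⟨w, b⟩
  cases b <;> simp

theorem dvb_smul (c : Pol α) (A : NS α (Pol α)) : dvb (c • A) = c • dvb A := by
  apply derivation_ext
  rintro ⟨w, b⟩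
  cases b <;> simp

/-- pointwise dependence of vector fields -/
theorem ev_dv (h : NS α ℂ) (A : NS α (Pol α)) (p : Pol α) :
    ev h (dv A p) = ev h (dv (cst (evS h A)) p) := by
  induction p using MvPolynomial.induction_on with
  | C a => simp
  | add p q hp hq => simp [hp, hq]
  | mul_X p v hp =>
    obtain ⟨w, b⟩ := v
    cases b <;> simp [Derivation.leibniz, hp]

theorem ev_dvb (h : NS α ℂ) (A : NS α (Pol α)) (p : Pol α) :
    ev h (dvb A p) = ev h (dvb (cst (evS h A)) p) := by
  induction p using MvPolynomial.induction_on with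
  | C a => simp
  | add p q hp hq => simp [hp, hq]
  | mul_X p v hp =>
    obtain ⟨w, b⟩ := v
    cases b <;> simp [Derivation.leibniz, hp]

/-- commutation of a holomorphic and an antiholomorphic vector field -/
theorem dvb_dv_comm {A B : NS α (Pol α)} (hA : ∀ w, dvb B (A w) = 0) (hB : ∀ w, dv A (B w) = 0)
    (p : Pol α) : dvb B (dv A p) = dv A (dvb B p) := by
  have h : ⁅dvb B, dv A⁆ = 0 := by
    apply derivation_ext
    rintro ⟨w, b⟩
    cases b <;> simp [Derivation.commutator_apply, hA, hB]
  have h2 := congrArg (fun D => D p) h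
  simp only [Derivation.commutator_apply, Derivation.zero_apply] at h2
  exact sub_eq_zero.1 h2

theorem dv_cst_comm (u v : NS α ℂ) (p : Pol α) :
    dv (cst u) (dv (cst v) p) = dv (cst v) (dv (cst u) p) := by
  have h : ⁅dv (cst u), dv (cst v)⁆ = 0 := by
    apply derivation_ext
    rintro ⟨w, b⟩
    cases b <;> simp [Derivation.commutator_apply]
  have h2 := congrArg (fun D => D p) h
  simp only [Derivation.commutator_apply, Derivation.zero_apply] at h2
  exact sub_eq_zero.1 h2

/-- holomorphic directional derivative -/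
noncomputable def D1 (p : Pol α) (h u : NS α ℂ) : ℂ := ev h (dv (cst u) p)

/-- antiholomorphic directional derivative -/
noncomputable def D1b (p : Pol α) (h u : NS α ℂ) : ℂ := ev h (dvb (cst (cc u)) p)

/-- Levi form -/
noncomputable def Lev (p : Pol α) (h u v : NS α ℂ) : ℂ :=
  ev h (dvb (cst (cc v)) (dv (cst u) p))

theorem Lev_eq (p : Pol α) (h u v : NS α ℂ) :
    Lev p h u v = ev h (dv (cst u) (dvb (cst (cc v)) p)) := by
  rw [Lev, dvb_dv_comm] <;> simp

theorem Lev_eq_D1b (p : Pol α) (h u v : NS α ℂ) : Lev p h u v = D1b (dv (cst u) p) h v := rfl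

theorem Lev_eq_D1 (p : Pol α) (h u v : NS α ℂ) :
    Lev p h u v = D1 (dvb (cst (cc v)) p) h u := Lev_eq p h u v

theorem cst_smul (c : ℂ) (u : NS α ℂ) : cst (c • u) = (C c : Pol α) • cst u := by
  ext w; simp

theorem D1_add_right (p : Pol α) (h u v : NS α ℂ) : D1 p h (u + v) = D1 p h u + D1 p h v := by
  simp [D1, map_add, dv_add]

theorem D1_smul_right (p : Pol α) (h : NS α ℂ) (c : ℂ) (u : NS α ℂ) :
    D1 p h (c • u) = c * D1 p h u := by
  simp [D1, cst_smul, dv_smul]

theorem D1b_add_right (p : Pol α) (h u v : NS α ℂ) : D1b p h (u + v) = D1b p h u + D1b p h v := by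
  simp [D1b, map_add, dvb_add]

theorem D1b_smul_right (p : Pol α) (h : NS α ℂ) (c : ℂ) (u : NS α ℂ) :
    D1b p h (c • u) = conj c * D1b p h u := by
  simp [D1b, cc_smul, cst_smul, dvb_smul]

@[simp] theorem D1_zero_right (p : Pol α) (h : NS α ℂ) : D1 p h 0 = 0 := by
  have := D1_smul_right p h 0 0
  simpa using this

@[simp] theorem D1b_zero_right (p : Pol α) (h : NS α ℂ) : D1b p h 0 = 0 := by
  have := D1b_smul_right p h 0 0
  simpa using this

theorem D1_sum_right {ι : Type*} (s : Finset ι) (p : Pol α) (h : NS α ℂ) (u : ι → NS α ℂ) :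
    D1 p h (∑ i ∈ s, u i) = ∑ i ∈ s, D1 p h (u i) := by
  induction s using Finset.cons_induction with
  | empty => simp
  | cons a s ha ih => rw [Finset.sum_cons, Finset.sum_cons, D1_add_right, ih]

theorem D1b_sum_right {ι : Type*} (s : Finset ι) (p : Pol α) (h : NS α ℂ) (u : ι → NS α ℂ) :
    D1b p h (∑ i ∈ s, u i) = ∑ i ∈ s, D1b p h (u i) := by
  induction s using Finset.cons_induction with
  | empty => simp
  | cons a s ha ih => rw [Finset.sum_cons, Finset.sum_cons, D1b_add_right, ih]

theorem Lev_add_left (p : Pol α) (h u u' v : NS α ℂ) :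
    Lev p h (u + u') v = Lev p h u v + Lev p h u' v := by
  rw [Lev_eq_D1, Lev_eq_D1, Lev_eq_D1, D1_add_right]

theorem Lev_add_right (p : Pol α) (h u v v' : NS α ℂ) :
    Lev p h u (v + v') = Lev p h u v + Lev p h u v' := by
  rw [Lev_eq_D1b, Lev_eq_D1b, Lev_eq_D1b, D1b_add_right]

theorem Lev_smul_left (p : Pol α) (h : NS α ℂ) (c : ℂ) (u v : NS α ℂ) :
    Lev p h (c • u) v = c * Lev p h u v := by
  rw [Lev_eq_D1, Lev_eq_D1, D1_smul_right]

theorem Lev_smul_right (p : Pol α) (h : NS α ℂ) (c : ℂ) (u v : NS α ℂ) :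
    Lev p h u (c • v) = conj c * Lev p h u v := by
  rw [Lev_eq_D1b, Lev_eq_D1b, D1b_smul_right]

@[simp] theorem Lev_zero_left (p : Pol α) (h v : NS α ℂ) : Lev p h 0 v = 0 := by
  rw [Lev_eq_D1, D1_zero_right]

@[simp] theorem Lev_zero_right (p : Pol α) (h v : NS α ℂ) : Lev p h v 0 = 0 := by
  rw [Lev_eq_D1b, D1b_zero_right]

theorem D1_mul (p q : Pol α) (h u : NS α ℂ) :
    D1 (p * q) h u = ev h p * D1 q h u + ev h q * D1 p h u := by
  simp [D1, Derivation.leibniz]

theorem D1b_mul (p q : Pol α) (h u : NS α ℂ) :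
    D1b (p * q) h u = ev h p * D1b q h u + ev h q * D1b p h u := by
  simp [D1b, Derivation.leibniz]

theorem D1_add (p q : Pol α) (h u : NS α ℂ) : D1 (p + q) h u = D1 p h u + D1 q h u := by
  simp [D1]
theorem D1b_add (p q : Pol α) (h u : NS α ℂ) : D1b (p + q) h u = D1b p h u + D1b q h u := by
  simp [D1b]
theorem D1_sub (p q : Pol α) (h u : NS α ℂ) : D1 (p - q) h u = D1 p h u - D1 q h u := by
  simp [D1]
theorem D1b_sub (p q : Pol α) (h u : NS α ℂ) : D1b (p - q) h u = D1b p h u - D1b q h u := by
  simp [D1b]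
theorem D1_smul (c : ℂ) (q : Pol α) (h u : NS α ℂ) : D1 (c • q) h u = c * D1 q h u := by
  simp [D1]
theorem D1b_smul (c : ℂ) (q : Pol α) (h u : NS α ℂ) : D1b (c • q) h u = c * D1b q h u := by
  simp [D1b]

/-! ### bounds on the words occurring in a polynomial -/

/-- all words occurring in `p` have length at most `N` -/
def Bd (N : ℕ) (p : Pol α) : Prop := ∀ v ∈ p.vars, v.1.length ≤ N

theorem exists_Bd (p : Pol α) : ∃ N, Bd N p := by
  refine ⟨p.vars.sup (fun v => v.1.length), fun v hv => ?_⟩
  exact Finset.le_sup (f := fun v : List α × Bool => v.1.length) hv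

theorem Bd.mono {M N : ℕ} {p : Pol α} (h : Bd M p) (hMN : M ≤ N) : Bd N p :=
  fun v hv => (h v hv).trans hMN

theorem ev_congr {N : ℕ} {p : Pol α} (hp : Bd N p) {h h' : NS α ℂ} (hh : Agr N h h') :
    ev h p = ev h' p := by
  rw [ev, ev, evK, evK, aeval_def, aeval_def]
  refine eval₂Hom_congr' rfl ?_ rfl
  rintro ⟨w, b⟩ hw _
  have := hh w (hp _ hw)
  cases b <;> simp [this]

theorem D1_congr_right {N : ℕ} {p : Pol α} (hp : Bd N p) (h : NS α ℂ) {u u' : NS α ℂ}
    (hu : Agr N u u') : D1 p h u = D1 p h u' := by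
  rw [D1, D1, derivation_eq_of_forall_mem_vars (D₂ := dv (cst u'))]
  rintro ⟨w, b⟩ hw
  have := hu w (hp _ hw)
  cases b <;> simp [this]

theorem D1b_congr_right {N : ℕ} {p : Pol α} (hp : Bd N p) (h : NS α ℂ) {u u' : NS α ℂ}
    (hu : Agr N u u') : D1b p h u = D1b p h u' := by
  rw [D1b, D1b, derivation_eq_of_forall_mem_vars (D₂ := dvb (cst (cc u')))]
  rintro ⟨w, b⟩ hw
  have := hu w (hp _ hw)
  cases b <;> simp [this]

theorem derivation_sum_apply {ι σ : Type*} (s : Finset ι)
    (D : ι → Derivation ℂ (MvPolynomial σ ℂ) (MvPolynomial σ ℂ)) (p : MvPolynomial σ ℂ) :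
    (∑ i ∈ s, D i) p = ∑ i ∈ s, D i p := by
  induction s using Finset.cons_induction with
  | empty => simp
  | cons a s ha ih => rw [Finset.sum_cons, Finset.sum_cons, Derivation.add_apply, ih]

theorem mkDerivation_eq_sum (f : List α × Bool → Pol α) (p : Pol α) :
    mkDerivation ℂ f p = ∑ v ∈ p.vars, f v * pderiv v p := by
  have h : mkDerivation ℂ f p =
      (∑ v ∈ p.vars, f v • (pderiv v : Derivation ℂ (Pol α) (Pol α))) p := by
    apply derivation_eq_of_forall_mem_vars
    intro v hv
    rw [mkDerivation_X, derivation_sum_apply, Finset.sum_eq_single v]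
    · simp
    · intro u _ hu
      rw [Derivation.smul_apply, pderiv_X_of_ne (Ne.symm hu), smul_zero]
    · intro h; exact absurd hv h
  rw [h, derivation_sum_apply]
  rfl

theorem D1_eq_sum (p : Pol α) (h u : NS α ℂ) :
    D1 p h u = ∑ v ∈ p.vars, (if v.2 then 0 else u v.1) * ev h (pderiv v p) := by
  rw [D1, dv, mkDerivation_eq_sum, map_sum]
  apply Finset.sum_congr rfl
  rintro ⟨w, b⟩ _
  cases b <;> simp

theorem D1b_eq_sum (p : Pol α) (h u : NS α ℂ) :
    D1b p h u = ∑ v ∈ p.vars, (if v.2 then conj (u v.1) else 0) * ev h (pderiv v p) := by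
  rw [D1b, dvb, mkDerivation_eq_sum, map_sum]
  apply Finset.sum_congr rfl
  rintro ⟨w, b⟩ _
  cases b <;> simp

end Basic

end Pool.Agent.Lib.MP_d7cc7c_an
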