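import Pool.Agent.Lib.MP_d7cc7c_an.Texp

/-!
# The real structure, the antiholomorphic subgroup and the filtration
-/

set_option linter.unusedSectionVars false

namespace Pool.Agent.Lib.MP_d7cc7c_an

open NS MvPolynomial ComplexConjugate

/-- the letters: `(i, false)` stands for `L_i` and `(i, true)` for its conjugate -/
abbrev Lt (r : ℕ) := Fin r × Bool

/-- conjugation of letters -/
def bar {r : ℕ} (x : Lt r) : Lt r := (x.1, !x.2)

theorem bar_invol {r : ℕ} : Function.Involutive (bar : Lt r → Lt r) := by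
  rintro ⟨i, b⟩
  simp [bar]

section NSlemmas

variable {α K : Type*} [CommRing K]

theorem dil_psub (t : K) (a : NS α K) (F : PowerSeries K) :
    dil t (psub a F) = psub (dil t a) F := by
  ext w
  simp only [dil_apply, psub_apply]
  rw [Finset.mul_sum]
  apply Finset.sum_congr rfl
  intro n _
  rw [← map_pow, dil_apply]
  ring

theorem dil_nexp [Algebra ℚ K] (t : K) (a : NS α K) : dil t (nexp a) = nexp (dil t a) :=
  dil_psub t a _

/-- filtration: `g - 1` has order at least `s` -/
def Dn (s : ℕ) (g : NS α K) : Prop := Ord s (g - 1)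

theorem Dn.nil {s : ℕ} (hs : 0 < s) {g : NS α K} (h : Dn s g) : g [] = 1 := by
  have := h [] hs
  rwa [sub_app, one_nil, sub_eq_zero] at this

theorem Dn.mono {s s' : ℕ} {g : NS α K} (h : Dn s g) (hs : s' ≤ s) : Dn s' g := Ord.mono h hs

theorem dn_one_of {g : NS α K} (h : g [] = 1) : Dn 1 g := by
  rw [Dn, ord_one_iff, sub_app, h, one_nil, sub_self]

theorem Dn.mul {s : ℕ} {g k : NS α K} (hg : Dn s g) (hk : Dn s k) : Dn s (g * k) := by
  have h : g * k - 1 = (g - 1) * k + (k - 1) := by noncomm_ring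
  rw [Dn, h]
  exact (hg.mul_right _).add hk

theorem Dn.inv {s : ℕ} (hs : 0 < s) {g : NS α K} (hg : Dn s g) : Dn s (NS.inv g) := by
  have h0 := hg.nil hs
  have h : NS.inv g - 1 = -(NS.inv g * (g - 1)) := by
    rw [mul_sub, inv_mul h0]; noncomm_ring
  rw [Dn, h]
  exact (hg.mul_left _).neg

theorem Dn.conj {s : ℕ} {g k : NS α K} (hk : Dn s k) (hg : g [] = 1) :
    Dn s (g * k * NS.inv g) := by
  have h : g * k * NS.inv g - 1 = g * (k - 1) * NS.inv g := by
    rw [mul_sub, sub_mul, mul_one, mul_inv hg]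
  rw [Dn, h]
  exact (hk.mul_left _).mul_right _

theorem Dn.comm {s : ℕ} {u g : NS α K} (hu : Dn s u) (hs : 0 < s) (hg : g [] = 1) :
    Dn (s + 1) (NS.inv g * u * g * NS.inv u) := by
  have hu0 := hu.nil hs
  have h : NS.inv g * u * g * NS.inv u - 1 =
      NS.inv g * ((u - 1) * (g - 1) - (g - 1) * (u - 1)) * NS.inv u := by
    have h1 : (u - 1) * (g - 1) - (g - 1) * (u - 1) = u * g - g * u := by noncomm_ring
    rw [h1, mul_sub, sub_mul]
    have h2 : NS.inv g * (g * u) * NS.inv u = 1 := by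
      rw [inv_mul_cancel_left' hg, mul_inv hu0]
    rw [h2]
    noncomm_ring
  rw [Dn, h]
  refine Ord.mul_right (Ord.mul_left _ ?_) _
  refine Ord.sub (Ord.mul hu (dn_one_of hg)) ?_
  have := Ord.mul (dn_one_of hg) hu
  rwa [add_comm] at this

/-- removing the leading term -/
theorem dn_nexp_neg_mul [Algebra ℚ K] {s : ℕ} (hs : 0 < s) {W g : NS α K} (hW : Ord s W)
    (h : Ord (s + 1) (g - 1 - W)) : Dn (s + 1) (nexp (-W) * g) := by
  have h1 : nexp (-W) * g - 1 = (nexp (-W) - 1) * (g - 1) + (nexp (-W) - 1 - (-W)) +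
      (g - 1 - W) := by noncomm_ring
  rw [Dn, h1]
  have h2 : Ord s (g - 1) := by
    have : g - 1 = (g - 1 - W) + W := by abel
    rw [this]
    exact (h.mono (by omega)).add hW
  refine Ord.add (Ord.add ?_ ?_) h
  · exact ((ord_nexp_sub_one hs hW.neg).mul h2).mono (by omega)
  · exact (ord_nexp_sub_one_sub hs hW.neg).mono (by omega)

/-- the commutator of two exponentials -/
theorem comm_nexp [Algebra ℚ K] {a b : ℕ} (ha : 0 < a) (hb : 0 < b) {A B : NS α K}
    (hA : Ord a A) (hB : Ord b B) :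
    Ord (a + b + 1) (nexp (-A) * nexp (-B) * nexp A * nexp B - 1 - (A * B - B * A)) := by
  have hA0 : A [] = 0 := hA [] ha
  have hB0 : B [] = 0 := hB [] hb
  set u := nexp A with hu
  set v := nexp B with hv
  set u' := nexp (-A) with hu'
  set v' := nexp (-B) with hv'
  have huu : u' * u = 1 := nexp_neg_mul hA0
  have hvv : v' * v = 1 := nexp_neg_mul hB0
  have h1 : u' * v' * u * v - 1 = u' * v' * (u * v - v * u) := by
    have : u' * v' * (v * u) = 1 := by
      calc u' * v' * (v * u) = u' * (v' * v) * u := by noncomm_ring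
        _ = 1 := by rw [hvv, mul_one, huu]
    rw [mul_sub, this]; noncomm_ring
  have h2 : u * v - v * u - (A * B - B * A) = ((u - 1 - A) * (v - 1) + A * (v - 1 - B)) -
      ((v - 1 - B) * (u - 1) + B * (u - 1 - A)) := by noncomm_ring
  have hu1 : Ord a (u - 1) := ord_nexp_sub_one ha hA
  have hu2 : Ord (2 * a) (u - 1 - A) := ord_nexp_sub_one_sub ha hA
  have hv1 : Ord b (v - 1) := ord_nexp_sub_one hb hB
  have hv2 : Ord (2 * b) (v - 1 - B) := ord_nexp_sub_one_sub hb hB
  have h3 : Ord (a + b + 1) (u * v - v * u - (A * B - B * A)) := by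
    rw [h2]
    refine Ord.sub (Ord.add ?_ ?_) (Ord.add ?_ ?_)
    · exact (hu2.mul hv1).mono (by omega)
    · exact (hA.mul hv2).mono (by omega)
    · exact (hv2.mul hu1).mono (by omega)
    · exact (hB.mul hu2).mono (by omega)
  have h4 : Ord (a + b) (u * v - v * u) := by
    have : u * v - v * u = (u - 1) * (v - 1) - (v - 1) * (u - 1) := by noncomm_ring
    rw [this]
    refine Ord.sub (hu1.mul hv1) ?_
    exact (hv1.mul hu1).mono (by omega)
  have h5 : u' * v' * u * v - 1 - (A * B - B * A) = (u' * v' - 1) * (u * v - v * u) +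
      (u * v - v * u - (A * B - B * A)) := by
    rw [h1]; noncomm_ring
  rw [h5]
  refine Ord.add ?_ h3
  have h6 : Ord 1 (u' * v' - 1) := by
    rw [ord_one_iff]
    simp [hu', hv']
  exact (h6.mul h4).mono (by omega)

/-- support on words in the conjugate letters -/
def AS {r : ℕ} (q : NS (Lt r) K) : Prop := ∀ w : List (Lt r), (∃ x ∈ w, x.2 = false) → q w = 0

/-- the group of series with constant term one supported on words in the conjugate letters -/
def QB {r : ℕ} (q : NS (Lt r) K) : Prop := q [] = 1 ∧ AS q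

theorem AS.one {r : ℕ} : AS (1 : NS (Lt r) K) := by
  rintro w ⟨x, hx, _⟩
  cases w with
  | nil => simp at hx
  | cons y w => rfl

theorem AS.zero {r : ℕ} : AS (0 : NS (Lt r) K) := fun _ _ => rfl

theorem AS.add {r : ℕ} {f g : NS (Lt r) K} (hf : AS f) (hg : AS g) : AS (f + g) :=
  fun w hw => by rw [add_app, hf w hw, hg w hw, add_zero]

theorem AS.sub {r : ℕ} {f g : NS (Lt r) K} (hf : AS f) (hg : AS g) : AS (f - g) :=
  fun w hw => by rw [sub_app, hf w hw, hg w hw, sub_zero]

theorem AS.smul {r : ℕ} {f : NS (Lt r) K} (c : K) (hf : AS f) : AS (c • f) :=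
  fun w hw => by rw [smul_app, hf w hw, smul_zero]

theorem AS.mul {r : ℕ} {f g : NS (Lt r) K} (hf : AS f) (hg : AS g) : AS (f * g) := by
  intro w
  induction w generalizing f with
  | nil => rintro ⟨x, hx, _⟩; simp at hx
  | cons x w ih =>
    rintro ⟨y, hy, hy2⟩
    rw [mul_cons, hg (x :: w) ⟨y, hy, hy2⟩, mul_zero, zero_add]
    by_cases hx : x.2 = false
    · have : shift x f = 0 := by
        ext u
        exact hf (x :: u) ⟨x, List.mem_cons_self, hx⟩
      rw [this, zero_mul]; rfl
    · have hyw : y ∈ w := by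
        rcases List.mem_cons.1 hy with h | h
        · subst h; exact absurd hy2 hx
        · exact h
      exact ih (f := shift x f)
        (fun u ⟨z, hz, hz2⟩ => hf (x :: u) ⟨z, List.mem_cons_of_mem _ hz, hz2⟩) ⟨y, hyw, hy2⟩

theorem AS.pow {r : ℕ} {f : NS (Lt r) K} (hf : AS f) (n : ℕ) : AS (f ^ n) := by
  induction n with
  | zero => simpa using AS.one
  | succ n ih => rw [pow_succ]; exact ih.mul hf

theorem AS.psub {r : ℕ} {f : NS (Lt r) K} (hf : AS f) (F : PowerSeries K) : AS (psub f F) := by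
  intro w hw
  rw [psub_apply]
  exact Finset.sum_eq_zero fun n _ => by rw [(hf.pow n) w hw, mul_zero]

theorem QB.one {r : ℕ} : QB (1 : NS (Lt r) K) := ⟨rfl, AS.one⟩

theorem QB.mul {r : ℕ} {f g : NS (Lt r) K} (hf : QB f) (hg : QB g) : QB (f * g) :=
  ⟨by simp [hf.1, hg.1], hf.2.mul hg.2⟩

theorem QB.nexp {r : ℕ} [Algebra ℚ K] {f : NS (Lt r) K} (hf : AS f) : QB (nexp f) :=
  ⟨nexp_nil f, hf.psub _⟩

theorem AS.inv {r : ℕ} {f : NS (Lt r) K} (hf : QB f) : AS (NS.inv f) := by
  have key : ∀ (n : ℕ) (w : List (Lt r)), w.length < n → (∃ x ∈ w, x.2 = false) →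
      (NS.inv f) w = 0 := by
    intro n
    induction n with
    | zero => intro w hw; omega
    | succ n ih =>
      intro w hw hx
      have h1 : NS.inv f = 1 - NS.inv f * (f - 1) := by
        rw [mul_sub, inv_mul hf.1, mul_one]; abel
      -- compare with the series truncated to admissible words
      let g : NS (Lt r) K := ⟨fun u => if u.length < w.length then (NS.inv f) u else 0⟩
      have hg : AS g := by
        intro u hu
        show (if u.length < w.length then (NS.inv f) u else 0) = 0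
        split_ifs with h
        · exact ih u (by omega) hu
        · rfl
      have h2 : (NS.inv f * (f - 1)) w = (g * (f - 1)) w := by
        apply mul_congr_lt (by simp [hf.1])
        intro u hu
        show _ = (if u.length < w.length then (NS.inv f) u else 0)
        rw [if_pos hu]
      rw [h1, sub_app, h2, (hg.mul (hf.2.sub AS.one)) w hx, AS.one w hx, sub_zero]
  intro w hw
  exact key (w.length + 1) w (by omega) hw

theorem QB.inv {r : ℕ} {f : NS (Lt r) K} (hf : QB f) : QB (NS.inv f) :=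
  ⟨inv_nil hf.1, AS.inv hf⟩

theorem AS.map {r : ℕ} {K' : Type*} [CommRing K'] {f : NS (Lt r) K} (φ : K →+* K')
    (hf : AS f) : AS (NS.map φ f) := fun w hw => by rw [map_apply, hf w hw, map_zero]

theorem QB.map {r : ℕ} {K' : Type*} [CommRing K'] {f : NS (Lt r) K} (φ : K →+* K')
    (hf : QB f) : QB (NS.map φ f) := ⟨by simp [hf.1], hf.2.map φ⟩

theorem AS.letter {r : ℕ} (i : Fin r) : AS (letter (i, true) : NS (Lt r) K) := by
  rintro w ⟨x, hx, hx2⟩
  rcases w with _ | ⟨y, _ | ⟨z, w⟩⟩
  · simp at hx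
  · have : x = y := by simpa using hx
    subst this
    rw [letter_single, if_neg]
    rintro rfl
    simp at hx2
  · rfl

theorem QB.dil {r : ℕ} {f : NS (Lt r) K} (t : K) (hf : QB f) : QB (NS.dil t f) :=
  ⟨by simp [hf.1], fun w hw => by rw [dil_apply, hf.2 w hw, mul_zero]⟩

end NSlemmas

section RealStructure

variable {r : ℕ}

/-- conjugation of series -/
noncomputable def sg : NS (Lt r) ℂ →+* NS (Lt r) ℂ := cc.comp (NS.pre bar)

@[simp] theorem sg_apply (f : NS (Lt r) ℂ) (w : List (Lt r)) :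
    sg f w = conj (f (w.map bar)) := rfl

theorem sg_smul (c : ℂ) (f : NS (Lt r) ℂ) : sg (c • f) = conj c • sg f := by
  ext w; simp

theorem sg_sg (f : NS (Lt r) ℂ) : sg (sg f) = f := by
  ext w
  simp only [sg_apply, Complex.conj_conj, List.map_map]
  rw [bar_invol.comp_self, List.map_id]

theorem sg_nexp (a : NS (Lt r) ℂ) : sg (nexp a) = nexp (sg a) := by
  show cc (NS.pre bar (nexp a)) = _
  rw [pre_nexp, cc_nexp]; rfl

theorem sg_letter (x : Lt r) : sg (letter x : NS (Lt r) ℂ) = letter (bar x) := by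
  show cc (NS.pre bar (letter x)) = _
  rw [pre_letter bar bar_invol]
  exact map_letter _ _

theorem sg_inv {f : NS (Lt r) ℂ} (hf : f [] = 1) : sg (NS.inv f) = NS.inv (sg f) := by
  apply inv_uniq (by simp [hf])
  rw [← map_mul, mul_inv hf, map_one]

theorem _root_.Pool.Agent.Lib.MP_d7cc7c_an.NS.IsGrp.sg {f : NS (Lt r) ℂ} (hf : IsGrp f) :
    IsGrp (sg f) := (hf.pre bar bar_invol).map _

theorem sg_mem_lie {n : ℕ} {f : NS (Lt r) ℂ} (hf : f ∈ lie n) : sg f ∈ lie n :=
  map_mem_lie _ (pre_mem_lie bar bar_invol n hf)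

theorem sg_dil (t : ℝ) (f : NS (Lt r) ℂ) : sg (dil (t : ℂ) f) = dil (t : ℂ) (sg f) := by
  ext w; simp

/-- real and imaginary parts -/
theorem exists_real_parts {n : ℕ} {f : NS (Lt r) ℂ} (hf : f ∈ lie n) :
    ∃ f1 f2 : NS (Lt r) ℂ, f1 ∈ lie n ∧ f2 ∈ lie n ∧ sg f1 = f1 ∧ sg f2 = f2 ∧
      f = f1 + Complex.I • f2 := by
  refine ⟨(1 / 2 : ℂ) • (f + sg f), (-Complex.I / 2 : ℂ) • (f - sg f),
    Submodule.smul_mem _ _ (add_mem hf (sg_mem_lie hf)),
    Submodule.smul_mem _ _ (sub_mem hf (sg_mem_lie hf)), ?_, ?_, ?_⟩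
  · rw [sg_smul, map_add, sg_sg, add_comm (sg f) f]
    congr 1
    simp [Complex.ext_iff]
  · rw [sg_smul, map_sub, sg_sg]
    have : conj (-Complex.I / 2 : ℂ) = Complex.I / 2 := by
      rw [map_div₀, map_neg, Complex.conj_I, neg_neg, map_ofNat]
    rw [this]
    ext w
    simp only [smul_app, sub_app, smul_eq_mul]
    ring
  · ext w
    simp only [smul_app, sub_app, add_app, smul_eq_mul]
    linear_combination ((1/2 : ℂ) * (f w - sg f w)) * Complex.I_sq

/-- every element of the group is, modulo the second step of the filtration, the product of a real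
element and an element of `QB` -/
theorem exists_real_QB {h : NS (Lt r) ℂ} (hh : IsGrp h) :
    ∃ g q : NS (Lt r) ℂ, IsGrp g ∧ sg g = g ∧ IsGrp q ∧ QB q ∧ Dn 2 (NS.inv (g * q) * h) := by
  classical
  let a : NS (Lt r) ℂ := ∑ i : Fin r, (h [(i, false)]) • letter (i, false)
  let b : NS (Lt r) ℂ := ∑ i : Fin r, (h [(i, true)] - conj (h [(i, false)])) • letter (i, true)
  have ha : a ∈ lie 1 := sum_mem fun i _ => Submodule.smul_mem _ _ (letter_mem_lie _)
  have hb : b ∈ lie 1 := sum_mem fun i _ => Submodule.smul_mem _ _ (letter_mem_lie _)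
  have hsa : sg a = ∑ i : Fin r, (conj (h [(i, false)])) • letter (i, true) := by
    rw [map_sum]
    apply Finset.sum_congr rfl
    intro i _
    rw [sg_smul, sg_letter]; rfl
  have hX : a + sg a ∈ lie 1 := add_mem ha (sg_mem_lie ha)
  have hsum : comp 1 h = (a + sg a) + b := by
    ext w
    rcases w with _ | ⟨⟨j, c⟩, _ | ⟨z, w⟩⟩
    · rw [hsa]; simp [comp_apply, a, b]
    · rw [hsa]
      simp only [comp_apply, List.length_cons, List.length_nil, zero_add, if_true, add_app, a, b,
        sum_app, smul_app, letter_single, smul_eq_mul, mul_ite, mul_one, mul_zero]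
      cases c
      · simp [Prod.ext_iff]
      · simp [Prod.ext_iff]
    · rw [hsa]; simp [comp_apply, a, b]
  have hXo : Ord 1 (a + sg a) := ord_lie hX
  have hbo : Ord 1 b := ord_lie hb
  refine ⟨nexp (a + sg a), nexp b, isGrp_nexp hX, ?_, isGrp_nexp hb, QB.nexp ?_, ?_⟩
  · rw [sg_nexp, map_add, sg_sg, add_comm]
  · have : ∀ s : Finset (Fin r), AS (∑ i ∈ s,
        (h [(i, true)] - conj (h [(i, false)])) • (letter (i, true) : NS (Lt r) ℂ)) := by
      intro s
      induction s using Finset.cons_induction with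
      | empty => simpa using AS.zero
      | cons i s hi ih => rw [Finset.sum_cons]; exact ((AS.letter i).smul _).add ih
    exact this _
  · set g := nexp (a + sg a)
    set q := nexp b
    have h1 : Ord 2 (g - 1 - (a + sg a)) := ord_nexp_sub_one_sub one_pos hXo
    have h2 : Ord 2 (q - 1 - b) := ord_nexp_sub_one_sub one_pos hbo
    have h3 : Ord 2 (h - 1 - comp 1 h) := by
      intro w hw
      rcases w with _ | ⟨y, _ | ⟨z, w⟩⟩
      · simp [comp_apply, hh.nil]
      · simp [comp_apply]
      · simp at hw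
    have hg0 : g [] = 1 := nexp_nil _
    have hq0 : q [] = 1 := nexp_nil _
    have hgq : (g * q) [] = 1 := by simp [hg0, hq0]
    have h4 : NS.inv (g * q) * h - 1 = NS.inv (g * q) * (h - g * q) := by
      rw [mul_sub, inv_mul hgq]
    rw [Dn, h4]
    apply Ord.mul_left
    have h5 : h - g * q = (h - 1 - comp 1 h) - (g - 1 - (a + sg a)) - (q - 1 - b) -
        (g - 1) * (q - 1) := by
      rw [hsum]; noncomm_ring
    rw [h5]
    refine Ord.sub (Ord.sub (Ord.sub h3 h1) h2) ?_
    exact Ord.mul (m := 1) (n := 1) (ord_nexp_sub_one one_pos hXo) (ord_nexp_sub_one one_pos hbo)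

end RealStructure

end Pool.Agent.Lib.MP_d7cc7c_an
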