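import Pool.Agent.Lib.MP_d7cc7c_an.Chain

/-!
# Discs attached to the real group: vanishing of the Levi form along discs
-/

set_option linter.unusedSectionVars false

namespace Pool.Agent.Lib.MP_d7cc7c_an

open NS MvPolynomial ComplexConjugate ComplexOrder

section GrpPoly

variable {r : ℕ} {R : Type*} [CommRing R]

theorem isGrp_of_toLaurent {φ : NS (Lt r) (Polynomial R)}
    (h : IsGrp (NS.map Polynomial.toLaurent φ)) : IsGrp φ := by
  obtain ⟨h0, l, hl, he⟩ := h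
  have hnil : φ [] = 1 := by
    apply Polynomial.toLaurent_injective
    rw [map_one]; exact h0
  refine ⟨hnil, NS.inv φ * E φ, ?_, by rw [mul_inv_cancel_left' hnil]⟩
  have h1 : NS.map Polynomial.toLaurent (NS.inv φ * E φ) = l := by
    rw [map_mul, NS.map_inv _ hnil, ← E_map, he, inv_mul_cancel_left' h0]
  have h2 : NS.inv φ * E φ = amap LaurentPolynomial.trunc l := by
    rw [← h1]
    ext1 w
    rw [amap_apply, map_apply, LaurentPolynomial.leftInverse_trunc_toLaurent]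
  rw [h2]
  exact amap_mem_LieS _ hl

theorem IsDisc.grp {c : R →+* R} {q h : NS (Lt r) (LP R)} {φ : NS (Lt r) (Polynomial R)}
    [Algebra ℚ R] (hd : IsDisc c q h φ) : IsGrp φ := by
  apply isGrp_of_toLaurent
  rw [hd.hφ]
  exact hd.hg.mul hd.qg

end GrpPoly

section Values

variable {r : ℕ}

theorem exists_dder {φ : NS (Lt r) (Polynomial ℂ)} (hφ : IsGrp φ) (z : ℂ) :
    ∃ Z ∈ LieS (Lt r) ℂ, dval (dder φ) z = dval φ z * Z := by
  refine ⟨dval (NS.inv φ * dder φ) z, ?_, ?_⟩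
  · apply map_mem_LieS
    apply logDeriv_mem_LieS _ _ hφ
    intro a b
    show Polynomial.derivative (a * b) = _
    rw [Polynomial.derivative_mul]; rfl
  · have h1 : dder φ = φ * (NS.inv φ * dder φ) := by rw [mul_inv_cancel_left' hφ.nil]
    conv_lhs => rw [h1]
    rw [dval, map_mul]; rfl

theorem dval_grp {φ : NS (Lt r) (Polynomial ℂ)} (hφ : IsGrp φ) (z : ℂ) : IsGrp (dval φ z) :=
  hφ.map _

theorem dval_eq (φ : NS (Lt r) (Polynomial ℂ)) (u : ℂˣ) :
    dval φ u = NS.map (eL u) (NS.map Polynomial.toLaurent φ) := by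
  ext1 w
  simp only [dval_apply, map_apply]
  exact (eL_toLaurent u (φ w)).symm

theorem IsDisc.dval_eq {q h : NS (Lt r) (LP ℂ)} {φ : NS (Lt r) (Polynomial ℂ)}
    (hd : IsDisc (starRingEnd ℂ) q h φ) (u : ℂˣ) :
    dval φ u = NS.map (eL u) h * NS.map (eL u) q := by
  rw [MP_d7cc7c_an.dval_eq, hd.hφ, map_mul]

theorem IsDisc.real {q h : NS (Lt r) (LP ℂ)} {φ : NS (Lt r) (Polynomial ℂ)}
    (hd : IsDisc (starRingEnd ℂ) q h φ) (u : ℂˣ) (hu : conj (u : ℂ) = ((u⁻¹ : ℂˣ) : ℂ)) :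
    sg (NS.map (eL u) h) = NS.map (eL u) h := by
  ext1 w
  rw [sg_apply, map_apply, map_apply]
  have h1 : sL (starRingEnd ℂ) h w = h w := congrArg (fun f : NS (Lt r) (LP ℂ) => f w) hd.hr
  rw [← h1, sL_apply, eL_cL _ _ hu]

theorem conj_unit {z : ℂ} (hz : ‖z‖ = 1) (hz0 : z ≠ 0) :
    conj ((Units.mk0 z hz0 : ℂˣ) : ℂ) = (((Units.mk0 z hz0)⁻¹ : ℂˣ) : ℂ) := by
  rw [Units.val_inv_eq_inv_val, Units.val_mk0]
  rw [Complex.inv_def, Complex.normSq_eq_norm_sq, hz]
  simp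

/-- vanishing of the Levi form along a disc -/
theorem propA_aux {P : Pol (Lt r)} (hR : Rinv P) (hP : PSH P)
    (h0 : ∀ g : NS (Lt r) ℂ, IsGrp g → sg g = g → ev g P = 0)
    (h1 : ∀ Z ∈ LieS (Lt r) ℂ, D1 P 1 Z = 0 ∧ D1b P 1 Z = 0)
    {q h : NS (Lt r) (LP ℂ)} {φ : NS (Lt r) (Polynomial ℂ)}
    (hd : IsDisc (starRingEnd ℂ) q h φ) :
    Lev P (dval φ (-1)) (dval (dder φ) (-1)) (dval (dder φ) (-1)) = 0 := by
  have hφ := hd.grp
  have hz := hopf (Ud P φ).support (fun m => (Ud P φ).coeff m) (fun m => m false)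
    (fun m => m true) ?_ ?_ ?_
  · have hz2 : ∀ z : ℂ, z ≠ 0 → ‖z‖ < 1 → be z (pderiv true (pderiv false (Ud P φ))) = 0 := by
      intro z hz0 hz1
      rw [be_pderiv_pderiv]
      exact hz z hz0 hz1
    have hcont : Continuous (fun t : ℝ => be (-(t : ℂ)) (pderiv true (pderiv false (Ud P φ)))) := by
      simp_rw [be_eq_sum]
      apply continuous_finset_sum
      intro i _
      have e1 : Continuous (fun t : ℝ => -(t : ℂ)) := Complex.continuous_ofReal.neg
      exact (continuous_const.mul (e1.pow _)).mul ((Complex.continuous_conj.comp e1).pow _)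
    have hcl : IsClosed {t : ℝ | be (-(t : ℂ)) (pderiv true (pderiv false (Ud P φ))) = 0} :=
      isClosed_eq hcont continuous_const
    have hsub : Set.Ioo (0 : ℝ) 1 ⊆
        {t : ℝ | be (-(t : ℂ)) (pderiv true (pderiv false (Ud P φ))) = 0} := by
      intro t ht
      apply hz2
      · simp [ht.1.ne']
      · rw [norm_neg, Complex.norm_real, Real.norm_eq_abs, abs_of_pos ht.1]; exact ht.2
    have hmem : (1 : ℝ) ∈ closure (Set.Ioo (0 : ℝ) 1) := by
      rw [closure_Ioo (by norm_num)]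
      exact ⟨by norm_num, le_refl _⟩
    have := hcl.closure_subset_iff.2 hsub hmem
    simp only [Set.mem_setOf_eq, Complex.ofReal_one] at this
    rw [← be_pderiv_pderiv_Ud]
    exact this
  · intro z hz
    have hz0 : z ≠ 0 := by rintro rfl; simp at hz
    rw [← be_eq_sum, be_Ud]
    have e1 := hd.dval_eq (Units.mk0 z hz0)
    rw [Units.val_mk0] at e1
    rw [e1, hR _ _ (hd.qb.map _)]
    exact h0 _ (hd.hg.map _) (hd.real _ (conj_unit hz hz0))
  · have k1 : dval φ 1 = NS.map e1 q := by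
      have := hd.dval_eq 1
      rw [Units.val_one] at this
      rw [this]
      have e2 : NS.map (eL (1 : ℂˣ)) h = 1 := hd.h1
      rw [e2, one_mul]; rfl
    obtain ⟨Z, hZ, hZe⟩ := exists_dder hφ 1
    have hq1 : QB (NS.map e1 q : NS (Lt r) ℂ) := hd.qb.map _
    have hq1g : IsGrp (NS.map e1 q : NS (Lt r) ℂ) := hd.qg.map _
    have e3 : dval (dder φ) 1 = (NS.map e1 q * Z * NS.inv (NS.map e1 q)) * NS.map e1 q := by
      rw [hZe, k1, inv_mul_cancel_right' hq1.1]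
    have hconj : NS.map e1 q * Z * NS.inv (NS.map e1 q) ∈ LieS (Lt r) ℂ := conj_mem_LieS hq1g hZ
    have e4 : D1 P (dval φ 1) (dval (dder φ) 1) = 0 := by
      rw [e3, k1]
      have := D1_of_rinv (fun h => hR h _ hq1) 1 (NS.map e1 q * Z * NS.inv (NS.map e1 q))
      rw [one_mul] at this
      rw [this]
      exact (h1 _ hconj).1
    have e5 : D1b P (dval φ 1) (dval (dder φ) 1) = 0 := by
      rw [e3, k1]
      have := D1b_of_rinv (fun h => hR h _ hq1) 1 (NS.map e1 q * Z * NS.inv (NS.map e1 q))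
      rw [one_mul] at this
      rw [this]
      exact (h1 _ hconj).2
    rw [← be_pderiv_false_Ud, be_one_pderiv] at e4
    rw [← be_pderiv_true_Ud, be_one_pderiv] at e5
    simp_rw [mul_add]
    rw [Finset.sum_add_distrib, e4, e5, add_zero]
  · intro z _ _
    rw [← be_pderiv_pderiv, be_pderiv_pderiv_Ud]
    obtain ⟨Z, hZ, hZe⟩ := exists_dder hφ z
    rw [hZe]
    exact hP _ (dval_grp hφ z) Z hZ

theorem propA {P : Pol (Lt r)} (hR : Rinv P) (hP : PSH P)
    (h0 : ∀ g : NS (Lt r) ℂ, IsGrp g → sg g = g → ev g P = 0)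
    (h1 : ∀ Z ∈ LieS (Lt r) ℂ, D1 P 1 Z = 0 ∧ D1b P 1 Z = 0)
    {q h : NS (Lt r) (LP ℂ)} {φ : NS (Lt r) (Polynomial ℂ)}
    (hd : IsDisc (starRingEnd ℂ) q h φ) {Z : NS (Lt r) ℂ} (hZ : Z ∈ LieS (Lt r) ℂ) :
    Lev P (dval φ (-1)) (dval (dder φ) (-1)) (dval φ (-1) * Z) = 0 := by
  have e1 := propA_aux hR hP h0 h1 hd
  obtain ⟨W, hW, hWe⟩ := exists_dder hd.grp (-1)
  rw [hWe] at e1 ⊢
  exact (hP.null (dval_grp hd.grp (-1)) hW hZ e1).1

end Values

end Pool.Agent.Lib.MP_d7cc7c_an
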