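import Pool.Agent.Lib.MP_d7cc7c_an.Defs
import Pool.Agent.Lib.MP_d7cc7c_an.Expan

/-!
# The algebra of smooth functions on `ℂⁿ`
-/

set_option linter.unusedSectionVars false

namespace Pool.Agent.Lib.MP_d7cc7c_an

open ComplexConjugate Filter Topology Asymptotics
open scoped ContDiff

section Smooth

variable {n : ℕ}

/-- the algebra of smooth functions -/
def Sm (n : ℕ) : Subalgebra ℂ ((Fin n → ℂ) → ℂ) where
  carrier := {f | ContDiff ℝ ∞ f}
  mul_mem' := by
    intro f g hf hg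
    have hf' : ContDiff ℝ ∞ f := hf
    have hg' : ContDiff ℝ ∞ g := hg
    exact hf'.mul hg'
  add_mem' := by
    intro f g hf hg
    have hf' : ContDiff ℝ ∞ f := hf
    have hg' : ContDiff ℝ ∞ g := hg
    exact hf'.add hg'
  algebraMap_mem' := by
    intro c
    have : ContDiff ℝ ∞ (fun _ : Fin n → ℂ => c) := contDiff_const
    exact this

theorem smc (F : Sm n) : ContDiff ℝ ∞ (F : (Fin n → ℂ) → ℂ) := F.2

theorem smd (F : Sm n) (z : Fin n → ℂ) : DifferentiableAt ℝ (F : (Fin n → ℂ) → ℂ) z :=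
  (smc F).differentiable (by simp) z

theorem smcont (F : Sm n) : Continuous (F : (Fin n → ℂ) → ℂ) := (smc F).continuous

theorem contDiff_dir {f : (Fin n → ℂ) → ℂ} (hf : ContDiff ℝ ∞ f) (v : Fin n → ℂ) :
    ContDiff ℝ ∞ (fun z => fderiv ℝ f z v) :=
  (hf.fderiv_right (m := ∞) (by simp)).clm_apply contDiff_const

/-- the directional derivative -/
noncomputable def dir (v : Fin n → ℂ) : Derivation ℂ (Sm n) (Sm n) :=
  Derivation.mk' (R := ℂ) (A := Sm n) (M := Sm n)
    { toFun := fun F => ⟨fun z => fderiv ℝ (F : (Fin n → ℂ) → ℂ) z v, contDiff_dir F.2 v⟩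
      map_add' := by
        intro F G
        ext z
        show fderiv ℝ ((F : (Fin n → ℂ) → ℂ) + (G : (Fin n → ℂ) → ℂ)) z v = _
        rw [fderiv_add (smd F z) (smd G z)]; rfl
      map_smul' := by
        intro c F
        ext z
        show fderiv ℝ (c • (F : (Fin n → ℂ) → ℂ)) z v = _
        rw [fderiv_const_smul (smd F z)]; rfl }
    (by
      intro F G
      ext z
      show fderiv ℝ ((F : (Fin n → ℂ) → ℂ) * (G : (Fin n → ℂ) → ℂ)) z v = _
      rw [fderiv_mul (smd F z) (smd G z)]; rfl)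

@[simp] theorem dir_apply (v : Fin n → ℂ) (F : Sm n) (z : Fin n → ℂ) :
    (dir v F : (Fin n → ℂ) → ℂ) z = fderiv ℝ (F : (Fin n → ℂ) → ℂ) z v := rfl

theorem dir_comm (v w : Fin n → ℂ) (F : Sm n) : dir v (dir w F) = dir w (dir v F) := by
  have key : ∀ v w : Fin n → ℂ, ∀ z, (dir v (dir w F) : (Fin n → ℂ) → ℂ) z =
      fderiv ℝ (fderiv ℝ (F : (Fin n → ℂ) → ℂ)) z v w := by
    intro v w z
    rw [dir_apply]
    have h1 : ((dir w F : Sm n) : (Fin n → ℂ) → ℂ) =
        fun z => fderiv ℝ (F : (Fin n → ℂ) → ℂ) z w := rfl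
    have h2 : DifferentiableAt ℝ (fderiv ℝ (F : (Fin n → ℂ) → ℂ)) z :=
      ((smc F).fderiv_right (m := ∞) (by simp)).differentiable (by simp) z
    rw [h1, fderiv_clm_apply h2 (differentiableAt_const w)]
    simp
  ext z
  rw [key, key]
  have h2 : minSmoothness ℝ 2 ≤ ∞ := by
    rw [minSmoothness_of_isRCLikeNormedField]
    exact ENat.LEInfty.out
  exact ((smc F).contDiffAt.isSymmSndFDerivAt h2).eq v w

/-- conjugation -/
noncomputable def coS : Sm n →+* Sm n where
  toFun F := ⟨fun z => conj ((F : (Fin n → ℂ) → ℂ) z),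
    (Complex.conjCLE : ℂ ≃L[ℝ] ℂ).contDiff.comp (smc F)⟩
  map_one' := by ext z; exact map_one _
  map_mul' F G := by ext z; exact map_mul _ _ _
  map_zero' := by ext z; exact map_zero _
  map_add' F G := by ext z; exact map_add _ _ _

@[simp] theorem coS_apply (F : Sm n) (z : Fin n → ℂ) :
    (coS F : (Fin n → ℂ) → ℂ) z = conj ((F : (Fin n → ℂ) → ℂ) z) := rfl

theorem coS_dir (v : Fin n → ℂ) (F : Sm n) : coS (dir v F) = dir v (coS F) := by
  ext z
  rw [coS_apply, dir_apply, dir_apply]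
  have h1 : ((coS F : Sm n) : (Fin n → ℂ) → ℂ) =
      (Complex.conjCLE : ℂ ≃L[ℝ] ℂ) ∘ (F : (Fin n → ℂ) → ℂ) := rfl
  rw [h1, ContinuousLinearEquiv.comp_fderiv]; rfl

/-- the unit vectors -/
noncomputable def ek (k : Fin n) : Fin n → ℂ := Pi.single k 1

/-- the unit vectors multiplied by the imaginary unit -/
noncomputable def ik (k : Fin n) : Fin n → ℂ := Pi.single k Complex.I

/-- the Wirtinger derivations -/
noncomputable def wir (κ : Fin n × Bool) : Derivation ℂ (Sm n) (Sm n) :=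
  (1 / 2 : ℂ) • (dir (ek κ.1) + (if κ.2 then Complex.I else -Complex.I) • dir (ik κ.1))

theorem wir_false_apply (k : Fin n) (F : Sm n) (z : Fin n → ℂ) :
    (wir (k, false) F : (Fin n → ℂ) → ℂ) z = dz k (F : (Fin n → ℂ) → ℂ) z := by
  show (1 / 2 : ℂ) * (fderiv ℝ (F : (Fin n → ℂ) → ℂ) z (ek k) +
    -Complex.I * fderiv ℝ (F : (Fin n → ℂ) → ℂ) z (ik k)) = _
  rw [dz, ek, ik]; ring

theorem wir_true_apply (k : Fin n) (F : Sm n) (z : Fin n → ℂ) :
    (wir (k, true) F : (Fin n → ℂ) → ℂ) z = dzb k (F : (Fin n → ℂ) → ℂ) z := by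
  show (1 / 2 : ℂ) * (fderiv ℝ (F : (Fin n → ℂ) → ℂ) z (ek k) +
    Complex.I * fderiv ℝ (F : (Fin n → ℂ) → ℂ) z (ik k)) = _
  rw [dzb, ek, ik]; ring

theorem wir_apply' (κ : Fin n × Bool) (F : Sm n) : wir κ F =
    (1 / 2 : ℂ) • (dir (ek κ.1) F + (if κ.2 then Complex.I else -Complex.I) • dir (ik κ.1) F) :=
  rfl

theorem wir_comm (κ κ' : Fin n × Bool) (F : Sm n) : wir κ (wir κ' F) = wir κ' (wir κ F) := by
  simp only [wir_apply', map_add, Derivation.map_smul, smul_add, smul_smul]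
  rw [dir_comm (ek κ'.1) (ek κ.1), dir_comm (ek κ'.1) (ik κ.1), dir_comm (ik κ'.1) (ek κ.1),
    dir_comm (ik κ'.1) (ik κ.1)]
  have h1 : ∀ a b c d : Sm n, ∀ x y : ℂ,
      (1 / 2 * (1 / 2 : ℂ)) • a + (1 / 2 * (1 / 2 * x)) • b +
      ((1 / 2 * y * (1 / 2)) • c + (1 / 2 * y * (1 / 2 * x)) • d) =
      (1 / 2 * (1 / 2 : ℂ)) • a + (1 / 2 * (1 / 2 * y)) • c +
      ((1 / 2 * x * (1 / 2)) • b + (1 / 2 * x * (1 / 2 * y)) • d) := by
    intro a b c d x y
    module
  exact h1 _ _ _ _ _ _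

theorem coS_smul (c : ℂ) (F : Sm n) : coS (c • F) = conj c • coS F := by
  ext z
  exact map_mul _ _ _

theorem coS_coS (F : Sm n) : coS (coS F) = F := by
  ext z
  exact Complex.conj_conj _

theorem coS_wir (k : Fin n) (b : Bool) (F : Sm n) :
    coS (wir (k, b) F) = wir (k, !b) (coS F) := by
  rw [wir_apply', wir_apply', coS_smul, map_add, coS_smul, coS_dir, coS_dir]
  cases b
  · simp [Complex.conj_ofNat]
  · simp [Complex.conj_ofNat]

/-- evaluation at a point -/
noncomputable def evP (p : Fin n → ℂ) : Sm n →ₐ[ℂ] ℂ :=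
  (Pi.evalAlgHom ℂ (fun _ : Fin n → ℂ => ℂ) p).comp (Sm n).val

@[simp] theorem evP_apply (p : Fin n → ℂ) (F : Sm n) : evP p F = (F : (Fin n → ℂ) → ℂ) p := rfl

/-- the centered coordinates -/
noncomputable def zS (p : Fin n → ℂ) (k : Fin n) : Sm n :=
  ⟨fun z => z k - p k, by
    have : ContDiff ℝ ∞ (fun z : Fin n → ℂ => z k - p k) :=
      (contDiff_apply ℝ ℂ k).sub contDiff_const
    exact this⟩

@[simp] theorem zS_apply (p : Fin n → ℂ) (k : Fin n) (z : Fin n → ℂ) :
    (zS p k : (Fin n → ℂ) → ℂ) z = z k - p k := rfl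

theorem dir_zS (p v : Fin n → ℂ) (k : Fin n) : dir v (zS p k) = algebraMap ℂ (Sm n) (v k) := by
  ext z
  rw [dir_apply]
  have h1 : HasFDerivAt (fun z : Fin n → ℂ => z k - p k)
      (ContinuousLinearMap.proj (R := ℝ) (φ := fun _ : Fin n => ℂ) k) z :=
    (hasFDerivAt_apply k z).sub_const _
  have h2 : fderiv ℝ (zS p k : (Fin n → ℂ) → ℂ) z = _ := h1.fderiv
  rw [h2]; rfl

theorem algebraMap_smul_eq (c d : ℂ) :
    c • algebraMap ℂ (Sm n) d = algebraMap ℂ (Sm n) (c * d) := by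
  rw [map_mul, Algebra.smul_def]

theorem wir_zS_false (p : Fin n → ℂ) (k l : Fin n) :
    wir (k, false) (zS p l) = if k = l then 1 else 0 := by
  rw [wir_apply', dir_zS, dir_zS, algebraMap_smul_eq, ← map_add, algebraMap_smul_eq, ek, ik]
  by_cases h : k = l
  · subst h
    rw [if_pos rfl, Pi.single_eq_same, Pi.single_eq_same, ← map_one (algebraMap ℂ (Sm n))]
    congr 1
    simp only [Bool.false_eq_true, if_false]
    linear_combination -(1 / 2 : ℂ) * Complex.I_mul_I
  · rw [if_neg h, Pi.single_eq_of_ne (Ne.symm h), Pi.single_eq_of_ne (Ne.symm h)]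
    simp

theorem wir_zS_true (p : Fin n → ℂ) (k l : Fin n) : wir (k, true) (zS p l) = 0 := by
  rw [wir_apply', dir_zS, dir_zS, algebraMap_smul_eq, ← map_add, algebraMap_smul_eq, ek, ik]
  by_cases h : k = l
  · subst h
    rw [Pi.single_eq_same, Pi.single_eq_same, ← map_zero (algebraMap ℂ (Sm n))]
    congr 1
    simp only [if_true]
    linear_combination (1 / 2 : ℂ) * Complex.I_mul_I
  · rw [Pi.single_eq_of_ne (Ne.symm h), Pi.single_eq_of_ne (Ne.symm h)]
    simp

/-- the jet data of smooth functions at a point -/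
noncomputable def jd {r : ℕ} (p : Fin n → ℂ) (a : Fin r → Fin n → Sm n) : JD r n (Sm n) where
  dd := wir
  dd_comm := wir_comm
  co := coS
  co_smul := coS_smul
  co_co := coS_coS
  co_dd := coS_wir
  pe := evP p
  pe_co := fun _ => rfl
  zc := zS p
  dd_zc := wir_zS_false p
  ddb_zc := wir_zS_true p
  pe_zc := fun k => by rw [evP_apply, zS_apply, sub_self]
  cf := a

/-- Wirtinger's formula -/
theorem fderiv_wir (F : Sm n) (z v : Fin n → ℂ) :
    fderiv ℝ (F : (Fin n → ℂ) → ℂ) z v =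
      ∑ k, (v k * (wir (k, false) F : (Fin n → ℂ) → ℂ) z +
        conj (v k) * (wir (k, true) F : (Fin n → ℂ) → ℂ) z) := by
  have h1 : v = ∑ k, ((v k).re • ek k + (v k).im • ik k) := by
    funext j
    rw [Finset.sum_apply, Finset.sum_eq_single j]
    · simp only [Pi.add_apply, Pi.smul_apply, ek, ik, Pi.single_eq_same, Complex.real_smul,
        mul_one]
      exact (Complex.re_add_im (v j)).symm
    · intro k _ hk
      simp only [Pi.add_apply, Pi.smul_apply, ek, ik, Pi.single_eq_of_ne (Ne.symm hk), smul_zero,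
        add_zero]
    · intro h; exact absurd (Finset.mem_univ _) h
  conv_lhs => rw [h1]
  rw [map_sum]
  apply Finset.sum_congr rfl
  intro k _
  rw [map_add, map_smul, map_smul, wir_false_apply, wir_true_apply, dz, dzb, Complex.real_smul,
    Complex.real_smul]
  have h2 : (v k : ℂ) = (v k).re + (v k).im * Complex.I := (Complex.re_add_im (v k)).symm
  have h3 : conj (v k) = (v k).re - (v k).im * Complex.I := by
    rw [Complex.ext_iff]; simp
  rw [h3]
  nth_rewrite 3 [h2]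
  show _ = _
  simp only [ek, ik]
  linear_combination ((v k).im * fderiv ℝ (F : (Fin n → ℂ) → ℂ) z (Pi.single k Complex.I)) *
    Complex.I_mul_I

end Smooth

end Pool.Agent.Lib.MP_d7cc7c_an
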