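import Pool.Agent.Lib.MP_d7cc7c_an.Curves

/-!
# Expansions of translated polynomials
-/

set_option linter.unusedSectionVars false

namespace Pool.Agent.Lib.MP_d7cc7c_an

open NS MvPolynomial ComplexConjugate

section RealPoly

open ComplexOrder

theorem infinite_real : Set.Infinite (Set.range (fun t : ℝ => (t : ℂ))) :=
  Set.infinite_range_of_injective Complex.ofReal_injective

theorem poly_eq_of_real {P Q : Polynomial ℂ} (h : ∀ t : ℝ, P.eval (t : ℂ) = Q.eval (t : ℂ)) :
    P = Q := by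
  apply Polynomial.eq_of_infinite_eval_eq
  apply Set.Infinite.mono _ infinite_real
  rintro _ ⟨t, rfl⟩
  exact h t

theorem infinite_pos_real : Set.Infinite {z : ℂ | ∃ t : ℝ, 0 < t ∧ (t : ℂ) = z} := by
  have h1 : Set.Infinite (Set.Ioi (0 : ℝ)) := Set.Ioi_infinite 0
  have h2 := h1.image (f := fun t : ℝ => (t : ℂ)) (Complex.ofReal_injective.injOn)
  refine h2.mono ?_
  rintro _ ⟨t, ht, rfl⟩
  exact ⟨t, ht, rfl⟩

theorem poly_eq_of_pos_real {P Q : Polynomial ℂ}
    (h : ∀ t : ℝ, 0 < t → P.eval (t : ℂ) = Q.eval (t : ℂ)) : P = Q := by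
  apply Polynomial.eq_of_infinite_eval_eq
  apply Set.Infinite.mono _ infinite_pos_real
  rintro _ ⟨t, ht, rfl⟩
  exact h t ht

theorem isClosed_nonneg : IsClosed {z : ℂ | 0 ≤ z} := by
  have : {z : ℂ | 0 ≤ z} = {z : ℂ | 0 ≤ z.re} ∩ {z : ℂ | z.im = 0} := by
    ext z
    simp only [Set.mem_setOf_eq, Set.mem_inter_iff, Complex.le_def, Complex.zero_re,
      Complex.zero_im]
    constructor
    · rintro ⟨h1, h2⟩; exact ⟨h1, h2.symm⟩
    · rintro ⟨h1, h2⟩; exact ⟨h1, h2.symm⟩
  rw [this]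
  exact (isClosed_le continuous_const Complex.continuous_re).inter
    (isClosed_eq Complex.continuous_im continuous_const)

theorem nonneg_lead_aux {a : ℕ → ℂ} {d : ℕ}
    (h : ∀ t : ℝ, 0 ≤ ∑ i ∈ Finset.range (d + 1), (t : ℂ) ^ i * a i) : 0 ≤ a d := by
  let R : ℝ → ℂ := fun t => ∑ i ∈ Finset.range (d + 1), (t : ℂ) ^ (d - i) * a i
  have hR : Continuous R := by
    apply continuous_finset_sum
    intro i _
    exact (Complex.continuous_ofReal.pow _).mul continuous_const
  have h0 : R 0 = a d := by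
    show ∑ i ∈ Finset.range (d + 1), ((0 : ℝ) : ℂ) ^ (d - i) * a i = a d
    rw [Finset.sum_eq_single d]
    · simp
    · intro i hi hne
      rw [Finset.mem_range] at hi
      have : d - i ≠ 0 := by omega
      simp [this]
    · intro h; simp at h
  have hpos : ∀ t : ℝ, 0 < t → 0 ≤ R t := by
    intro t ht
    have h1 := h t⁻¹
    have h2 : R t = (t : ℂ) ^ d * ∑ i ∈ Finset.range (d + 1), ((t⁻¹ : ℝ) : ℂ) ^ i * a i := by
      show ∑ i ∈ Finset.range (d + 1), (t : ℂ) ^ (d - i) * a i = _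
      rw [Finset.mul_sum]
      apply Finset.sum_congr rfl
      intro i hi
      rw [Finset.mem_range] at hi
      rw [← mul_assoc]
      congr 1
      have ht' : (t : ℂ) ≠ 0 := by exact_mod_cast ht.ne'
      rw [Complex.ofReal_inv, inv_pow, ← div_eq_mul_inv, eq_div_iff (pow_ne_zero _ ht'), ← pow_add]
      congr 1
      omega
    rw [h2]
    have h3 : (0 : ℂ) ≤ (t : ℂ) ^ d := by
      have : (0 : ℝ) ≤ t ^ d := by positivity
      exact_mod_cast this
    exact mul_nonneg h3 h1
  have h4 : Filter.Tendsto R (nhdsWithin 0 (Set.Ioi 0)) (nhds (R 0)) :=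
    hR.continuousAt.continuousWithinAt
  have h5 : R 0 ∈ {z : ℂ | 0 ≤ z} := by
    refine isClosed_nonneg.mem_of_tendsto h4 ?_
    filter_upwards [self_mem_nhdsWithin] with t ht
    exact hpos t ht
  rw [← h0]; exact h5

theorem nonneg_lead {a : ℕ → ℂ} {d : ℕ}
    (h : ∀ t : ℝ, 0 ≤ ∑ i ∈ Finset.range (d + 1), (t : ℂ) ^ i * a i) :
    0 ≤ a d ∧ (Odd d → a d = 0) := by
  refine ⟨nonneg_lead_aux h, fun hd => ?_⟩
  have h1 : 0 ≤ (-1 : ℂ) ^ d * a d := by
    apply nonneg_lead_aux (a := fun i => (-1 : ℂ) ^ i * a i)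
    intro t
    have := h (-t)
    convert this using 1
    apply Finset.sum_congr rfl
    intro i _
    rw [← mul_assoc, ← mul_pow]
    push_cast
    ring
  rw [hd.neg_one_pow, neg_one_mul] at h1
  have h2 := nonneg_lead_aux h
  exact le_antisymm (neg_nonneg.1 h1) h2

/-- polynomial version -/
theorem poly_nonneg_lead {P : Polynomial ℂ} {d : ℕ} (hd : P.natDegree ≤ d)
    (h : ∀ t : ℝ, 0 ≤ P.eval (t : ℂ)) : 0 ≤ P.coeff d ∧ (Odd d → P.coeff d = 0) := by
  apply nonneg_lead
  intro t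
  have := h t
  rw [Polynomial.eval_eq_sum_range' (Nat.lt_succ_of_le hd)] at this
  convert this using 1
  apply Finset.sum_congr rfl
  intro i _
  ring

end RealPoly

section Texp

variable {α : Type*}

/-- constant series with coefficients in polynomials in `T` -/
noncomputable def cT : NS α ℂ →+* NS α (Polynomial (Pol α)) :=
  (NS.map (Polynomial.C : Pol α →+* Polynomial (Pol α))).comp cst

/-- the expansion of left translation by `exp (T a)` -/
noncomputable def Texp (a : NS α ℂ) : Pol α →ₐ[ℂ] Polynomial (Pol α) :=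
  evK (nexp ((Polynomial.X : Polynomial (Pol α)) • cT a) * NS.map Polynomial.C gen)
    (nexp ((Polynomial.X : Polynomial (Pol α)) • cT (cc a)) * NS.map Polynomial.C genb)

/-- evaluation of the parameter -/
noncomputable def evT (t : ℂ) : Polynomial (Pol α) →ₐ[ℂ] Pol α :=
  (Polynomial.aeval (C t : Pol α)).restrictScalars ℂ

theorem evT_X (t : ℂ) : evT (α := α) t Polynomial.X = C t := by
  simp [evT]

theorem evT_C (t : ℂ) (p : Pol α) : evT (α := α) t (Polynomial.C p) = p := by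
  simp [evT]

theorem evT_eq_sum (t : ℂ) (P : Polynomial (Pol α)) {N : ℕ} (hN : P.natDegree < N) :
    evT t P = ∑ i ∈ Finset.range N, (t ^ i) • P.coeff i := by
  have : evT t P = P.eval (C t) := by simp [evT, Polynomial.aeval_def]
  rw [this, Polynomial.eval_eq_sum_range' hN]
  apply Finset.sum_congr rfl
  intro i _
  rw [← C_pow, mul_comm, C_mul']

theorem map_evT_map_C (t : ℂ) (A : NS α (Pol α)) :
    NS.map ((evT (α := α) t : Polynomial (Pol α) →ₐ[ℂ] Pol α) : Polynomial (Pol α) →+* Pol α)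
      (NS.map Polynomial.C A) = A := by
  ext w; simp [evT_C]

theorem map_evT_smul (t : ℂ) (a : NS α ℂ) :
    NS.map ((evT (α := α) t : Polynomial (Pol α) →ₐ[ℂ] Pol α) : Polynomial (Pol α) →+* Pol α)
      ((Polynomial.X : Polynomial (Pol α)) • cT a) = cst (t • a) := by
  apply NS.ext
  intro w
  have h1 : evT (α := α) t (Polynomial.X * Polynomial.C (C (a w))) = C (t * a w) := by
    rw [map_mul, evT_X, evT_C, C_mul]
  exact h1

theorem cst_nexp (a : NS α ℂ) : cst (nexp a) = nexp (cst a) := map_nexp _ a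

theorem cc_nexp (a : NS α ℂ) : cc (nexp a) = nexp (cc a) := map_nexp _ a

theorem evT_Texp (a : NS α ℂ) (t : ℝ) (p : Pol α) :
    evT (t : ℂ) (Texp a p) = Tl (nexp ((t : ℂ) • a)) p := by
  rw [Texp, evK_comp, map_mul, map_mul, map_nexp, map_nexp, map_evT_smul, map_evT_smul,
    map_evT_map_C, map_evT_map_C, Tl, cst_nexp, cc_nexp, cst_nexp, cc_smul, Complex.conj_ofReal]

/-- the coefficients -/
noncomputable def pc (a : NS α ℂ) (p : Pol α) (i : ℕ) : Pol α := (Texp a p).coeff i

/-- for a linear functional `l` the polynomial with coefficients `l (pc a p i)` -/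
noncomputable def Ql (l : Pol α →ₗ[ℂ] ℂ) (a : NS α ℂ) (p : Pol α) : Polynomial ℂ :=
  ∑ i ∈ Finset.range ((Texp a p).natDegree + 1), Polynomial.monomial i (l (pc a p i))

theorem Ql_coeff (l : Pol α →ₗ[ℂ] ℂ) (a : NS α ℂ) (p : Pol α) (i : ℕ) :
    (Ql l a p).coeff i = l (pc a p i) := by
  rw [Ql, Polynomial.finset_sum_coeff]
  by_cases hi : i < (Texp a p).natDegree + 1
  · rw [Finset.sum_eq_single i]
    · simp
    · intro j _ hj
      rw [Polynomial.coeff_monomial, if_neg hj]
    · intro h; exact absurd (Finset.mem_range.2 hi) h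
  · rw [Finset.sum_eq_zero]
    · have : pc a p i = 0 := Polynomial.coeff_eq_zero_of_natDegree_lt (by omega)
      rw [this, map_zero]
    · intro j hj
      rw [Finset.mem_range] at hj
      rw [Polynomial.coeff_monomial, if_neg (by omega)]

theorem Ql_eval (l : Pol α →ₗ[ℂ] ℂ) (a : NS α ℂ) (p : Pol α) (t : ℝ) :
    (Ql l a p).eval (t : ℂ) = l (Tl (nexp ((t : ℂ) • a)) p) := by
  rw [← evT_Texp, evT_eq_sum _ _ (Nat.lt_succ_self _), map_sum, Ql, Polynomial.eval_finset_sum]
  apply Finset.sum_congr rfl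
  intro i _
  rw [Polynomial.eval_monomial, map_smul, smul_eq_mul, mul_comm]
  rfl

/-- evaluation as a linear functional -/
noncomputable def evl (h : NS α ℂ) : Pol α →ₗ[ℂ] ℂ := (ev h).toLinearMap

@[simp] theorem evl_apply (h : NS α ℂ) (p : Pol α) : evl h p = ev h p := rfl

/-- the Levi form as a linear functional of the polynomial -/
noncomputable def Levl (h u v : NS α ℂ) : Pol α →ₗ[ℂ] ℂ where
  toFun p := Lev p h u v
  map_add' p q := by simp [Lev]
  map_smul' c p := by simp [Lev]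

@[simp] theorem Levl_apply (h u v : NS α ℂ) (p : Pol α) : Levl h u v p = Lev p h u v := rfl

theorem Ql_evl (a h : NS α ℂ) (p : Pol α) (t : ℝ) :
    (Ql (evl h) a p).eval (t : ℂ) = ev (nexp ((t : ℂ) • a) * h) p := by
  rw [Ql_eval, evl_apply, ev_Tl]

theorem Ql_Levl (a h u v : NS α ℂ) (p : Pol α) (t : ℝ) :
    (Ql (Levl h u v) a p).eval (t : ℂ) =
      Lev p (nexp ((t : ℂ) • a) * h) (nexp ((t : ℂ) • a) * u) (nexp ((t : ℂ) • a) * v) := by
  rw [Ql_eval, Levl_apply, Lev_Tl]

/-- the zeroth coefficient -/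
theorem pc_zero (a : NS α ℂ) (h : NS α ℂ) (p : Pol α) : ev h (pc a p 0) = ev h p := by
  have h1 := Ql_evl a h p 0
  rw [Complex.ofReal_zero, zero_smul, nexp_zero, one_mul] at h1
  rw [← h1, ← Polynomial.coeff_zero_eq_eval_zero, Ql_coeff]
  rfl

/-- derivative of the translation along `exp (T a)` -/
noncomputable def Tz (a : NS α ℂ) : Derivation ℂ (Pol α) (Pol α) :=
  dv (cst a * gen) + dvb (cst (cc a) * genb)

theorem ev_Tz (h a : NS α ℂ) (p : Pol α) :
    ev h (Tz a p) = D1 p h (a * h) + D1b p h (a * h) := by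
  have h1 : evS h (cst a * gen) = a * h := by rw [map_mul, evS_cst, evS_gen]
  have h2 : evS h (cst (cc a) * genb) = cc (a * h) := by
    rw [map_mul, evS_cst, evS_genb, ← map_mul]
  rw [Tz, Derivation.add_apply, map_add, ev_dv, ev_dvb, h1, h2]
  rfl

theorem hasDerivAt_Ql {a : NS α ℂ} (ha : a [] = 0) (h : NS α ℂ) (p : Pol α) (t : ℝ) :
    HasDerivAt (fun s : ℝ => (Ql (evl h) a p).eval (s : ℂ)) ((Ql (evl h) a (Tz a p)).eval (t : ℂ))
      t := by
  have h1 := hasDerivAt_ev p ((hasDer_nexp ha t).mul_const h)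
  simp_rw [Ql_evl]
  convert h1 using 1
  rw [ev_Tz, mul_assoc]

theorem derivative_Ql {a : NS α ℂ} (ha : a [] = 0) (h : NS α ℂ) (p : Pol α) :
    Polynomial.derivative (Ql (evl h) a p) = Ql (evl h) a (Tz a p) := by
  apply poly_eq_of_real
  intro t
  have h1 := hasDerivAt_Ql ha h p t
  have h2 : HasDerivAt (fun s : ℝ => (Ql (evl h) a p).eval (s : ℂ))
      ((Polynomial.derivative (Ql (evl h) a p)).eval (t : ℂ)) t := by
    have h3 := (Ql (evl h) a p).hasDerivAt (t : ℂ)
    exact h3.comp_ofReal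
  exact h2.unique h1

theorem pc_succ {a : NS α ℂ} (ha : a [] = 0) (h : NS α ℂ) (p : Pol α) (i : ℕ) :
    ev h (pc a p (i + 1)) * (i + 1) = ev h (pc a (Tz a p) i) := by
  have h1 := congrArg (fun Q => Polynomial.coeff Q i) (derivative_Ql ha h p)
  simp only [Polynomial.coeff_derivative, Ql_coeff, evl_apply] at h1
  exact h1

theorem pc_one {a : NS α ℂ} (ha : a [] = 0) (h : NS α ℂ) (p : Pol α) :
    ev h (pc a p 1) = ev h (Tz a p) := by
  have := pc_succ ha h p 0
  rw [pc_zero] at this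
  simpa using this

theorem pc_two {a : NS α ℂ} (ha : a [] = 0) (h : NS α ℂ) (p : Pol α) :
    ev h (pc a p 2) * 2 = ev h (Tz a (Tz a p)) := by
  have h1 := pc_succ ha h p 1
  rw [pc_one ha] at h1
  rw [← h1]; norm_num

end Texp

end Pool.Agent.Lib.MP_d7cc7c_an
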